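import Mathlib
import Pool.Agent.H469R2.NK.KL

/-! Exponential sums over short windows of integers: kernel, quadratic forms, off-diagonal terms. -/

set_option autoImplicit false

open Finset
open Pool.Agent.H469R2.NK

namespace Pool.Agent.Y969.SW

/-- first derivative test for `e(h√n)`, positive `h` -/
lemma ker_pos {h : ℝ} (hh : 0 < h) {K H : ℕ} (hK : 1 ≤ K) (hH : H ≤ K) (hhK : h ≤ √(K:ℝ)) :
    ‖∑ n ∈ range H, e (h * √((K + n : ℕ):ℝ))‖ ≤ 6 * √(K:ℝ) / h := by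
  have hKr : (1:ℝ) ≤ K := by exact_mod_cast hK
  have hs : 0 < √(K:ℝ) := Real.sqrt_pos.mpr (by linarith)
  have hd : ∀ n : ℕ, h * √((K + (n + 1) : ℕ):ℝ) - h * √((K + n : ℕ):ℝ) = h / (√((K + (n + 1) : ℕ):ℝ) + √((K + n : ℕ):ℝ)) := by
    intro n
    have h1 : 0 < √((K + (n + 1) : ℕ):ℝ) := Real.sqrt_pos.mpr (by positivity)
    have h2 : 0 ≤ √((K + n : ℕ):ℝ) := Real.sqrt_nonneg _
    have h3 : √((K + (n + 1) : ℕ):ℝ) * √((K + (n + 1) : ℕ):ℝ) = K + n + 1 := by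
      rw [Real.mul_self_sqrt (Nat.cast_nonneg _)]; push_cast; ring
    have h4 : √((K + n : ℕ):ℝ) * √((K + n : ℕ):ℝ) = K + n := by
      rw [Real.mul_self_sqrt (Nat.cast_nonneg _)]; push_cast; ring
    rw [eq_div_iff (by linarith)]
    nlinarith
  have hmono : ∀ m n : ℕ, m ≤ n → √((K + m : ℕ):ℝ) ≤ √((K + n : ℕ):ℝ) := by
    intro m n hmn
    apply Real.sqrt_le_sqrt
    exact_mod_cast (by omega : K + m ≤ K + n)
  have hlow : ∀ n : ℕ, √(K:ℝ) ≤ √((K + n : ℕ):ℝ) := by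
    intro n
    apply Real.sqrt_le_sqrt
    exact_mod_cast (by omega : K ≤ K + n)
  have hup : ∀ n : ℕ, n ≤ H → √((K + n : ℕ):ℝ) ≤ (3/2) * √(K:ℝ) := by
    intro n hn
    rw [Real.sqrt_le_left (by positivity), mul_pow, Real.sq_sqrt (by linarith)]
    have : ((K + n : ℕ):ℝ) ≤ 2 * K := by exact_mod_cast (by omega : K + n ≤ 2 * K)
    linarith
  have key := kusmin_landau_anti (fun n : ℕ => h * √((K + n : ℕ):ℝ)) H (θ := h / (3 * √(K:ℝ))) (by positivity)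
    (by
      intro n hn
      simp only [hd]
      apply div_le_div_of_nonneg_left hh.le
      · have := hlow n
        have := hlow (n+1)
        linarith
      · have := hup n (by omega)
        have := hup (n+1) (by omega)
        linarith)
    (by
      intro n hn
      simp only [hd]
      have h1 : h / (√((K + (n + 1) : ℕ):ℝ) + √((K + n : ℕ):ℝ)) ≤ h / (√(K:ℝ) + √(K:ℝ)) := by
        apply div_le_div_of_nonneg_left hh.le (by positivity)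
        exact add_le_add (hlow (n+1)) (hlow n)
      have h2 : h / (√(K:ℝ) + √(K:ℝ)) ≤ 1/2 := by
        rw [div_le_iff₀ (by positivity)]; linarith
      have h3 : h / (3 * √(K:ℝ)) ≤ 1/3 := by
        rw [div_le_iff₀ (by positivity)]; linarith
      linarith)
    (by
      intro n hn
      have e1 := hd (n + 1)
      have e2 := hd n
      rw [show K + (n + 1 + 1) = K + (n + 2) by ring] at e1
      rw [e1, e2]
      apply div_le_div_of_nonneg_left hh.le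
      · have := hlow n
        have := hlow (n+1)
        linarith
      · exact add_le_add (hmono _ _ (by omega)) (hmono _ _ (by omega)))
  refine key.trans (le_of_eq ?_)
  field_simp
  ring

/-- first derivative test over a window -/
lemma ker_win {h : ℝ} (hh : h ≠ 0) {K H : ℕ} (hK : 1 ≤ K) (hH : H ≤ K) (hhK : |h| ≤ √(K:ℝ)) :
    ‖∑ n ∈ Ico K (K + H), e (h * √(n:ℝ))‖ ≤ 6 * √(K:ℝ) / |h| := by
  rw [Finset.sum_Ico_eq_sum_range, Nat.add_sub_cancel_left]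
  rcases lt_or_gt_of_ne hh with h1 | h1
  · have e1 : ∑ n ∈ range H, e (h * √((K + n : ℕ):ℝ)) = (starRingEnd ℂ) (∑ n ∈ range H, e (-h * √((K + n : ℕ):ℝ))) := by
      rw [map_sum]
      apply sum_congr rfl; intro n _
      rw [conj_e]; congr 1; ring
    rw [abs_of_neg h1] at hhK ⊢
    rw [e1, Complex.norm_conj]
    exact ker_pos (by linarith) hK hH hhK
  · rw [abs_of_pos h1] at hhK ⊢
    exact ker_pos h1 hK hH hhK

/-- mean square of an exponential sum over a finite set -/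
lemma ms_form (P T : Finset ℕ) (b : ℕ → ℂ) (θ : ℕ → ℝ) (B : ℕ → ℕ → ℝ)
    (hB : ∀ m ∈ T, ∀ m' ∈ T, m ≠ m' → ‖∑ p ∈ P, e ((θ m - θ m') * √(p:ℝ))‖ ≤ B m m') :
    ∑ p ∈ P, ‖∑ m ∈ T, b m * e (θ m * √(p:ℝ))‖^2 ≤ P.card * ∑ m ∈ T, ‖b m‖^2 +
      ∑ m ∈ T, ∑ m' ∈ T.erase m, ‖b m‖ * ‖b m'‖ * B m m' := by
  have e1 : ((∑ p ∈ P, ‖∑ m ∈ T, b m * e (θ m * √(p:ℝ))‖^2 : ℝ) : ℂ) =
      ∑ m ∈ T, ∑ m' ∈ T, (b m * (starRingEnd ℂ) (b m')) * ∑ p ∈ P, e ((θ m - θ m') * √(p:ℝ)) := by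
    have h1 : ∀ p ∈ P, ((‖∑ m ∈ T, b m * e (θ m * √(p:ℝ))‖^2 : ℝ) : ℂ) =
        ∑ m ∈ T, ∑ m' ∈ T, (b m * (starRingEnd ℂ) (b m')) * e ((θ m - θ m') * √(p:ℝ)) := by
      intro p _
      have : ((‖∑ m ∈ T, b m * e (θ m * √(p:ℝ))‖^2 : ℝ) : ℂ) =
          (∑ m ∈ T, b m * e (θ m * √(p:ℝ))) * (starRingEnd ℂ) (∑ m ∈ T, b m * e (θ m * √(p:ℝ))) := by
        rw [Complex.mul_conj, Complex.normSq_eq_norm_sq]
      rw [this, map_sum, sum_mul_sum]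
      apply sum_congr rfl; intro m _
      apply sum_congr rfl; intro m' _
      rw [map_mul, conj_e, sub_mul, sub_eq_add_neg, e_add]
      ring
    push_cast
    push_cast at h1
    rw [sum_congr rfl h1, sum_comm]
    apply sum_congr rfl; intro m _
    rw [sum_comm]
    apply sum_congr rfl; intro m' _
    rw [mul_sum]
  have e2 : ∀ m ∈ T, ∑ m' ∈ T, (b m * (starRingEnd ℂ) (b m')) * ∑ p ∈ P, e ((θ m - θ m') * √(p:ℝ)) =
      ((P.card * ‖b m‖^2 : ℝ) : ℂ) + ∑ m' ∈ T.erase m, (b m * (starRingEnd ℂ) (b m')) * ∑ p ∈ P, e ((θ m - θ m') * √(p:ℝ)) := by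
    intro m hm
    rw [← Finset.add_sum_erase T _ hm]
    congr 1
    rw [sub_self]
    simp only [zero_mul, e_zero, sum_const, nsmul_eq_mul, mul_one]
    rw [Complex.mul_conj, Complex.normSq_eq_norm_sq]
    push_cast; ring
  have h3 : ∑ p ∈ P, ‖∑ m ∈ T, b m * e (θ m * √(p:ℝ))‖^2 =
      ‖((∑ p ∈ P, ‖∑ m ∈ T, b m * e (θ m * √(p:ℝ))‖^2 : ℝ) : ℂ)‖ := by
    rw [Complex.norm_real, Real.norm_eq_abs, abs_of_nonneg (sum_nonneg fun _ _ => by positivity)]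
  rw [h3, e1, sum_congr rfl e2, sum_add_distrib]
  refine (norm_add_le _ _).trans (add_le_add ?_ ?_)
  · rw [← Complex.ofReal_sum, Complex.norm_real, Real.norm_eq_abs, ← mul_sum,
      abs_of_nonneg (mul_nonneg (Nat.cast_nonneg _) (sum_nonneg fun _ _ => sq_nonneg _))]
  · refine (norm_sum_le _ _).trans (sum_le_sum fun m hm => ?_)
    refine (norm_sum_le _ _).trans (sum_le_sum fun m' hm' => ?_)
    rw [mem_erase] at hm'
    rw [norm_mul, norm_mul, Complex.norm_conj]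
    exact mul_le_mul_of_nonneg_left (hB m hm m' hm'.2 (Ne.symm hm'.1)) (by positivity)

lemma harm_Icc (N : ℕ) (hN : 1 ≤ N) : ∑ n ∈ Icc 1 N, (1:ℝ) / n ≤ 1 + Real.log N := by
  have h1 : ∑ n ∈ Icc 1 N, (1:ℝ) / n = ((harmonic N : ℚ) : ℝ) := by
    rw [harmonic_eq_sum_Icc]; push_cast
    apply sum_congr rfl; intro x _; simp
  rw [h1]
  exact harmonic_le_one_add_log N

/-- the off-diagonal terms, ordered pairs -/
lemma off_half {C κ : ℝ} (hC : 0 ≤ C) (hκ : 0 ≤ κ) {β : ℕ → ℝ} (hβ0 : ∀ m, 0 ≤ β m)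
    (hβ : ∀ m : ℕ, 1 ≤ m → β m ≤ C * (m:ℝ) ^ (-(3/4) + κ)) {Q : ℕ} (hQ : 1 ≤ Q) :
    ∑ m' ∈ Icc 1 Q, ∑ m ∈ Ioc m' Q, β m * β m' / (√(m:ℝ) - √(m':ℝ)) ≤
      2 * C^2 * (Q:ℝ) ^ (2 * κ) * (1 + Real.log Q)^2 := by
  have hQr : (1:ℝ) ≤ Q := by exact_mod_cast hQ
  have hlog : 0 ≤ Real.log Q := Real.log_nonneg hQr
  have hterm : ∀ m' ∈ Icc 1 Q, ∀ m ∈ Ioc m' Q, β m * β m' / (√(m:ℝ) - √(m':ℝ)) ≤
      2 * C^2 * (Q:ℝ) ^ (2 * κ) * (1 / m') * (1 / ((m - m' : ℕ):ℝ)) := by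
    intro m' hm' m hm
    rw [mem_Icc] at hm'
    rw [mem_Ioc] at hm
    have hm'0 : (0:ℝ) < m' := by exact_mod_cast (by omega : 0 < m')
    have hm0 : (0:ℝ) < m := by exact_mod_cast (by omega : 0 < m)
    have hlt : (m':ℝ) < m := by exact_mod_cast hm.1
    have hs' : 0 < √(m':ℝ) := Real.sqrt_pos.mpr hm'0
    have hs : 0 < √(m:ℝ) := Real.sqrt_pos.mpr hm0
    have hss : √(m':ℝ) < √(m:ℝ) := Real.sqrt_lt_sqrt hm'0.le hlt
    have e1 : √(m:ℝ) * √(m:ℝ) = m := Real.mul_self_sqrt hm0.le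
    have e2 : √(m':ℝ) * √(m':ℝ) = m' := Real.mul_self_sqrt hm'0.le
    have hdiff : ((m - m' : ℕ):ℝ) = m - m' := by rw [Nat.cast_sub hm.1.le]
    have hd0 : (0:ℝ) < m - m' := by linarith
    have h1 : 1 / (√(m:ℝ) - √(m':ℝ)) ≤ 2 * √(m:ℝ) / (m - m') := by
      rw [div_le_div_iff₀ (by linarith) hd0]
      have : (m:ℝ) - m' = (√(m:ℝ) - √(m':ℝ)) * (√(m:ℝ) + √(m':ℝ)) := by nlinarith
      rw [this, one_mul]
      have h3 : 0 < √(m:ℝ) - √(m':ℝ) := by linarith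
      nlinarith
    have hmQ : (m:ℝ) ≤ Q := by exact_mod_cast hm.2
    have hm'Q : (m':ℝ) ≤ Q := by linarith
    have h2 : β m * √(m:ℝ) ≤ C * (Q:ℝ) ^ κ * (m':ℝ) ^ (-(1/4):ℝ) := by
      calc β m * √(m:ℝ) ≤ (C * (m:ℝ) ^ (-(3/4) + κ)) * √(m:ℝ) := mul_le_mul_of_nonneg_right (hβ m (by omega)) hs.le
        _ = C * ((m:ℝ) ^ κ * (m:ℝ) ^ (-(1/4):ℝ)) := by
            rw [Real.sqrt_eq_rpow, mul_assoc, ← Real.rpow_add hm0, ← Real.rpow_add hm0]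
            congr 2; ring
        _ ≤ C * ((Q:ℝ) ^ κ * (m':ℝ) ^ (-(1/4):ℝ)) := by
            apply mul_le_mul_of_nonneg_left _ hC
            apply mul_le_mul (Real.rpow_le_rpow hm0.le hmQ hκ) _ (by positivity) (by positivity)
            exact Real.rpow_le_rpow_of_nonpos hm'0 hlt.le (by norm_num)
        _ = _ := by ring
    have h3 : β m' ≤ C * (Q:ℝ) ^ κ * (m':ℝ) ^ (-(3/4):ℝ) := by
      refine (hβ m' hm'.1).trans ?_
      rw [Real.rpow_add hm'0, mul_assoc]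
      apply mul_le_mul_of_nonneg_left _ hC
      rw [mul_comm]
      exact mul_le_mul_of_nonneg_right (Real.rpow_le_rpow hm'0.le hm'Q hκ) (by positivity)
    calc β m * β m' / (√(m:ℝ) - √(m':ℝ)) = (β m * β m') * (1 / (√(m:ℝ) - √(m':ℝ))) := by ring
      _ ≤ (β m * β m') * (2 * √(m:ℝ) / (m - m')) := mul_le_mul_of_nonneg_left h1 (mul_nonneg (hβ0 m) (hβ0 m'))
      _ = 2 * (β m * √(m:ℝ)) * β m' * (1 / (m - m')) := by ring
      _ ≤ 2 * (C * (Q:ℝ) ^ κ * (m':ℝ) ^ (-(1/4):ℝ)) * (C * (Q:ℝ) ^ κ * (m':ℝ) ^ (-(3/4):ℝ)) * (1 / (m - m')) := by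
          have := hβ0 m'
          gcongr
      _ = 2 * C^2 * ((Q:ℝ) ^ κ * (Q:ℝ) ^ κ) * ((m':ℝ) ^ (-(1/4):ℝ) * (m':ℝ) ^ (-(3/4):ℝ)) * (1 / (m - m')) := by ring
      _ = _ := by
          rw [← Real.rpow_add (by linarith : (0:ℝ) < Q), ← Real.rpow_add hm'0, hdiff]
          rw [show κ + κ = 2 * κ by ring, show (-(1/4) + -(3/4) : ℝ) = -1 by norm_num, Real.rpow_neg_one, one_div]
          ring
  have hinner : ∀ m' ∈ Icc 1 Q, ∑ m ∈ Ioc m' Q, (1:ℝ) / ((m - m' : ℕ):ℝ) ≤ 1 + Real.log Q := by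
    intro m' hm'
    rw [mem_Icc] at hm'
    have h1 : ∑ m ∈ Ioc m' Q, (1:ℝ) / ((m - m' : ℕ):ℝ) = ∑ j ∈ Icc 1 (Q - m'), (1:ℝ) / (j:ℝ) := by
      apply Finset.sum_bij' (fun m _ => m - m') (fun j _ => j + m')
      · intro m hm; rw [mem_Ioc] at hm; rw [mem_Icc]; omega
      · intro j hj; rw [mem_Icc] at hj; rw [mem_Ioc]; omega
      · intro m hm; rw [mem_Ioc] at hm; omega
      · intro j hj; omega
      · intro m hm; rfl
    rw [h1]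
    refine le_trans ?_ (harm_Icc Q hQ)
    apply sum_le_sum_of_subset_of_nonneg
    · intro j hj; rw [mem_Icc] at hj ⊢; omega
    · intro j _ _; positivity
  calc ∑ m' ∈ Icc 1 Q, ∑ m ∈ Ioc m' Q, β m * β m' / (√(m:ℝ) - √(m':ℝ))
      ≤ ∑ m' ∈ Icc 1 Q, ∑ m ∈ Ioc m' Q, 2 * C^2 * (Q:ℝ) ^ (2 * κ) * (1 / m') * (1 / ((m - m' : ℕ):ℝ)) :=
        sum_le_sum fun m' hm' => sum_le_sum fun m hm => hterm m' hm' m hm
    _ = ∑ m' ∈ Icc 1 Q, 2 * C^2 * (Q:ℝ) ^ (2 * κ) * (1 / m') * ∑ m ∈ Ioc m' Q, (1 / ((m - m' : ℕ):ℝ)) := by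
        apply sum_congr rfl; intro m' _; rw [mul_sum]
    _ ≤ ∑ m' ∈ Icc 1 Q, 2 * C^2 * (Q:ℝ) ^ (2 * κ) * (1 / m') * (1 + Real.log Q) := by
        apply sum_le_sum; intro m' hm'
        exact mul_le_mul_of_nonneg_left (hinner m' hm') (by positivity)
    _ = 2 * C^2 * (Q:ℝ) ^ (2 * κ) * (1 + Real.log Q) * ∑ m' ∈ Icc 1 Q, (1:ℝ) / m' := by
        rw [mul_sum]; apply sum_congr rfl; intro m' _; ring
    _ ≤ 2 * C^2 * (Q:ℝ) ^ (2 * κ) * (1 + Real.log Q) * (1 + Real.log Q) :=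
        mul_le_mul_of_nonneg_left (harm_Icc Q hQ) (by positivity)
    _ = _ := by ring

/-- the off-diagonal terms -/
lemma off_all {C κ : ℝ} (hC : 0 ≤ C) (hκ : 0 ≤ κ) {β : ℕ → ℝ} (hβ0 : ∀ m, 0 ≤ β m)
    (hβ : ∀ m : ℕ, 1 ≤ m → β m ≤ C * (m:ℝ) ^ (-(3/4) + κ)) {Q : ℕ} (hQ : 1 ≤ Q) {T : Finset ℕ} (hT : T ⊆ Icc 1 Q) :
    ∑ m ∈ T, ∑ m' ∈ T.erase m, β m * β m' / |√(m:ℝ) - √(m':ℝ)| ≤
      4 * C^2 * (Q:ℝ) ^ (2 * κ) * (1 + Real.log Q)^2 := by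
  have hnn : ∀ m m' : ℕ, 0 ≤ β m * β m' / |√(m:ℝ) - √(m':ℝ)| := fun m m' =>
    div_nonneg (mul_nonneg (hβ0 m) (hβ0 m')) (abs_nonneg _)
  have h1 : ∑ m ∈ T, ∑ m' ∈ T.erase m, β m * β m' / |√(m:ℝ) - √(m':ℝ)| ≤
      ∑ m ∈ Icc 1 Q, ∑ m' ∈ (Icc 1 Q).erase m, β m * β m' / |√(m:ℝ) - √(m':ℝ)| := by
    refine (sum_le_sum fun m hm => ?_).trans (sum_le_sum_of_subset_of_nonneg hT fun m _ _ => sum_nonneg fun m' _ => hnn m m')
    exact sum_le_sum_of_subset_of_nonneg (erase_subset_erase m hT) fun m' _ _ => hnn m m'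
  refine h1.trans ?_
  have h2 : ∀ m ∈ Icc 1 Q, ∑ m' ∈ (Icc 1 Q).erase m, β m * β m' / |√(m:ℝ) - √(m':ℝ)| =
      ∑ m' ∈ Ioc m Q, β m * β m' / |√(m:ℝ) - √(m':ℝ)| + ∑ m' ∈ Ico 1 m, β m * β m' / |√(m:ℝ) - √(m':ℝ)| := by
    intro m hm
    rw [mem_Icc] at hm
    have : (Icc 1 Q).erase m = Ioc m Q ∪ Ico 1 m := by
      ext j; simp only [mem_erase, mem_Icc, mem_union, mem_Ioc, mem_Ico]; omega
    rw [this, sum_union (by
      rw [disjoint_left]; intro j hj hj2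
      rw [mem_Ioc] at hj; rw [mem_Ico] at hj2; omega)]
  rw [sum_congr rfl h2, sum_add_distrib]
  have h3 : ∑ m ∈ Icc 1 Q, ∑ m' ∈ Ico 1 m, β m * β m' / |√(m:ℝ) - √(m':ℝ)| =
      ∑ m' ∈ Icc 1 Q, ∑ m ∈ Ioc m' Q, β m * β m' / |√(m:ℝ) - √(m':ℝ)| := by
    apply Finset.sum_comm'
    intro x y
    simp only [mem_Icc, mem_Ico, mem_Ioc]; omega
  rw [h3]
  have habs : ∀ m' ∈ Icc 1 Q, ∀ m ∈ Ioc m' Q, |√(m:ℝ) - √(m':ℝ)| = √(m:ℝ) - √(m':ℝ) := by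
    intro m' _ m hm
    rw [mem_Ioc] at hm
    apply abs_of_nonneg
    rw [sub_nonneg]
    exact Real.sqrt_le_sqrt (by exact_mod_cast hm.1.le)
  have h4 : ∑ m' ∈ Icc 1 Q, ∑ m ∈ Ioc m' Q, β m * β m' / |√(m:ℝ) - √(m':ℝ)| ≤
      2 * C^2 * (Q:ℝ) ^ (2 * κ) * (1 + Real.log Q)^2 := by
    refine le_trans (le_of_eq ?_) (off_half hC hκ hβ0 hβ hQ)
    apply sum_congr rfl; intro m' hm'
    apply sum_congr rfl; intro m hm
    rw [habs m' hm' m hm]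
  have h5 : ∑ m ∈ Icc 1 Q, ∑ m' ∈ Ioc m Q, β m * β m' / |√(m:ℝ) - √(m':ℝ)| ≤
      2 * C^2 * (Q:ℝ) ^ (2 * κ) * (1 + Real.log Q)^2 := by
    refine le_trans (le_of_eq ?_) h4
    apply sum_congr rfl; intro m' _
    apply sum_congr rfl; intro m _
    rw [abs_sub_comm, mul_comm (β m')]
  linarith

end Pool.Agent.Y969.SW
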