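import Mathlib
import Pool.Agent.H452R2.Om.O4
import Pool.Agent.Y969.SW1

/-! Mean-square approximation over short windows of integers. -/

set_option autoImplicit false

open Finset
open Pool.Agent.H383
open Pool.Agent.H383.Gen (Bd U)
open Pool.Agent.H452R2.Win Pool.Agent.H452R2.Om
open Pool.Agent.H469R2.NK

namespace Pool.Agent.Y969.SW

variable {E : ℝ → ℝ} {a : ℕ → ℝ} {φ : ℝ} {w : ℝ → ℂ}

/-- the wave at `X' + c√n` as a sum of exponentials -/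
lemma wt_sum_sq (c X' δ : ℝ) (s : Finset ℕ) (n : ℕ) : (∑ m ∈ s, GW.wt a φ w (c * √(n:ℝ) + X') δ m)^2 ≤
    ‖∑ m ∈ s, (Gen.ac a φ X' m * w (√(m:ℝ) * δ)) * e ((c * √(m:ℝ)) * √(n:ℝ))‖^2 := by
  have h2 : ∑ m ∈ s, GW.wt a φ w (c * √(n:ℝ) + X') δ m = (∑ m ∈ s, (Gen.ac a φ X' m * w (√(m:ℝ) * δ)) *
      e ((c * √(m:ℝ)) * √(n:ℝ))).re := by
    rw [Complex.re_sum]
    apply Finset.sum_congr rfl
    intro m _
    unfold GW.wt Gen.ac e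
    rw [← Complex.re_ofReal_mul]
    congr 1
    have h3 : Complex.exp (((2 * Real.pi * ((c * √(n:ℝ) + X') * √(m:ℝ)) - φ : ℝ) : ℂ) * Complex.I) =
        Complex.exp (((2 * Real.pi * (X' * √(m:ℝ)) - φ : ℝ) : ℂ) * Complex.I) *
        Complex.exp (((2 * Real.pi * (c * √(m:ℝ) * √(n:ℝ)) : ℝ) : ℂ) * Complex.I) := by
      rw [← Complex.exp_add]; congr 1; push_cast; ring
    rw [h3]; ring
  rw [h2, ← sq_abs]
  exact pow_le_pow_left₀ (abs_nonneg _) (Complex.abs_re_le_norm _) 2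

/-- tail of the squares of the coefficients -/
lemma sq_tail (ha : Bd a) : ∃ C : ℝ, 0 < C ∧ ∀ M Y : ℕ, 1 ≤ M → ∑ m ∈ Ioc (M^2) (Y^2), |a m|^2 ≤ C * (M:ℝ) ^ (-(1/5):ℝ) := by
  obtain ⟨C, hC, h⟩ := ha
  have hsum : Summable (fun m : ℕ => (m:ℝ) ^ (-(11/10):ℝ)) := by
    rw [Real.summable_nat_rpow]; norm_num
  refine ⟨C^2 * (∑' m : ℕ, (m:ℝ) ^ (-(11/10):ℝ) + 1), by
    have : 0 ≤ ∑' m : ℕ, (m:ℝ) ^ (-(11/10):ℝ) := tsum_nonneg fun m => by positivity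
    positivity, fun M Y hM => ?_⟩
  have hM0 : (0:ℝ) < M := by exact_mod_cast hM
  have hterm : ∀ m ∈ Ioc (M^2) (Y^2), |a m|^2 ≤ C^2 * (M:ℝ) ^ (-(1/5):ℝ) * (m:ℝ) ^ (-(11/10):ℝ) := by
    intro m hm
    rw [mem_Ioc] at hm
    have hm1 : 1 ≤ m := by omega
    have hm0 : (0:ℝ) < m := by exact_mod_cast hm1
    have hMm : (M:ℝ)^2 ≤ m := by exact_mod_cast hm.1.le
    have h1 := h m hm1
    calc |a m|^2 ≤ (C * (√(m:ℝ)) ^ (-(37/25):ℝ))^2 := pow_le_pow_left₀ (abs_nonneg _) h1 2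
      _ = C^2 * ((√(m:ℝ)) ^ (-(37/25):ℝ))^2 := by ring
      _ = C^2 * (m:ℝ) ^ (-(37/25):ℝ) := by
          congr 1
          rw [Real.sqrt_eq_rpow, ← Real.rpow_mul hm0.le, ← Real.rpow_natCast, ← Real.rpow_mul hm0.le]
          norm_num
      _ ≤ C^2 * ((M:ℝ) ^ (-(1/5):ℝ) * (m:ℝ) ^ (-(11/10):ℝ)) := by
          apply mul_le_mul_of_nonneg_left _ (by positivity)
          have h2 : (m:ℝ) ^ (-(38/100):ℝ) ≤ (M:ℝ) ^ (-(1/5):ℝ) := by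
            calc (m:ℝ) ^ (-(38/100):ℝ) ≤ (m:ℝ) ^ (-(1/10):ℝ) :=
                  Real.rpow_le_rpow_of_exponent_le (by exact_mod_cast hm1) (by norm_num)
              _ ≤ ((M:ℝ)^2) ^ (-(1/10):ℝ) := Real.rpow_le_rpow_of_nonpos (by positivity) hMm (by norm_num)
              _ = _ := by rw [← Real.rpow_natCast, ← Real.rpow_mul hM0.le]; norm_num
          calc (m:ℝ) ^ (-(37/25):ℝ) = (m:ℝ) ^ (-(38/100):ℝ) * (m:ℝ) ^ (-(11/10):ℝ) := by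
                rw [← Real.rpow_add hm0]; norm_num
            _ ≤ _ := mul_le_mul_of_nonneg_right h2 (by positivity)
      _ = _ := by ring
  refine (sum_le_sum hterm).trans ?_
  rw [← mul_sum]
  have h3 : ∑ m ∈ Ioc (M^2) (Y^2), (m:ℝ) ^ (-(11/10):ℝ) ≤ ∑' m : ℕ, (m:ℝ) ^ (-(11/10):ℝ) :=
    hsum.sum_le_tsum _ fun m _ => by positivity
  have h4 : 0 ≤ C^2 * (M:ℝ) ^ (-(1/5):ℝ) := by positivity
  calc C^2 * (M:ℝ) ^ (-(1/5):ℝ) * ∑ m ∈ Ioc (M^2) (Y^2), (m:ℝ) ^ (-(11/10):ℝ) ≤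
        C^2 * (M:ℝ) ^ (-(1/5):ℝ) * (∑' m : ℕ, (m:ℝ) ^ (-(11/10):ℝ) + 1) := by
        apply mul_le_mul_of_nonneg_left _ h4; linarith
    _ = _ := by ring

/-- the middle range of the smoothed sum, mean square over a short window -/
lemma mid_win (ha : Bdw a) (hw : GW.Wt w) {c : ℝ} (hc : 0 < c) {δ : ℝ} (hδ : 0 < δ) (hδ1 : δ ≤ 1/2) :
    ∃ C : ℝ, 0 < C ∧ ∀ K H M Y : ℕ, 1 ≤ K → H ≤ K → (K:ℝ) ^ (1/2 + δ) ≤ H → 1 ≤ M → 1 ≤ Y → (Y^2 : ℕ) ≤ K →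
      c * Y ≤ √(K:ℝ) → ∀ X' δs : ℝ, 0 < δs →
      ∑ n ∈ Ico K (K + H), (∑ m ∈ Ioc (M^2) (Y^2), GW.wt a φ w (c * √(n:ℝ) + X') δs m)^2 ≤
        C * H * ((M:ℝ) ^ (-(1/5):ℝ) + (K:ℝ) ^ (-(δ/2))) := by
  obtain ⟨C1, hC1, h1⟩ := sq_tail ha.Bd
  obtain ⟨C2, hC2, h2⟩ := ha (δ/16) (by positivity)
  refine ⟨C1 + 6 / c * (4 * C2^2) * (1 + 16/δ)^2, by positivity, ?_⟩
  intro K H M Y hK hHK hKH hM hY hYK hcY X' δs hδs
  have hKr : (1:ℝ) ≤ K := by exact_mod_cast hK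
  have hK0 : (0:ℝ) < K := by linarith
  set T := Ioc (M^2) (Y^2) with hT
  set b : ℕ → ℂ := fun m => Gen.ac a φ X' m * w (√(m:ℝ) * δs) with hb
  have hbn : ∀ m : ℕ, 1 ≤ m → ‖b m‖ ≤ |a m| := by
    intro m hm
    have hm0 : (0:ℝ) < m := by exact_mod_cast hm
    have h3 := hw.one (√(m:ℝ) * δs) (mul_pos (Real.sqrt_pos.mpr hm0) hδs)
    simp only [hb]
    rw [norm_mul, Gen.norm_ac]
    exact mul_le_of_le_one_right (abs_nonneg _) h3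
  have hstep : ∑ n ∈ Ico K (K + H), (∑ m ∈ T, GW.wt a φ w (c * √(n:ℝ) + X') δs m)^2 ≤
      ∑ n ∈ Ico K (K + H), ‖∑ m ∈ T, b m * e ((c * √(m:ℝ)) * √(n:ℝ))‖^2 :=
    sum_le_sum fun n _ => wt_sum_sq c X' δs T n
  refine hstep.trans ?_
  have hker : ∀ m ∈ T, ∀ m' ∈ T, m ≠ m' → ‖∑ p ∈ Ico K (K + H), e (((c * √(m:ℝ)) - (c * √(m':ℝ))) * √(p:ℝ))‖ ≤
      6 * √(K:ℝ) / (c * |√(m:ℝ) - √(m':ℝ)|) := by
    intro m hm m' hm' hne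
    rw [hT, mem_Ioc] at hm hm'
    have hsm : √(m:ℝ) ≤ Y := by
      rw [Real.sqrt_le_left (Nat.cast_nonneg _)]; exact_mod_cast hm.2
    have hsm' : √(m':ℝ) ≤ Y := by
      rw [Real.sqrt_le_left (Nat.cast_nonneg _)]; exact_mod_cast hm'.2
    have hsmn := Real.sqrt_nonneg (m:ℝ)
    have hsmn' := Real.sqrt_nonneg (m':ℝ)
    have e1 : (c * √(m:ℝ)) - (c * √(m':ℝ)) = c * (√(m:ℝ) - √(m':ℝ)) := by ring
    have hne2 : √(m:ℝ) - √(m':ℝ) ≠ 0 := by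
      rw [sub_ne_zero]
      intro h
      apply hne
      have := congrArg (fun x => x * x) h
      simp only [Real.mul_self_sqrt (Nat.cast_nonneg (α := ℝ) m), Real.mul_self_sqrt (Nat.cast_nonneg (α := ℝ) m')] at this
      exact_mod_cast this
    rw [e1]
    have h5 := ker_win (h := c * (√(m:ℝ) - √(m':ℝ))) (mul_ne_zero hc.ne' hne2) hK hHK (by
      rw [abs_mul, abs_of_pos hc]
      have : |√(m:ℝ) - √(m':ℝ)| ≤ Y := by rw [abs_le]; constructor <;> linarith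
      calc c * |√(m:ℝ) - √(m':ℝ)| ≤ c * Y := mul_le_mul_of_nonneg_left this hc.le
        _ ≤ _ := hcY)
    rwa [abs_mul, abs_of_pos hc] at h5
  have key := ms_form (Ico K (K + H)) T b (fun m => c * √(m:ℝ)) (fun m m' => 6 * √(K:ℝ) / (c * |√(m:ℝ) - √(m':ℝ)|)) hker
  refine key.trans ?_
  have hcard : ((Ico K (K + H)).card : ℝ) = H := by rw [Nat.card_Ico, Nat.add_sub_cancel_left]
  rw [hcard]
  have hT1 : ∀ m ∈ T, 1 ≤ m := by intro m hm; rw [hT, mem_Ioc] at hm; omega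
  have hd1 : ∑ m ∈ T, ‖b m‖^2 ≤ C1 * (M:ℝ) ^ (-(1/5):ℝ) :=
    (sum_le_sum fun m hm => pow_le_pow_left₀ (norm_nonneg _) (hbn m (hT1 m hm)) 2).trans (h1 M Y hM)
  have hQ1 : 1 ≤ Y^2 := Nat.one_le_pow _ _ hY
  have hoff := off_all (C := C2) (κ := δ/16) hC2.le (by positivity) (β := fun m => |a m|) (fun m => abs_nonneg _)
    (fun m hm => h2 m hm) hQ1 (T := T) (by intro m hm; rw [hT, mem_Ioc] at hm; rw [mem_Icc]; omega)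
  have hd2 : ∑ m ∈ T, ∑ m' ∈ T.erase m, ‖b m‖ * ‖b m'‖ * (6 * √(K:ℝ) / (c * |√(m:ℝ) - √(m':ℝ)|)) ≤
      6 * √(K:ℝ) / c * (4 * C2^2 * ((Y^2 : ℕ):ℝ) ^ (2 * (δ/16)) * (1 + Real.log ((Y^2 : ℕ):ℝ))^2) := by
    refine le_trans ?_ (mul_le_mul_of_nonneg_left hoff (by positivity))
    rw [mul_sum]
    apply sum_le_sum; intro m hm
    rw [mul_sum]
    apply sum_le_sum; intro m' hm'
    rw [mem_erase] at hm'
    have g1 := hbn m (hT1 m hm)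
    have g2 := hbn m' (hT1 m' hm'.2)
    have g3 : 0 ≤ 6 * √(K:ℝ) / (c * |√(m:ℝ) - √(m':ℝ)|) := by positivity
    calc ‖b m‖ * ‖b m'‖ * (6 * √(K:ℝ) / (c * |√(m:ℝ) - √(m':ℝ)|)) ≤
          |a m| * |a m'| * (6 * √(K:ℝ) / (c * |√(m:ℝ) - √(m':ℝ)|)) := by gcongr
      _ = _ := by
          rw [← div_div]; ring
  have hYr : ((Y^2 : ℕ):ℝ) ≤ K := by exact_mod_cast hYK
  have hY1r : (1:ℝ) ≤ ((Y^2 : ℕ):ℝ) := by exact_mod_cast hQ1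
  have hlog : 1 + Real.log ((Y^2 : ℕ):ℝ) ≤ (1 + 16/δ) * (K:ℝ) ^ (δ/16) := by
    have h3 : Real.log ((Y^2 : ℕ):ℝ) ≤ Real.log K := Real.log_le_log (by linarith) hYr
    have h4 : Real.log K ≤ (K:ℝ) ^ (δ/16) / (δ/16) := Real.log_le_rpow_div hK0.le (by positivity)
    have h5 : (1:ℝ) ≤ (K:ℝ) ^ (δ/16) := Real.one_le_rpow hKr (by positivity)
    calc 1 + Real.log ((Y^2 : ℕ):ℝ) ≤ (K:ℝ) ^ (δ/16) + (K:ℝ) ^ (δ/16) / (δ/16) := by linarith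
      _ = _ := by field_simp
  have hlog0 : 0 ≤ 1 + Real.log ((Y^2 : ℕ):ℝ) := by linarith [Real.log_nonneg hY1r]
  have hd3 : 6 * √(K:ℝ) / c * (4 * C2^2 * ((Y^2 : ℕ):ℝ) ^ (2 * (δ/16)) * (1 + Real.log ((Y^2 : ℕ):ℝ))^2) ≤
      6 / c * (4 * C2^2) * (1 + 16/δ)^2 * (H * (K:ℝ) ^ (-(δ/2))) := by
    calc 6 * √(K:ℝ) / c * (4 * C2^2 * ((Y^2 : ℕ):ℝ) ^ (2 * (δ/16)) * (1 + Real.log ((Y^2 : ℕ):ℝ))^2) ≤
          6 * √(K:ℝ) / c * (4 * C2^2 * (K:ℝ) ^ (2 * (δ/16)) * ((1 + 16/δ) * (K:ℝ) ^ (δ/16))^2) := by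
          gcongr
      _ = 6 / c * (4 * C2^2) * (1 + 16/δ)^2 * ((K:ℝ) ^ (1/2:ℝ) * (K:ℝ) ^ (2 * (δ/16)) * ((K:ℝ) ^ (δ/16) * (K:ℝ) ^ (δ/16))) := by
          rw [Real.sqrt_eq_rpow]; ring
      _ ≤ 6 / c * (4 * C2^2) * (1 + 16/δ)^2 * (H * (K:ℝ) ^ (-(δ/2))) := by
          apply mul_le_mul_of_nonneg_left _ (by positivity)
          rw [← Real.rpow_add hK0, ← Real.rpow_add hK0, ← Real.rpow_add hK0]
          calc (K:ℝ) ^ (1/2 + 2 * (δ/16) + (δ/16 + δ/16)) ≤ (K:ℝ) ^ ((1/2 + δ) + -(δ/2)) :=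
                Real.rpow_le_rpow_of_exponent_le hKr (by linarith)
            _ = (K:ℝ) ^ (1/2 + δ) * (K:ℝ) ^ (-(δ/2)) := Real.rpow_add hK0 _ _
            _ ≤ _ := mul_le_mul_of_nonneg_right hKH (by positivity)
  have hH0 : (0:ℝ) ≤ H := Nat.cast_nonneg H
  calc H * ∑ m ∈ T, ‖b m‖^2 + ∑ m ∈ T, ∑ m' ∈ T.erase m, ‖b m‖ * ‖b m'‖ * (6 * √(K:ℝ) / (c * |√(m:ℝ) - √(m':ℝ)|))
      ≤ H * (C1 * (M:ℝ) ^ (-(1/5):ℝ)) + 6 / c * (4 * C2^2) * (1 + 16/δ)^2 * (H * (K:ℝ) ^ (-(δ/2))) :=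
        add_le_add (mul_le_mul_of_nonneg_left hd1 hH0) (hd2.trans hd3)
    _ ≤ _ := by
        have g1 : 0 ≤ H * (M:ℝ) ^ (-(1/5):ℝ) := by positivity
        have g2 : 0 ≤ H * (K:ℝ) ^ (-(δ/2)) := by positivity
        have g3 : 0 ≤ 6 / c * (4 * C2^2) * (1 + 16/δ)^2 * (H * (M:ℝ) ^ (-(1/5):ℝ)) := by positivity
        have g4 : 0 ≤ C1 * (H * (K:ℝ) ^ (-(δ/2))) := by positivity
        nlinarith

end Pool.Agent.Y969.SW
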