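import Mathlib
import Pool.Agent.Y969.SW2

/-! Mean-square approximation over short windows of integers: the theorem. -/

set_option autoImplicit false

open Finset
open Pool.Agent.H383
open Pool.Agent.H383.Gen (Bd U)
open Pool.Agent.H452R2.Win Pool.Agent.H452R2.Om
open Pool.Agent.H469R2.NK

namespace Pool.Agent.Y969.SW

variable {E : ℝ → ℝ} {a : ℕ → ℝ} {φ : ℝ} {w : ℝ → ℂ}

/-- bound for the error of the sandwich -/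
lemma erw_win {c : ℝ} (hc : 0 < c) : ∃ C : ℝ, 0 < C ∧ ∀ K n : ℕ, 1 ≤ K → K ≤ n → n ≤ 2 * K →
    erw (1/100) (c * √(n:ℝ)) ((K:ℝ) ^ (-(26/100):ℝ)) ≤ C * (K:ℝ) ^ (-(1/200):ℝ) := by
  refine ⟨(c * (3/2)) ^ (51/100:ℝ) + c ^ (-(12/25):ℝ) + 1, by positivity, ?_⟩
  intro K n hK hn1 hn2
  have hKr : (1:ℝ) ≤ K := by exact_mod_cast hK
  have hK0 : (0:ℝ) < K := by linarith
  have hsK : √(K:ℝ) = (K:ℝ) ^ (1/2:ℝ) := Real.sqrt_eq_rpow _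
  have h1 : √(K:ℝ) ≤ √(n:ℝ) := Real.sqrt_le_sqrt (by exact_mod_cast hn1)
  have h2 : √(n:ℝ) ≤ (3/2) * √(K:ℝ) := by
    rw [Real.sqrt_le_left (by positivity), mul_pow, Real.sq_sqrt hK0.le]
    have : ((n : ℕ):ℝ) ≤ 2 * K := by exact_mod_cast hn2
    linarith
  have hs0 : 0 < √(K:ℝ) := Real.sqrt_pos.mpr hK0
  unfold erw
  have t1 : (K:ℝ) ^ (-(26/100):ℝ) * (c * √(n:ℝ)) ^ (1/2 + 1/100 : ℝ) ≤ (c * (3/2)) ^ (51/100:ℝ) * (K:ℝ) ^ (-(1/200):ℝ) := by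
    calc (K:ℝ) ^ (-(26/100):ℝ) * (c * √(n:ℝ)) ^ (1/2 + 1/100 : ℝ) ≤
          (K:ℝ) ^ (-(26/100):ℝ) * ((c * (3/2)) * (K:ℝ) ^ (1/2:ℝ)) ^ (1/2 + 1/100 : ℝ) := by
          apply mul_le_mul_of_nonneg_left _ (by positivity)
          apply Real.rpow_le_rpow (by positivity) _ (by norm_num)
          rw [← hsK]
          calc c * √(n:ℝ) ≤ c * ((3/2) * √(K:ℝ)) := mul_le_mul_of_nonneg_left h2 hc.le
            _ = _ := by ring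
      _ = (c * (3/2)) ^ (51/100:ℝ) * ((K:ℝ) ^ (-(26/100):ℝ) * (K:ℝ) ^ (51/200:ℝ)) := by
          rw [Real.mul_rpow (by positivity) (by positivity), ← Real.rpow_mul hK0.le]
          norm_num; ring
      _ ≤ _ := by
          apply mul_le_mul_of_nonneg_left _ (by positivity)
          rw [← Real.rpow_add hK0]
          exact Real.rpow_le_rpow_of_exponent_le hKr (by norm_num)
  have t2 : (c * √(n:ℝ)) ^ (-(12/25):ℝ) * ((K:ℝ) ^ (-(26/100):ℝ)) ^ (-(13/25):ℝ) ≤ c ^ (-(12/25):ℝ) * (K:ℝ) ^ (-(1/200):ℝ) := by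
    calc (c * √(n:ℝ)) ^ (-(12/25):ℝ) * ((K:ℝ) ^ (-(26/100):ℝ)) ^ (-(13/25):ℝ) ≤
          (c * (K:ℝ) ^ (1/2:ℝ)) ^ (-(12/25):ℝ) * ((K:ℝ) ^ (-(26/100):ℝ)) ^ (-(13/25):ℝ) := by
          apply mul_le_mul_of_nonneg_right _ (by positivity)
          apply Real.rpow_le_rpow_of_nonpos (by positivity) _ (by norm_num)
          rw [← hsK]
          exact mul_le_mul_of_nonneg_left h1 hc.le
      _ = c ^ (-(12/25):ℝ) * ((K:ℝ) ^ (-(6/25):ℝ) * (K:ℝ) ^ (338/2500:ℝ)) := by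
          rw [Real.mul_rpow hc.le (by positivity), ← Real.rpow_mul hK0.le, ← Real.rpow_mul hK0.le, mul_assoc]
          norm_num
      _ ≤ _ := by
          apply mul_le_mul_of_nonneg_left _ (by positivity)
          rw [← Real.rpow_add hK0]
          exact Real.rpow_le_rpow_of_exponent_le hKr (by norm_num)
  have t3 : ((K:ℝ) ^ (-(26/100):ℝ)) ^ (2/5:ℝ) ≤ 1 * (K:ℝ) ^ (-(1/200):ℝ) := by
    rw [← Real.rpow_mul hK0.le, one_mul]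
    exact Real.rpow_le_rpow_of_exponent_le hKr (by norm_num)
  calc _ ≤ (c * (3/2)) ^ (51/100:ℝ) * (K:ℝ) ^ (-(1/200):ℝ) + c ^ (-(12/25):ℝ) * (K:ℝ) ^ (-(1/200):ℝ) + 1 * (K:ℝ) ^ (-(1/200):ℝ) :=
        add_le_add (add_le_add t1 t2) t3
    _ = _ := by ring

/-- **mean-square approximation over short windows** -/
theorem short_ms (ha : Bdw a) (ha0 : a 0 = 0) (hw : GW.Wt w) {κ₁ κ₂ : ℝ} (hS : SandW E a φ w κ₁ κ₂) {c : ℝ} (hc : 0 < c)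
    {δ : ℝ} (hδ : 0 < δ) (hδ1 : δ ≤ 1/2) :
    ∃ C : ℝ, 0 < C ∧ ∃ K0 : ℕ, ∀ K H M : ℕ, K0 ≤ K → H ≤ K → (K:ℝ) ^ (1/2 + δ) ≤ H → 1 ≤ M → M^40 ≤ H →
      ∑ n ∈ Ico K (K + H), (E (c * √(n:ℝ)) - U a φ (c * √(n:ℝ)) M)^2 ≤ C * (M:ℝ) ^ (-(δ/50)) * H := by
  obtain ⟨C1, hC1, hmid⟩ := mid_win (a := a) (φ := φ) ha hw hc hδ hδ1
  obtain ⟨Ct, hCt, htail⟩ := GW.WS_tail (a := a) (φ := φ) ha.Bd ha0 hw
  obtain ⟨C0, hC0, hS⟩ := hS (1/100) (by norm_num)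
  obtain ⟨L₁, hL₁, hlow₁⟩ := WS_low_q ha.Bd φ hw κ₁
  obtain ⟨L₂, hL₂, hlow₂⟩ := WS_low_q ha.Bd φ hw κ₂
  obtain ⟨Ce, hCe, herr⟩ := erw_win hc
  set G : ℝ := L₁ + L₂ + 4 * Ct + C0 * Ce with hG
  have hG0 : 0 < G := by positivity
  have ev1 : ∀ᶠ K : ℕ in Filter.atTop, c ≤ (K:ℝ) ^ (1/20:ℝ) :=
    (((tendsto_rpow_atTop (by norm_num : (0:ℝ) < 1/20)).comp tendsto_natCast_atTop_atTop).eventually_ge_atTop _)
  have ev2 : ∀ᶠ K : ℕ in Filter.atTop, 4 / c ≤ (K:ℝ) ^ (1/2:ℝ) :=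
    (((tendsto_rpow_atTop (by norm_num : (0:ℝ) < 1/2)).comp tendsto_natCast_atTop_atTop).eventually_ge_atTop _)
  have ev3 : ∀ᶠ K : ℕ in Filter.atTop, 2 ≤ (K:ℝ) ^ (26/100:ℝ) :=
    (((tendsto_rpow_atTop (by norm_num : (0:ℝ) < 26/100)).comp tendsto_natCast_atTop_atTop).eventually_ge_atTop _)
  have ev4 : ∀ᶠ K : ℕ in Filter.atTop, 2 ≤ (K:ℝ) ^ (9/20:ℝ) :=
    (((tendsto_rpow_atTop (by norm_num : (0:ℝ) < 9/20)).comp tendsto_natCast_atTop_atTop).eventually_ge_atTop _)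
  obtain ⟨K1, hK1⟩ := Filter.eventually_atTop.mp (ev1.and (ev2.and (ev3.and ev4)))
  refine ⟨3 * (2 * (C1 * 2) + G^2), by positivity, max K1 1, ?_⟩
  intro K H M hKK0 hHK hKH hM hMH
  have hKone : 1 ≤ K := le_trans (le_max_right _ _) hKK0
  obtain ⟨g1, g2, g3, g4⟩ := hK1 K (le_trans (le_max_left _ _) hKK0)
  have hKr : (1:ℝ) ≤ K := by exact_mod_cast hKone
  have hK0 : (0:ℝ) < K := by linarith
  have hH0 : (0:ℝ) ≤ H := Nat.cast_nonneg H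
  have hMr : (1:ℝ) ≤ M := by exact_mod_cast hM
  have hM0 : (0:ℝ) < M := by linarith
  have hsK : √(K:ℝ) = (K:ℝ) ^ (1/2:ℝ) := Real.sqrt_eq_rpow _
  have hMK40 : (M:ℝ) ≤ (K:ℝ) ^ (1/40:ℝ) := by
    have h1 : (M:ℝ)^40 ≤ K := by exact_mod_cast hMH.trans hHK
    calc (M:ℝ) = ((M:ℝ)^40) ^ (1/40:ℝ) := by
          rw [← Real.rpow_natCast, ← Real.rpow_mul hM0.le]; norm_num
      _ ≤ _ := Real.rpow_le_rpow (by positivity) h1 (by norm_num)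
  set Y : ℕ := ⌊(K:ℝ) ^ (9/20:ℝ)⌋₊ with hY
  have hYup : (Y:ℝ) ≤ (K:ℝ) ^ (9/20:ℝ) := Nat.floor_le (by positivity)
  have hYlow : (K:ℝ) ^ (9/20:ℝ) / 2 ≤ Y := by
    have := Nat.lt_floor_add_one ((K:ℝ) ^ (9/20:ℝ))
    rw [← hY] at this
    linarith
  have hMY : M ≤ Y := by
    rw [hY, Nat.le_floor_iff (by positivity)]
    exact hMK40.trans (Real.rpow_le_rpow_of_exponent_le hKr (by norm_num))
  have hY1 : 1 ≤ Y := hM.trans hMY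
  have hY2 : Y^2 ≤ K := by
    have : (Y:ℝ)^2 ≤ K := by
      calc (Y:ℝ)^2 ≤ ((K:ℝ) ^ (9/20:ℝ))^2 := pow_le_pow_left₀ (Nat.cast_nonneg _) hYup 2
        _ = (K:ℝ) ^ (9/10:ℝ) := by rw [← Real.rpow_natCast, ← Real.rpow_mul hK0.le]; norm_num
        _ ≤ (K:ℝ) ^ (1:ℝ) := Real.rpow_le_rpow_of_exponent_le hKr (by norm_num)
        _ = K := Real.rpow_one _
    exact_mod_cast this
  have hcY : c * Y ≤ √(K:ℝ) := by
    calc c * Y ≤ (K:ℝ) ^ (1/20:ℝ) * (K:ℝ) ^ (9/20:ℝ) := by gcongr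
      _ = √(K:ℝ) := by rw [← Real.rpow_add hK0, hsK]; norm_num
  set δs : ℝ := (K:ℝ) ^ (-(26/100):ℝ) with hδs
  have hδs0 : 0 < δs := by positivity
  have hδs1 : δs ≤ 1/2 := by
    rw [hδs, Real.rpow_neg hK0.le, inv_le_comm₀ (by positivity) (by norm_num)]
    norm_num
    norm_num at g3
    exact g3
  set ρ : ℝ := (K:ℝ) ^ (-(1/200):ℝ) with hρ
  have hρ0 : 0 < ρ := by positivity
  have hM2 : (M:ℝ)^2 * δs ≤ ρ := by
    calc (M:ℝ)^2 * δs ≤ ((K:ℝ) ^ (1/40:ℝ))^2 * δs := by gcongr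
      _ = (K:ℝ) ^ (1/20 + -(26/100) : ℝ) := by
          rw [hδs, ← Real.rpow_natCast, ← Real.rpow_mul hK0.le, ← Real.rpow_add hK0]; norm_num
      _ ≤ ρ := Real.rpow_le_rpow_of_exponent_le hKr (by norm_num)
  have hτ : Ct * δs ^ (-(3/2):ℝ) * (Y:ℝ) ^ (-(24/25):ℝ) ≤ 2 * Ct * ρ := by
    have e1 : δs ^ (-(3/2):ℝ) = (K:ℝ) ^ (39/100:ℝ) := by
      rw [hδs, ← Real.rpow_mul hK0.le]; norm_num
    have e2 : (Y:ℝ) ^ (-(24/25):ℝ) ≤ 2 * (K:ℝ) ^ (-(108/250):ℝ) := by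
      calc (Y:ℝ) ^ (-(24/25):ℝ) ≤ ((K:ℝ) ^ (9/20:ℝ) / 2) ^ (-(24/25):ℝ) :=
            Real.rpow_le_rpow_of_nonpos (by positivity) hYlow (by norm_num)
        _ = 2 ^ (24/25:ℝ) * (K:ℝ) ^ (-(108/250):ℝ) := by
            rw [Real.div_rpow (by positivity) (by norm_num), ← Real.rpow_mul hK0.le, Real.rpow_neg (by norm_num : (0:ℝ) ≤ 2),
              div_inv_eq_mul, mul_comm]
            norm_num
        _ ≤ 2 * (K:ℝ) ^ (-(108/250):ℝ) := by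
            apply mul_le_mul_of_nonneg_right _ (by positivity)
            calc (2:ℝ) ^ (24/25:ℝ) ≤ 2 ^ (1:ℝ) := Real.rpow_le_rpow_of_exponent_le (by norm_num) (by norm_num)
              _ = 2 := Real.rpow_one 2
    rw [e1]
    calc Ct * (K:ℝ) ^ (39/100:ℝ) * (Y:ℝ) ^ (-(24/25):ℝ) ≤ Ct * (K:ℝ) ^ (39/100:ℝ) * (2 * (K:ℝ) ^ (-(108/250):ℝ)) := by gcongr
      _ = 2 * Ct * ((K:ℝ) ^ (39/100:ℝ) * (K:ℝ) ^ (-(108/250):ℝ)) := by ring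
      _ ≤ 2 * Ct * ρ := by
          apply mul_le_mul_of_nonneg_left _ (by positivity)
          rw [← Real.rpow_add hK0]
          exact Real.rpow_le_rpow_of_exponent_le hKr (by norm_num)
  set mid : ℝ → ℕ → ℝ := fun κ n => ∑ m ∈ Ioc (M^2) (Y^2), GW.wt a φ w (c * √(n:ℝ) + κ * δs) δs m with hmidd
  have hsplit : ∀ (κ : ℝ) (R : ℝ), ∑ m ∈ Icc 1 (Y^2), GW.wt a φ w (R + κ * δs) δs m =
      ∑ m ∈ Icc 1 (M^2), GW.wt a φ w (R + κ * δs) δs m + ∑ m ∈ Ioc (M^2) (Y^2), GW.wt a φ w (R + κ * δs) δs m := by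
    intro κ R
    have hMY2 : M^2 ≤ Y^2 := Nat.pow_le_pow_left hMY 2
    have : Icc 1 (Y^2) = Icc 1 (M^2) ∪ Ioc (M^2) (Y^2) := by
      ext n; simp only [mem_union, mem_Icc, mem_Ioc]; omega
    rw [this, sum_union (by
      rw [disjoint_left]; intro n hn hn2
      rw [mem_Icc] at hn; rw [mem_Ioc] at hn2; omega)]
  have hpt : ∀ n ∈ Ico K (K + H), (E (c * √(n:ℝ)) - U a φ (c * √(n:ℝ)) M)^2 ≤
      3 * ((mid κ₁ n)^2 + (mid κ₂ n)^2 + (G * ρ)^2) := by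
    intro n hn
    rw [mem_Ico] at hn
    set R : ℝ := c * √(n:ℝ) with hR
    have hR4 : 4 ≤ R := by
      have h1 : √(K:ℝ) ≤ √(n:ℝ) := Real.sqrt_le_sqrt (by exact_mod_cast hn.1)
      rw [div_le_iff₀ hc] at g2
      calc (4:ℝ) ≤ (K:ℝ) ^ (1/2:ℝ) * c := g2
        _ = c * √(K:ℝ) := by rw [hsK]; ring
        _ ≤ _ := mul_le_mul_of_nonneg_left h1 hc.le
    obtain ⟨s1, s2⟩ := hS R R δs hR4 hδs0 hδs1 (by rw [sub_self, abs_zero]; exact hδs0.le)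
    have he := herr K n hKone hn.1 (by omega)
    have t1 := htail δs hδs0 (R + κ₁ * δs) Y hY1
    have t2 := htail δs hδs0 (R + κ₂ * δs) Y hY1
    have l1 := hlow₁ M hM R δs hδs0
    have l2 := hlow₂ M hM R δs hδs0
    rw [hsplit] at t1 t2
    have hm1 : mid κ₁ n = ∑ m ∈ Ioc (M^2) (Y^2), GW.wt a φ w (R + κ₁ * δs) δs m := rfl
    have hm2 : mid κ₂ n = ∑ m ∈ Ioc (M^2) (Y^2), GW.wt a φ w (R + κ₂ * δs) δs m := rfl
    rw [← hm1] at t1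
    rw [← hm2] at t2
    have l1' : (L₁ * (M:ℝ)^2) * δs ≤ L₁ * ρ := by
      rw [mul_assoc]; exact mul_le_mul_of_nonneg_left hM2 hL₁.le
    have l2' : (L₂ * (M:ℝ)^2) * δs ≤ L₂ * ρ := by
      rw [mul_assoc]; exact mul_le_mul_of_nonneg_left hM2 hL₂.le
    have he' : C0 * erw (1/100) R δs ≤ C0 * Ce * ρ := by
      rw [mul_assoc]; exact mul_le_mul_of_nonneg_left he hC0.le
    obtain ⟨t1a, t1b⟩ := abs_le.mp (t1.trans hτ)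
    obtain ⟨t2a, t2b⟩ := abs_le.mp (t2.trans hτ)
    obtain ⟨l1a, l1b⟩ := abs_le.mp (l1.trans l1')
    obtain ⟨l2a, l2b⟩ := abs_le.mp (l2.trans l2')
    have p1 := le_abs_self (mid κ₁ n)
    have p2 := neg_abs_le (mid κ₂ n)
    have p3 := abs_nonneg (mid κ₁ n)
    have p4 := abs_nonneg (mid κ₂ n)
    have hCtρ : 0 ≤ Ct * ρ := by positivity
    have hLρ1 : 0 ≤ L₁ * ρ := by positivity
    have hLρ2 : 0 ≤ L₂ * ρ := by positivity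
    have hGe : G * ρ = L₁ * ρ + L₂ * ρ + 4 * Ct * ρ + C0 * Ce * ρ := by rw [hG]; ring
    have hfin : |E R - U a φ R M| ≤ |mid κ₁ n| + |mid κ₂ n| + G * ρ := by
      rw [abs_le, hGe]
      constructor <;> linarith
    calc (E R - U a φ R M)^2 = |E R - U a φ R M|^2 := (sq_abs _).symm
      _ ≤ (|mid κ₁ n| + |mid κ₂ n| + G * ρ)^2 := pow_le_pow_left₀ (abs_nonneg _) hfin 2
      _ ≤ 3 * (|mid κ₁ n|^2 + |mid κ₂ n|^2 + (G * ρ)^2) := by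
          nlinarith [sq_nonneg (|mid κ₁ n| - |mid κ₂ n|), sq_nonneg (|mid κ₁ n| - G * ρ), sq_nonneg (|mid κ₂ n| - G * ρ)]
      _ = _ := by rw [sq_abs, sq_abs]
  have hcard : ((Ico K (K + H)).card : ℝ) = H := by rw [Nat.card_Ico, Nat.add_sub_cancel_left]
  have hρ2 : ρ^2 ≤ (M:ℝ) ^ (-(δ/50)) := by
    have hMK : (M:ℝ) ≤ K := hMK40.trans (by
      calc (K:ℝ) ^ (1/40:ℝ) ≤ (K:ℝ) ^ (1:ℝ) := Real.rpow_le_rpow_of_exponent_le hKr (by norm_num)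
        _ = K := Real.rpow_one _)
    calc ρ^2 = (K:ℝ) ^ (-(1/100):ℝ) := by rw [hρ, ← Real.rpow_natCast, ← Real.rpow_mul hK0.le]; norm_num
      _ ≤ (K:ℝ) ^ (-(δ/50)) := Real.rpow_le_rpow_of_exponent_le hKr (by linarith)
      _ ≤ (M:ℝ) ^ (-(δ/50)) := Real.rpow_le_rpow_of_nonpos hM0 hMK (by linarith)
  have hKM : (K:ℝ) ^ (-(δ/2)) ≤ (M:ℝ) ^ (-(δ/50)) := by
    have hMK : (M:ℝ) ≤ K := hMK40.trans (by
      calc (K:ℝ) ^ (1/40:ℝ) ≤ (K:ℝ) ^ (1:ℝ) := Real.rpow_le_rpow_of_exponent_le hKr (by norm_num)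
        _ = K := Real.rpow_one _)
    calc (K:ℝ) ^ (-(δ/2)) ≤ (K:ℝ) ^ (-(δ/50)) := Real.rpow_le_rpow_of_exponent_le hKr (by linarith)
      _ ≤ (M:ℝ) ^ (-(δ/50)) := Real.rpow_le_rpow_of_nonpos hM0 hMK (by linarith)
  have hM5 : (M:ℝ) ^ (-(1/5):ℝ) ≤ (M:ℝ) ^ (-(δ/50)) := Real.rpow_le_rpow_of_exponent_le hMr (by linarith)
  have hb : ∀ κ : ℝ, ∑ n ∈ Ico K (K + H), (mid κ n)^2 ≤ C1 * 2 * ((M:ℝ) ^ (-(δ/50)) * H) := by
    intro κ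
    have := hmid K H M Y hKone hHK hKH hM hY1 hY2 hcY (κ * δs) δs hδs0
    refine this.trans ?_
    calc C1 * H * ((M:ℝ) ^ (-(1/5):ℝ) + (K:ℝ) ^ (-(δ/2))) ≤ C1 * H * ((M:ℝ) ^ (-(δ/50)) + (M:ℝ) ^ (-(δ/50))) := by gcongr
      _ = _ := by ring
  calc ∑ n ∈ Ico K (K + H), (E (c * √(n:ℝ)) - U a φ (c * √(n:ℝ)) M)^2 ≤
        ∑ n ∈ Ico K (K + H), 3 * ((mid κ₁ n)^2 + (mid κ₂ n)^2 + (G * ρ)^2) := sum_le_sum hpt
    _ = 3 * (∑ n ∈ Ico K (K + H), (mid κ₁ n)^2 + ∑ n ∈ Ico K (K + H), (mid κ₂ n)^2 + H * (G * ρ)^2) := by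
        rw [← mul_sum, sum_add_distrib, sum_add_distrib, sum_const, nsmul_eq_mul, hcard]
    _ ≤ 3 * (C1 * 2 * ((M:ℝ) ^ (-(δ/50)) * H) + C1 * 2 * ((M:ℝ) ^ (-(δ/50)) * H) + H * (G^2 * (M:ℝ) ^ (-(δ/50)))) := by
        apply mul_le_mul_of_nonneg_left _ (by norm_num)
        apply add_le_add (add_le_add (hb κ₁) (hb κ₂))
        apply mul_le_mul_of_nonneg_left _ hH0
        rw [mul_pow]
        exact mul_le_mul_of_nonneg_left hρ2 (by positivity)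
    _ = _ := by ring

end Pool.Agent.Y969.SW
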