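import Mathlib

/-! Truncated moments of every order from polynomial tails of every order: the abstract part. -/

set_option autoImplicit false

open Filter Topology MeasureTheory Finset

namespace Pool.Agent.Y969.TM

/-- layer cake -/
lemma layer {x p : ℝ} (hp : 0 < p) {T Y : ℕ} (h1 : (T:ℝ) < x) (h2 : x ≤ Y) :
    x ^ p ≤ ∑ v ∈ Finset.Ico T Y, ((v:ℝ) + 1) ^ p * (if (v:ℝ) < x then 1 else 0) := by
  have hx0 : 0 < x := lt_of_le_of_lt (Nat.cast_nonneg _) h1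
  have hc1 : T < ⌈x⌉₊ := Nat.lt_ceil.mpr h1
  have hc2 : ⌈x⌉₊ ≤ Y := Nat.ceil_le.mpr h2
  have hc3 : (⌈x⌉₊ : ℝ) < x + 1 := Nat.ceil_lt_add_one hx0.le
  have hc4 : x ≤ ⌈x⌉₊ := Nat.le_ceil x
  have hmem : ⌈x⌉₊ - 1 ∈ Finset.Ico T Y := by
    rw [Finset.mem_Ico]; omega
  have hcast : (((⌈x⌉₊ - 1 : ℕ) : ℝ)) = (⌈x⌉₊ : ℝ) - 1 := by
    rw [Nat.cast_sub (by omega)]; simp
  have h3 := Finset.single_le_sum (f := fun v : ℕ => ((v:ℝ) + 1) ^ p * (if (v:ℝ) < x then (1:ℝ) else 0))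
    (fun v _ => by
      have : 0 ≤ ((v:ℝ) + 1) ^ p := by positivity
      split_ifs
      · simpa using this
      · simp) hmem
  refine le_trans ?_ h3
  simp only [hcast]
  rw [if_pos (by linarith), mul_one, sub_add_cancel]
  exact Real.rpow_le_rpow hx0.le hc4 hp.le

/-- sums over a finite set -/
lemma layer_sum {S : Finset ℕ} {x : ℕ → ℝ} {p : ℝ} (hp : 0 < p) {T Y : ℕ} :
    ∑ n ∈ S, (if (T:ℝ) < x n ∧ x n ≤ Y then (x n) ^ p else 0) ≤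
      ∑ v ∈ Finset.Ico T Y, ((v:ℝ) + 1) ^ p * ((S.filter (fun n => (v:ℝ) < x n)).card : ℝ) := by
  have h1 : ∀ n ∈ S, (if (T:ℝ) < x n ∧ x n ≤ Y then (x n) ^ p else 0) ≤
      ∑ v ∈ Finset.Ico T Y, ((v:ℝ) + 1) ^ p * (if (v:ℝ) < x n then 1 else 0) := by
    intro n _
    split_ifs with h
    · exact layer hp h.1 h.2
    · apply Finset.sum_nonneg
      intro v _
      have : 0 ≤ ((v:ℝ) + 1) ^ p := by positivity
      split_ifs <;> simp [this]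
  refine (Finset.sum_le_sum h1).trans ?_
  rw [Finset.sum_comm]
  apply le_of_eq
  apply Finset.sum_congr rfl
  intro v _
  rw [← Finset.mul_sum, Finset.sum_boole]

lemma sum_inv_sq_le {T : ℕ} (hT : 1 ≤ T) (Y : ℕ) : ∑ v ∈ Finset.Ico T Y, (1:ℝ) / (v:ℝ) ^ 2 ≤ 2 / T := by
  have h : ∀ Y : ℕ, T ≤ Y → ∑ v ∈ Finset.Ico T Y, (1:ℝ) / (v:ℝ) ^ 2 ≤ 2 / T - 2 / Y := by
    intro Y hY
    induction Y, hY using Nat.le_induction with
    | base => simp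
    | succ Y hY ih =>
      rw [Finset.sum_Ico_succ_top hY]
      have hY1 : (1:ℝ) ≤ Y := by exact_mod_cast (le_trans hT hY)
      have hY0 : (0:ℝ) < Y := by linarith
      have h3 : (1:ℝ) / (Y:ℝ)^2 ≤ 2 / Y - 2 / ((Y + 1 : ℕ) : ℝ) := by
        push_cast
        have e : (2:ℝ) / Y - 2 / (Y + 1) = 2 / (Y * (Y + 1)) := by field_simp; ring
        rw [e, div_le_div_iff₀ (by positivity) (by positivity)]
        nlinarith
      linarith
  rcases le_or_gt T Y with hY | hY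
  · have h1 := h Y hY
    have : (0:ℝ) ≤ 2 / Y := by positivity
    linarith
  · rw [Finset.Ico_eq_empty (by omega), Finset.sum_empty]; positivity

/-- the truncated moment above a level, for one finite set -/
lemma trunc_level {S : Finset ℕ} {x : ℕ → ℝ} {p c c' C L : ℝ} (hp : 0 < p) (hC : 0 < C)
    (hL : 1 ≤ L) (hc' : 0 < c') (hcc : c' * (p + 1) ≤ c / 2)
    (h : ∀ V : ℝ, 1 ≤ V → ((S.filter (fun n => V < x n)).card : ℝ) ≤ C * S.card * (V ^ (-(p + 2)) + L ^ (-c)))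
    {T : ℕ} (hT : 1 ≤ T) :
    ∑ n ∈ S, (if (T:ℝ) < x n ∧ x n ≤ L ^ c' then (x n) ^ p else 0) ≤
      C * 2 ^ (p + 1) * S.card * (1 / T + L ^ (-(c / 2))) := by
  set Y : ℕ := ⌈L ^ c'⌉₊ with hY
  have hLc : 1 ≤ L ^ c' := Real.one_le_rpow hL hc'.le
  have hL0 : 0 < L := by linarith
  have hY1 : L ^ c' ≤ Y := Nat.le_ceil _
  have hY2 : (Y:ℝ) ≤ 2 * L ^ c' := by
    have := Nat.ceil_lt_add_one (show 0 ≤ L ^ c' by linarith)
    rw [← hY] at this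
    linarith
  have h1 : ∑ n ∈ S, (if (T:ℝ) < x n ∧ x n ≤ L ^ c' then (x n) ^ p else 0) ≤
      ∑ n ∈ S, (if (T:ℝ) < x n ∧ x n ≤ Y then (x n) ^ p else 0) := by
    apply Finset.sum_le_sum
    intro n _
    split_ifs with h1 h2 h3
    · exact le_rfl
    · exact absurd ⟨h1.1, h1.2.trans hY1⟩ h2
    · exact Real.rpow_nonneg (le_trans (Nat.cast_nonneg _) h3.1.le) _
    · exact le_rfl
  refine h1.trans ((layer_sum hp).trans ?_)
  have h2 : ∀ v ∈ Finset.Ico T Y, ((v:ℝ) + 1) ^ p * ((S.filter (fun n => (v:ℝ) < x n)).card : ℝ) ≤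
      C * S.card * (2 ^ p * (1 / (v:ℝ)^2)) + C * S.card * ((Y:ℝ) ^ p * L ^ (-c)) := by
    intro v hv
    rw [Finset.mem_Ico] at hv
    have hv1 : (1:ℝ) ≤ v := by exact_mod_cast (le_trans hT hv.1)
    have hv0 : (0:ℝ) < v := by linarith
    have hvY : (v:ℝ) + 1 ≤ Y := by exact_mod_cast hv.2
    have h3 := h v hv1
    have h4 : ((v:ℝ) + 1) ^ p ≤ 2 ^ p * (v:ℝ) ^ p := by
      rw [← Real.mul_rpow (by norm_num) hv0.le]
      exact Real.rpow_le_rpow (by positivity) (by linarith) hp.le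
    have h5 : ((v:ℝ) + 1) ^ p ≤ (Y:ℝ) ^ p := Real.rpow_le_rpow (by positivity) hvY hp.le
    have h6 : (v:ℝ) ^ p * (v:ℝ) ^ (-(p + 2)) = 1 / (v:ℝ)^2 := by
      rw [← Real.rpow_add hv0, show p + -(p + 2) = ((-2:ℤ):ℝ) by push_cast; ring, Real.rpow_intCast]
      rw [zpow_neg, one_div]; norm_cast
    have h7 : 0 ≤ ((v:ℝ) + 1) ^ p := by positivity
    have h8 : 0 ≤ (v:ℝ) ^ (-(p + 2)) := by positivity
    have h9 : 0 ≤ L ^ (-c) := by positivity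
    have hS : (0:ℝ) ≤ S.card := Nat.cast_nonneg _
    calc ((v:ℝ) + 1) ^ p * ((S.filter (fun n => (v:ℝ) < x n)).card : ℝ)
        ≤ ((v:ℝ) + 1) ^ p * (C * S.card * ((v:ℝ) ^ (-(p + 2)) + L ^ (-c))) := mul_le_mul_of_nonneg_left h3 h7
      _ = C * S.card * (((v:ℝ) + 1) ^ p * (v:ℝ) ^ (-(p + 2))) + C * S.card * (((v:ℝ) + 1) ^ p * L ^ (-c)) := by ring
      _ ≤ C * S.card * ((2 ^ p * (v:ℝ) ^ p) * (v:ℝ) ^ (-(p + 2))) + C * S.card * ((Y:ℝ) ^ p * L ^ (-c)) := by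
          gcongr
      _ = _ := by rw [mul_assoc (2 ^ p) ((v:ℝ) ^ p), h6]
  refine (Finset.sum_le_sum h2).trans ?_
  rw [Finset.sum_add_distrib, Finset.sum_const, nsmul_eq_mul, ← Finset.mul_sum, ← Finset.mul_sum]
  have hS : (0:ℝ) ≤ S.card := Nat.cast_nonneg _
  have h3 := sum_inv_sq_le hT Y
  have h4 : (((Finset.Ico T Y).card : ℕ) : ℝ) ≤ Y := by
    rw [Nat.card_Ico]; exact_mod_cast Nat.sub_le _ _
  have hT0 : (0:ℝ) < T := by exact_mod_cast hT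
  have h2p : (0:ℝ) < 2 ^ p := by positivity
  have h5 : (Y:ℝ) * ((Y:ℝ) ^ p * L ^ (-c)) ≤ 2 ^ (p + 1) * L ^ (-(c/2)) := by
    have hY0 : (0:ℝ) < Y := by linarith
    have e1 : (Y:ℝ) * (Y:ℝ) ^ p = (Y:ℝ) ^ (p + 1) := by
      rw [Real.rpow_add hY0, Real.rpow_one, mul_comm]
    have e2 : (Y:ℝ) ^ (p + 1) ≤ (2 * L ^ c') ^ (p + 1) := Real.rpow_le_rpow hY0.le hY2 (by linarith)
    have e3 : (2 * L ^ c') ^ (p + 1) = 2 ^ (p + 1) * L ^ (c' * (p + 1)) := by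
      rw [Real.mul_rpow (by norm_num) (by positivity), ← Real.rpow_mul hL0.le]
    have e4 : L ^ (c' * (p + 1)) ≤ L ^ (c / 2) := Real.rpow_le_rpow_of_exponent_le hL hcc
    have e5 : L ^ (c/2) * L ^ (-c) = L ^ (-(c/2)) := by
      rw [← Real.rpow_add hL0]; congr 1; ring
    calc (Y:ℝ) * ((Y:ℝ) ^ p * L ^ (-c)) = (Y:ℝ) ^ (p + 1) * L ^ (-c) := by rw [← mul_assoc, e1]
      _ ≤ (2 ^ (p + 1) * L ^ (c / 2)) * L ^ (-c) := by
          apply mul_le_mul_of_nonneg_right _ (by positivity)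
          rw [e3] at e2
          exact e2.trans (mul_le_mul_of_nonneg_left e4 (by positivity))
      _ = _ := by rw [mul_assoc, e5]
  have hYp : 0 ≤ (Y:ℝ) ^ p * L ^ (-c) := by positivity
  calc C * S.card * (2 ^ p * ∑ v ∈ Finset.Ico T Y, 1 / (v:ℝ) ^ 2) +
        ((Finset.Ico T Y).card : ℝ) * (C * S.card * ((Y:ℝ) ^ p * L ^ (-c)))
      ≤ C * S.card * (2 ^ p * (2 / T)) + (Y:ℝ) * (C * S.card * ((Y:ℝ) ^ p * L ^ (-c))) := by
        gcongr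
    _ = C * S.card * (2 ^ p * 2 * (1 / T)) + C * S.card * ((Y:ℝ) * ((Y:ℝ) ^ p * L ^ (-c))) := by ring
    _ ≤ C * S.card * (2 ^ p * 2 * (1 / T)) + C * S.card * (2 ^ (p + 1) * L ^ (-(c/2))) := by
        gcongr
    _ = _ := by
        rw [Real.rpow_add (by norm_num), Real.rpow_one]; ring

end Pool.Agent.Y969.TM
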