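import Mathlib
import Pool.Agent.Y969.TM1

/-! Truncated moments of every order from polynomial tails of every order: convergence. -/

set_option autoImplicit false

open Filter Topology MeasureTheory Finset

namespace Pool.Agent.Y969.TM

/-- average over a finite set -/
noncomputable def fa (S : Finset ℕ) (g : ℕ → ℝ) : ℝ := (∑ n ∈ S, g n) / S.card

lemma fa_add (S : Finset ℕ) (g h : ℕ → ℝ) : fa S (fun n => g n + h n) = fa S g + fa S h := by
  unfold fa; rw [Finset.sum_add_distrib, add_div]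

lemma fa_mono {S : Finset ℕ} {g h : ℕ → ℝ} (H : ∀ n ∈ S, g n ≤ h n) : fa S g ≤ fa S h := by
  unfold fa; exact div_le_div_of_nonneg_right (Finset.sum_le_sum H) (Nat.cast_nonneg _)

lemma fa_const {S : Finset ℕ} (hS : S.Nonempty) (c : ℝ) : fa S (fun _ => c) = c := by
  unfold fa
  rw [Finset.sum_const, nsmul_eq_mul]
  have : (S.card : ℝ) ≠ 0 := by exact_mod_cast hS.card_pos.ne'
  field_simp

lemma fa_mul (S : Finset ℕ) (c : ℝ) (g : ℕ → ℝ) : fa S (fun n => c * g n) = c * fa S g := by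
  unfold fa; rw [← Finset.mul_sum, mul_div_assoc]

lemma abs_fa_sub_le (S : Finset ℕ) (g h : ℕ → ℝ) : |fa S g - fa S h| ≤ fa S (fun n => |g n - h n|) := by
  unfold fa
  rw [← sub_div, ← Finset.sum_sub_distrib, abs_div, abs_of_nonneg (Nat.cast_nonneg S.card : (0:ℝ) ≤ (S.card : ℝ))]
  exact div_le_div_of_nonneg_right (Finset.abs_sum_le_sum_abs _ _) (Nat.cast_nonneg _)

variable {ι : Type*} [Fintype ι]

/-- the cut-off function -/
noncomputable def chi (T : ℕ) (x : ι → ℝ) : ℝ := max 0 (min 1 ((T:ℝ) + 1 - ‖x‖))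

lemma chi_cont (T : ℕ) : Continuous (chi T : (ι → ℝ) → ℝ) := by unfold chi; fun_prop

lemma chi_nonneg (T : ℕ) (x : ι → ℝ) : 0 ≤ chi T x := le_max_left _ _

lemma chi_le_one (T : ℕ) (x : ι → ℝ) : chi T x ≤ 1 := max_le zero_le_one (min_le_left _ _)

lemma chi_one {T : ℕ} {x : ι → ℝ} (h : ‖x‖ ≤ T) : chi T x = 1 := by
  unfold chi; rw [min_eq_left (by linarith), max_eq_right zero_le_one]

lemma chi_zero {T : ℕ} {x : ι → ℝ} (h : (T:ℝ) + 1 ≤ ‖x‖) : chi T x = 0 := by
  unfold chi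
  rw [max_eq_left]
  exact (min_le_right _ _).trans (by linarith)

/-- **truncated moments** -/
theorem trunc_conv {μ : ProbabilityMeasure (ι → ℝ)} {S : ℕ → Finset ℕ} (hne : ∀ j, (S j).Nonempty)
    {e : ℕ → ℕ → ι → ℝ} {L : ℕ → ℝ} (hL : Tendsto L atTop atTop) (hL1 : ∀ j, 1 ≤ L j)
    {p c C : ℝ} (hp : 0 < p) (hc : 0 < c) (hC : 0 < C)
    (h : ∀ j, ∀ V : ℝ, 1 ≤ V → (((S j).filter (fun n => V < ‖e j n‖)).card : ℝ) ≤
      C * (S j).card * (V ^ (-(p + 2)) + (L j) ^ (-c)))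
    (hlaw : ∀ f : (ι → ℝ) → ℝ, Continuous f → (∃ B, ∀ x, |f x| ≤ B) →
      Tendsto (fun j => fa (S j) (fun n => f (e j n))) atTop (𝓝 (∫ x, f x ∂(μ : Measure (ι → ℝ))))) :
    Integrable (fun x : ι → ℝ => ‖x‖ ^ p) (μ : Measure (ι → ℝ)) ∧
    ∀ c' : ℝ, 0 < c' → c' * (p + 1) ≤ c / 2 → ∀ f : (ι → ℝ) → ℝ, Continuous f →
      (∃ K, ∀ x, |f x| ≤ K * (1 + ‖x‖ ^ p)) →
      Tendsto (fun j => fa (S j) (fun n => if ‖e j n‖ ≤ (L j) ^ c' then f (e j n) else 0)) atTop
        (𝓝 (∫ x, f x ∂(μ : Measure (ι → ℝ)))) := by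
  have hLpow : ∀ s : ℝ, 0 < s → Tendsto (fun j => (L j) ^ (-s)) atTop (𝓝 0) := fun s hs =>
    (tendsto_rpow_neg_atTop hs).comp hL
  have hcardpos : ∀ j, (0:ℝ) < (S j).card := fun j => by exact_mod_cast (hne j).card_pos
  -- averaged form of the level bound
  have hlev : ∀ c' : ℝ, 0 < c' → c' * (p + 1) ≤ c / 2 → ∀ T : ℕ, 1 ≤ T → ∀ j,
      fa (S j) (fun n => if (T:ℝ) < ‖e j n‖ ∧ ‖e j n‖ ≤ (L j) ^ c' then ‖e j n‖ ^ p else 0) ≤
        C * 2 ^ (p + 1) * (1 / T + (L j) ^ (-(c / 2))) := by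
    intro c' hc' hcc T hT j
    have h1 := trunc_level (S := S j) (x := fun n => ‖e j n‖) hp hC (hL1 j) hc' hcc (h j) hT
    unfold fa
    rw [div_le_iff₀ (hcardpos j)]
    refine h1.trans (le_of_eq (by ring))
  -- integrability
  have hint : Integrable (fun x : ι → ℝ => ‖x‖ ^ p) (μ : Measure (ι → ℝ)) := by
    set c' := c / (2 * (p + 1)) with hc'
    have hc'0 : 0 < c' := by positivity
    have hcc : c' * (p + 1) ≤ c / 2 := by
      rw [hc']; apply le_of_eq; field_simp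
    set K0 : ℝ := 2 + C * 2 ^ (p + 1) * 2 with hK0
    have hbd : ∀ R : ℕ, ∫ x, (min ‖x‖ R) ^ p ∂(μ : Measure (ι → ℝ)) ≤ K0 := by
      intro R
      have hcont : Continuous (fun x : ι → ℝ => (min ‖x‖ (R:ℝ)) ^ p) := by
        apply Continuous.rpow_const
        · fun_prop
        · intro x; right; exact hp.le
      have hb : ∀ x : ι → ℝ, |(min ‖x‖ (R:ℝ)) ^ p| ≤ (R:ℝ) ^ p := by
        intro x
        have h0 : 0 ≤ min ‖x‖ (R:ℝ) := le_min (norm_nonneg _) (Nat.cast_nonneg _)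
        rw [abs_of_nonneg (Real.rpow_nonneg h0 _)]
        exact Real.rpow_le_rpow h0 (min_le_right _ _) hp.le
      have ht := hlaw _ hcont ⟨_, hb⟩
      have htail : Tendsto (fun j => (R:ℝ) ^ p * (C * (((L j) ^ (-(c' * (p + 2)))) + (L j) ^ (-c)))) atTop (𝓝 0) := by
        have h1 := ((hLpow (c' * (p + 2)) (by positivity)).add (hLpow c hc)).const_mul C
        have h2 := h1.const_mul ((R:ℝ) ^ p)
        simpa using h2
      have hsmall1 := htail.eventually (gt_mem_nhds (show (0:ℝ) < 1 by norm_num))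
      have hsmall2 := (hLpow (c/2) (by positivity)).eventually (gt_mem_nhds (show (0:ℝ) < 1 by norm_num))
      refine le_of_tendsto ht ?_
      filter_upwards [hsmall1, hsmall2] with j hj1 hj2
      have hLc1 : 1 ≤ (L j) ^ c' := Real.one_le_rpow (hL1 j) hc'0.le
      have hpt : ∀ n ∈ S j, (min ‖e j n‖ (R:ℝ)) ^ p ≤ (1 +
          (if ((1:ℕ):ℝ) < ‖e j n‖ ∧ ‖e j n‖ ≤ (L j) ^ c' then ‖e j n‖ ^ p else 0)) +
          (R:ℝ) ^ p * (if (L j) ^ c' < ‖e j n‖ then 1 else 0) := by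
        intro n _
        have h0 : 0 ≤ min ‖e j n‖ (R:ℝ) := le_min (norm_nonneg _) (Nat.cast_nonneg _)
        have hR : 0 ≤ (R:ℝ) ^ p := by positivity
        have hE : 0 ≤ ‖e j n‖ ^ p := by positivity
        rcases le_or_gt ‖e j n‖ 1 with h1 | h1
        · have h2 : (min ‖e j n‖ (R:ℝ)) ^ p ≤ 1 := by
            calc (min ‖e j n‖ (R:ℝ)) ^ p ≤ 1 ^ p := Real.rpow_le_rpow h0 ((min_le_left _ _).trans h1) hp.le
              _ = 1 := Real.one_rpow _
          have h3 : 0 ≤ (if ((1:ℕ):ℝ) < ‖e j n‖ ∧ ‖e j n‖ ≤ (L j) ^ c' then ‖e j n‖ ^ p else 0) := by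
            split_ifs <;> simp [hE]
          have h4 : 0 ≤ (R:ℝ) ^ p * (if (L j) ^ c' < ‖e j n‖ then (1:ℝ) else 0) := by
            split_ifs <;> simp [hR]
          linarith
        · rcases le_or_gt ‖e j n‖ ((L j) ^ c') with h2 | h2
          · rw [if_pos ⟨by simpa using h1, h2⟩, if_neg (not_lt.mpr h2), mul_zero, add_zero]
            have : (min ‖e j n‖ (R:ℝ)) ^ p ≤ ‖e j n‖ ^ p := Real.rpow_le_rpow h0 (min_le_left _ _) hp.le
            linarith
          · rw [if_neg (fun hh => absurd hh.2 (not_le.mpr h2)), if_pos h2, mul_one, add_zero]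
            have : (min ‖e j n‖ (R:ℝ)) ^ p ≤ (R:ℝ) ^ p := Real.rpow_le_rpow h0 (min_le_right _ _) hp.le
            linarith
      refine (fa_mono hpt).trans ?_
      rw [fa_add, fa_add, fa_mul, fa_const (hne j)]
      have h1 := hlev c' hc'0 hcc 1 le_rfl j
      have h2 : fa (S j) (fun n => if (L j) ^ c' < ‖e j n‖ then (1:ℝ) else 0) ≤
          C * (((L j) ^ (-(c' * (p + 2)))) + (L j) ^ (-c)) := by
        have h3 := h j ((L j) ^ c') hLc1
        unfold fa
        rw [Finset.sum_boole, div_le_iff₀ (hcardpos j)]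
        refine h3.trans (le_of_eq ?_)
        rw [← Real.rpow_mul (by linarith [hL1 j])]
        rw [show c' * -(p + 2) = -(c' * (p + 2)) by ring]; ring
      have h4 : (R:ℝ) ^ p * fa (S j) (fun n => if (L j) ^ c' < ‖e j n‖ then (1:ℝ) else 0) ≤ 1 :=
        (mul_le_mul_of_nonneg_left h2 (by positivity)).trans hj1.le
      have h5 : C * 2 ^ (p + 1) * (1 / ((1:ℕ):ℝ) + (L j) ^ (-(c / 2))) ≤ C * 2 ^ (p + 1) * 2 := by
        apply mul_le_mul_of_nonneg_left _ (by positivity)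
        have : (1:ℝ) / ((1:ℕ):ℝ) = 1 := by norm_num
        linarith
      refine le_trans (add_le_add (add_le_add le_rfl (h1.trans h5)) h4) ?_
      rw [hK0]
      linarith
    -- monotone convergence
    have hmeas : Continuous (fun x : ι → ℝ => ‖x‖ ^ p) := by
      apply Continuous.rpow_const continuous_norm
      intro x; right; exact hp.le
    refine ⟨hmeas.aestronglyMeasurable, ?_⟩
    rw [hasFiniteIntegral_iff_ofReal (Filter.Eventually.of_forall fun x => by positivity)]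
    have hcontR : ∀ R : ℕ, Continuous (fun x : ι → ℝ => (min ‖x‖ (R:ℝ)) ^ p) := by
      intro R
      apply Continuous.rpow_const
      · fun_prop
      · intro x; right; exact hp.le
    have hlim : Tendsto (fun R : ℕ => ∫⁻ x, ENNReal.ofReal ((min ‖x‖ (R:ℝ)) ^ p) ∂(μ : Measure (ι → ℝ))) atTop
        (𝓝 (∫⁻ x, ENNReal.ofReal (‖x‖ ^ p) ∂(μ : Measure (ι → ℝ)))) := by
      apply lintegral_tendsto_of_tendsto_of_monotone
      · intro R; exact (hcontR R).measurable.ennreal_ofReal.aemeasurable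
      · refine Filter.Eventually.of_forall fun x => ?_
        intro R R' hRR
        apply ENNReal.ofReal_le_ofReal
        apply Real.rpow_le_rpow (le_min (norm_nonneg _) (Nat.cast_nonneg _)) _ hp.le
        exact min_le_min le_rfl (by exact_mod_cast hRR)
      · refine Filter.Eventually.of_forall fun x => ?_
        apply tendsto_const_nhds.congr'
        filter_upwards [eventually_ge_atTop ⌈‖x‖⌉₊] with R hR
        rw [min_eq_left ((Nat.le_ceil _).trans (by exact_mod_cast hR))]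
    have hle : ∫⁻ x, ENNReal.ofReal (‖x‖ ^ p) ∂(μ : Measure (ι → ℝ)) ≤ ENNReal.ofReal K0 := by
      refine le_of_tendsto' hlim fun R => ?_
      rw [← ofReal_integral_eq_lintegral_ofReal]
      · exact ENNReal.ofReal_le_ofReal (hbd R)
      · apply Integrable.of_bound (hcontR R).aestronglyMeasurable ((R:ℝ) ^ p)
        refine Filter.Eventually.of_forall fun x => ?_
        have h0 : 0 ≤ min ‖x‖ (R:ℝ) := le_min (norm_nonneg _) (Nat.cast_nonneg _)
        rw [Real.norm_eq_abs, abs_of_nonneg (Real.rpow_nonneg h0 _)]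
        exact Real.rpow_le_rpow h0 (min_le_right _ _) hp.le
      · exact Filter.Eventually.of_forall fun x => Real.rpow_nonneg (le_min (norm_nonneg _) (Nat.cast_nonneg _)) _
    exact lt_of_le_of_lt hle ENNReal.ofReal_lt_top
  refine ⟨hint, ?_⟩
  intro c' hc' hcc f hf hK
  obtain ⟨K, hK⟩ := hK
  have hK0 : 0 ≤ K := by
    have h1 := hK 0
    have h2 : 0 ≤ |f 0| := abs_nonneg _
    have h3 : (0:ℝ) ≤ 1 + ‖(0 : ι → ℝ)‖ ^ p := by positivity
    by_contra hneg
    push Not at hneg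
    have h4 : (0:ℝ) < 1 + ‖(0 : ι → ℝ)‖ ^ p := by
      have : (0:ℝ) ≤ ‖(0 : ι → ℝ)‖ ^ p := by positivity
      linarith
    nlinarith
  have hfint : Integrable (fun x => K * (1 + ‖x‖ ^ p)) (μ : Measure (ι → ℝ)) :=
    ((integrable_const 1).add hint).const_mul K
  have hTlim : Tendsto (fun T : ℕ => ∫ x, f x * chi T x ∂(μ : Measure (ι → ℝ))) atTop
      (𝓝 (∫ x, f x ∂(μ : Measure (ι → ℝ)))) := by
    apply tendsto_integral_of_dominated_convergence (fun x => K * (1 + ‖x‖ ^ p))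
    · intro T; exact (hf.mul (chi_cont T)).aestronglyMeasurable
    · exact hfint
    · intro T
      refine Filter.Eventually.of_forall fun x => ?_
      rw [Real.norm_eq_abs, abs_mul, abs_of_nonneg (chi_nonneg T x)]
      calc |f x| * chi T x ≤ |f x| * 1 := mul_le_mul_of_nonneg_left (chi_le_one T x) (abs_nonneg _)
        _ ≤ _ := by rw [mul_one]; exact hK x
    · refine Filter.Eventually.of_forall fun x => ?_
      apply tendsto_const_nhds.congr'
      filter_upwards [eventually_ge_atTop ⌈‖x‖⌉₊] with T hT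
      rw [chi_one ((Nat.le_ceil _).trans (by exact_mod_cast hT)), mul_one]
  rw [Metric.tendsto_atTop]
  intro η hη
  set D : ℝ := 2 * K * (C * 2 ^ (p + 1)) with hD
  have hD0 : 0 ≤ D := by positivity
  -- choice of T
  have hev1 : ∀ᶠ T : ℕ in atTop, |∫ x, f x * chi T x ∂(μ : Measure (ι → ℝ)) - ∫ x, f x ∂(μ : Measure (ι → ℝ))| < η / 4 := by
    have := (Metric.tendsto_atTop.mp hTlim) (η/4) (by positivity)
    obtain ⟨T0, hT0⟩ := this
    filter_upwards [eventually_ge_atTop T0] with T hT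
    have := hT0 T hT
    rwa [Real.dist_eq] at this
  have hev2 : ∀ᶠ T : ℕ in atTop, D * (1 / (T:ℝ)) < η / 4 := by
    have h1 : Tendsto (fun T : ℕ => D * (1 / (T:ℝ))) atTop (𝓝 0) := by
      have := (tendsto_one_div_atTop_nhds_zero_nat (𝕜 := ℝ)).const_mul D
      simpa using this
    exact h1.eventually (gt_mem_nhds (by positivity))
  obtain ⟨T, hT1, hT2, hT3⟩ := (hev1.and (hev2.and (eventually_ge_atTop 1))).exists
  have hfT : Continuous (fun x => f x * chi T x) := hf.mul (chi_cont T)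
  have hbT : ∃ B, ∀ x : ι → ℝ, |f x * chi T x| ≤ B := by
    refine ⟨K * (1 + ((T:ℝ) + 1) ^ p), fun x => ?_⟩
    have hpos : 0 ≤ K * (1 + ((T:ℝ) + 1) ^ p) := by positivity
    rcases le_or_gt ((T:ℝ) + 1) ‖x‖ with h1 | h1
    · rw [chi_zero h1, mul_zero, abs_zero]; exact hpos
    · rw [abs_mul, abs_of_nonneg (chi_nonneg T x)]
      calc |f x| * chi T x ≤ |f x| * 1 := mul_le_mul_of_nonneg_left (chi_le_one T x) (abs_nonneg _)
        _ ≤ K * (1 + ‖x‖ ^ p) := by rw [mul_one]; exact hK x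
        _ ≤ _ := by
          apply mul_le_mul_of_nonneg_left _ hK0
          have := Real.rpow_le_rpow (norm_nonneg x) h1.le hp.le
          linarith
  have ht := hlaw _ hfT hbT
  obtain ⟨j1, hj1⟩ := (Metric.tendsto_atTop.mp ht) (η/4) (by positivity)
  have hev3 : ∀ᶠ j in atTop, D * (L j) ^ (-(c/2)) < η / 4 := by
    have := (hLpow (c/2) (by positivity)).const_mul D
    rw [mul_zero] at this
    exact this.eventually (gt_mem_nhds (by positivity))
  have hev4 : ∀ᶠ j in atTop, (T:ℝ) + 1 ≤ (L j) ^ c' :=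
    ((tendsto_rpow_atTop hc').comp hL).eventually_ge_atTop _
  obtain ⟨j2, hj2⟩ := Filter.eventually_atTop.mp (hev3.and hev4)
  refine ⟨max j1 j2, fun j hj => ?_⟩
  have hjj1 := hj1 j ((le_max_left _ _).trans hj)
  obtain ⟨hjj3, hjj4⟩ := hj2 j ((le_max_right _ _).trans hj)
  rw [Real.dist_eq] at hjj1 ⊢
  have hdiff : |fa (S j) (fun n => if ‖e j n‖ ≤ (L j) ^ c' then f (e j n) else 0) -
      fa (S j) (fun n => f (e j n) * chi T (e j n))| ≤ D * (1 / T) + D * (L j) ^ (-(c/2)) := by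
    refine (abs_fa_sub_le _ _ _).trans ?_
    have hpt : ∀ n ∈ S j, |(if ‖e j n‖ ≤ (L j) ^ c' then f (e j n) else 0) - f (e j n) * chi T (e j n)| ≤
        (2 * K) * (if (T:ℝ) < ‖e j n‖ ∧ ‖e j n‖ ≤ (L j) ^ c' then ‖e j n‖ ^ p else 0) := by
      intro n _
      rcases le_or_gt ‖e j n‖ T with h1 | h1
      · have h2 : ‖e j n‖ ≤ (L j) ^ c' := by linarith
        rw [if_pos h2, chi_one h1, mul_one, sub_self, abs_zero, if_neg (fun hh => absurd hh.1 (not_lt.mpr h1)), mul_zero]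
      · rcases le_or_gt ‖e j n‖ ((L j) ^ c') with h2 | h2
        · rw [if_pos h2, if_pos ⟨h1, h2⟩]
          have e1 : f (e j n) - f (e j n) * chi T (e j n) = f (e j n) * (1 - chi T (e j n)) := by ring
          have e2 : 0 ≤ 1 - chi T (e j n) := by linarith [chi_le_one T (e j n)]
          have e3 : 1 - chi T (e j n) ≤ 1 := by linarith [chi_nonneg T (e j n)]
          rw [e1, abs_mul, abs_of_nonneg e2]
          have hT1' : (1:ℝ) ≤ T := by exact_mod_cast hT3
          have e4 : 1 ≤ ‖e j n‖ ^ p := Real.one_le_rpow (by linarith) hp.le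
          calc |f (e j n)| * (1 - chi T (e j n)) ≤ |f (e j n)| * 1 := mul_le_mul_of_nonneg_left e3 (abs_nonneg _)
            _ ≤ K * (1 + ‖e j n‖ ^ p) := by rw [mul_one]; exact hK _
            _ ≤ 2 * K * ‖e j n‖ ^ p := by nlinarith
        · rw [if_neg (not_le.mpr h2), if_neg (fun hh => absurd hh.2 (not_le.mpr h2)), chi_zero (by linarith)]
          simp
    refine (fa_mono hpt).trans ?_
    rw [fa_mul]
    have h1 := hlev c' hc' hcc T hT3 j
    calc 2 * K * fa (S j) (fun n => if (T:ℝ) < ‖e j n‖ ∧ ‖e j n‖ ≤ (L j) ^ c' then ‖e j n‖ ^ p else 0)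
        ≤ 2 * K * (C * 2 ^ (p + 1) * (1 / T + (L j) ^ (-(c / 2)))) := mul_le_mul_of_nonneg_left h1 (by positivity)
      _ = _ := by rw [hD]; ring
  calc |fa (S j) (fun n => if ‖e j n‖ ≤ (L j) ^ c' then f (e j n) else 0) - ∫ x, f x ∂(μ : Measure (ι → ℝ))|
      ≤ |fa (S j) (fun n => if ‖e j n‖ ≤ (L j) ^ c' then f (e j n) else 0) -
          fa (S j) (fun n => f (e j n) * chi T (e j n))| +
        |fa (S j) (fun n => f (e j n) * chi T (e j n)) - ∫ x, f x * chi T x ∂(μ : Measure (ι → ℝ))| +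
        |∫ x, f x * chi T x ∂(μ : Measure (ι → ℝ)) - ∫ x, f x ∂(μ : Measure (ι → ℝ))| := by
        have := abs_add_three
          (fa (S j) (fun n => if ‖e j n‖ ≤ (L j) ^ c' then f (e j n) else 0) - fa (S j) (fun n => f (e j n) * chi T (e j n)))
          (fa (S j) (fun n => f (e j n) * chi T (e j n)) - ∫ x, f x * chi T x ∂(μ : Measure (ι → ℝ)))
          (∫ x, f x * chi T x ∂(μ : Measure (ι → ℝ)) - ∫ x, f x ∂(μ : Measure (ι → ℝ)))
        refine le_trans (le_of_eq ?_) this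
        congr 1; ring
    _ < η := by linarith

end Pool.Agent.Y969.TM
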