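import Mathlib
import Pool.Agent.H383.Gen
import Pool.Agent.H469R2.NK.KL
import Pool.Agent.W24.Liou

/-! Moments of the model polynomials: expansion into exponentials, zero-frequency part and gaps. -/

set_option autoImplicit false

open Finset
open Pool.Agent.H383.Gen (U)
open Pool.Agent.H469R2.NK (e norm_e e_add conj_e e_zero)
open Pool.Agent.W24.Liou (vv vv_pos liou)

namespace Pool.Agent.Y969.TM

/-- index set of the exponentials of the model polynomial -/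
def JS (M : ℕ) : Finset (ℕ × Bool) := (Icc 1 (M^2)) ×ˢ (Finset.univ : Finset Bool)

/-- sign attached to a boolean -/
def sb (b : Bool) : ℤ := if b then 1 else -1

/-- coefficient -/
noncomputable def cf (a : ℕ → ℝ) (φ : ℝ) (y : ℕ × Bool) : ℂ :=
  ((a y.1 / 2 : ℝ) : ℂ) * Complex.exp (((-(sb y.2 : ℝ) * φ : ℝ) : ℂ) * Complex.I)

/-- frequency -/
noncomputable def fq (y : ℕ × Bool) : ℝ := (sb y.2 : ℝ) * √(y.1 : ℝ)

lemma norm_cf (a : ℕ → ℝ) (φ : ℝ) (y : ℕ × Bool) : ‖cf a φ y‖ = |a y.1| / 2 := by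
  unfold cf
  rw [norm_mul, Complex.norm_exp_ofReal_mul_I, mul_one, Complex.norm_real, Real.norm_eq_abs, abs_div,
    abs_of_pos (by norm_num : (0:ℝ) < 2)]

lemma sum_norm_cf (a : ℕ → ℝ) (φ : ℝ) (M : ℕ) : ∑ y ∈ JS M, ‖cf a φ y‖ = ∑ m ∈ Icc 1 (M^2), |a m| := by
  unfold JS
  rw [sum_product]
  apply sum_congr rfl
  intro m _
  simp only [norm_cf, sum_const, card_univ, Fintype.card_bool, nsmul_eq_mul]
  push_cast; ring

lemma U_exp (a : ℕ → ℝ) (φ R : ℝ) (M : ℕ) :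
    ((U a φ R M : ℝ) : ℂ) = ∑ y ∈ JS M, cf a φ y * e (R * fq y) := by
  unfold JS U
  rw [sum_product]
  push_cast
  apply sum_congr rfl
  intro m _
  rw [Fintype.sum_bool]
  unfold cf fq sb e
  simp only [if_true]
  have h1 : Complex.cos (2 * (Real.pi:ℂ) * ((R:ℂ) * ((√(m:ℝ) : ℝ) : ℂ)) - (φ:ℂ)) =
      (Complex.exp ((2 * (Real.pi:ℂ) * ((R:ℂ) * ((√(m:ℝ) : ℝ) : ℂ)) - (φ:ℂ)) * Complex.I) +
       Complex.exp (-(2 * (Real.pi:ℂ) * ((R:ℂ) * ((√(m:ℝ) : ℝ) : ℂ)) - (φ:ℂ)) * Complex.I)) / 2 := rfl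
  rw [h1]
  have h2 : (2 * (Real.pi:ℂ) * ((R:ℂ) * ((√(m:ℝ) : ℝ) : ℂ)) - (φ:ℂ)) * Complex.I =
     ((-(((1:ℤ):ℝ)) * φ : ℝ) : ℂ) * Complex.I + ((2 * Real.pi * (R * ((((1:ℤ):ℝ)) * √(m:ℝ))) : ℝ) : ℂ) * Complex.I := by
    push_cast; ring
  have h3 : -(2 * (Real.pi:ℂ) * ((R:ℂ) * ((√(m:ℝ) : ℝ) : ℂ)) - (φ:ℂ)) * Complex.I =
     ((-((((-1:ℤ)):ℝ)) * φ : ℝ) : ℂ) * Complex.I + ((2 * Real.pi * (R * (((((-1:ℤ)):ℝ)) * √(m:ℝ))) : ℝ) : ℂ) * Complex.I := by
    push_cast; ring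
  rw [h2, h3, Complex.exp_add, Complex.exp_add]
  push_cast
  ring

/-- the tuples -/
def TT (r M : ℕ) : Finset (Fin r → ℕ × Bool) := Fintype.piFinset (fun _ : Fin r => JS M)

lemma e_sum {ι : Type*} (s : Finset ι) (f : ι → ℝ) : e (∑ i ∈ s, f i) = ∏ i ∈ s, e (f i) := by
  classical
  induction s using Finset.induction_on with
  | empty => simp [e_zero]
  | insert a s ha ih => rw [sum_insert ha, prod_insert ha, e_add, ih]

lemma U_pow (a : ℕ → ℝ) (φ R : ℝ) (r M : ℕ) :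
    ((U a φ R M : ℝ) : ℂ) ^ r = ∑ y ∈ TT r M, (∏ i, cf a φ (y i)) * e (R * ∑ i, fq (y i)) := by
  rw [U_exp, Finset.sum_pow']
  unfold TT
  apply sum_congr rfl
  intro y _
  rw [prod_mul_distrib, mul_sum, e_sum]

open Classical in
/-- the zero-frequency part -/
noncomputable def ZZ (a : ℕ → ℝ) (φ : ℝ) (r M : ℕ) : ℂ :=
  ∑ y ∈ (TT r M).filter (fun y => ∑ i, fq (y i) = 0), ∏ i, cf a φ (y i)

lemma sum_prod_norm (a : ℕ → ℝ) (φ : ℝ) (r M : ℕ) :
    ∑ y ∈ TT r M, ‖∏ i, cf a φ (y i)‖ = (∑ m ∈ Icc 1 (M^2), |a m|) ^ r := by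
  rw [← sum_norm_cf a φ M, Finset.sum_pow']
  unfold TT
  apply sum_congr rfl
  intro y _
  rw [norm_prod]

open Classical in
/-- comparison of a power sum of the model polynomial with the zero-frequency part -/
theorem pow_compare (a : ℕ → ℝ) (φ : ℝ) (r M : ℕ) (S : Finset ℕ) (g : ℕ → ℝ) {K : ℝ} (hK0 : 0 ≤ K)
    (hK : ∀ y ∈ TT r M, ∑ i, fq (y i) ≠ 0 → ‖∑ n ∈ S, e (g n * ∑ i, fq (y i))‖ ≤ K) :
    ‖∑ n ∈ S, ((U a φ (g n) M : ℝ) : ℂ) ^ r - S.card * ZZ a φ r M‖ ≤ (∑ m ∈ Icc 1 (M^2), |a m|) ^ r * K := by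
  have h1 : ∑ n ∈ S, ((U a φ (g n) M : ℝ) : ℂ) ^ r =
      ∑ y ∈ TT r M, (∏ i, cf a φ (y i)) * ∑ n ∈ S, e (g n * ∑ i, fq (y i)) := by
    rw [sum_congr rfl (fun n _ => U_pow a φ (g n) r M), sum_comm]
    apply sum_congr rfl
    intro y _
    rw [mul_sum]
  have h2 : S.card * ZZ a φ r M = ∑ y ∈ TT r M,
      (if ∑ i, fq (y i) = 0 then (∏ i, cf a φ (y i)) * (S.card : ℂ) else 0) := by
    unfold ZZ
    rw [sum_filter, mul_sum]
    apply sum_congr rfl
    intro y _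
    split_ifs <;> ring
  rw [h1, h2, ← sum_sub_distrib, ← sum_prod_norm a φ r M, sum_mul]
  refine (norm_sum_le _ _).trans (sum_le_sum fun y hy => ?_)
  split_ifs with h0
  · rw [h0]
    simp only [mul_zero, e_zero, sum_const, nsmul_eq_mul, mul_one, sub_self, norm_zero]
    positivity
  · rw [sub_zero, norm_mul]
    exact mul_le_mul_of_nonneg_left (hK y hy h0) (norm_nonneg _)

/-- size of the frequencies -/
lemma fq_le {M : ℕ} {y : ℕ × Bool} (hy : y ∈ JS M) : |fq y| ≤ M := by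
  unfold JS at hy
  rw [mem_product, mem_Icc] at hy
  unfold fq
  have h1 : |(sb y.2 : ℝ)| = 1 := by
    unfold sb; split_ifs <;> simp
  rw [abs_mul, h1, one_mul, abs_of_nonneg (Real.sqrt_nonneg _), Real.sqrt_le_left (Nat.cast_nonneg _)]
  exact_mod_cast hy.1.2

lemma sum_fq_le {r M : ℕ} {y : Fin r → ℕ × Bool} (hy : y ∈ TT r M) : |∑ i, fq (y i)| ≤ r * M := by
  refine (abs_sum_le_sum_abs _ _).trans ?_
  unfold TT at hy
  rw [Fintype.mem_piFinset] at hy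
  calc ∑ i, |fq (y i)| ≤ ∑ _i : Fin r, (M:ℝ) := sum_le_sum fun i _ => fq_le (hy i)
    _ = r * M := by simp

/-- gap of the frequencies -/
lemma sum_fq_gap {r M : ℕ} {y : Fin r → ℕ × Bool} (hy : y ∈ TT r M) (hne : ∑ i, fq (y i) ≠ 0) :
    1 ≤ |∑ i, fq (y i)| * ((r * M + 1 : ℕ) : ℝ) ^ (2 ^ r) := by
  classical
  have hy' := hy
  unfold TT at hy'
  rw [Fintype.mem_piFinset] at hy'
  set g : Fin r → ℕ := fun i => (y i).1 with hg
  have hg1 : ∀ i, 1 ≤ g i := by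
    intro i
    have := hy' i
    unfold JS at this
    rw [mem_product, mem_Icc] at this
    exact this.1.1
  set c : Finset (Fin r) → ℤ := fun T => ∑ i, if ({i} : Finset (Fin r)) = T then sb (y i).2 else 0 with hc
  have hv : ∀ i : Fin r, vv g {i} = √(g i : ℝ) := by
    intro i; unfold vv; rw [prod_singleton]
  have h1 : ∑ T, (c T : ℝ) * vv g T = ∑ i, fq (y i) := by
    simp only [hc]
    push_cast
    simp only [Finset.sum_mul]
    rw [Finset.sum_comm]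
    apply Finset.sum_congr rfl
    intro k _
    rw [Finset.sum_eq_single ({k} : Finset (Fin r))]
    · rw [if_pos rfl, hv]; rfl
    · intro T _ hT
      rw [if_neg (Ne.symm hT), zero_mul]
    · intro h; exact absurd (Finset.mem_univ _) h
  have h2 : ∑ T, |(c T : ℝ)| * vv g T ≤ ∑ i, √(g i : ℝ) := by
    have h3 : ∀ T, |(c T : ℝ)| * vv g T ≤ ∑ k, (if ({k} : Finset (Fin r)) = T then (1:ℝ) else 0) * vv g T := by
      intro T
      rw [← Finset.sum_mul]
      apply mul_le_mul_of_nonneg_right _ (vv_pos hg1 T).le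
      simp only [hc]
      push_cast
      refine (Finset.abs_sum_le_sum_abs _ _).trans (le_of_eq ?_)
      apply Finset.sum_congr rfl
      intro k _
      split_ifs
      · unfold sb; split_ifs <;> simp
      · simp
    refine (Finset.sum_le_sum (fun T _ => h3 T)).trans (le_of_eq ?_)
    rw [Finset.sum_comm]
    apply Finset.sum_congr rfl
    intro k _
    rw [Finset.sum_eq_single ({k} : Finset (Fin r))]
    · rw [if_pos rfl, hv, one_mul]
    · intro T _ hT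
      rw [if_neg (Ne.symm hT), zero_mul]
    · intro h; exact absurd (Finset.mem_univ _) h
  have h3 : ∑ i, √(g i : ℝ) ≤ ((r * M + 1 : ℕ) : ℝ) := by
    calc ∑ i, √(g i : ℝ) ≤ ∑ _i : Fin r, (M:ℝ) := by
          apply sum_le_sum
          intro i _
          have := fq_le (hy' i)
          unfold fq at this
          have h1 : |(sb (y i).2 : ℝ)| = 1 := by
            unfold sb; split_ifs <;> simp
          rw [abs_mul, h1, one_mul, abs_of_nonneg (Real.sqrt_nonneg _)] at this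
          exact this
      _ = r * M := by simp
      _ ≤ _ := by push_cast; linarith
  rw [← h1] at hne ⊢
  have h4 := liou hg1 c (B := ((r * M + 1 : ℕ) : ℝ)) (by push_cast; nlinarith [Nat.cast_nonneg (α := ℝ) r, Nat.cast_nonneg (α := ℝ) M, mul_nonneg (Nat.cast_nonneg (α := ℝ) r) (Nat.cast_nonneg (α := ℝ) M)]) (h2.trans h3) hne
  rw [Fintype.card_fin] at h4
  exact h4

end Pool.Agent.Y969.TM
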