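import Mathlib
import Pool.Agent.H383.Reg
import Pool.Agent.Y969.TM3

/-! The zero-frequency part of the even powers of the model polynomials is bounded uniformly. -/

set_option autoImplicit false

open Finset Filter Topology
open Pool.Agent.H383.AP Pool.Agent.H383.Gauss
open Pool.Agent.H383.Gen
open Pool.Agent.H469R2.NK (e norm_e e_add conj_e e_zero)

namespace Pool.Agent.Y969.TM

lemma exists_tr : ∃ t : ℝ, 0 < t ∧ Transcendental ℤ t := by
  have h := transcendental_liouvilleNumber (m := 2) le_rfl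
  set x : ℝ := liouvilleNumber ((2:ℕ):ℝ) with hx
  have hx0 : x ≠ 0 := by
    intro h0
    apply h
    rw [h0]; exact isAlgebraic_zero
  rcases lt_or_gt_of_ne hx0 with h1 | h1
  · refine ⟨-x, by linarith, fun h2 => h ?_⟩
    have := h2.neg
    rwa [neg_neg] at this
  · exact ⟨x, h1, h⟩

lemma fq_int (y : ℕ × Bool) : IsIntegral ℤ (fq y) := by
  unfold fq
  apply IsIntegral.mul
  · exact isIntegral_algebraMap (R := ℤ) (A := ℝ) (x := sb y.2)
  · apply IsIntegral.of_pow (n := 2) (by norm_num)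
    rw [Real.sq_sqrt (Nat.cast_nonneg _)]
    exact isIntegral_algebraMap (R := ℤ) (A := ℝ) (x := (y.1 : ℤ))

lemma no_res {t : ℝ} (ht : Transcendental ℤ t) {r : ℕ} (y : Fin r → ℕ × Bool) (hne : ∑ i, fq (y i) ≠ 0) :
    ¬ ∃ k : ℤ, t * ∑ i, fq (y i) = k := by
  rintro ⟨k, hk⟩
  apply ht
  have h1 : t = (k:ℝ) * (∑ i, fq (y i))⁻¹ := by
    rw [← hk]; field_simp
  have h2 : IsIntegral ℤ (∑ i, fq (y i)) := IsIntegral.sum _ (fun i _ => fq_int (y i))
  rw [h1]
  exact (isAlgebraic_algebraMap (R := ℤ) (A := ℝ) k).mul h2.isAlgebraic.inv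

/-- mean of the powers -/
theorem pow_mean {t : ℝ} (ht : Transcendental ℤ t) (a : ℕ → ℝ) (φ : ℝ) (r M : ℕ) :
    HasMean (fun n : ℕ => ((U a φ (n * t) M : ℝ) : ℂ) ^ r) (ZZ a φ r M) := by
  classical
  have e1 : (fun n : ℕ => ((U a φ (n * t) M : ℝ) : ℂ) ^ r) =
      ∑ y ∈ TT r M, (∏ i, cf a φ (y i)) • chr (t * ∑ i, fq (y i)) := by
    funext n
    rw [U_pow, Finset.sum_apply]
    apply sum_congr rfl
    intro y _
    rw [Pi.smul_apply, smul_eq_mul]
    congr 1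
    unfold e chr
    congr 2
    push_cast; ring
  rw [e1]
  have h := HasMean.sum (TT r M) (fun y => (∏ i, cf a φ (y i)) • chr (t * ∑ i, fq (y i)))
    (fun y => (∏ i, cf a φ (y i)) * mc (t * ∑ i, fq (y i))) (fun y _ => (chr_mean _).smul _)
  have e2 : ∑ y ∈ TT r M, (∏ i, cf a φ (y i)) * mc (t * ∑ i, fq (y i)) = ZZ a φ r M := by
    unfold ZZ
    rw [sum_filter]
    apply sum_congr rfl
    intro y _
    unfold mc
    by_cases h0 : ∑ i, fq (y i) = 0
    · rw [if_pos h0, if_pos ⟨0, by rw [h0]; simp⟩, mul_one]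
    · rw [if_neg h0, if_neg (no_res ht y h0), mul_zero]
  rw [e2] at h
  exact h

lemma pow_le_exp (x : ℝ) (k : ℕ) : x ^ (2 * k) ≤ ((2 * k).factorial : ℝ) * (Real.exp x + Real.exp (-x)) := by
  have h1 : ∀ y : ℝ, 0 ≤ y → y ^ (2 * k) ≤ ((2 * k).factorial : ℝ) * Real.exp y := by
    intro y hy
    have h := Real.pow_div_factorial_le_exp y hy (2 * k)
    rw [div_le_iff₀ (by positivity)] at h
    linarith
  have h2 : (0:ℝ) < ((2 * k).factorial : ℝ) := by positivity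
  rcases le_total 0 x with h | h
  · have := h1 x h
    nlinarith [Real.exp_pos (-x), Real.exp_pos x]
  · have := h1 (-x) (by linarith)
    rw [Even.neg_pow (even_two_mul k)] at this
    nlinarith [Real.exp_pos (-x), Real.exp_pos x]

/-- uniform bound for the zero-frequency part -/
theorem ZZ_bound {a : ℕ → ℝ} (φ : ℝ) (hb : Bd a) :
    ∃ K : ℝ, 0 < K ∧ ∀ k M : ℕ, ‖ZZ a φ (2 * k) M‖ ≤ K * ((2 * k).factorial : ℝ) := by
  classical
  obtain ⟨t, ht0, ht⟩ := exists_tr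
  obtain ⟨S0, hS⟩ := exists_S ht0
  obtain ⟨C, hC, hCa⟩ := hb
  have hCa' : ∀ m : ℕ, 1 ≤ m → |a m| ≤ C * (m:ℝ) ^ (-(37/50):ℝ) := by
    intro m hm
    have hm0 : (0:ℝ) < m := by exact_mod_cast hm
    have h1 := hCa m hm
    have h2 : (√(m:ℝ)) ^ (-(37/25):ℝ) = (m:ℝ) ^ (-(37/50):ℝ) := by
      rw [Real.sqrt_eq_rpow, ← Real.rpow_mul hm0.le]; norm_num
    rwa [h2] at h1
  obtain ⟨B0, D, hB0, hD, hm⟩ := mgf_bound (a := a) (φ := φ) (α := t) (X := 0) (κ := 37/50) (p := 2) hS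
    (by norm_num) hC hCa' (by norm_num) le_rfl (by norm_num)
  refine ⟨2 * Real.exp (B0 + D), by positivity, fun k M => ?_⟩
  have h1 := pow_mean ht a φ (2 * k) M
  have e0 : ∀ l : ℝ, ex a φ t 0 (l:ℂ) (Icc 1 (M^2)) = fun n : ℕ => ((Real.exp (l * U a φ (n * t) M) : ℝ) : ℂ) := by
    intro l
    funext n
    unfold ex
    rw [ST_U, zero_add]
    push_cast
    rfl
  have h2 := fun l : ℝ => UC_hasMean (ex_UC_top (a := a) (φ := φ) (α := t) (X := 0) (T := Icc 1 (M^2)) (l:ℂ))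
  have h3 := (h2 1).add (h2 (-1))
  have hfac : (0:ℝ) < ((2 * k).factorial : ℝ) := by positivity
  -- real versions
  have hA : Tendsto (rm (fun n : ℕ => (U a φ (n * t) M) ^ (2 * k))) atTop (𝓝 (ZZ a φ (2 * k) M).re) := by
    unfold HasMean at h1
    have : cm (fun n : ℕ => ((U a φ (n * t) M : ℝ) : ℂ) ^ (2 * k)) =
        fun N => ((rm (fun n : ℕ => (U a φ (n * t) M) ^ (2 * k)) N : ℝ) : ℂ) := by
      funext N
      rw [← cm_ofReal]
      push_cast
      rfl
    rw [this] at h1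
    exact (Complex.continuous_re.tendsto _).comp h1
  have hIm : (ZZ a φ (2 * k) M).im = 0 := by
    unfold HasMean at h1
    have : cm (fun n : ℕ => ((U a φ (n * t) M : ℝ) : ℂ) ^ (2 * k)) =
        fun N => ((rm (fun n : ℕ => (U a φ (n * t) M) ^ (2 * k)) N : ℝ) : ℂ) := by
      funext N
      rw [← cm_ofReal]
      push_cast
      rfl
    rw [this] at h1
    have h4 := (Complex.continuous_im.tendsto _).comp h1
    have h5 : Tendsto (fun _ : ℕ => (0:ℝ)) atTop (𝓝 (ZZ a φ (2 * k) M).im) := h4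
    exact tendsto_nhds_unique h5 tendsto_const_nhds |>.symm ▸ rfl
  have hB : Tendsto (rm (fun n : ℕ => Real.exp (U a φ (n * t) M) + Real.exp (-(U a φ (n * t) M)))) atTop
      (𝓝 (mn (ex a φ t 0 ((1:ℝ):ℂ) (Icc 1 (M^2))) + mn (ex a φ t 0 ((-1:ℝ):ℂ) (Icc 1 (M^2)))).re) := by
    unfold HasMean at h3
    have : cm (ex a φ t 0 ((1:ℝ):ℂ) (Icc 1 (M^2)) + ex a φ t 0 ((-1:ℝ):ℂ) (Icc 1 (M^2))) =
        fun N => ((rm (fun n : ℕ => Real.exp (U a φ (n * t) M) + Real.exp (-(U a φ (n * t) M))) N : ℝ) : ℂ) := by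
      funext N
      rw [← cm_ofReal, e0, e0]
      simp only [one_mul, neg_mul]
      push_cast
      rfl
    rw [this] at h3
    exact (Complex.continuous_re.tendsto _).comp h3
  have hle : (ZZ a φ (2 * k) M).re ≤ ((2 * k).factorial : ℝ) *
      (mn (ex a φ t 0 ((1:ℝ):ℂ) (Icc 1 (M^2))) + mn (ex a φ t 0 ((-1:ℝ):ℂ) (Icc 1 (M^2)))).re := by
    refine le_of_tendsto_of_tendsto hA (hB.const_mul _) (Eventually.of_forall fun N => ?_)
    beta_reduce
    rw [← rm_mul]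
    exact rm_mono (fun n => pow_le_exp _ k) N
  have h0 : 0 ≤ (ZZ a φ (2 * k) M).re := by
    refine ge_of_tendsto hA (Eventually.of_forall fun N => rm_nonneg (fun n => ?_) N)
    exact Even.pow_nonneg (even_two_mul k) _
  have hnorm : ‖ZZ a φ (2 * k) M‖ = (ZZ a φ (2 * k) M).re := by
    have : ZZ a φ (2 * k) M = (((ZZ a φ (2 * k) M).re : ℝ) : ℂ) := by
      apply Complex.ext
      · simp
      · simp [hIm]
    rw [this, Complex.norm_real, Real.norm_eq_abs, abs_of_nonneg h0, Complex.ofReal_re]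
  rw [hnorm]
  refine hle.trans ?_
  have hm1 := hm 1 M
  have hm2 := hm (-1) M
  simp only [abs_one, mul_one, abs_neg, Real.one_rpow] at hm1 hm2
  have h6 : (mn (ex a φ t 0 ((1:ℝ):ℂ) (Icc 1 (M^2))) + mn (ex a φ t 0 ((-1:ℝ):ℂ) (Icc 1 (M^2)))).re ≤ 2 * Real.exp (B0 + D) := by
    refine (Complex.re_le_norm _).trans ((norm_add_le _ _).trans ?_)
    linarith
  calc ((2 * k).factorial : ℝ) * _ ≤ ((2 * k).factorial : ℝ) * (2 * Real.exp (B0 + D)) :=
        mul_le_mul_of_nonneg_left h6 hfac.le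
    _ = _ := by ring

end Pool.Agent.Y969.TM
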