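import Mathlib
import Pool.Agent.H469R2.NK.KL

/-! Families of sampling sets. -/

set_option autoImplicit false

open Finset
open Pool.Agent.H469R2.NK

namespace Pool.Agent.Y969.TM

/-- the properties of the sampling sets that are used -/
structure Fam (S : ℕ → Finset ℕ) : Prop where
  sub : ∀ N, S N ⊆ Icc 1 N
  card : ∀ δ : ℝ, 0 < δ → ∃ C : ℝ, 0 < C ∧ ∀ N : ℕ, 2 ≤ N → (N:ℝ) ≤ C * (S N).card * (N:ℝ) ^ δ
  ker : ∃ C : ℝ, 0 < C ∧ ∀ N : ℕ, 2 ≤ N → ∀ θ : ℝ, θ ≠ 0 → |θ| + 1/|θ| ≤ 2 * (N:ℝ) ^ (1/32:ℝ) →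
    ‖∑ n ∈ S N, e (θ * √(n:ℝ))‖ ≤ C * (N:ℝ) ^ (127/128:ℝ)

lemma Fam.card_le {S : ℕ → Finset ℕ} (h : Fam S) (N : ℕ) : ((S N).card : ℝ) ≤ N := by
  have h1 := Finset.card_le_card (h.sub N)
  rw [Nat.card_Icc] at h1
  exact_mod_cast (by omega : (S N).card ≤ N)

lemma Fam.card_pos {S : ℕ → Finset ℕ} (h : Fam S) {N : ℕ} (hN : 2 ≤ N) : (0:ℝ) < (S N).card := by
  obtain ⟨C, hC, h1⟩ := h.card 1 one_pos
  have h2 := h1 N hN
  have hN0 : (0:ℝ) < N := by exact_mod_cast (by omega : 0 < N)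
  by_contra h3
  have h4 : ((S N).card : ℝ) = 0 := le_antisymm (not_lt.mp h3) (Nat.cast_nonneg _)
  rw [h4] at h2
  simp only [mul_zero, zero_mul] at h2
  linarith

end Pool.Agent.Y969.TM
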