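import Mathlib
import Pool.Agent.Y969.TM4
import Pool.Agent.Y969.TM5a

/-! Moments of the model polynomials over the sampling sets, and the tails of the error term. -/

set_option autoImplicit false

open Finset
open Pool.Agent.H383.Gen (U Bd)
open Pool.Agent.H469R2.NK

namespace Pool.Agent.Y969.TM

lemma a_le_of_Bd {a : ℕ → ℝ} (hb : Bd a) : ∃ C : ℝ, 0 < C ∧ ∀ M : ℕ, 1 ≤ M →
    ∑ m ∈ Icc 1 (M^2), |a m| ≤ C * (M:ℝ)^2 := by
  obtain ⟨C, hC, h⟩ := hb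
  refine ⟨C, hC, fun M hM => ?_⟩
  calc ∑ m ∈ Icc 1 (M^2), |a m| ≤ ∑ _m ∈ Icc 1 (M^2), C := by
        apply sum_le_sum
        intro m hm
        rw [mem_Icc] at hm
        refine (h m hm.1).trans ?_
        have h1 : (1:ℝ) ≤ √(m:ℝ) := by
          rw [Real.one_le_sqrt]; exact_mod_cast hm.1
        have h2 : (√(m:ℝ)) ^ (-(37/25):ℝ) ≤ 1 := Real.rpow_le_one_of_one_le_of_nonpos h1 (by norm_num)
        nlinarith
    _ = _ := by
        rw [sum_const, Nat.card_Icc, nsmul_eq_mul, Nat.add_sub_cancel]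
        push_cast; ring

lemma abs_U_le (a : ℕ → ℝ) (φ R : ℝ) (M : ℕ) : |U a φ R M| ≤ ∑ m ∈ Icc 1 (M^2), |a m| := by
  unfold U
  refine (abs_sum_le_sum_abs _ _).trans (sum_le_sum fun m _ => ?_)
  rw [abs_mul]
  exact mul_le_of_le_one_right (abs_nonneg _) (Real.abs_cos_le_one _)

lemma four_k (k : ℕ) (hk : 1 ≤ k) : 4 * k ≤ 4 ^ k := by
  induction k with
  | zero => omega
  | succ n ih =>
    rcases Nat.eq_zero_or_pos n with h | h
    · subst h; norm_num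
    · have := ih h
      rw [pow_succ]
      omega

/-- moments of the model polynomials over the sampling sets -/
theorem model_moments {a : ℕ → ℝ} (φ : ℝ) (hb : Bd a) {S : ℕ → Finset ℕ} (hS : Fam S) {c : ℝ} (hc : 0 < c)
    {k : ℕ} (hk : 1 ≤ k) : ∃ C : ℝ, 0 < C ∧ ∀ N M : ℕ, 2 ≤ N → 1 ≤ M → (M:ℝ) ^ (4 ^ k) ≤ (N:ℝ) ^ (1/1000:ℝ) →
      ∑ n ∈ S N, (U a φ (c * √(n:ℝ)) M) ^ (2 * k) ≤ C * (S N).card := by
  obtain ⟨Ca, hCa0, hCa⟩ := a_le_of_Bd hb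
  obtain ⟨Ck, hCk0, hker⟩ := hS.ker
  obtain ⟨K, hK0, hZ⟩ := ZZ_bound φ hb
  obtain ⟨Cc, hCc0, hcard⟩ := hS.card (1/1000) (by norm_num)
  -- threshold
  set D : ℝ := c * (2 * k) + ((2 * k + 1 : ℕ):ℝ) ^ (4 ^ k) / c with hD
  have hD0 : 0 < D := by positivity
  obtain ⟨N1, hN1⟩ : ∃ N1 : ℕ, ∀ N : ℕ, N1 ≤ N → D ≤ (N:ℝ) ^ (1/64:ℝ) := by
    have := (((tendsto_rpow_atTop (by norm_num : (0:ℝ) < 1/64)).comp tendsto_natCast_atTop_atTop).eventually_ge_atTop D)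
    exact Filter.eventually_atTop.mp this
  refine ⟨(Ca ^ (2 * k) * (max N1 2 : ℕ)) + (K * ((2 * k).factorial : ℝ) + Ca ^ (2 * k) * Ck * Cc), by positivity, ?_⟩
  intro N M hN hM hMN
  have hNr : (1:ℝ) ≤ N := by exact_mod_cast (by omega : 1 ≤ N)
  have hNpos : (0:ℝ) < N := by linarith
  have hMr : (1:ℝ) ≤ M := by exact_mod_cast hM
  have hM4k : (M:ℝ) ^ (4 * k) ≤ (N:ℝ) ^ (1/1000:ℝ) :=
    (pow_le_pow_right₀ hMr (four_k k hk)).trans hMN
  have hcardS : (0:ℝ) ≤ (S N).card := Nat.cast_nonneg _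
  have hsumA : (∑ m ∈ Icc 1 (M^2), |a m|) ^ (2 * k) ≤ Ca ^ (2 * k) * (N:ℝ) ^ (1/1000:ℝ) := by
    calc (∑ m ∈ Icc 1 (M^2), |a m|) ^ (2 * k) ≤ (Ca * (M:ℝ)^2) ^ (2 * k) :=
          pow_le_pow_left₀ (sum_nonneg fun _ _ => abs_nonneg _) (hCa M hM) _
      _ = Ca ^ (2 * k) * (M:ℝ) ^ (4 * k) := by
          rw [mul_pow, ← pow_mul]; congr 2; ring
      _ ≤ _ := by gcongr
  rcases Nat.lt_or_ge N (max N1 2) with hlt | hge
  · -- small N
    have h1 : ∑ n ∈ S N, (U a φ (c * √(n:ℝ)) M) ^ (2 * k) ≤ ∑ _n ∈ S N, Ca ^ (2 * k) * (max N1 2 : ℕ) := by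
      apply sum_le_sum
      intro n _
      have h2 : (U a φ (c * √(n:ℝ)) M) ^ (2 * k) ≤ (∑ m ∈ Icc 1 (M^2), |a m|) ^ (2 * k) := by
        rw [← Even.pow_abs (even_two_mul k)]
        exact pow_le_pow_left₀ (abs_nonneg _) (abs_U_le _ _ _ _) _
      refine h2.trans (hsumA.trans ?_)
      have h3 : (N:ℝ) ^ (1/1000:ℝ) ≤ (max N1 2 : ℕ) := by
        calc (N:ℝ) ^ (1/1000:ℝ) ≤ (N:ℝ) ^ (1:ℝ) := Real.rpow_le_rpow_of_exponent_le hNr (by norm_num)
          _ = N := Real.rpow_one _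
          _ ≤ _ := by exact_mod_cast hlt.le
      gcongr
    rw [sum_const, nsmul_eq_mul] at h1
    refine h1.trans ?_
    have h4 : 0 ≤ (K * ((2 * k).factorial : ℝ) + Ca ^ (2 * k) * Ck * Cc) := by positivity
    nlinarith
  · have hDN := hN1 N (le_trans (le_max_left _ _) hge)
    have hbig : ∀ y ∈ TT (2 * k) M, ∑ i, fq (y i) ≠ 0 →
        ‖∑ n ∈ S N, e ((c * √(n:ℝ)) * ∑ i, fq (y i))‖ ≤ Ck * (N:ℝ) ^ (127/128:ℝ) := by
      intro y hy hne
      set ξ : ℝ := ∑ i, fq (y i) with hξ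
      have hξ1 := sum_fq_le hy
      have hξ2 := sum_fq_gap hy hne
      rw [← hξ] at hξ1 hξ2
      have hξ0 : 0 < |ξ| := abs_pos.mpr hne
      have e1 : ∑ n ∈ S N, e ((c * √(n:ℝ)) * ξ) = ∑ n ∈ S N, e ((c * ξ) * √(n:ℝ)) := by
        apply sum_congr rfl; intro n _; congr 1; ring
      rw [e1]
      apply hker N hN (c * ξ) (mul_ne_zero hc.ne' hne)
      rw [abs_mul, abs_of_pos hc]
      have h2 : 1 / (c * |ξ|) ≤ ((2 * k + 1 : ℕ):ℝ) ^ (4 ^ k) / c * (M:ℝ) ^ (4 ^ k) := by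
        have h3 : (((2 * k : ℕ) * M + 1 : ℕ):ℝ) ≤ ((2 * k + 1 : ℕ):ℝ) * M := by
          push_cast; nlinarith
        have h4 : ((((2 * k : ℕ) * M + 1 : ℕ)):ℝ) ^ (2 ^ (2 * k)) ≤ (((2 * k + 1 : ℕ):ℝ) * M) ^ (2 ^ (2 * k)) :=
          pow_le_pow_left₀ (Nat.cast_nonneg _) h3 _
        have h5 : 1 ≤ |ξ| * ((((2 * k + 1 : ℕ):ℝ)) ^ (4 ^ k) * (M:ℝ) ^ (4 ^ k)) := by
          rw [← mul_pow, show (4:ℕ) = 2 ^ 2 by norm_num, ← pow_mul]
          exact hξ2.trans (mul_le_mul_of_nonneg_left h4 hξ0.le)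
        rw [div_le_iff₀ (by positivity)]
        calc (1:ℝ) ≤ |ξ| * ((((2 * k + 1 : ℕ):ℝ)) ^ (4 ^ k) * (M:ℝ) ^ (4 ^ k)) := h5
          _ = _ := by field_simp
      have h3 : c * |ξ| ≤ c * (2 * k) * (M:ℝ) ^ (4 ^ k) := by
        have h6 : (M:ℝ) ≤ (M:ℝ) ^ (4 ^ k) := by
          calc (M:ℝ) = (M:ℝ) ^ 1 := (pow_one _).symm
            _ ≤ _ := pow_le_pow_right₀ hMr (Nat.one_le_pow _ _ (by norm_num))
        have h7 : |ξ| ≤ (2 * k) * (M:ℝ) ^ (4 ^ k) := by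
          refine hξ1.trans ?_
          push_cast
          gcongr
        rw [mul_assoc]
        exact mul_le_mul_of_nonneg_left h7 hc.le
      calc c * |ξ| + 1 / (c * |ξ|) ≤ D * (M:ℝ) ^ (4 ^ k) := by rw [hD]; linarith
        _ ≤ (N:ℝ) ^ (1/64:ℝ) * (N:ℝ) ^ (1/1000:ℝ) := by gcongr
        _ = (N:ℝ) ^ (1/64 + 1/1000 : ℝ) := (Real.rpow_add hNpos _ _).symm
        _ ≤ (N:ℝ) ^ (1/32:ℝ) := Real.rpow_le_rpow_of_exponent_le hNr (by norm_num)
        _ ≤ _ := by linarith [Real.rpow_nonneg hNpos.le (1/32)]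
    have h1 := pow_compare a φ (2 * k) M (S N) (fun n => c * √(n:ℝ)) (K := Ck * (N:ℝ) ^ (127/128:ℝ)) (by positivity) hbig
    have h2 : ((∑ n ∈ S N, (U a φ (c * √(n:ℝ)) M) ^ (2 * k) : ℝ) : ℂ) =
        ∑ n ∈ S N, ((U a φ (c * √(n:ℝ)) M : ℝ) : ℂ) ^ (2 * k) := by push_cast; rfl
    have h3 : ∑ n ∈ S N, (U a φ (c * √(n:ℝ)) M) ^ (2 * k) ≤
        (S N).card * (K * ((2 * k).factorial : ℝ)) + (∑ m ∈ Icc 1 (M^2), |a m|) ^ (2 * k) * (Ck * (N:ℝ) ^ (127/128:ℝ)) := by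
      have h4 : ∑ n ∈ S N, (U a φ (c * √(n:ℝ)) M) ^ (2 * k) ≤ ‖((∑ n ∈ S N, (U a φ (c * √(n:ℝ)) M) ^ (2 * k) : ℝ) : ℂ)‖ := by
        rw [Complex.norm_real]; exact le_abs_self _
      refine h4.trans ?_
      rw [h2]
      calc ‖∑ n ∈ S N, ((U a φ (c * √(n:ℝ)) M : ℝ) : ℂ) ^ (2 * k)‖ =
            ‖(S N).card * ZZ a φ (2 * k) M + (∑ n ∈ S N, ((U a φ (c * √(n:ℝ)) M : ℝ) : ℂ) ^ (2 * k) - (S N).card * ZZ a φ (2 * k) M)‖ := by
              congr 1; ring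
        _ ≤ ‖((S N).card : ℂ) * ZZ a φ (2 * k) M‖ + _ := norm_add_le _ _
        _ ≤ _ := by
            apply add_le_add _ h1
            rw [norm_mul, Complex.norm_natCast]
            exact mul_le_mul_of_nonneg_left (hZ k M) (Nat.cast_nonneg _)
    refine h3.trans ?_
    have h5 : (∑ m ∈ Icc 1 (M^2), |a m|) ^ (2 * k) * (Ck * (N:ℝ) ^ (127/128:ℝ)) ≤ Ca ^ (2 * k) * Ck * Cc * (S N).card := by
      calc _ ≤ (Ca ^ (2 * k) * (N:ℝ) ^ (1/1000:ℝ)) * (Ck * (N:ℝ) ^ (127/128:ℝ)) := by gcongr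
        _ = Ca ^ (2 * k) * Ck * ((N:ℝ) ^ (1/1000:ℝ) * (N:ℝ) ^ (127/128:ℝ)) := by ring
        _ ≤ Ca ^ (2 * k) * Ck * (Cc * (S N).card) := by
            apply mul_le_mul_of_nonneg_left _ (by positivity)
            have h6 := hcard N hN
            have h7 : (N:ℝ) ^ (1/1000:ℝ) * (N:ℝ) ^ (127/128:ℝ) ≤ N * (N:ℝ) ^ (-(1/1000):ℝ) := by
              rw [← Real.rpow_add hNpos]
              calc (N:ℝ) ^ (1/1000 + 127/128 : ℝ) ≤ (N:ℝ) ^ (1 + -(1/1000) : ℝ) :=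
                    Real.rpow_le_rpow_of_exponent_le hNr (by norm_num)
                _ = _ := by rw [Real.rpow_add hNpos, Real.rpow_one]
            refine h7.trans ?_
            calc N * (N:ℝ) ^ (-(1/1000):ℝ) ≤ (Cc * (S N).card * (N:ℝ) ^ (1/1000:ℝ)) * (N:ℝ) ^ (-(1/1000):ℝ) := by gcongr
              _ = Cc * (S N).card * ((N:ℝ) ^ (1/1000:ℝ) * (N:ℝ) ^ (-(1/1000):ℝ)) := by ring
              _ = _ := by
                  rw [← Real.rpow_add hNpos]; norm_num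
        _ = _ := by ring
    have h6 : 0 ≤ Ca ^ (2 * k) * ((max N1 2 : ℕ):ℝ) := by positivity
    nlinarith

/-- mean-square approximation over the integers -/
def MSq (a : ℕ → ℝ) (φ c ω : ℝ) (x : ℕ → ℝ) : Prop := ∃ C : ℝ, 0 < C ∧ ∀ M N : ℕ, 1 ≤ M → M^40 ≤ N →
  ∑ n ∈ Icc 1 N, (x n - U a φ (c * √(n:ℝ)) M)^2 ≤ C * (M:ℝ) ^ (-ω) * N

/-- **tails of polynomial decay of every order** -/
theorem tails {a : ℕ → ℝ} {φ : ℝ} (hb : Bd a) {S : ℕ → Finset ℕ} (hS : Fam S) {c ω : ℝ} (hc : 0 < c)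
    (hω : 0 < ω) {x : ℕ → ℝ} (hx : MSq a φ c ω x) {k : ℕ} (hk : 1 ≤ k) :
    ∃ C : ℝ, 0 < C ∧ ∀ N : ℕ, 2 ≤ N → ∀ V : ℝ, 0 < V →
      (((S N).filter (fun n => V < |x n|)).card : ℝ) ≤
        C * (S N).card * (V ^ (-(2 * k : ℝ)) + (N:ℝ) ^ (-(ω / 2000 / 4 ^ k))) := by
  obtain ⟨C1, hC1, hmod⟩ := model_moments φ hb hS hc hk
  obtain ⟨C2, hC2, hms⟩ := hx
  set δ : ℝ := ω / 2000 / 4 ^ k with hδ
  have h4k : (1:ℝ) ≤ 4 ^ k := one_le_pow₀ (by norm_num)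
  have h4k' : (4:ℝ) ≤ 4 ^ k := by
    calc (4:ℝ) = 4 ^ 1 := (pow_one _).symm
      _ ≤ 4 ^ k := pow_le_pow_right₀ (by norm_num) hk
  have hδ0 : 0 < δ := by positivity
  obtain ⟨C3, hC3, hcard⟩ := hS.card δ hδ0
  refine ⟨1 + 4 ^ k * C1 + 4 * C2 * 2 ^ ω * C3, by positivity, ?_⟩
  intro N hN V hV
  have hNr : (1:ℝ) ≤ N := by exact_mod_cast (by omega : 1 ≤ N)
  have hNpos : (0:ℝ) < N := by linarith
  have hcard0 : (0:ℝ) ≤ (S N).card := Nat.cast_nonneg _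
  set A : ℝ := V ^ (-(2 * k : ℝ)) with hA
  set B : ℝ := (N:ℝ) ^ (-δ) with hB
  have hA0 : 0 < A := Real.rpow_pos_of_pos hV _
  have hB0 : 0 < B := Real.rpow_pos_of_pos hNpos _
  rcases lt_or_ge V 1 with hV1 | hV1
  · -- trivial
    have h1 : 1 ≤ A := by
      rw [hA, Real.rpow_neg hV.le]
      rw [one_le_inv₀ (by positivity)]
      exact Real.rpow_le_one hV.le hV1.le (by positivity)
    have h2 : (((S N).filter (fun n => V < |x n|)).card : ℝ) ≤ (S N).card := by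
      exact_mod_cast Finset.card_filter_le _ _
    calc (((S N).filter (fun n => V < |x n|)).card : ℝ) ≤ 1 * (S N).card * 1 := by linarith
      _ ≤ _ := by
          have h3 : (1:ℝ) ≤ 1 + 4 ^ k * C1 + 4 * C2 * 2 ^ ω * C3 := by
            have : 0 < 4 ^ k * C1 + 4 * C2 * 2 ^ ω * C3 := by positivity
            linarith
          have h4 : (1:ℝ) ≤ A + B := by linarith
          gcongr
  · -- choice of M
    set u : ℝ := (N:ℝ) ^ (1 / 1000 / 4 ^ k : ℝ) with hu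
    have hu1 : 1 ≤ u := Real.one_le_rpow hNr (by positivity)
    set M : ℕ := ⌊u⌋₊ with hM
    have hMu : (M:ℝ) ≤ u := Nat.floor_le (by linarith)
    have hM1 : 1 ≤ M := by rw [hM, Nat.le_floor_iff (by linarith)]; exact_mod_cast hu1
    have hMr : (1:ℝ) ≤ M := by exact_mod_cast hM1
    have huM : u / 2 ≤ M := by
      have h1 := Nat.lt_floor_add_one u
      rw [← hM] at h1
      linarith
    have hcond : (M:ℝ) ^ (4 ^ k) ≤ (N:ℝ) ^ (1/1000:ℝ) := by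
      calc (M:ℝ) ^ (4 ^ k) ≤ u ^ (4 ^ k) := pow_le_pow_left₀ (by linarith) hMu _
        _ = (N:ℝ) ^ (1/1000:ℝ) := by
            rw [hu, ← Real.rpow_natCast, ← Real.rpow_mul hNpos.le]
            congr 1
            push_cast
            field_simp
    have hM40 : M ^ 40 ≤ N := by
      have : (M:ℝ) ^ 40 ≤ N := by
        calc (M:ℝ) ^ 40 ≤ ((M:ℝ) ^ (4 ^ k)) ^ 40 := by
              apply pow_le_pow_left₀ (by linarith)
              calc (M:ℝ) = (M:ℝ) ^ 1 := (pow_one _).symm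
                _ ≤ _ := pow_le_pow_right₀ hMr (Nat.one_le_pow _ _ (by norm_num))
          _ ≤ ((N:ℝ) ^ (1/1000:ℝ)) ^ 40 := by gcongr
          _ = (N:ℝ) ^ (40/1000:ℝ) := by rw [← Real.rpow_natCast, ← Real.rpow_mul hNpos.le]; norm_num
          _ ≤ (N:ℝ) ^ (1:ℝ) := Real.rpow_le_rpow_of_exponent_le hNr (by norm_num)
          _ = N := Real.rpow_one _
      exact_mod_cast this
    have hm1 := hmod N M hN hM1 hcond
    have hm2 := hms M N hM1 hM40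
    have hm3 : ∑ n ∈ S N, (x n - U a φ (c * √(n:ℝ)) M)^2 ≤ C2 * (M:ℝ) ^ (-ω) * N :=
      (sum_le_sum_of_subset_of_nonneg (hS.sub N) (fun _ _ _ => sq_nonneg _)).trans hm2
    -- splitting
    have hsub : (S N).filter (fun n => V < |x n|) ⊆
        (S N).filter (fun n : ℕ => V/2 < |U a φ (c * √(n:ℝ)) M|) ∪ (S N).filter (fun n => V/2 < |x n - U a φ (c * √(n:ℝ)) M|) := by
      intro n hn
      rw [mem_filter] at hn
      rw [mem_union, mem_filter, mem_filter]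
      by_contra hcon
      push Not at hcon
      have h1 := hcon.1 hn.1
      have h2 := hcon.2 hn.1
      have h3 : |x n| ≤ |U a φ (c * √(n:ℝ)) M| + |x n - U a φ (c * √(n:ℝ)) M| := by
        calc |x n| = |U a φ (c * √(n:ℝ)) M + (x n - U a φ (c * √(n:ℝ)) M)| := by congr 1; ring
          _ ≤ _ := abs_add_le _ _
      linarith [hn.2]
    have hc1 : (((S N).filter (fun n : ℕ => V/2 < |U a φ (c * √(n:ℝ)) M|)).card : ℝ) ≤ 4 ^ k * C1 * (S N).card * A := by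
      have h1 : (((S N).filter (fun n : ℕ => V/2 < |U a φ (c * √(n:ℝ)) M|)).card : ℝ) * (V/2) ^ (2 * k) ≤
          ∑ n ∈ S N, (U a φ (c * √(n:ℝ)) M) ^ (2 * k) := by
        calc _ = ∑ _n ∈ (S N).filter (fun n : ℕ => V/2 < |U a φ (c * √(n:ℝ)) M|), (V/2) ^ (2 * k) := by
              rw [sum_const, nsmul_eq_mul]
          _ ≤ ∑ n ∈ (S N).filter (fun n : ℕ => V/2 < |U a φ (c * √(n:ℝ)) M|), (U a φ (c * √(n:ℝ)) M) ^ (2 * k) := by
              apply sum_le_sum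
              intro n hn
              rw [mem_filter] at hn
              rw [← Even.pow_abs (even_two_mul k) (U a φ (c * √(n:ℝ)) M)]
              exact pow_le_pow_left₀ (by linarith) hn.2.le _
          _ ≤ _ := sum_le_sum_of_subset_of_nonneg (filter_subset _ _) (fun _ _ _ => Even.pow_nonneg (even_two_mul k) _)
      have h2 : (V/2) ^ (2 * k) = (4 ^ k)⁻¹ * A⁻¹ := by
        rw [hA, Real.rpow_neg hV.le, inv_inv, show ((2:ℝ) * (k:ℝ)) = ((2 * k : ℕ):ℝ) by push_cast; ring, Real.rpow_natCast, div_pow,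
          pow_mul 2 2 k]
        norm_num
        ring
      have h3 := h1.trans hm1
      rw [h2] at h3
      have h4 : (0:ℝ) < (4 ^ k)⁻¹ * A⁻¹ := by positivity
      rw [← le_div_iff₀ h4] at h3
      refine h3.trans (le_of_eq ?_)
      field_simp
    have hc2 : (((S N).filter (fun n => V/2 < |x n - U a φ (c * √(n:ℝ)) M|)).card : ℝ) ≤ 4 * C2 * 2 ^ ω * C3 * (S N).card * B := by
      have h1 : (((S N).filter (fun n => V/2 < |x n - U a φ (c * √(n:ℝ)) M|)).card : ℝ) * (1/4) ≤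
          ∑ n ∈ S N, (x n - U a φ (c * √(n:ℝ)) M) ^ 2 := by
        calc _ = ∑ _n ∈ (S N).filter (fun n => V/2 < |x n - U a φ (c * √(n:ℝ)) M|), (1/4:ℝ) := by
              rw [sum_const, nsmul_eq_mul]
          _ ≤ ∑ n ∈ (S N).filter (fun n => V/2 < |x n - U a φ (c * √(n:ℝ)) M|), (x n - U a φ (c * √(n:ℝ)) M) ^ 2 := by
              apply sum_le_sum
              intro n hn
              rw [mem_filter] at hn
              rw [← sq_abs]
              nlinarith [hn.2]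
          _ ≤ _ := sum_le_sum_of_subset_of_nonneg (filter_subset _ _) (fun _ _ _ => sq_nonneg _)
      have h2 : (M:ℝ) ^ (-ω) ≤ 2 ^ ω * (N:ℝ) ^ (-(2 * δ)) := by
        calc (M:ℝ) ^ (-ω) ≤ (u / 2) ^ (-ω) := Real.rpow_le_rpow_of_nonpos (by linarith) huM (by linarith)
          _ = 2 ^ ω * u ^ (-ω) := by
              rw [Real.div_rpow (by linarith) (by norm_num), Real.rpow_neg (by norm_num : (0:ℝ) ≤ 2)]
              rw [div_inv_eq_mul]; ring
          _ = 2 ^ ω * (N:ℝ) ^ (-(2 * δ)) := by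
              congr 1
              rw [hu, ← Real.rpow_mul hNpos.le]
              congr 1
              rw [hδ]; field_simp; ring
      have h3 : C2 * (M:ℝ) ^ (-ω) * N ≤ C2 * 2 ^ ω * C3 * (S N).card * B := by
        calc C2 * (M:ℝ) ^ (-ω) * N ≤ C2 * (2 ^ ω * (N:ℝ) ^ (-(2 * δ))) * (C3 * (S N).card * (N:ℝ) ^ δ) := by
              have := hcard N hN
              gcongr
          _ = C2 * 2 ^ ω * C3 * (S N).card * ((N:ℝ) ^ (-(2 * δ)) * (N:ℝ) ^ δ) := by ring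
          _ = _ := by
              rw [← Real.rpow_add hNpos, hB]
              congr 2; ring
      linarith [h1.trans (hm3.trans h3)]
    have hfin : (((S N).filter (fun n => V < |x n|)).card : ℝ) ≤ 4 ^ k * C1 * (S N).card * A + 4 * C2 * 2 ^ ω * C3 * (S N).card * B := by
      have h1 := (Finset.card_le_card hsub).trans (Finset.card_union_le _ _)
      have h2 : (((S N).filter (fun n => V < |x n|)).card : ℝ) ≤
          (((S N).filter (fun n : ℕ => V/2 < |U a φ (c * √(n:ℝ)) M|)).card : ℝ) +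
          (((S N).filter (fun n => V/2 < |x n - U a φ (c * √(n:ℝ)) M|)).card : ℝ) := by exact_mod_cast h1
      linarith
    refine hfin.trans ?_
    have g1 : 0 ≤ (S N).card * A := by positivity
    have g2 : 0 ≤ (S N).card * B := by positivity
    have g3 : 0 ≤ 4 ^ k * C1 * ((S N).card * B) := by positivity
    have g4 : 0 ≤ 4 * C2 * 2 ^ ω * C3 * ((S N).card * A) := by positivity
    nlinarith

end Pool.Agent.Y969.TM
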