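import Mathlib
import Pool.Agent.Y969.TM2
import Pool.Agent.Y969.TM6

/-! Exceptional sets and truncated moments from the tails. -/

set_option autoImplicit false

open Finset Filter Topology MeasureTheory
open Pool.Agent.H383.Gen (U Bd)
open Pool.Agent.H469R2.NK

namespace Pool.Agent.Y969.TM

/-- choice of the order of the moment -/
lemma choose_k {ε : ℝ} (hε : 0 < ε) (hε1 : ε ≤ 1/256) :
    ∃ k : ℕ, 1 ≤ k ∧ (4:ℝ) ^ k * √ε ≤ 1 ∧ Real.log (1/ε) ≤ 6 * k := by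
  set y : ℝ := Real.log (1/ε) / (2 * Real.log 4) with hy
  have hl4 : 0 < Real.log 4 := Real.log_pos (by norm_num)
  have hl4' : Real.log 4 ≤ 1.4 := by
    have h : Real.log 4 = 2 * Real.log 2 := by
      rw [show (4:ℝ) = 2 ^ 2 by norm_num, Real.log_pow]; push_cast; ring
    have := Real.log_two_lt_d9
    rw [h]; linarith
  have h256 : (256:ℝ) ≤ 1/ε := by rw [le_div_iff₀ hε]; linarith
  have hy2 : 2 ≤ y := by
    rw [hy, le_div_iff₀ (by positivity)]
    calc 2 * (2 * Real.log 4) = Real.log (4 ^ 4) := by rw [Real.log_pow]; push_cast; ring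
      _ ≤ Real.log (1/ε) := Real.log_le_log (by norm_num) (by rw [show (4:ℝ) ^ 4 = 256 by norm_num]; exact h256)
  refine ⟨⌊y⌋₊, ?_, ?_, ?_⟩
  · rw [Nat.le_floor_iff (by linarith)]; push_cast; linarith
  · have h1 : ((⌊y⌋₊ : ℕ) : ℝ) ≤ y := Nat.floor_le (by linarith)
    have h2 : (4:ℝ) ^ ⌊y⌋₊ ≤ √(1/ε) := by
      rw [← Real.rpow_natCast]
      calc (4:ℝ) ^ ((⌊y⌋₊ : ℕ) : ℝ) ≤ (4:ℝ) ^ y := Real.rpow_le_rpow_of_exponent_le (by norm_num) h1
        _ = √(1/ε) := by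
            rw [Real.sqrt_eq_rpow, Real.rpow_def_of_pos (by norm_num : (0:ℝ) < 4), Real.rpow_def_of_pos (by positivity), hy]
            congr 1
            field_simp
    calc (4:ℝ) ^ ⌊y⌋₊ * √ε ≤ √(1/ε) * √ε := mul_le_mul_of_nonneg_right h2 (Real.sqrt_nonneg _)
      _ = 1 := by
          rw [← Real.sqrt_mul (by positivity)]
          rw [one_div, inv_mul_cancel₀ hε.ne', Real.sqrt_one]
  · have h1 := Nat.lt_floor_add_one y
    have h2 : Real.log (1/ε) = 2 * Real.log 4 * y := by rw [hy]; field_simp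
    have h3 : y ≤ 2 * ((⌊y⌋₊ : ℕ) : ℝ) := by linarith
    rw [h2]
    have h4 : (0:ℝ) ≤ ((⌊y⌋₊ : ℕ) : ℝ) := Nat.cast_nonneg _
    calc 2 * Real.log 4 * y ≤ 2 * 1.4 * (2 * ((⌊y⌋₊ : ℕ) : ℝ)) := by
          apply mul_le_mul _ h3 (by linarith) (by norm_num)
          linarith
      _ ≤ _ := by linarith

lemma log_le_sqrt_inv {ε : ℝ} (hε : 0 < ε) (hε1 : ε ≤ 1/256) : ε * Real.log (1/ε) ≤ √ε := by
  have h256 : (256:ℝ) ≤ 1/ε := by rw [le_div_iff₀ hε]; linarith
  set y : ℝ := 1/ε with hy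
  have hy0 : 0 < y := by positivity
  have h1 : Real.log y ≤ y ^ (1/4:ℝ) / (1/4) := Real.log_le_rpow_div hy0.le (by norm_num)
  have h2 : (4:ℝ) ≤ y ^ (1/4:ℝ) := by
    calc (4:ℝ) = (256:ℝ) ^ (1/4:ℝ) := by
          rw [show (256:ℝ) = 4 ^ (4:ℕ) by norm_num, ← Real.rpow_natCast, ← Real.rpow_mul (by norm_num)]
          norm_num
      _ ≤ _ := Real.rpow_le_rpow (by norm_num) h256 (by norm_num)
  have h3 : Real.log y ≤ √y := by
    calc Real.log y ≤ y ^ (1/4:ℝ) / (1/4) := h1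
      _ = 4 * y ^ (1/4:ℝ) := by ring
      _ ≤ y ^ (1/4:ℝ) * y ^ (1/4:ℝ) := by gcongr
      _ = √y := by rw [← Real.rpow_add hy0, Real.sqrt_eq_rpow]; norm_num
  calc ε * Real.log y ≤ ε * √y := mul_le_mul_of_nonneg_left h3 hε.le
    _ = √ε := by
        rw [hy, Real.sqrt_div zero_le_one, Real.sqrt_one]
        have : √ε * √ε = ε := Real.mul_self_sqrt hε.le
        have h0 : 0 < √ε := Real.sqrt_pos.mpr hε
        field_simp
        linarith

/-- **exceptional sets** -/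
theorem exc_of {a : ℕ → ℝ} {φ : ℝ} (hb : Bd a) (hI : Fam (fun N => Icc 1 N)) {c ω : ℝ} (hc : 0 < c)
    (hω : 0 < ω) {x : ℕ → ℝ} (hx : MSq a φ c ω x) {ε : ℝ} (hε : 0 < ε) (hε1 : ε ≤ 1/256) :
    ∃ C : ℝ, 0 < C ∧ ∀ N : ℕ, 1 ≤ N →
      (((Icc 1 N).filter (fun n : ℕ => (n:ℝ) ^ ε < |x n|)).card : ℝ) ≤
        C * (N:ℝ) ^ (1 - min (1/6) (ω/2000) * (ε * Real.log (1/ε))) := by
  obtain ⟨k, hk1, hk4, hk6⟩ := choose_k hε hε1
  obtain ⟨C, hC, ht⟩ := tails hb hI hc hω hx hk1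
  have hs0 : 0 < √ε := Real.sqrt_pos.mpr hε
  have hs16 : √ε ≤ 1/16 := by
    rw [Real.sqrt_le_left (by norm_num)]; norm_num; linarith
  have hls := log_le_sqrt_inv hε hε1
  have hl0 : 0 ≤ ε * Real.log (1/ε) := by
    apply mul_nonneg hε.le
    apply Real.log_nonneg
    rw [le_div_iff₀ hε]; linarith
  set τ : ℝ := min (1/6) (ω/2000) * (ε * Real.log (1/ε)) with hτ
  have hmin0 : 0 < min (1/6) (ω/2000) := lt_min (by norm_num) (by positivity)
  have hτ1 : τ ≤ ε * k := by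
    calc τ ≤ (1/6) * (ε * Real.log (1/ε)) := mul_le_mul_of_nonneg_right (min_le_left _ _) hl0
      _ ≤ (1/6) * (ε * (6 * k)) := by gcongr
      _ = _ := by ring
  have hτ2 : τ ≤ ω / 2000 / 4 ^ k := by
    calc τ ≤ (ω/2000) * (ε * Real.log (1/ε)) := mul_le_mul_of_nonneg_right (min_le_right _ _) hl0
      _ ≤ (ω/2000) * √ε := by gcongr
      _ ≤ (ω/2000) * (1 / 4 ^ k) := by
          apply mul_le_mul_of_nonneg_left _ (by positivity)
          rw [le_div_iff₀ (by positivity)]; linarith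
      _ = _ := by ring
  have hτ3 : τ ≤ 1/2 := by
    calc τ ≤ (1/6) * (ε * Real.log (1/ε)) := mul_le_mul_of_nonneg_right (min_le_left _ _) hl0
      _ ≤ (1/6) * √ε := by gcongr
      _ ≤ _ := by linarith
  refine ⟨1 + 2 * C, by positivity, fun N hN => ?_⟩
  have hNr : (1:ℝ) ≤ N := by exact_mod_cast hN
  have hNpos : (0:ℝ) < N := by linarith
  rcases Nat.lt_or_ge N 2 with h2 | h2
  · have : N = 1 := by omega
    subst this
    have h1 : (((Icc 1 1).filter (fun n : ℕ => (n:ℝ) ^ ε < |x n|)).card : ℝ) ≤ 1 := by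
      have := Finset.card_filter_le (Icc 1 1) (fun n : ℕ => (n:ℝ) ^ ε < |x n|)
      rw [Nat.card_Icc] at this
      exact_mod_cast this
    rw [Nat.cast_one, Real.one_rpow, mul_one]
    linarith
  · set W : ℕ := Nat.sqrt N with hW
    have hsub : (Icc 1 N).filter (fun n : ℕ => (n:ℝ) ^ ε < |x n|) ⊆
        Icc 1 W ∪ (Icc 1 N).filter (fun n : ℕ => (N:ℝ) ^ (ε/2) < |x n|) := by
      intro n hn
      rw [mem_filter, mem_Icc] at hn
      rw [mem_union, mem_filter, mem_Icc, mem_Icc]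
      rcases Nat.lt_or_ge W n with h | h
      · right
        refine ⟨hn.1, lt_of_le_of_lt ?_ hn.2⟩
        have h1 : N < n ^ 2 := by
          rw [hW] at h
          have := Nat.sqrt_lt'.mp h
          exact this
        have h2 : (N:ℝ) ≤ (n:ℝ)^2 := by exact_mod_cast h1.le
        calc (N:ℝ) ^ (ε/2) ≤ ((n:ℝ)^2) ^ (ε/2) := Real.rpow_le_rpow hNpos.le h2 (by positivity)
          _ = (n:ℝ) ^ ε := by
              rw [← Real.rpow_natCast, ← Real.rpow_mul (Nat.cast_nonneg _)]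
              congr 1; push_cast; ring
      · left; exact ⟨hn.1.1, h⟩
    have h1 := (Finset.card_le_card hsub).trans (Finset.card_union_le _ _)
    have hW1 : ((Icc 1 W).card : ℝ) ≤ (N:ℝ) ^ (1 - τ) := by
      rw [Nat.card_Icc, Nat.add_sub_cancel]
      have h3 : (W:ℝ) ≤ √(N:ℝ) := by
        apply Real.le_sqrt_of_sq_le
        have := Nat.sqrt_le' N
        rw [hW]; exact_mod_cast this
      refine h3.trans ?_
      rw [Real.sqrt_eq_rpow]
      exact Real.rpow_le_rpow_of_exponent_le hNr (by linarith)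
    have h4 := ht N h2 ((N:ℝ) ^ (ε/2)) (by positivity)
    rw [Nat.card_Icc, Nat.add_sub_cancel] at h4
    have h5 : ((N:ℝ) ^ (ε/2)) ^ (-(2 * k : ℝ)) = (N:ℝ) ^ (-(ε * k)) := by
      rw [← Real.rpow_mul hNpos.le]; congr 1; ring
    rw [h5] at h4
    have h6 : N * ((N:ℝ) ^ (-(ε * k)) + (N:ℝ) ^ (-(ω / 2000 / 4 ^ k))) ≤ 2 * (N:ℝ) ^ (1 - τ) := by
      have h7 : (N:ℝ) ^ (-(ε * k)) ≤ (N:ℝ) ^ (-τ) := Real.rpow_le_rpow_of_exponent_le hNr (by linarith)
      have h8 : (N:ℝ) ^ (-(ω / 2000 / 4 ^ k)) ≤ (N:ℝ) ^ (-τ) := Real.rpow_le_rpow_of_exponent_le hNr (by linarith)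
      calc N * ((N:ℝ) ^ (-(ε * k)) + (N:ℝ) ^ (-(ω / 2000 / 4 ^ k))) ≤ N * ((N:ℝ) ^ (-τ) + (N:ℝ) ^ (-τ)) := by gcongr
        _ = 2 * ((N:ℝ) ^ (1:ℝ) * (N:ℝ) ^ (-τ)) := by rw [Real.rpow_one]; ring
        _ = _ := by rw [← Real.rpow_add hNpos]; congr 2
    have h9 : (((Icc 1 N).filter (fun n : ℕ => (n:ℝ) ^ ε < |x n|)).card : ℝ) ≤
        ((Icc 1 W).card : ℝ) + (((Icc 1 N).filter (fun n : ℕ => (N:ℝ) ^ (ε/2) < |x n|)).card : ℝ) := by exact_mod_cast h1
    refine h9.trans ?_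
    calc ((Icc 1 W).card : ℝ) + (((Icc 1 N).filter (fun n : ℕ => (N:ℝ) ^ (ε/2) < |x n|)).card : ℝ)
        ≤ (N:ℝ) ^ (1 - τ) + C * (N * ((N:ℝ) ^ (-(ε * k)) + (N:ℝ) ^ (-(ω / 2000 / 4 ^ k)))) := by
          apply add_le_add hW1
          rw [← mul_assoc]; exact h4
      _ ≤ (N:ℝ) ^ (1 - τ) + C * (2 * (N:ℝ) ^ (1 - τ)) := by gcongr
      _ = _ := by ring

variable {ι : Type*} [Fintype ι]

/-- **truncated moments of every order** along a sampling family -/
theorem mom_of {a : ℕ → ℝ} {φ : ℝ} (hb : Bd a) {S : ℕ → Finset ℕ} (hS : Fam S) {ω : ℝ} (hω : 0 < ω)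
    {c : ι → ℝ} (hc : ∀ i, 0 < c i) {x : ℕ → ι → ℝ} (hx : ∀ i, MSq a φ (c i) ω (fun n => x n i))
    {μ : ProbabilityMeasure (ι → ℝ)}
    (hlaw : ∀ f : (ι → ℝ) → ℝ, Continuous f → (∃ B, ∀ x, |f x| ≤ B) →
      Tendsto (fun N => fa (S N) (fun n => f (x n))) atTop (𝓝 (∫ x, f x ∂(μ : Measure (ι → ℝ)))))
    {p : ℝ} (hp : 0 < p) :
    Integrable (fun x : ι → ℝ => ‖x‖ ^ p) (μ : Measure (ι → ℝ)) ∧
    ∃ c₀ : ℝ, 0 < c₀ ∧ ∀ c' : ℝ, 0 < c' → c' ≤ c₀ → ∀ f : (ι → ℝ) → ℝ, Continuous f →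
      (∃ K, ∀ x, |f x| ≤ K * (1 + ‖x‖ ^ p)) →
      Tendsto (fun N => fa (S N) (fun n => if ‖x n‖ ≤ (N:ℝ) ^ c' then f (x n) else 0)) atTop
        (𝓝 (∫ x, f x ∂(μ : Measure (ι → ℝ)))) := by
  classical
  obtain ⟨k, hk⟩ := exists_nat_ge ((p + 2) / 2)
  have hk1 : 1 ≤ k := by
    rcases Nat.eq_zero_or_pos k with h | h
    · rw [h] at hk; push_cast at hk; linarith
    · exact h
  have hkp : p + 2 ≤ 2 * (k:ℝ) := by linarith
  choose C hC htail using fun i => tails hb hS (hc i) hω (hx i) hk1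
  set δ : ℝ := ω / 2000 / 4 ^ k with hδ
  have hδ0 : 0 < δ := by positivity
  have key := trunc_conv (μ := μ) (S := fun j => S (j + 2)) (e := fun _ n => x n) (L := fun j => ((j + 2 : ℕ):ℝ))
    (p := p) (c := δ) (C := ∑ i, C i + 1) (fun j => by
      have := hS.card_pos (N := j + 2) (by omega)
      exact Finset.card_pos.mp (by exact_mod_cast this))
    (tendsto_natCast_atTop_atTop.comp (tendsto_add_atTop_nat 2)) (fun j => by push_cast; linarith [Nat.cast_nonneg (α := ℝ) j])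
    hp hδ0 (by have := Finset.sum_nonneg (fun i (_ : i ∈ (Finset.univ : Finset ι)) => (hC i).le); linarith)
    (by
      intro j V hV
      set N : ℕ := j + 2 with hN
      have hV0 : 0 < V := by linarith
      have hsub : (S N).filter (fun n => V < ‖x n‖) ⊆ Finset.univ.biUnion (fun i => (S N).filter (fun n => V < |x n i|)) := by
        intro n hn
        rw [mem_filter] at hn
        rw [mem_biUnion]
        by_contra hcon
        push Not at hcon
        have h1 : ‖x n‖ ≤ V := by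
          rw [pi_norm_le_iff_of_nonneg hV0.le]
          intro i
          rw [Real.norm_eq_abs]
          have := hcon i (mem_univ i)
          rw [mem_filter] at this
          push Not at this
          exact this hn.1
        linarith [hn.2]
      have h1 := (Finset.card_le_card hsub).trans Finset.card_biUnion_le
      have h2 : (((S N).filter (fun n => V < ‖x n‖)).card : ℝ) ≤ ∑ i, (((S N).filter (fun n => V < |x n i|)).card : ℝ) := by
        exact_mod_cast h1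
      refine h2.trans ?_
      have h3 : ∀ i, (((S N).filter (fun n => V < |x n i|)).card : ℝ) ≤ C i * ((S N).card * (V ^ (-(p + 2)) + (N:ℝ) ^ (-δ))) := by
        intro i
        refine (htail i N (by omega) V hV0).trans ?_
        rw [mul_assoc]
        have h4 : V ^ (-(2 * k : ℝ)) ≤ V ^ (-(p + 2)) := Real.rpow_le_rpow_of_exponent_le hV (by linarith)
        have := (hC i).le
        gcongr
      refine (sum_le_sum fun i _ => h3 i).trans ?_
      rw [← sum_mul]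
      have h5 : 0 ≤ ((S N).card : ℝ) * (V ^ (-(p + 2)) + (N:ℝ) ^ (-δ)) := by positivity
      have h6 : (∑ i, C i + 1) * ((S N).card : ℝ) * (V ^ (-(p + 2)) + (N:ℝ) ^ (-δ)) =
        (∑ i, C i) * (((S N).card : ℝ) * (V ^ (-(p + 2)) + (N:ℝ) ^ (-δ))) + ((S N).card : ℝ) * (V ^ (-(p + 2)) + (N:ℝ) ^ (-δ)) := by ring
      rw [h6]
      linarith)
    (by
      intro f hf hB
      exact (hlaw f hf hB).comp (tendsto_add_atTop_nat 2))
  refine ⟨key.1, δ / (2 * (p + 1)), by positivity, fun c' hc' hc'2 f hf hK => ?_⟩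
  have h1 := key.2 c' hc' (by
    rw [le_div_iff₀ (by positivity)] at hc'2
    linarith) f hf hK
  exact (tendsto_add_atTop_iff_nat 2).mp h1

end Pool.Agent.Y969.TM
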