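import Mathlib
import Pool.Agent.Y969.SW1
import Pool.Agent.Y969.TM7

/-! Tails over short windows of integers. -/

set_option autoImplicit false

open Finset
open Pool.Agent.H383.Gen (Bd U)
open Pool.Agent.H469R2.NK
open Pool.Agent.Y969.TM

namespace Pool.Agent.Y969.SW

/-- moments of the model polynomials over short windows -/
theorem model_short {a : ℕ → ℝ} (φ : ℝ) (hb : Bd a) {c : ℝ} (hc : 0 < c) {δ : ℝ} (hδ : 0 < δ) (hδ1 : δ ≤ 1/2)
    {k : ℕ} (hk : 1 ≤ k) : ∃ C : ℝ, 0 < C ∧ ∀ K H M : ℕ, 1 ≤ K → H ≤ K → (K:ℝ) ^ (1/2 + δ) ≤ H → 1 ≤ M →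
      (M:ℝ) ^ (4 ^ k) ≤ (K:ℝ) ^ (δ/4) → ∑ n ∈ Ico K (K + H), (U a φ (c * √(n:ℝ)) M) ^ (2 * k) ≤ C * H := by
  obtain ⟨Ca, hCa0, hCa⟩ := a_le_of_Bd hb
  obtain ⟨Z, hZ0, hZ⟩ := ZZ_bound φ hb
  set D : ℝ := 6 * ((2 * k + 1 : ℕ):ℝ) ^ (4 ^ k) / c with hD
  have hD0 : 0 < D := by positivity
  obtain ⟨N1, hN1⟩ : ∃ N1 : ℕ, ∀ N : ℕ, N1 ≤ N → c * (2 * k) ≤ (N:ℝ) ^ (1/4:ℝ) := by
    have := (((tendsto_rpow_atTop (by norm_num : (0:ℝ) < 1/4)).comp tendsto_natCast_atTop_atTop).eventually_ge_atTop (c * (2 * k)))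
    exact Filter.eventually_atTop.mp this
  refine ⟨(Ca ^ (2 * k) * (max N1 2 : ℕ)) + (Z * ((2 * k).factorial : ℝ) + Ca ^ (2 * k) * D), by positivity, ?_⟩
  intro K H M hK hHK hKH hM hMK
  have hKr : (1:ℝ) ≤ K := by exact_mod_cast hK
  have hK0 : (0:ℝ) < K := by linarith
  have hMr : (1:ℝ) ≤ M := by exact_mod_cast hM
  have hH0 : (0:ℝ) ≤ H := Nat.cast_nonneg H
  have hcard : ((Ico K (K + H)).card : ℝ) = H := by rw [Nat.card_Ico, Nat.add_sub_cancel_left]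
  have hM4k : (M:ℝ) ^ (4 * k) ≤ (K:ℝ) ^ (δ/4) :=
    (pow_le_pow_right₀ hMr (four_k k hk)).trans hMK
  have hsumA : (∑ m ∈ Icc 1 (M^2), |a m|) ^ (2 * k) ≤ Ca ^ (2 * k) * (K:ℝ) ^ (δ/4) := by
    calc (∑ m ∈ Icc 1 (M^2), |a m|) ^ (2 * k) ≤ (Ca * (M:ℝ)^2) ^ (2 * k) :=
          pow_le_pow_left₀ (sum_nonneg fun _ _ => abs_nonneg _) (hCa M hM) _
      _ = Ca ^ (2 * k) * (M:ℝ) ^ (4 * k) := by
          rw [mul_pow, ← pow_mul]; congr 2; ring
      _ ≤ _ := by gcongr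
  rcases Nat.lt_or_ge K (max N1 2) with hlt | hge
  · -- small K
    have h1 : ∑ n ∈ Ico K (K + H), (U a φ (c * √(n:ℝ)) M) ^ (2 * k) ≤ ∑ _n ∈ Ico K (K + H), Ca ^ (2 * k) * (max N1 2 : ℕ) := by
      apply sum_le_sum
      intro n _
      have h2 : (U a φ (c * √(n:ℝ)) M) ^ (2 * k) ≤ (∑ m ∈ Icc 1 (M^2), |a m|) ^ (2 * k) := by
        rw [← Even.pow_abs (even_two_mul k)]
        exact pow_le_pow_left₀ (abs_nonneg _) (abs_U_le _ _ _ _) _
      refine h2.trans (hsumA.trans ?_)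
      have h3 : (K:ℝ) ^ (δ/4) ≤ (max N1 2 : ℕ) := by
        calc (K:ℝ) ^ (δ/4) ≤ (K:ℝ) ^ (1:ℝ) := Real.rpow_le_rpow_of_exponent_le hKr (by linarith)
          _ = K := Real.rpow_one _
          _ ≤ _ := by exact_mod_cast hlt.le
      gcongr
    rw [sum_const, nsmul_eq_mul, hcard] at h1
    refine h1.trans ?_
    have h4 : 0 ≤ (Z * ((2 * k).factorial : ℝ) + Ca ^ (2 * k) * D) := by positivity
    nlinarith
  · have hN := hN1 K (le_trans (le_max_left _ _) hge)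
    have hbig : ∀ y ∈ TT (2 * k) M, ∑ i, fq (y i) ≠ 0 →
        ‖∑ n ∈ Ico K (K + H), e ((c * √(n:ℝ)) * ∑ i, fq (y i))‖ ≤ D * √(K:ℝ) * (K:ℝ) ^ (δ/4) := by
      intro y hy hne
      set ξ : ℝ := ∑ i, fq (y i) with hξ
      have hξ1 := sum_fq_le hy
      have hξ2 := sum_fq_gap hy hne
      rw [← hξ] at hξ1 hξ2
      have hξ0 : 0 < |ξ| := abs_pos.mpr hne
      have e1 : ∑ n ∈ Ico K (K + H), e ((c * √(n:ℝ)) * ξ) = ∑ n ∈ Ico K (K + H), e ((c * ξ) * √(n:ℝ)) := by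
        apply sum_congr rfl; intro n _; congr 1; ring
      rw [e1]
      have hle : |c * ξ| ≤ √(K:ℝ) := by
        rw [abs_mul, abs_of_pos hc]
        have hMK4 : (M:ℝ) ≤ (K:ℝ) ^ (1/8:ℝ) := by
          calc (M:ℝ) = (M:ℝ) ^ 1 := (pow_one _).symm
            _ ≤ (M:ℝ) ^ (4 ^ k) := pow_le_pow_right₀ hMr (Nat.one_le_pow _ _ (by norm_num))
            _ ≤ (K:ℝ) ^ (δ/4) := hMK
            _ ≤ _ := Real.rpow_le_rpow_of_exponent_le hKr (by linarith)
        calc c * |ξ| ≤ c * (((2 * k : ℕ):ℝ) * M) := mul_le_mul_of_nonneg_left hξ1 hc.le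
          _ = (c * (2 * k)) * M := by push_cast; ring
          _ ≤ (K:ℝ) ^ (1/4:ℝ) * (K:ℝ) ^ (1/8:ℝ) := by gcongr
          _ = (K:ℝ) ^ (3/8:ℝ) := by rw [← Real.rpow_add hK0]; norm_num
          _ ≤ (K:ℝ) ^ (1/2:ℝ) := Real.rpow_le_rpow_of_exponent_le hKr (by norm_num)
          _ = √(K:ℝ) := (Real.sqrt_eq_rpow _).symm
      have h0 := ker_win (mul_ne_zero hc.ne' hne) hK hHK hle
      refine h0.trans ?_
      rw [abs_mul, abs_of_pos hc]
      have h2 : 1 / (c * |ξ|) ≤ ((2 * k + 1 : ℕ):ℝ) ^ (4 ^ k) / c * (M:ℝ) ^ (4 ^ k) := by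
        have h3 : (((2 * k : ℕ) * M + 1 : ℕ):ℝ) ≤ ((2 * k + 1 : ℕ):ℝ) * M := by
          push_cast; nlinarith
        have h4 : ((((2 * k : ℕ) * M + 1 : ℕ)):ℝ) ^ (2 ^ (2 * k)) ≤ (((2 * k + 1 : ℕ):ℝ) * M) ^ (2 ^ (2 * k)) :=
          pow_le_pow_left₀ (Nat.cast_nonneg _) h3 _
        have h5 : 1 ≤ |ξ| * ((((2 * k + 1 : ℕ):ℝ)) ^ (4 ^ k) * (M:ℝ) ^ (4 ^ k)) := by
          rw [← mul_pow, show (4:ℕ) = 2 ^ 2 by norm_num, ← pow_mul]
          exact hξ2.trans (mul_le_mul_of_nonneg_left h4 hξ0.le)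
        rw [div_le_iff₀ (by positivity)]
        calc (1:ℝ) ≤ |ξ| * ((((2 * k + 1 : ℕ):ℝ)) ^ (4 ^ k) * (M:ℝ) ^ (4 ^ k)) := h5
          _ = _ := by field_simp
      calc 6 * √(K:ℝ) / (c * |ξ|) = 6 * √(K:ℝ) * (1 / (c * |ξ|)) := by ring
        _ ≤ 6 * √(K:ℝ) * (((2 * k + 1 : ℕ):ℝ) ^ (4 ^ k) / c * (K:ℝ) ^ (δ/4)) := by
            apply mul_le_mul_of_nonneg_left _ (by positivity)
            refine h2.trans ?_
            gcongr
        _ = _ := by rw [hD]; ring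
    have h1 := pow_compare a φ (2 * k) M (Ico K (K + H)) (fun n => c * √(n:ℝ)) (K := D * √(K:ℝ) * (K:ℝ) ^ (δ/4)) (by positivity) hbig
    have h2 : ((∑ n ∈ Ico K (K + H), (U a φ (c * √(n:ℝ)) M) ^ (2 * k) : ℝ) : ℂ) =
        ∑ n ∈ Ico K (K + H), ((U a φ (c * √(n:ℝ)) M : ℝ) : ℂ) ^ (2 * k) := by push_cast; rfl
    have h3 : ∑ n ∈ Ico K (K + H), (U a φ (c * √(n:ℝ)) M) ^ (2 * k) ≤
        H * (Z * ((2 * k).factorial : ℝ)) + (∑ m ∈ Icc 1 (M^2), |a m|) ^ (2 * k) * (D * √(K:ℝ) * (K:ℝ) ^ (δ/4)) := by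
      have h4 : ∑ n ∈ Ico K (K + H), (U a φ (c * √(n:ℝ)) M) ^ (2 * k) ≤
          ‖((∑ n ∈ Ico K (K + H), (U a φ (c * √(n:ℝ)) M) ^ (2 * k) : ℝ) : ℂ)‖ := by
        rw [Complex.norm_real]; exact le_abs_self _
      refine h4.trans ?_
      rw [h2]
      calc ‖∑ n ∈ Ico K (K + H), ((U a φ (c * √(n:ℝ)) M : ℝ) : ℂ) ^ (2 * k)‖ =
            ‖(Ico K (K + H)).card * ZZ a φ (2 * k) M + (∑ n ∈ Ico K (K + H), ((U a φ (c * √(n:ℝ)) M : ℝ) : ℂ) ^ (2 * k)
              - (Ico K (K + H)).card * ZZ a φ (2 * k) M)‖ := by congr 1; ring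
        _ ≤ ‖((Ico K (K + H)).card : ℂ) * ZZ a φ (2 * k) M‖ + _ := norm_add_le _ _
        _ ≤ _ := by
            apply add_le_add _ h1
            rw [norm_mul, Complex.norm_natCast, hcard]
            exact mul_le_mul_of_nonneg_left (hZ k M) hH0
    refine h3.trans ?_
    have h5 : (∑ m ∈ Icc 1 (M^2), |a m|) ^ (2 * k) * (D * √(K:ℝ) * (K:ℝ) ^ (δ/4)) ≤ Ca ^ (2 * k) * D * H := by
      calc _ ≤ (Ca ^ (2 * k) * (K:ℝ) ^ (δ/4)) * (D * √(K:ℝ) * (K:ℝ) ^ (δ/4)) := by gcongr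
        _ = Ca ^ (2 * k) * D * ((K:ℝ) ^ (δ/4) * ((K:ℝ) ^ (1/2:ℝ) * (K:ℝ) ^ (δ/4))) := by
            rw [Real.sqrt_eq_rpow]; ring
        _ ≤ Ca ^ (2 * k) * D * H := by
            apply mul_le_mul_of_nonneg_left _ (by positivity)
            rw [← Real.rpow_add hK0, ← Real.rpow_add hK0]
            refine le_trans ?_ hKH
            exact Real.rpow_le_rpow_of_exponent_le hKr (by linarith)
    have h6 : 0 ≤ Ca ^ (2 * k) * ((max N1 2 : ℕ):ℝ) := by positivity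
    nlinarith

/-- mean-square approximation in short windows, as a property of the values -/
def MSs (a : ℕ → ℝ) (φ c δ ω : ℝ) (x : ℕ → ℝ) : Prop := ∃ C : ℝ, 0 < C ∧ ∃ K0 : ℕ, ∀ K H M : ℕ, K0 ≤ K → H ≤ K →
  (K:ℝ) ^ (1/2 + δ) ≤ H → 1 ≤ M → M^40 ≤ H →
  ∑ n ∈ Ico K (K + H), (x n - U a φ (c * √(n:ℝ)) M)^2 ≤ C * (M:ℝ) ^ (-ω) * H

/-- **tails over short windows** -/
theorem tails_short {a : ℕ → ℝ} {φ : ℝ} (hb : Bd a) {c δ ω : ℝ} (hc : 0 < c) (hδ : 0 < δ) (hδ1 : δ ≤ 1/2)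
    (hω : 0 < ω) (hω1 : ω ≤ 1) {x : ℕ → ℝ} (hx : MSs a φ c δ ω x) {k : ℕ} (hk : 1 ≤ k) :
    ∃ C : ℝ, 0 < C ∧ ∀ K H : ℕ, 1 ≤ K → H ≤ K → (K:ℝ) ^ (1/2 + δ) ≤ H → ∀ V : ℝ, 0 < V →
      (((Ico K (K + H)).filter (fun n => V < |x n|)).card : ℝ) ≤
        C * H * (V ^ (-(2 * k : ℝ)) + (K:ℝ) ^ (-(δ * ω / 100 / 4 ^ k))) := by
  obtain ⟨C1, hC1, hmod⟩ := model_short φ hb hc hδ hδ1 hk
  obtain ⟨C2, hC2, K0, hms⟩ := hx
  set η : ℝ := δ * ω / 100 / 4 ^ k with hη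
  have h4k : (1:ℝ) ≤ 4 ^ k := one_le_pow₀ (by norm_num)
  have h4k' : (4:ℝ) ≤ 4 ^ k := by
    calc (4:ℝ) = 4 ^ 1 := (pow_one _).symm
      _ ≤ 4 ^ k := pow_le_pow_right₀ (by norm_num) hk
  have hη0 : 0 < η := by positivity
  have hη1 : η ≤ 1 := by
    rw [hη, div_div, div_le_one (by positivity)]
    nlinarith
  refine ⟨1 + (max K0 1 : ℕ) + 4 ^ k * C1 + 4 * C2 * 2, by positivity, ?_⟩
  intro K H hK hHK hKH V hV
  have hKr : (1:ℝ) ≤ K := by exact_mod_cast hK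
  have hKpos : (0:ℝ) < K := by linarith
  have hH0 : (0:ℝ) ≤ H := Nat.cast_nonneg H
  have hcard : ((Ico K (K + H)).card : ℝ) = H := by rw [Nat.card_Ico, Nat.add_sub_cancel_left]
  set A : ℝ := V ^ (-(2 * k : ℝ)) with hA
  set B : ℝ := (K:ℝ) ^ (-η) with hB
  have hA0 : 0 < A := Real.rpow_pos_of_pos hV _
  have hB0 : 0 < B := Real.rpow_pos_of_pos hKpos _
  have htriv : (((Ico K (K + H)).filter (fun n => V < |x n|)).card : ℝ) ≤ H := by
    rw [← hcard]; exact_mod_cast Finset.card_filter_le _ _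
  rcases lt_or_ge V 1 with hV1 | hV1
  · -- trivial
    have h1 : 1 ≤ A := by
      rw [hA, Real.rpow_neg hV.le]
      rw [one_le_inv₀ (by positivity)]
      exact Real.rpow_le_one hV.le hV1.le (by positivity)
    calc (((Ico K (K + H)).filter (fun n => V < |x n|)).card : ℝ) ≤ 1 * H * 1 := by linarith
      _ ≤ _ := by
          have h3 : (1:ℝ) ≤ 1 + (max K0 1 : ℕ) + 4 ^ k * C1 + 4 * C2 * 2 := by
            have : 0 ≤ ((max K0 1 : ℕ):ℝ) + 4 ^ k * C1 + 4 * C2 * 2 := by positivity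
            linarith
          have h4 : (1:ℝ) ≤ A + B := by linarith
          gcongr
  rcases Nat.lt_or_ge K (max K0 1) with hlt | hge
  · -- small K
    have h1 : (1:ℝ) ≤ (max K0 1 : ℕ) * B := by
      have h2 : (K:ℝ) ≤ (max K0 1 : ℕ) := by exact_mod_cast hlt.le
      have h3 : (K:ℝ) ^ (-(1:ℝ)) ≤ B := Real.rpow_le_rpow_of_exponent_le hKr (by linarith)
      calc (1:ℝ) = K * (K:ℝ) ^ (-(1:ℝ)) := by rw [Real.rpow_neg_one]; field_simp
        _ ≤ (max K0 1 : ℕ) * B := by gcongr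
    calc (((Ico K (K + H)).filter (fun n => V < |x n|)).card : ℝ) ≤ H * 1 := by linarith
      _ ≤ H * ((max K0 1 : ℕ) * B) := mul_le_mul_of_nonneg_left h1 hH0
      _ = (max K0 1 : ℕ) * H * B := by ring
      _ ≤ _ := by
          apply mul_le_mul _ (by linarith) hB0.le (by positivity)
          apply mul_le_mul_of_nonneg_right _ hH0
          have : 0 ≤ 1 + 4 ^ k * C1 + 4 * C2 * 2 := by positivity
          linarith
  · -- choice of M
    set u : ℝ := (K:ℝ) ^ (δ / 100 / 4 ^ k : ℝ) with hu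
    have hu1 : 1 ≤ u := Real.one_le_rpow hKr (by positivity)
    set M : ℕ := ⌊u⌋₊ with hM
    have hMu : (M:ℝ) ≤ u := Nat.floor_le (by linarith)
    have hM1 : 1 ≤ M := by rw [hM, Nat.le_floor_iff (by linarith)]; exact_mod_cast hu1
    have hMr : (1:ℝ) ≤ M := by exact_mod_cast hM1
    have huM : u / 2 ≤ M := by
      have h1 := Nat.lt_floor_add_one u
      rw [← hM] at h1
      linarith
    have hcond0 : (M:ℝ) ^ (4 ^ k) ≤ (K:ℝ) ^ (δ/100) := by
      calc (M:ℝ) ^ (4 ^ k) ≤ u ^ (4 ^ k) := pow_le_pow_left₀ (by linarith) hMu _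
        _ = (K:ℝ) ^ (δ/100) := by
            rw [hu, ← Real.rpow_natCast, ← Real.rpow_mul hKpos.le]
            congr 1
            push_cast
            field_simp
    have hcond : (M:ℝ) ^ (4 ^ k) ≤ (K:ℝ) ^ (δ/4) :=
      hcond0.trans (Real.rpow_le_rpow_of_exponent_le hKr (by linarith))
    have hM40 : M ^ 40 ≤ H := by
      have : (M:ℝ) ^ 40 ≤ H := by
        calc (M:ℝ) ^ 40 ≤ ((M:ℝ) ^ (4 ^ k)) ^ 40 := by
              apply pow_le_pow_left₀ (by linarith)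
              calc (M:ℝ) = (M:ℝ) ^ 1 := (pow_one _).symm
                _ ≤ _ := pow_le_pow_right₀ hMr (Nat.one_le_pow _ _ (by norm_num))
          _ ≤ ((K:ℝ) ^ (δ/100)) ^ 40 := by gcongr
          _ = (K:ℝ) ^ (2/5 * δ) := by rw [← Real.rpow_natCast, ← Real.rpow_mul hKpos.le]; congr 1; push_cast; ring
          _ ≤ (K:ℝ) ^ (1/2 + δ) := Real.rpow_le_rpow_of_exponent_le hKr (by linarith)
          _ ≤ H := hKH
      exact_mod_cast this
    have hm1 := hmod K H M hK hHK hKH hM1 hcond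
    have hm3 := hms K H M (le_trans (le_max_left _ _) hge) hHK hKH hM1 hM40
    set u' : ℕ → ℝ := fun n => U a φ (c * √(n:ℝ)) M with hu'
    have hm1' : ∑ n ∈ Ico K (K + H), (u' n) ^ (2 * k) ≤ C1 * H := hm1
    have hm3' : ∑ n ∈ Ico K (K + H), (x n - u' n)^2 ≤ C2 * (M:ℝ) ^ (-ω) * H := hm3
    -- splitting
    have hsub : (Ico K (K + H)).filter (fun n => V < |x n|) ⊆
        (Ico K (K + H)).filter (fun n : ℕ => V/2 < |u' n|) ∪ (Ico K (K + H)).filter (fun n => V/2 < |x n - u' n|) := by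
      intro n hn
      rw [mem_filter] at hn
      rw [mem_union, mem_filter, mem_filter]
      by_contra hcon
      push Not at hcon
      have h1 := hcon.1 hn.1
      have h2 := hcon.2 hn.1
      have h3 : |x n| ≤ |u' n| + |x n - u' n| := by
        calc |x n| = |u' n + (x n - u' n)| := by congr 1; ring
          _ ≤ _ := abs_add_le _ _
      linarith [hn.2]
    have hc1 : (((Ico K (K + H)).filter (fun n : ℕ => V/2 < |u' n|)).card : ℝ) ≤ 4 ^ k * C1 * H * A := by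
      have h1 : (((Ico K (K + H)).filter (fun n : ℕ => V/2 < |u' n|)).card : ℝ) * (V/2) ^ (2 * k) ≤
          ∑ n ∈ Ico K (K + H), (u' n) ^ (2 * k) := by
        calc _ = ∑ _n ∈ (Ico K (K + H)).filter (fun n : ℕ => V/2 < |u' n|), (V/2) ^ (2 * k) := by
              rw [sum_const, nsmul_eq_mul]
          _ ≤ ∑ n ∈ (Ico K (K + H)).filter (fun n : ℕ => V/2 < |u' n|), (u' n) ^ (2 * k) := by
              apply sum_le_sum
              intro n hn
              rw [mem_filter] at hn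
              rw [← Even.pow_abs (even_two_mul k) (u' n)]
              exact pow_le_pow_left₀ (by linarith) hn.2.le _
          _ ≤ _ := sum_le_sum_of_subset_of_nonneg (filter_subset _ _) (fun _ _ _ => Even.pow_nonneg (even_two_mul k) _)
      have h2 : (V/2) ^ (2 * k) = (4 ^ k)⁻¹ * A⁻¹ := by
        rw [hA, Real.rpow_neg hV.le, inv_inv, show ((2:ℝ) * (k:ℝ)) = ((2 * k : ℕ):ℝ) by push_cast; ring, Real.rpow_natCast, div_pow,
          pow_mul 2 2 k]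
        norm_num
        ring
      have h3 := h1.trans hm1'
      rw [h2] at h3
      have h4 : (0:ℝ) < (4 ^ k)⁻¹ * A⁻¹ := by positivity
      rw [← le_div_iff₀ h4] at h3
      refine h3.trans (le_of_eq ?_)
      field_simp
    have hc2 : (((Ico K (K + H)).filter (fun n => V/2 < |x n - u' n|)).card : ℝ) ≤ 4 * C2 * 2 * H * B := by
      have h1 : (((Ico K (K + H)).filter (fun n => V/2 < |x n - u' n|)).card : ℝ) * (1/4) ≤
          ∑ n ∈ Ico K (K + H), (x n - u' n) ^ 2 := by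
        calc _ = ∑ _n ∈ (Ico K (K + H)).filter (fun n => V/2 < |x n - u' n|), (1/4:ℝ) := by
              rw [sum_const, nsmul_eq_mul]
          _ ≤ ∑ n ∈ (Ico K (K + H)).filter (fun n => V/2 < |x n - u' n|), (x n - u' n) ^ 2 := by
              apply sum_le_sum
              intro n hn
              rw [mem_filter] at hn
              rw [← sq_abs]
              nlinarith [hn.2]
          _ ≤ _ := sum_le_sum_of_subset_of_nonneg (filter_subset _ _) (fun _ _ _ => sq_nonneg _)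
      have h2 : (M:ℝ) ^ (-ω) ≤ 2 * B := by
        calc (M:ℝ) ^ (-ω) ≤ (u / 2) ^ (-ω) := Real.rpow_le_rpow_of_nonpos (by linarith) huM (by linarith)
          _ = 2 ^ ω * u ^ (-ω) := by
              rw [Real.div_rpow (by linarith) (by norm_num), Real.rpow_neg (by norm_num : (0:ℝ) ≤ 2)]
              rw [div_inv_eq_mul]; ring
          _ = 2 ^ ω * B := by
              congr 1
              rw [hu, hB, ← Real.rpow_mul hKpos.le]
              congr 1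
              rw [hη]; field_simp
          _ ≤ 2 * B := by
              apply mul_le_mul_of_nonneg_right _ hB0.le
              calc (2:ℝ) ^ ω ≤ 2 ^ (1:ℝ) := Real.rpow_le_rpow_of_exponent_le (by norm_num) (by linarith)
                _ = 2 := Real.rpow_one 2
      have h3 : C2 * (M:ℝ) ^ (-ω) * H ≤ C2 * 2 * H * B := by
        calc C2 * (M:ℝ) ^ (-ω) * H ≤ C2 * (2 * B) * H := by gcongr
          _ = _ := by ring
      linarith [h1.trans (hm3'.trans h3)]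
    have hfin : (((Ico K (K + H)).filter (fun n => V < |x n|)).card : ℝ) ≤ 4 ^ k * C1 * H * A + 4 * C2 * 2 * H * B := by
      have h1 := (Finset.card_le_card hsub).trans (Finset.card_union_le _ _)
      have h2 : (((Ico K (K + H)).filter (fun n => V < |x n|)).card : ℝ) ≤
          (((Ico K (K + H)).filter (fun n : ℕ => V/2 < |u' n|)).card : ℝ) +
          (((Ico K (K + H)).filter (fun n => V/2 < |x n - u' n|)).card : ℝ) := by exact_mod_cast h1
      linarith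
    refine hfin.trans ?_
    have g1 : 0 ≤ H * A := by positivity
    have g2 : 0 ≤ H * B := by positivity
    have g3 : 0 ≤ 4 ^ k * C1 * (H * B) := by positivity
    have g4 : 0 ≤ 4 * C2 * 2 * (H * A) := by positivity
    have g5 : 0 ≤ ((max K0 1 : ℕ):ℝ) * (H * A + H * B) := by positivity
    nlinarith

end Pool.Agent.Y969.SW
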