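import Mathlib
import Pool.Agent.Y969.SW4

/-! Exceptional sets in short intervals. -/

set_option autoImplicit false

open Finset
open Pool.Agent.H383.Gen (Bd U)
open Pool.Agent.H469R2.NK
open Pool.Agent.Y969.TM

namespace Pool.Agent.Y969.SW

/-- exceptional sets in windows `[K, K+H)`, `H ≤ K` -/
theorem exc_win {a : ℕ → ℝ} {φ : ℝ} (hb : Bd a) {c δ ω : ℝ} (hc : 0 < c) (hδ : 0 < δ) (hδ1 : δ ≤ 1/2)
    (hω : 0 < ω) (hω1 : ω ≤ 1) {x : ℕ → ℝ} (hx : MSs a φ c δ ω x) {ε : ℝ} (hε : 0 < ε) (hε1 : ε ≤ 1/256) :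
    ∃ C : ℝ, 0 < C ∧ ∀ K H : ℕ, 1 ≤ K → 1 ≤ H → H ≤ K → (K:ℝ) ^ (1/2 + δ) ≤ H →
      (((Ico K (K + H)).filter (fun n : ℕ => (n:ℝ) ^ ε < |x n|)).card : ℝ) ≤
        C * (H:ℝ) ^ (1 - δ * ω / 100 * (ε * Real.log (1/ε))) := by
  obtain ⟨k, hk1, hk4, hk6⟩ := choose_k hε hε1
  obtain ⟨C, hC, ht⟩ := tails_short hb hc hδ hδ1 hω hω1 hx hk1
  have hs0 : 0 < √ε := Real.sqrt_pos.mpr hε
  have hls := log_le_sqrt_inv hε hε1
  have hl0 : 0 ≤ ε * Real.log (1/ε) := by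
    apply mul_nonneg hε.le
    apply Real.log_nonneg
    rw [le_div_iff₀ hε]; linarith
  set τ : ℝ := δ * ω / 100 * (ε * Real.log (1/ε)) with hτ
  have hδ2 : δ * ω ≤ 1/2 := by nlinarith
  have hτ0 : 0 ≤ τ := by positivity
  have hτ1 : τ ≤ 2 * (ε * k) := by
    calc τ ≤ (1/3) * (ε * Real.log (1/ε)) := mul_le_mul_of_nonneg_right (by linarith) hl0
      _ ≤ (1/3) * (ε * (6 * k)) := by gcongr
      _ = _ := by ring
  have hτ2 : τ ≤ δ * ω / 100 / 4 ^ k := by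
    calc τ ≤ (δ * ω / 100) * √ε := mul_le_mul_of_nonneg_left hls (by positivity)
      _ ≤ (δ * ω / 100) * (1 / 4 ^ k) := by
          apply mul_le_mul_of_nonneg_left _ (by positivity)
          rw [le_div_iff₀ (by positivity)]; linarith
      _ = _ := by ring
  refine ⟨2 * C, by positivity, fun K H hK hH hHK hKH => ?_⟩
  have hKr : (1:ℝ) ≤ K := by exact_mod_cast hK
  have hKpos : (0:ℝ) < K := by linarith
  have hHr : (1:ℝ) ≤ H := by exact_mod_cast hH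
  have hHpos : (0:ℝ) < H := by linarith
  have hHK' : (H:ℝ) ≤ K := by exact_mod_cast hHK
  have h1 := ht K H hK hHK hKH ((K:ℝ) ^ ε) (by positivity)
  have hsub : (((Ico K (K + H)).filter (fun n : ℕ => (n:ℝ) ^ ε < |x n|)).card : ℝ) ≤
      (((Ico K (K + H)).filter (fun n : ℕ => (K:ℝ) ^ ε < |x n|)).card : ℝ) := by
    have : ((Ico K (K + H)).filter (fun n : ℕ => (n:ℝ) ^ ε < |x n|)) ⊆ ((Ico K (K + H)).filter (fun n : ℕ => (K:ℝ) ^ ε < |x n|)) := by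
      intro n hn
      rw [mem_filter, mem_Ico] at hn ⊢
      refine ⟨hn.1, lt_of_le_of_lt ?_ hn.2⟩
      exact Real.rpow_le_rpow hKpos.le (by exact_mod_cast hn.1.1) hε.le
    exact_mod_cast Finset.card_le_card this
  refine hsub.trans (h1.trans ?_)
  have h5 : ((K:ℝ) ^ ε) ^ (-(2 * k : ℝ)) = (K:ℝ) ^ (-(2 * (ε * k))) := by
    rw [← Real.rpow_mul hKpos.le]; congr 1; ring
  rw [h5]
  have h7 : (K:ℝ) ^ (-(2 * (ε * k))) ≤ (H:ℝ) ^ (-τ) := by
    calc (K:ℝ) ^ (-(2 * (ε * k))) ≤ (K:ℝ) ^ (-τ) := Real.rpow_le_rpow_of_exponent_le hKr (by linarith)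
      _ ≤ _ := Real.rpow_le_rpow_of_nonpos hHpos hHK' (by linarith)
  have h8 : (K:ℝ) ^ (-(δ * ω / 100 / 4 ^ k)) ≤ (H:ℝ) ^ (-τ) := by
    calc (K:ℝ) ^ (-(δ * ω / 100 / 4 ^ k)) ≤ (K:ℝ) ^ (-τ) := Real.rpow_le_rpow_of_exponent_le hKr (by linarith)
      _ ≤ _ := Real.rpow_le_rpow_of_nonpos hHpos hHK' (by linarith)
  calc C * H * ((K:ℝ) ^ (-(2 * (ε * k))) + (K:ℝ) ^ (-(δ * ω / 100 / 4 ^ k))) ≤ C * H * ((H:ℝ) ^ (-τ) + (H:ℝ) ^ (-τ)) := by gcongr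
    _ = 2 * C * ((H:ℝ) ^ (1:ℝ) * (H:ℝ) ^ (-τ)) := by rw [Real.rpow_one]; ring
    _ = _ := by rw [← Real.rpow_add hHpos]; congr 2

lemma card_filter_Ico_split (P : ℕ → Prop) [DecidablePred P] (p q r : ℕ) (h1 : p ≤ q) (h2 : q ≤ r) :
    (((Ico p r).filter P).card : ℝ) = (((Ico p q).filter P).card : ℝ) + (((Ico q r).filter P).card : ℝ) := by
  have : (Ico p r).filter P = (Ico p q).filter P ∪ (Ico q r).filter P := by
    rw [← filter_union, Ico_union_Ico_eq_Ico h1 h2]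
  rw [this, card_union_of_disjoint]
  · push_cast; ring
  · rw [disjoint_left]
    intro n hn hn2
    rw [mem_filter, mem_Ico] at hn hn2
    omega

/-- from dyadic windows to initial segments -/
lemma init_of_win (P : ℕ → Prop) [DecidablePred P] {C τ δ : ℝ} (hC : 0 < C) (_hτ0 : 0 ≤ τ) (hτ : τ ≤ 1/2) (_hδ : 0 < δ) (hδ1 : δ ≤ 1/4)
    (h : ∀ K H : ℕ, 1 ≤ K → 1 ≤ H → H ≤ K → (K:ℝ) ^ (1/2 + δ) ≤ H →
      (((Ico K (K + H)).filter P).card : ℝ) ≤ C * (H:ℝ) ^ (1 - τ)) :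
    ∃ C' : ℝ, 0 < C' ∧ ∀ N : ℕ, 1 ≤ N → (((Ico 1 N).filter P).card : ℝ) ≤ C' * (N:ℝ) ^ (1 - τ) := by
  refine ⟨256 + 8 * C, by positivity, fun N => ?_⟩
  induction N using Nat.strong_induction_on with
  | _ N ih =>
    intro hN
    have hNr : (1:ℝ) ≤ N := by exact_mod_cast hN
    have hNpos : (0:ℝ) < N := by linarith
    have h1N : (1:ℝ) ≤ (N:ℝ) ^ (1 - τ) := Real.one_le_rpow hNr (by linarith)
    rcases Nat.lt_or_ge N 257 with hlt | hge
    · have h1 : (((Ico 1 N).filter P).card : ℝ) ≤ 256 := by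
        have := Finset.card_filter_le (Ico 1 N) P
        rw [Nat.card_Ico] at this
        exact_mod_cast (by omega : ((Ico 1 N).filter P).card ≤ 256)
      calc _ ≤ (256:ℝ) := h1
        _ ≤ (256 + 8 * C) * 1 := by linarith
        _ ≤ _ := by gcongr
    · set K : ℕ := (N + 1) / 2 with hK
      have hK1 : 1 ≤ K := by omega
      have hKN : K < N := by omega
      set H : ℕ := N - K with hH
      have hHK : H ≤ K := by omega
      have hH1 : 1 ≤ H := by omega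
      have hKHN : K + H = N := by omega
      have hK2 : K ≤ H + 1 := by omega
      have hKr : (1:ℝ) ≤ K := by exact_mod_cast hK1
      have hKpos : (0:ℝ) < K := by linarith
      have hHr : (K:ℝ) ≤ 2 * H := by exact_mod_cast (by omega : K ≤ 2 * H)
      have hK16 : (16:ℝ) ≤ K := by exact_mod_cast (by omega : 16 ≤ K)
      have hcond : (K:ℝ) ^ (1/2 + δ) ≤ H := by
        have h2 : (2:ℝ) ≤ (K:ℝ) ^ (1/4:ℝ) := by
          calc (2:ℝ) = (16:ℝ) ^ (1/4:ℝ) := by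
                rw [show (16:ℝ) = 2 ^ (4:ℕ) by norm_num, ← Real.rpow_natCast, ← Real.rpow_mul (by norm_num)]
                norm_num
            _ ≤ _ := Real.rpow_le_rpow (by norm_num) hK16 (by norm_num)
        have h3 : (K:ℝ) ^ (1/2 + δ) ≤ (K:ℝ) ^ (3/4:ℝ) := Real.rpow_le_rpow_of_exponent_le hKr (by linarith)
        have h4 : (K:ℝ) ^ (3/4:ℝ) * (K:ℝ) ^ (1/4:ℝ) = K := by
          rw [← Real.rpow_add hKpos]; norm_num
        have h5 : 0 < (K:ℝ) ^ (3/4:ℝ) := by positivity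
        nlinarith
      have h6 := ih K hKN hK1
      have h7 := h K H hK1 hH1 hHK hcond
      rw [hKHN] at h7
      rw [card_filter_Ico_split P 1 K N hK1 hKN.le]
      have hHN : (H:ℝ) ≤ N := by exact_mod_cast (by omega : H ≤ N)
      have h8 : (H:ℝ) ^ (1 - τ) ≤ (N:ℝ) ^ (1 - τ) := Real.rpow_le_rpow (Nat.cast_nonneg _) hHN (by linarith)
      have h9 : (K:ℝ) ^ (1 - τ) ≤ (7/8) * (N:ℝ) ^ (1 - τ) := by
        have h10 : (K:ℝ) ≤ (9/16) * N := by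
          have : (16 * K : ℕ) ≤ 9 * N := by omega
          have : (16:ℝ) * K ≤ 9 * N := by exact_mod_cast this
          linarith
        calc (K:ℝ) ^ (1 - τ) ≤ ((9/16) * N) ^ (1 - τ) := Real.rpow_le_rpow hKpos.le h10 (by linarith)
          _ = (9/16:ℝ) ^ (1 - τ) * (N:ℝ) ^ (1 - τ) := Real.mul_rpow (by norm_num) hNpos.le
          _ ≤ (7/8) * (N:ℝ) ^ (1 - τ) := by
              apply mul_le_mul_of_nonneg_right _ (by positivity)
              calc (9/16:ℝ) ^ (1 - τ) ≤ (9/16:ℝ) ^ (1/2:ℝ) :=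
                    Real.rpow_le_rpow_of_exponent_ge (by norm_num) (by norm_num) (by linarith)
                _ = 3/4 := by
                    rw [show (9/16:ℝ) = (3/4) ^ (2:ℕ) by norm_num, ← Real.rpow_natCast, ← Real.rpow_mul (by norm_num)]
                    norm_num
                _ ≤ 7/8 := by norm_num
      have h11 : 0 ≤ (N:ℝ) ^ (1 - τ) := by positivity
      calc _ ≤ (256 + 8 * C) * (K:ℝ) ^ (1 - τ) + C * (H:ℝ) ^ (1 - τ) := add_le_add h6 h7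
        _ ≤ (256 + 8 * C) * ((7/8) * (N:ℝ) ^ (1 - τ)) + C * (N:ℝ) ^ (1 - τ) := by gcongr
        _ = (224 + 8 * C) * (N:ℝ) ^ (1 - τ) := by ring
        _ ≤ _ := by
            apply mul_le_mul_of_nonneg_right _ h11
            linarith

/-- all windows from the windows with `H ≤ K` -/
lemma all_of_win (P : ℕ → Prop) [DecidablePred P] {C τ δ : ℝ} (hC : 0 < C) (hτ0 : 0 ≤ τ) (hτ : τ ≤ 1/2) (hδ : 0 < δ) (hδ1 : δ ≤ 1/4)
    (h : ∀ K H : ℕ, 1 ≤ K → 1 ≤ H → H ≤ K → (K:ℝ) ^ (1/2 + δ) ≤ H →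
      (((Ico K (K + H)).filter P).card : ℝ) ≤ C * (H:ℝ) ^ (1 - τ)) :
    ∃ C' : ℝ, 0 < C' ∧ ∀ K H : ℕ, 1 ≤ K → 1 ≤ H → (K:ℝ) ^ (1/2 + δ) ≤ H →
      (((Ico K (K + H)).filter P).card : ℝ) ≤ C' * (H:ℝ) ^ (1 - τ) := by
  obtain ⟨C', hC', h'⟩ := init_of_win P hC hτ0 hτ hδ hδ1 h
  refine ⟨C + 2 * C', by positivity, fun K H hK hH hKH => ?_⟩
  have hHr : (1:ℝ) ≤ H := by exact_mod_cast hH
  have h0 : 0 ≤ (H:ℝ) ^ (1 - τ) := by positivity
  rcases le_or_gt H K with hle | hgt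
  · refine (h K H hK hH hle hKH).trans ?_
    apply mul_le_mul_of_nonneg_right _ h0
    linarith
  · have h1 : (((Ico K (K + H)).filter P).card : ℝ) ≤ (((Ico 1 (2 * H)).filter P).card : ℝ) := by
      have : (Ico K (K + H)).filter P ⊆ (Ico 1 (2 * H)).filter P := by
        intro n hn
        rw [mem_filter, mem_Ico] at hn ⊢
        exact ⟨⟨by omega, by omega⟩, hn.2⟩
      exact_mod_cast Finset.card_le_card this
    have h2 := h' (2 * H) (by omega)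
    refine (h1.trans h2).trans ?_
    have h3 : (((2 * H : ℕ):ℝ)) ^ (1 - τ) ≤ 2 * (H:ℝ) ^ (1 - τ) := by
      push_cast
      rw [Real.mul_rpow (by norm_num) (by linarith)]
      apply mul_le_mul_of_nonneg_right _ h0
      calc (2:ℝ) ^ (1 - τ) ≤ 2 ^ (1:ℝ) := Real.rpow_le_rpow_of_exponent_le (by norm_num) (by linarith)
        _ = 2 := Real.rpow_one 2
    calc C' * (((2 * H : ℕ):ℝ)) ^ (1 - τ) ≤ C' * (2 * (H:ℝ) ^ (1 - τ)) := mul_le_mul_of_nonneg_left h3 hC'.le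
      _ ≤ _ := by nlinarith

/-- **exceptional sets in all windows `K^{1/2+δ} ≤ H`** -/
theorem exc_all {a : ℕ → ℝ} {φ : ℝ} (hb : Bd a) {c δ ω : ℝ} (hc : 0 < c) (hδ : 0 < δ) (hδ1 : δ ≤ 1/4)
    (hω : 0 < ω) (hω1 : ω ≤ 1) {x : ℕ → ℝ} (hx : MSs a φ c δ ω x) {ε : ℝ} (hε : 0 < ε) (hε1 : ε ≤ 1/256) :
    ∃ C : ℝ, 0 < C ∧ ∀ K H : ℕ, 1 ≤ K → 1 ≤ H → (K:ℝ) ^ (1/2 + δ) ≤ H →
      (((Ico K (K + H)).filter (fun n : ℕ => (n:ℝ) ^ ε < |x n|)).card : ℝ) ≤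
        C * (H:ℝ) ^ (1 - δ * ω / 100 * (ε * Real.log (1/ε))) := by
  classical
  obtain ⟨C, hC, h⟩ := exc_win hb hc hδ (by linarith) hω hω1 hx hε hε1
  have hls := log_le_sqrt_inv hε hε1
  have hs16 : √ε ≤ 1/16 := by
    rw [Real.sqrt_le_left (by norm_num)]; norm_num; linarith
  have hl0 : 0 ≤ ε * Real.log (1/ε) := by
    apply mul_nonneg hε.le
    apply Real.log_nonneg
    rw [le_div_iff₀ hε]; linarith
  have hδ2 : δ * ω ≤ 1 := by nlinarith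
  exact all_of_win (fun n : ℕ => (n:ℝ) ^ ε < |x n|) hC (by positivity) (by nlinarith) hδ hδ1 h

end Pool.Agent.Y969.SW
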