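import Mathlib
import Pool.Agent.Y969.SW3
import Pool.Agent.Y969.SW5
import Pool.Agent.Y969.Lin

/-! Exceptional sets in short intervals for the divisor problem and for the circle problem. -/

set_option autoImplicit false

open Finset
open Pool.Agent.H383
open Pool.Agent.H383.Gen (Bd U)
open Pool.Agent.H452R2.Win Pool.Agent.H452R2.Om
open Pool.Agent.H469R2.NK
open Pool.Agent.Y969.TM

namespace Pool.Agent.Y969.SW

open Classical in
/-- from the integers to real arguments -/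
theorem real_exc {F : ℝ → ℝ} {x : ℕ → ℝ} (hx : ∀ n : ℕ, 1 ≤ n → x n = F n / (n:ℝ) ^ (1/4 : ℝ))
    (hloc : ∀ n : ℕ, 1 ≤ n → ∀ y : ℝ, (n:ℝ) ≤ y → y < n + 1 → |F y - F n| ≤ 5 + Real.log n)
    (hexc : ∀ δ : ℝ, 0 < δ → δ ≤ 1/4 → ∃ c₀ : ℝ, 0 < c₀ ∧ ∀ ε : ℝ, 0 < ε → ε ≤ 1/256 → ∃ C : ℝ, 0 < C ∧
      ∀ K H : ℕ, 1 ≤ K → 1 ≤ H → (K:ℝ) ^ (1/2 + δ) ≤ H →
      (((Ico K (K + H)).filter (fun n : ℕ => (n:ℝ) ^ ε < |x n|)).card : ℝ) ≤
        C * (H:ℝ) ^ (1 - c₀ * (ε * Real.log (1/ε)))) :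
    ∀ δ : ℝ, 0 < δ → ∃ c : ℝ, 0 < c ∧ ∀ ε : ℝ, 0 < ε → ε ≤ c → ∃ C : ℝ, 0 < C ∧
      ∀ K H : ℕ, 1 ≤ K → (K:ℝ) ^ (1/2 + δ) ≤ H →
      (((Ico K (K + H)).filter (fun n : ℕ => ∃ y : ℝ, (n:ℝ) ≤ y ∧ y < n + 1 ∧ y ^ (1/4 + ε) < |F y|)).card : ℝ) ≤
        C * (H:ℝ) ^ (1 - c * (ε * Real.log (1/ε))) := by
  intro δ hδ
  obtain ⟨c₀, hc₀, hexc⟩ := hexc (min δ (1/4)) (lt_min hδ (by norm_num)) (min_le_right _ _)
  refine ⟨min (1/256) (c₀/2), lt_min (by norm_num) (by positivity), ?_⟩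
  intro ε hε hεc
  have hε1 : ε ≤ 1/256 := hεc.trans (min_le_left _ _)
  obtain ⟨C, hC, h⟩ := hexc (ε/2) (by positivity) (by linarith)
  -- threshold
  have ev1 : ∀ᶠ n : ℕ in Filter.atTop, 2 ≤ (n:ℝ) ^ (ε/2) :=
    (((tendsto_rpow_atTop (by positivity : (0:ℝ) < ε/2)).comp tendsto_natCast_atTop_atTop).eventually_ge_atTop _)
  have ev2 : ∀ᶠ n : ℕ in Filter.atTop, 14 ≤ (n:ℝ) ^ (1/8:ℝ) :=
    (((tendsto_rpow_atTop (by norm_num : (0:ℝ) < 1/8)).comp tendsto_natCast_atTop_atTop).eventually_ge_atTop _)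
  obtain ⟨n0, hn0⟩ := Filter.eventually_atTop.mp (ev1.and ev2)
  refine ⟨(n0 + 1) + C, by positivity, ?_⟩
  intro K H hK hKH
  have hKr : (1:ℝ) ≤ K := by exact_mod_cast hK
  have hHr : (1:ℝ) ≤ H := le_trans (Real.one_le_rpow hKr (by positivity)) hKH
  have hH1 : 1 ≤ H := by exact_mod_cast hHr
  have hHpos : (0:ℝ) < H := by linarith
  have hKH' : (K:ℝ) ^ (1/2 + min δ (1/4)) ≤ H := by
    refine le_trans ?_ hKH
    exact Real.rpow_le_rpow_of_exponent_le hKr (by linarith [min_le_left δ (1/4)])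
  have h1 := h K H hK hH1 hKH'
  set P : ℕ → Prop := fun n => ∃ y : ℝ, (n:ℝ) ≤ y ∧ y < n + 1 ∧ y ^ (1/4 + ε) < |F y| with hP
  have hsub : (Ico K (K + H)).filter P ⊆ range (n0 + 1) ∪ (Ico K (K + H)).filter (fun n : ℕ => (n:ℝ) ^ (ε/2) < |x n|) := by
    intro n hn
    rw [mem_filter, mem_Ico] at hn
    rw [mem_union, mem_range, mem_filter, mem_Ico]
    rcases Nat.lt_or_ge n (n0 + 1) with hlt | hge
    · left; exact hlt
    · right
      refine ⟨hn.1, ?_⟩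
      obtain ⟨y, hy1, hy2, hy3⟩ := hn.2
      obtain ⟨g1, g2⟩ := hn0 n (by omega)
      have hn1 : 1 ≤ n := le_trans hK hn.1.1
      have hnr : (1:ℝ) ≤ n := by exact_mod_cast hn1
      have hnpos : (0:ℝ) < n := by linarith
      have hl := hloc n hn1 y hy1 hy2
      have hlog : Real.log n ≤ (n:ℝ) ^ (1/8:ℝ) / (1/8) := Real.log_le_rpow_div hnpos.le (by norm_num)
      have hq : (n:ℝ) ^ (1/8:ℝ) * (n:ℝ) ^ (1/8:ℝ) = (n:ℝ) ^ (1/4:ℝ) := by
        rw [← Real.rpow_add hnpos]; norm_num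
      have hsmall : 5 + Real.log n ≤ (n:ℝ) ^ (1/4:ℝ) := by
        calc 5 + Real.log n ≤ 5 + 8 * (n:ℝ) ^ (1/8:ℝ) := by linarith
          _ ≤ 14 * (n:ℝ) ^ (1/8:ℝ) := by linarith
          _ ≤ (n:ℝ) ^ (1/8:ℝ) * (n:ℝ) ^ (1/8:ℝ) := by gcongr
          _ = _ := hq
      have h4pos : 0 < (n:ℝ) ^ (1/4:ℝ) := by positivity
      have he1 : (1:ℝ) ≤ (n:ℝ) ^ (ε/2) := by linarith
      have hbig : (n:ℝ) ^ (1/4 + ε) < |F y| := by
        refine lt_of_le_of_lt ?_ hy3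
        exact Real.rpow_le_rpow hnpos.le hy1 (by positivity)
      have hsplit : (n:ℝ) ^ (1/4 + ε) = (n:ℝ) ^ (1/4:ℝ) * ((n:ℝ) ^ (ε/2) * (n:ℝ) ^ (ε/2)) := by
        rw [← Real.rpow_add hnpos, ← Real.rpow_add hnpos]; congr 1; ring
      have hFn : (n:ℝ) ^ (1/4:ℝ) * (n:ℝ) ^ (ε/2) < |F n| := by
        have h3 : |F y| ≤ |F n| + |F y - F n| := by
          calc |F y| = |F n + (F y - F n)| := by congr 1; ring
            _ ≤ _ := abs_add_le _ _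
        have h4 : (n:ℝ) ^ (1/4:ℝ) * (n:ℝ) ^ (ε/2) + (n:ℝ) ^ (1/4:ℝ) ≤ (n:ℝ) ^ (1/4 + ε) := by
          rw [hsplit]
          have h5 : (n:ℝ) ^ (ε/2) + 1 ≤ (n:ℝ) ^ (ε/2) * (n:ℝ) ^ (ε/2) := by nlinarith
          calc _ = (n:ℝ) ^ (1/4:ℝ) * ((n:ℝ) ^ (ε/2) + 1) := by ring
            _ ≤ _ := mul_le_mul_of_nonneg_left h5 h4pos.le
        linarith
      rw [hx n hn1, abs_div, abs_of_pos h4pos, lt_div_iff₀ h4pos, mul_comm]
      exact hFn
  have h2 := (Finset.card_le_card hsub).trans (Finset.card_union_le _ _)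
  rw [card_range] at h2
  have h3 : (((Ico K (K + H)).filter P).card : ℝ) ≤ (n0 + 1) +
      (((Ico K (K + H)).filter (fun n : ℕ => (n:ℝ) ^ (ε/2) < |x n|)).card : ℝ) := by exact_mod_cast h2
  have hlog0 : 0 ≤ Real.log (1/ε) := Real.log_nonneg (by rw [le_div_iff₀ hε]; linarith)
  have hlog1 : Real.log (1/ε) ≤ Real.log (1/(ε/2)) := by
    apply Real.log_le_log (by positivity)
    apply div_le_div_of_nonneg_left (by norm_num) (by positivity) (by linarith)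
  have hls := log_le_sqrt_inv hε hε1
  have hs16 : √ε ≤ 1/16 := by
    rw [Real.sqrt_le_left (by norm_num)]; norm_num; linarith
  have hexp : 1 - c₀ * (ε/2 * Real.log (1/(ε/2))) ≤ 1 - min (1/256) (c₀/2) * (ε * Real.log (1/ε)) := by
    have h4 : min (1/256) (c₀/2) * (ε * Real.log (1/ε)) ≤ (c₀/2) * (ε * Real.log (1/ε)) :=
      mul_le_mul_of_nonneg_right (min_le_right _ _) (by positivity)
    have h5 : (c₀/2) * (ε * Real.log (1/ε)) ≤ c₀ * (ε/2 * Real.log (1/(ε/2))) := by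
      calc (c₀/2) * (ε * Real.log (1/ε)) ≤ (c₀/2) * (ε * Real.log (1/(ε/2))) := by gcongr
        _ = _ := by ring
    linarith
  have hexp0 : 0 ≤ 1 - min (1/256) (c₀/2) * (ε * Real.log (1/ε)) := by
    have h4 : min (1/256) (c₀/2) * (ε * Real.log (1/ε)) ≤ (1/256) * (ε * Real.log (1/ε)) :=
      mul_le_mul_of_nonneg_right (min_le_left _ _) (by positivity)
    linarith
  have h5 : (H:ℝ) ^ (1 - c₀ * (ε/2 * Real.log (1/(ε/2)))) ≤ (H:ℝ) ^ (1 - min (1/256) (c₀/2) * (ε * Real.log (1/ε))) :=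
    Real.rpow_le_rpow_of_exponent_le hHr hexp
  have h6 : (1:ℝ) ≤ (H:ℝ) ^ (1 - min (1/256) (c₀/2) * (ε * Real.log (1/ε))) := Real.one_le_rpow hHr hexp0
  calc (((Ico K (K + H)).filter P).card : ℝ) ≤ (n0 + 1) + C * (H:ℝ) ^ (1 - c₀ * (ε/2 * Real.log (1/(ε/2)))) := by linarith
    _ ≤ (n0 + 1) * (H:ℝ) ^ (1 - min (1/256) (c₀/2) * (ε * Real.log (1/ε))) +
        C * (H:ℝ) ^ (1 - min (1/256) (c₀/2) * (ε * Real.log (1/ε))) := by
        have : (0:ℝ) ≤ (n0:ℝ) + 1 := by positivity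
        nlinarith
    _ = _ := by ring

open Pool.Agent.H383.Div in
/-- unnormalised error term of the divisor problem -/
noncomputable def Dl (x : ℝ) : ℝ :=
  (∑ j ∈ Finset.Icc 1 ⌊x⌋₊, (j.divisors.card : ℝ)) - x * Real.log x - (2 * Real.eulerMascheroniConstant - 1) * x

lemma Dl_loc (n : ℕ) (hn : 1 ≤ n) (y : ℝ) (h1 : (n:ℝ) ≤ y) (h2 : y < n + 1) : |Dl y - Dl n| ≤ 5 + Real.log n := by
  have hnr : (1:ℝ) ≤ n := by exact_mod_cast hn
  have hnpos : (0:ℝ) < n := by linarith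
  have hypos : 0 < y := by linarith
  have hfl : ⌊y⌋₊ = n := by
    rw [Nat.floor_eq_iff hypos.le]; exact ⟨h1, h2⟩
  have hfl2 : ⌊(n:ℝ)⌋₊ = n := Nat.floor_natCast n
  unfold Dl
  rw [hfl, hfl2]
  have hγ1 := Real.one_half_lt_eulerMascheroniConstant
  have hγ2 := Real.eulerMascheroniConstant_lt_two_thirds
  set γ := Real.eulerMascheroniConstant
  have hlogn : 0 ≤ Real.log n := Real.log_nonneg hnr
  have hlogy : Real.log n ≤ Real.log y := Real.log_le_log hnpos h1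
  have hlogy2 : n * (Real.log y - Real.log n) ≤ y - n := by
    rw [← Real.log_div hypos.ne' hnpos.ne']
    have := Real.log_le_sub_one_of_pos (div_pos hypos hnpos)
    calc n * Real.log (y / n) ≤ n * (y / n - 1) := mul_le_mul_of_nonneg_left this hnpos.le
      _ = y - n := by field_simp
  have e1 : (∑ j ∈ Finset.Icc 1 n, (j.divisors.card : ℝ)) - y * Real.log y - (2 * γ - 1) * y -
      ((∑ j ∈ Finset.Icc 1 n, (j.divisors.card : ℝ)) - n * Real.log n - (2 * γ - 1) * n) =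
      -((y - n) * Real.log y + n * (Real.log y - Real.log n) + (2 * γ - 1) * (y - n)) := by ring
  have hd0 : 0 ≤ y - n := by linarith
  have hd1 : y - n ≤ 1 := by linarith
  have hlogy3 : Real.log y ≤ Real.log n + 1 := by
    have : Real.log y - Real.log n ≤ 1 := by
      have h3 : 0 ≤ Real.log y - Real.log n := by linarith
      nlinarith
    linarith
  rw [e1, abs_neg, abs_of_nonneg (by
    have : 0 ≤ (y - n) * Real.log y := mul_nonneg hd0 (by linarith)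
    have : 0 ≤ n * (Real.log y - Real.log n) := mul_nonneg hnpos.le (by linarith)
    have : 0 ≤ (2 * γ - 1) * (y - n) := mul_nonneg (by linarith) hd0
    linarith)]
  have t1 : (y - n) * Real.log y ≤ Real.log n + 1 := by nlinarith
  have t2 : (2 * γ - 1) * (y - n) ≤ 1 := by nlinarith
  linarith

open Classical in
open Pool.Agent.H383.Div in
/-- **exceptional sets for the divisor problem** -/
theorem exc_divisor : ∀ δ : ℝ, 0 < δ → ∃ c : ℝ, 0 < c ∧ ∀ ε : ℝ, 0 < ε → ε ≤ c → ∃ C : ℝ, 0 < C ∧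
      ∀ K H : ℕ, 1 ≤ K → (K:ℝ) ^ (1/2 + δ) ≤ H →
      (((Ico K (K + H)).filter (fun n : ℕ => ∃ y : ℝ, (n:ℝ) ≤ y ∧ y < n + 1 ∧ y ^ (1/4 + ε) < |Dl y|)).card : ℝ) ≤
        C * (H:ℝ) ^ (1 - c * (ε * Real.log (1/ε))) := by
  apply real_exc (x := fun n : ℕ => E2 (2 * √(n:ℝ))) _ Dl_loc
  · intro δ hδ hδ1
    have hms : MSs ad (Real.pi/4) 2 δ (δ/50) (fun n : ℕ => E2 (2 * √(n:ℝ))) :=
      short_ms ad_Bdw2 ad_zero wd_Wt (E2_SandW Pool.Agent.H383.Div.vor) two_pos hδ (by linarith)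
    refine ⟨δ * (δ/50) / 100, by positivity, fun ε hε hε1 => ?_⟩
    exact exc_all ad_Bd two_pos hδ hδ1 (by positivity) (by linarith) hms hε hε1
  · intro n hn
    unfold E2
    rw [mul_div_cancel_left₀ _ (by norm_num : (2:ℝ) ≠ 0), Pool.Agent.H425R3.JL.Edv_eq (Nat.cast_nonneg n)]
    rfl

/-- unnormalised error term of the circle problem -/
noncomputable def Pc (x : ℝ) : ℝ := (Nat.card {p : ℤ × ℤ // (p.1 : ℝ) ^ 2 + (p.2 : ℝ) ^ 2 ≤ x} : ℝ) - Real.pi * x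

lemma Pc_loc (n : ℕ) (hn : 1 ≤ n) (y : ℝ) (h1 : (n:ℝ) ≤ y) (h2 : y < n + 1) : |Pc y - Pc n| ≤ 5 + Real.log n := by
  have hnr : (1:ℝ) ≤ n := by exact_mod_cast hn
  have e1 : Nat.card {p : ℤ × ℤ // (p.1 : ℝ) ^ 2 + (p.2 : ℝ) ^ 2 ≤ y} = Nat.card {p : ℤ × ℤ // (p.1 : ℝ) ^ 2 + (p.2 : ℝ) ^ 2 ≤ n} := by
    apply Nat.card_congr
    apply Equiv.subtypeEquivRight
    intro p
    constructor
    · intro h
      have h3 : ((p.1 ^ 2 + p.2 ^ 2 : ℤ) : ℝ) < ((n + 1 : ℤ) : ℝ) := by push_cast; linarith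
      have h4 : p.1 ^ 2 + p.2 ^ 2 < (n:ℤ) + 1 := by exact_mod_cast h3
      have h5 : p.1 ^ 2 + p.2 ^ 2 ≤ (n:ℤ) := by omega
      exact_mod_cast h5
    · intro h; linarith
  unfold Pc
  rw [e1]
  have hlogn : 0 ≤ Real.log n := Real.log_nonneg hnr
  have hpi := Real.pi_pos
  have hpi4 := Real.pi_le_four
  rw [abs_le]
  constructor <;> nlinarith

open Classical in
open Pool.Agent.H383.Gauss Pool.Agent.H383.Circ in
/-- **exceptional sets for the circle problem** -/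
theorem exc_circle : ∀ δ : ℝ, 0 < δ → ∃ c : ℝ, 0 < c ∧ ∀ ε : ℝ, 0 < ε → ε ≤ c → ∃ C : ℝ, 0 < C ∧
      ∀ K H : ℕ, 1 ≤ K → (K:ℝ) ^ (1/2 + δ) ≤ H →
      (((Ico K (K + H)).filter (fun n : ℕ => ∃ y : ℝ, (n:ℝ) ≤ y ∧ y < n + 1 ∧ y ^ (1/4 + ε) < |Pc y|)).card : ℝ) ≤
        C * (H:ℝ) ^ (1 - c * (ε * Real.log (1/ε))) := by
  apply real_exc (x := fun n : ℕ => En (1 * √(n:ℝ))) _ Pc_loc
  · intro δ hδ hδ1
    have hms : MSs ag (3 * Real.pi/4) 1 δ (δ/50) (fun n : ℕ => En (1 * √(n:ℝ))) :=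
      short_ms ag_Bdw ag_zero wg_Wt En_SandW one_pos hδ (by linarith)
    refine ⟨δ * (δ/50) / 100, by positivity, fun ε hε hε1 => ?_⟩
    exact exc_all ag_Bd one_pos hδ hδ1 (by positivity) (by linarith) hms hε hε1
  · intro n hn
    rw [one_mul, Pool.Agent.H425R3.JL.Ec_eq (Nat.cast_nonneg n)]
    rfl

end Pool.Agent.Y969.SW
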