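import Mathlib
import Pool.Agent.W24.CP.SP
import Pool.Agent.W24.CP.SC
import Pool.Agent.Y969.TM5a

/-! The families of sampling points: integers and primes. -/

set_option autoImplicit false

open Finset
open Pool.Agent.H469R2.NK
open Pool.Agent.H425R3.JL (PR pi_low)
open Pool.Agent.W24.CP

namespace Pool.Agent.Y969.TM

/-- complete sums, uniformly in the frequency -/
lemma full_unif : ∃ C : ℝ, 0 < C ∧ ∀ N : ℕ, 1 ≤ N → ∀ h : ℝ, h ≠ 0 → |h| + 1/|h| ≤ 2 * (N:ℝ) ^ (1/32:ℝ) →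
    ‖∑ n ∈ Icc 1 N, e (h * √(n:ℝ))‖ ≤ C * (N:ℝ) ^ (127/128:ℝ) := by
  refine ⟨7 * (2 * √(524 * 5 * 2)) + 1, by positivity, fun N hN h hh hhN => ?_⟩
  have ha : 0 < |h| := abs_pos.mpr hh
  have hNr : (1:ℝ) ≤ N := by exact_mod_cast hN
  have hNpos : (0:ℝ) < N := by linarith
  set D : ℝ := √(524 * 5 * (1/|h| + |h|)) with hD
  have key := total_of_block (fun n => e (h * √(n:ℝ) + 0 * n)) (C := 2 * D) (δ := 1/8) (by positivity) (by norm_num) (by norm_num)
    (by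
      intro N N' hN hNN' hN'
      have hN0 : (1:ℝ) ≤ N := by exact_mod_cast hN
      have h1 := kerIabs hh 0 N N' (by omega)
      set A : ℝ := ((N + 1 : ℕ):ℝ) with hA
      have hA1 : 1 ≤ A := by rw [hA]; push_cast; linarith
      have hA0 : 0 < A := by linarith
      have hs1 : 1 ≤ √A := by rw [Real.one_le_sqrt]; exact hA1
      have hs3 : √A ^ 3 = A ^ (3/2:ℝ) := by
        rw [Real.sqrt_eq_rpow, ← Real.rpow_natCast, ← Real.rpow_mul hA0.le]; norm_num
      have h2 : √A ^ 3 / |h| + |h| * √A ≤ (1/|h| + |h|) * A ^ (3/2:ℝ) := by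
        rw [← hs3]
        have : √A ≤ √A ^ 3 := by
          calc √A = √A ^ 1 := (pow_one _).symm
            _ ≤ √A ^ 3 := pow_le_pow_right₀ hs1 (by norm_num)
        have h3 : |h| * √A ≤ |h| * √A ^ 3 := mul_le_mul_of_nonneg_left this ha.le
        have h4 : √A ^ 3 / |h| = 1/|h| * √A ^ 3 := by ring
        rw [h4, add_mul]; linarith
      have h3 := SC.log_le_quarter hA1
      have hl0 : 0 ≤ Real.log A := Real.log_nonneg hA1
      have h4 : ‖∑ n ∈ Ioc N N', e (h * √(n:ℝ) + 0 * n)‖^2 ≤ (D * A ^ (7/8:ℝ))^2 := by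
        refine h1.trans ?_
        calc 524 * ((√A ^ 3 / |h| + |h| * √A) * (1 + Real.log A)) ≤
              524 * (((1/|h| + |h|) * A ^ (3/2:ℝ)) * (5 * A ^ (1/4:ℝ))) := by gcongr
          _ = (524 * 5 * (1/|h| + |h|)) * (A ^ (3/2:ℝ) * A ^ (1/4:ℝ)) := by ring
          _ = D^2 * (A ^ (7/8:ℝ))^2 := by
              rw [hD, Real.sq_sqrt (by positivity), ← Real.rpow_add hA0, ← Real.rpow_natCast, ← Real.rpow_mul hA0.le]
              norm_num
          _ = _ := by ring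
      have h5 := (le_abs_self _).trans (abs_le_of_sq_le_sq h4 (by positivity))
      refine h5.trans ?_
      have h6 : A ^ (7/8:ℝ) ≤ 2 * (N:ℝ) ^ (7/8:ℝ) := by
        calc A ^ (7/8:ℝ) ≤ (2 * (N:ℝ)) ^ (7/8:ℝ) := by
              apply Real.rpow_le_rpow hA0.le _ (by norm_num)
              rw [hA]; push_cast; linarith
          _ = (2:ℝ) ^ (7/8:ℝ) * (N:ℝ) ^ (7/8:ℝ) := Real.mul_rpow (by norm_num) (by linarith)
          _ ≤ 2 * (N:ℝ) ^ (7/8:ℝ) := by
              apply mul_le_mul_of_nonneg_right _ (by positivity)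
              calc (2:ℝ) ^ (7/8:ℝ) ≤ (2:ℝ) ^ (1:ℝ) := Real.rpow_le_rpow_of_exponent_le (by norm_num) (by norm_num)
                _ = 2 := by norm_num
      have h7 : (1:ℝ) - 1/8 = 7/8 := by norm_num
      rw [h7]
      calc D * A ^ (7/8:ℝ) ≤ D * (2 * (N:ℝ) ^ (7/8:ℝ)) := by gcongr
        _ = _ := by ring) N hN
  have h7 : (1:ℝ) - 1/8 = 7/8 := by norm_num
  rw [h7, norm_e] at key
  have e1 : ∑ n ∈ Icc 1 N, e (h * √(n:ℝ)) = ∑ n ∈ Icc 1 N, e (h * √(n:ℝ) + 0 * n) := by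
    apply sum_congr rfl; intro n _; rw [zero_mul, add_zero]
  rw [e1]
  refine key.trans ?_
  have hD2 : D ≤ √(524 * 5 * 2) * (N:ℝ) ^ (1/64:ℝ) := by
    have h8 : (N:ℝ) ^ (1/64:ℝ) = √((N:ℝ) ^ (1/32:ℝ)) := by
      rw [Real.sqrt_eq_rpow, ← Real.rpow_mul hNpos.le]; norm_num
    rw [h8, ← Real.sqrt_mul (by norm_num), hD]
    apply Real.sqrt_le_sqrt
    linarith
  have h1le : (1:ℝ) ≤ (N:ℝ) ^ (1/64:ℝ) := Real.one_le_rpow hNr (by norm_num)
  calc (7 * (2 * D) + 1) * (N:ℝ) ^ (7/8:ℝ)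
      ≤ (7 * (2 * (√(524 * 5 * 2) * (N:ℝ) ^ (1/64:ℝ))) + (N:ℝ) ^ (1/64:ℝ)) * (N:ℝ) ^ (7/8:ℝ) := by gcongr
    _ = (7 * (2 * √(524 * 5 * 2)) + 1) * ((N:ℝ) ^ (1/64:ℝ) * (N:ℝ) ^ (7/8:ℝ)) := by ring
    _ ≤ _ := by
        apply mul_le_mul_of_nonneg_left _ (by positivity)
        rw [← Real.rpow_add hNpos]
        exact Real.rpow_le_rpow_of_exponent_le hNr (by norm_num)

/-- the integers -/
lemma fam_int : Fam (fun N => Icc 1 N) where
  sub := fun N => Subset.rfl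
  card := by
    intro δ hδ
    refine ⟨1, one_pos, fun N hN => ?_⟩
    have hNr : (1:ℝ) ≤ N := by exact_mod_cast (by omega : 1 ≤ N)
    have h1 : (1:ℝ) ≤ (N:ℝ) ^ δ := Real.one_le_rpow hNr hδ.le
    rw [Nat.card_Icc, one_mul]
    have h2 : ((N + 1 - 1 : ℕ) : ℝ) = N := by rw [Nat.add_sub_cancel]
    rw [h2]
    nlinarith
  ker := by
    obtain ⟨C, hC, h⟩ := full_unif
    exact ⟨C, hC, fun N hN θ hθ h1 => h N (by omega) θ hθ h1⟩

/-- the primes -/
lemma fam_prime : Fam PR where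
  sub := fun N => by unfold PR; exact filter_subset _ _
  card := by
    intro δ hδ
    obtain ⟨N0, hpi⟩ := pi_low
    refine ⟨2 / δ + N0, by positivity, fun N hN => ?_⟩
    have hNr : (1:ℝ) ≤ N := by exact_mod_cast (by omega : 1 ≤ N)
    have hN2 : (2:ℝ) ≤ N := by exact_mod_cast hN
    have h1 : (1:ℝ) ≤ (N:ℝ) ^ δ := Real.one_le_rpow hNr hδ.le
    have hc : (1:ℝ) ≤ (PR N).card := by
      have : (PR N).Nonempty := ⟨2, by unfold PR; rw [mem_filter, mem_Icc]; exact ⟨⟨by omega, by omega⟩, Nat.prime_two⟩⟩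
      exact_mod_cast Finset.card_pos.mpr this
    rcases Nat.lt_or_ge N N0 with h | h
    · have h2 : (N:ℝ) ≤ N0 := by exact_mod_cast h.le
      have h3 : (0:ℝ) ≤ 2 / δ := by positivity
      calc (N:ℝ) ≤ (2 / δ + N0) * 1 * 1 := by linarith
        _ ≤ _ := by gcongr
    · have h2 := hpi N h
      have hl : 0 < Real.log N := Real.log_pos (by linarith)
      rw [div_le_iff₀ (by positivity)] at h2
      have h3 : Real.log N ≤ (N:ℝ) ^ δ / δ := Real.log_le_rpow_div (by linarith) hδ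
      calc (N:ℝ) ≤ (PR N).card * (2 * Real.log N) := h2
        _ ≤ (PR N).card * (2 * ((N:ℝ) ^ δ / δ)) := by gcongr
        _ = (2 / δ) * (PR N).card * (N:ℝ) ^ δ := by ring
        _ ≤ _ := by
            have : (0:ℝ) ≤ N0 := Nat.cast_nonneg _
            gcongr
            linarith
  ker := by
    obtain ⟨C, hC, h⟩ := SP.prime_es
    refine ⟨C + 9, by positivity, fun N hN θ hθ h1 => ?_⟩
    have hNr : (1:ℝ) ≤ N := by exact_mod_cast (by omega : 1 ≤ N)
    have h2 : (1:ℝ) ≤ (N:ℝ) ^ (127/128:ℝ) := Real.one_le_rpow hNr (by norm_num)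
    rcases Nat.lt_or_ge N 9 with h9 | h9
    · have h3 : ‖∑ n ∈ PR N, e (θ * √(n:ℝ))‖ ≤ N := by
        refine (norm_sum_le _ _).trans ?_
        simp only [norm_e, sum_const, nsmul_eq_mul, mul_one]
        have h4 : (PR N).card ≤ N := by
          have := Finset.card_le_card (show PR N ⊆ Icc 1 N by unfold PR; exact filter_subset _ _)
          rw [Nat.card_Icc] at this
          omega
        exact_mod_cast h4
      have h5 : (N:ℝ) ≤ 9 := by exact_mod_cast h9.le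
      nlinarith
    · have h3 := h N h9 θ hθ h1 0
      have e1 : ∑ n ∈ PR N, e (θ * √(n:ℝ)) = ∑ p ∈ PR N, e (0 * p) * e (θ * √(p:ℝ)) := by
        apply sum_congr rfl; intro n _; rw [zero_mul, e_zero, one_mul]
      rw [e1]
      refine h3.trans ?_
      nlinarith

end Pool.Agent.Y969.TM
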