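import Mathlib
import Pool.Agent.Y969.SW4
import Pool.Agent.Y969.TM7
import Pool.Agent.W24.CP.SF

/-! Truncated moments of every order over short windows of integers. -/

set_option autoImplicit false

open Finset Filter Topology MeasureTheory
open Pool.Agent.H383.Gen (Bd U Ap)
open Pool.Agent.H452R2.Win Pool.Agent.H452R2.Om
open Pool.Agent.H469R2.NK
open Pool.Agent.Y969.TM
open Pool.Agent.H425R3.JL (PR fav cav q ApU)
open Pool.Agent.W24.CP.SL (chS mcS AvS TS)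
open Pool.Agent.W24.CP.SU

namespace Pool.Agent.Y969.SW

variable {ι : Type*} [Fintype ι]

/-- sequences of admissible windows -/
def WinSeq (δ : ℝ) (K H : ℕ → ℕ) : Prop :=
  (∀ j, j + 1 ≤ K j) ∧ (∀ j, H j ≤ K j) ∧ ∀ j, ((K j : ℕ) : ℝ) ^ (1/2 + δ) ≤ H j

lemma WinSeq.tendsto {δ : ℝ} {K H : ℕ → ℕ} (h : WinSeq δ K H) : Tendsto K atTop atTop :=
  tendsto_atTop_mono (fun j => (by have := h.1 j; omega : j ≤ K j)) tendsto_id

lemma WinSeq.one {δ : ℝ} {K H : ℕ → ℕ} (h : WinSeq δ K H) (j : ℕ) : 1 ≤ K j := by have := h.1 j; omega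

lemma WinSeq.H_pos {δ : ℝ} {K H : ℕ → ℕ} (h : WinSeq δ K H) (j : ℕ) : 0 < H j := by
  have h1 : (0:ℝ) < ((K j : ℕ) : ℝ) ^ (1/2 + δ) := Real.rpow_pos_of_pos (by exact_mod_cast h.one j) _
  exact_mod_cast h1.trans_le (h.2.2 j)

lemma WinSeq.ne {δ : ℝ} {K H : ℕ → ℕ} (h : WinSeq δ K H) (j : ℕ) : (Ico (K j) (K j + H j)).Nonempty := by
  rw [nonempty_Ico]; have := h.H_pos j; omega

lemma WinSeq.H_tendsto {δ : ℝ} (hδ : 0 < δ) {K H : ℕ → ℕ} (h : WinSeq δ K H) :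
    Tendsto (fun j => ((H j : ℕ):ℝ)) atTop atTop := by
  have h1 : Tendsto (fun j => ((K j : ℕ):ℝ) ^ (1/2 + δ)) atTop atTop :=
    (tendsto_rpow_atTop (by linarith : 0 < 1/2 + δ)).comp (tendsto_natCast_atTop_atTop.comp h.tendsto)
  exact tendsto_atTop_mono h.2.2 h1

lemma card_win (K H : ℕ) : (Ico K (K + H)).card = H := by rw [Nat.card_Ico, Nat.add_sub_cancel_left]

/-- windows average characters -/
lemma win_Av {δ : ℝ} (hδ : 0 < δ) {K H : ℕ → ℕ} (h : WinSeq δ K H) : AvS (fun j => Ico (K j) (K j + H j)) := by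
  intro θ
  have hH0 : ∀ j, (0:ℝ) < H j := fun j => by exact_mod_cast h.H_pos j
  by_cases hθ : θ = 0
  · subst hθ
    have : ∀ j, cav (Ico (K j) (K j + H j)) (chS 0) = 1 := by
      intro j
      rw [Pool.Agent.W24.CP.SL.chS_zero]
      unfold cav
      rw [card_win]
      simp only [Pi.one_apply, sum_const, nsmul_eq_mul, mul_one, card_win]
      have := (hH0 j).ne'
      exact div_self (by exact_mod_cast this)
    simp only [this, mcS, if_pos]
    exact tendsto_const_nhds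
  · simp only [mcS, if_neg hθ]
    rw [tendsto_zero_iff_norm_tendsto_zero]
    have hlim : Tendsto (fun j => 6 / |θ| * ((K j : ℕ):ℝ) ^ (-δ)) atTop (𝓝 0) := by
      have h1 : Tendsto (fun j => ((K j : ℕ):ℝ) ^ (-δ)) atTop (𝓝 0) :=
        (tendsto_rpow_neg_atTop hδ).comp (tendsto_natCast_atTop_atTop.comp h.tendsto)
      simpa using h1.const_mul (6 / |θ|)
    have hev : ∀ᶠ j in atTop, |θ| ≤ √((K j : ℕ):ℝ) := by
      have h2 : Tendsto (fun j => √((K j : ℕ):ℝ)) atTop atTop :=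
        Real.tendsto_sqrt_atTop.comp (tendsto_natCast_atTop_atTop.comp h.tendsto)
      exact h2.eventually_ge_atTop _
    refine squeeze_zero' (Eventually.of_forall fun j => norm_nonneg _) ?_ hlim
    filter_upwards [hev] with j hj
    have hk := ker_win hθ (h.one j) (h.2.1 j) hj
    unfold cav
    rw [norm_div, Complex.norm_natCast, card_win, div_le_iff₀ (hH0 j)]
    refine hk.trans ?_
    have hK0 : (0:ℝ) < (K j : ℕ) := by exact_mod_cast h.one j
    have e1 : √((K j : ℕ):ℝ) = ((K j : ℕ):ℝ) ^ (-δ) * ((K j : ℕ):ℝ) ^ (1/2 + δ) := by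
      rw [← Real.rpow_add hK0, Real.sqrt_eq_rpow]; congr 1; ring
    have h3 := h.2.2 j
    have hθ' : 0 < |θ| := abs_pos.mpr hθ
    calc 6 * √((K j : ℕ):ℝ) / |θ| = 6 / |θ| * ((K j : ℕ):ℝ) ^ (-δ) * ((K j : ℕ):ℝ) ^ (1/2 + δ) := by rw [e1]; ring
      _ ≤ 6 / |θ| * ((K j : ℕ):ℝ) ^ (-δ) * (H j : ℕ) := by gcongr

/-- windows see the models -/
lemma win_ApU {a : ℕ → ℝ} {φ : ℝ} {δ ω : ℝ} (hδ : 0 < δ) (hω : 0 < ω) {c : ι → ℝ}
    {x : ℕ → ι → ℝ} (hx : ∀ i, MSs a φ (c i) δ ω (fun n => x n i)) {K H : ℕ → ℕ} (h : WinSeq δ K H) :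
    ApU (fun M n i => U a φ (c i * √(n:ℝ)) M) x (fun j => Ico (K j) (K j + H j)) := by
  choose C hC K0 hms using hx
  intro η hη
  have hCs : 0 ≤ ∑ i, C i := sum_nonneg fun i _ => (hC i).le
  have ht : Tendsto (fun M : ℕ => (∑ i, C i) * (M:ℝ) ^ (-ω)) atTop (𝓝 ((∑ i, C i) * 0)) :=
    ((tendsto_rpow_neg_atTop hω).comp tendsto_natCast_atTop_atTop).const_mul _
  rw [mul_zero] at ht
  obtain ⟨M0, hM0⟩ := eventually_atTop.mp (ht.eventually (gt_mem_nhds hη))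
  refine ⟨max M0 1, fun M hM => ?_⟩
  have hev1 : ∀ᶠ j in atTop, ((M ^ 40 : ℕ):ℝ) ≤ H j := (h.H_tendsto hδ).eventually_ge_atTop _
  have hev2 : ∀ᶠ j in atTop, univ.sup K0 ≤ K j := h.tendsto.eventually_ge_atTop _
  obtain ⟨j0, hj0⟩ := eventually_atTop.mp (hev1.and hev2)
  refine ⟨j0, fun j hj => ?_⟩
  obtain ⟨h1, h2⟩ := hj0 j hj
  have h1' : M ^ 40 ≤ H j := by exact_mod_cast h1
  have hH0 : (0:ℝ) < H j := by exact_mod_cast h.H_pos j
  unfold fav
  rw [card_win, div_le_iff₀ hH0]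
  unfold q
  rw [sum_comm]
  calc ∑ i, ∑ n ∈ Ico (K j) (K j + H j), ((x n - (fun i => U a φ (c i * √(n:ℝ)) M)) i)^2 ≤ ∑ i, C i * (M:ℝ) ^ (-ω) * ((H j : ℕ):ℝ) := by
        apply sum_le_sum; intro i _
        exact hms i (K j) (H j) M ((Finset.le_sup (f := K0) (mem_univ i)).trans h2) (h.2.1 j) (h.2.2 j) (by omega) h1'
    _ = ((∑ i, C i) * (M:ℝ) ^ (-ω)) * ((H j : ℕ):ℝ) := by rw [sum_mul, sum_mul]
    _ ≤ η * ((H j : ℕ):ℝ) := mul_le_mul_of_nonneg_right (hM0 M (by omega)).le (by positivity)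

/-- the law in windows is the law over all integers -/
theorem win_law {a : ℕ → ℝ} {φ : ℝ} {δ ω : ℝ} (hδ : 0 < δ) (hω : 0 < ω) {c : ι → ℝ}
    {x : ℕ → ι → ℝ} (hx : ∀ i, MSs a φ (c i) δ ω (fun n => x n i))
    (hI : ApU (fun M n i => U a φ (c i * √(n:ℝ)) M) x SI) {f : (ι → ℝ) → ℝ} (hf : Continuous f)
    (hC : ∃ C, ∀ x, |f x| ≤ C * (1 + q x)) {L : ℝ} (hL : Tendsto (fun j => fav (SI j) (fun n => f (x n))) atTop (𝓝 L))
    {K H : ℕ → ℕ} (h : WinSeq δ K H) :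
    Tendsto (fun j => fav (Ico (K j) (K j + H j)) (fun n => f (x n))) atTop (𝓝 L) :=
  Pool.Agent.W24.CP.SL.law_transfer (fun M i => U_TS a φ (c i) M) SI_ne SI_Av hI h.ne (win_Av hδ h)
    (win_ApU hδ hω hx h) hf hC hL

/-- **truncated moments of every order over short windows** -/
theorem mom_win {a : ℕ → ℝ} {φ : ℝ} (hb : Bd a) {δ ω : ℝ} (hδ : 0 < δ) (hδ1 : δ ≤ 1/2) (hω : 0 < ω) (hω1 : ω ≤ 1)
    {c : ι → ℝ} (hc : ∀ i, 0 < c i) {x : ℕ → ι → ℝ} (hx : ∀ i, MSs a φ (c i) δ ω (fun n => x n i))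
    {μ : ProbabilityMeasure (ι → ℝ)}
    (hlaw : ∀ K H : ℕ → ℕ, WinSeq δ K H → ∀ f : (ι → ℝ) → ℝ, Continuous f → (∃ B, ∀ x, |f x| ≤ B) →
      Tendsto (fun j => fa (Ico (K j) (K j + H j)) (fun n => f (x n))) atTop (𝓝 (∫ x, f x ∂(μ : Measure (ι → ℝ)))))
    {p : ℝ} (hp : 0 < p) :
    ∃ c₀ : ℝ, 0 < c₀ ∧ ∀ c' : ℝ, 0 < c' → c' ≤ c₀ → ∀ f : (ι → ℝ) → ℝ, Continuous f →
      (∃ B, ∀ x, |f x| ≤ B * (1 + ‖x‖ ^ p)) → ∀ η : ℝ, 0 < η → ∃ K₀ : ℕ, ∀ K H : ℕ, K₀ ≤ K → H ≤ K →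
      (K:ℝ) ^ (1/2 + δ) ≤ H →
      |fa (Ico K (K + H)) (fun n => if ‖x n‖ ≤ (K:ℝ) ^ c' then f (x n) else 0) - ∫ x, f x ∂(μ : Measure (ι → ℝ))| ≤ η := by
  classical
  obtain ⟨k, hk⟩ := exists_nat_ge ((p + 2) / 2)
  have hk1 : 1 ≤ k := by
    rcases Nat.eq_zero_or_pos k with h | h
    · rw [h] at hk; push_cast at hk; linarith
    · exact h
  have hkp : p + 2 ≤ 2 * (k:ℝ) := by linarith
  choose C hC htail using fun i => tails_short hb (hc i) hδ hδ1 hω hω1 (hx i) hk1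
  set θ : ℝ := δ * ω / 100 / 4 ^ k with hθ
  have hθ0 : 0 < θ := by positivity
  refine ⟨θ / (2 * (p + 1)), by positivity, fun c' hc' hc'2 f hf hK η hη => ?_⟩
  by_contra hcon
  push Not at hcon
  choose K H h1 h2 h3 h4 using fun j : ℕ => hcon (j + 1)
  have hW : WinSeq δ K H := ⟨h1, h2, h3⟩
  have key := trunc_conv (μ := μ) (S := fun j => Ico (K j) (K j + H j)) (e := fun _ n => x n) (L := fun j => ((K j : ℕ):ℝ))
    (p := p) (c := θ) (C := ∑ i, C i + 1) hW.ne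
    (tendsto_natCast_atTop_atTop.comp hW.tendsto) (fun j => by exact_mod_cast hW.one j)
    hp hθ0 (by have := Finset.sum_nonneg (fun i (_ : i ∈ (Finset.univ : Finset ι)) => (hC i).le); linarith)
    (by
      intro j V hV
      have hV0 : 0 < V := by linarith
      set S : Finset ℕ := Ico (K j) (K j + H j) with hS
      have hSc : (S.card : ℝ) = H j := by rw [hS, card_win]
      have hsub : S.filter (fun n => V < ‖x n‖) ⊆ Finset.univ.biUnion (fun i => S.filter (fun n => V < |x n i|)) := by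
        intro n hn
        rw [mem_filter] at hn
        rw [mem_biUnion]
        by_contra hcon
        push Not at hcon
        have h1 : ‖x n‖ ≤ V := by
          rw [pi_norm_le_iff_of_nonneg hV0.le]
          intro i
          rw [Real.norm_eq_abs]
          have := hcon i (mem_univ i)
          rw [mem_filter] at this
          push Not at this
          exact this hn.1
        linarith [hn.2]
      have h1 := (Finset.card_le_card hsub).trans Finset.card_biUnion_le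
      have h2 : ((S.filter (fun n => V < ‖x n‖)).card : ℝ) ≤ ∑ i, ((S.filter (fun n => V < |x n i|)).card : ℝ) := by
        exact_mod_cast h1
      refine h2.trans ?_
      have h3 : ∀ i, ((S.filter (fun n => V < |x n i|)).card : ℝ) ≤ C i * (S.card * (V ^ (-(p + 2)) + ((K j : ℕ):ℝ) ^ (-θ))) := by
        intro i
        refine (htail i (K j) (H j) (hW.one j) (hW.2.1 j) (hW.2.2 j) V hV0).trans ?_
        rw [mul_assoc, hSc]
        have h4 : V ^ (-(2 * k : ℝ)) ≤ V ^ (-(p + 2)) := Real.rpow_le_rpow_of_exponent_le hV (by linarith)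
        have := (hC i).le
        gcongr
      refine (sum_le_sum fun i _ => h3 i).trans ?_
      rw [← sum_mul]
      have h5 : 0 ≤ (S.card : ℝ) * (V ^ (-(p + 2)) + ((K j : ℕ):ℝ) ^ (-θ)) := by positivity
      have h6 : (∑ i, C i + 1) * (S.card : ℝ) * (V ^ (-(p + 2)) + ((K j : ℕ):ℝ) ^ (-θ)) =
        (∑ i, C i) * ((S.card : ℝ) * (V ^ (-(p + 2)) + ((K j : ℕ):ℝ) ^ (-θ))) + (S.card : ℝ) * (V ^ (-(p + 2)) + ((K j : ℕ):ℝ) ^ (-θ)) := by ring
      rw [h6]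
      linarith)
    (fun f hf hB => hlaw K H hW f hf hB)
  have h5 := key.2 c' hc' (by
    rw [le_div_iff₀ (by positivity)] at hc'2
    linarith) f hf hK
  rw [Metric.tendsto_atTop] at h5
  obtain ⟨j0, h6⟩ := h5 η hη
  have h7 := h6 j0 le_rfl
  rw [Real.dist_eq] at h7
  linarith [h4 j0]

end Pool.Agent.Y969.SW
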