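import Mathlib
import Pool.Agent.Y969.SW4
import Pool.Agent.Y969.SW3
import Pool.Agent.W24.CP.SF

/-! Mean square over short windows at linear arguments. -/

set_option autoImplicit false

open Finset Filter Topology MeasureTheory
open Pool.Agent.H383
open Pool.Agent.H383.Gen (Bd U Ap)
open Pool.Agent.H452R2.Win Pool.Agent.H452R2.Om
open Pool.Agent.H469R2.NK
open Pool.Agent.W24.CP.SA (lin_diff)

namespace Pool.Agent.Y969.SW

variable {E : ℝ → ℝ} {a : ℕ → ℝ} {φ : ℝ} {w : ℝ → ℂ}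

/-- **mean square over short windows, linear arguments** -/
theorem lin_short (ha : Bdw a) (ha0 : a 0 = 0) (hw : GW.Wt w) {κ₁ κ₂ : ℝ} (hS : SandW E a φ w κ₁ κ₂) {c : ℝ} (hc : 0 < c)
    {δ : ℝ} (hδ : 0 < δ) (hδ1 : δ ≤ 1/2) (A B : ℕ) (hA : 1 ≤ A) :
    MSs a φ (c * √(A:ℝ)) δ (δ/100) (fun n => E (c * √((A * n + B : ℕ):ℝ))) := by
  obtain ⟨C, hC, K0, hms⟩ := short_ms ha ha0 hw hS hc (δ := δ/2) (by positivity) (by linarith)
  obtain ⟨L, hL, hlip⟩ := Pool.Agent.W24.CP.U_lip ha.Bd φ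
  have hAr : (1:ℝ) ≤ A := by exact_mod_cast hA
  have ev1 : ∀ᶠ K : ℕ in atTop, ((A + B : ℕ):ℝ) ≤ (K:ℝ) ^ (δ/2) :=
    (((tendsto_rpow_atTop (by positivity : 0 < δ/2)).comp tendsto_natCast_atTop_atTop).eventually_ge_atTop _)
  obtain ⟨K1, hK1⟩ := eventually_atTop.mp ev1
  refine ⟨2 * C * A + 2 * (L * c * B)^2 + 1, by positivity, max (max K0 K1) 1, ?_⟩
  intro K H M hK hHK hKH hM hMH
  have hKK0 : K0 ≤ K := by omega
  have hK1' : 1 ≤ K := by omega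
  have hKr : (1:ℝ) ≤ K := by exact_mod_cast hK1'
  have hKp : (0:ℝ) < K := by linarith
  have hM1 : (1:ℝ) ≤ M := by exact_mod_cast hM
  have hM0 : (0:ℝ) < M := by linarith
  have hH0 : (0:ℝ) ≤ H := Nat.cast_nonneg H
  have h9 := hK1 K (by omega)
  -- the large window
  have hKe : (((A * K + B : ℕ):ℕ):ℝ) ^ (1/2 + δ/2) ≤ ((A * H : ℕ):ℝ) := by
    have e1 : ((A * K + B : ℕ):ℝ) ≤ ((A + B : ℕ):ℝ) * K := by
      push_cast
      have : (0:ℝ) ≤ B := Nat.cast_nonneg B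
      nlinarith
    have hAB1 : (1:ℝ) ≤ ((A + B : ℕ):ℝ) := by exact_mod_cast (by omega : 1 ≤ A + B)
    calc ((A * K + B : ℕ):ℝ) ^ (1/2 + δ/2) ≤ (((A + B : ℕ):ℝ) * K) ^ (1/2 + δ/2) :=
          Real.rpow_le_rpow (Nat.cast_nonneg _) e1 (by linarith)
      _ = ((A + B : ℕ):ℝ) ^ (1/2 + δ/2) * (K:ℝ) ^ (1/2 + δ/2) := Real.mul_rpow (by positivity) hKp.le
      _ ≤ ((A + B : ℕ):ℝ) ^ (1:ℝ) * (K:ℝ) ^ (1/2 + δ/2) := by
          apply mul_le_mul_of_nonneg_right _ (by positivity)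
          exact Real.rpow_le_rpow_of_exponent_le hAB1 (by linarith)
      _ ≤ (K:ℝ) ^ (δ/2) * (K:ℝ) ^ (1/2 + δ/2) := by
          rw [Real.rpow_one]; exact mul_le_mul_of_nonneg_right h9 (by positivity)
      _ = (K:ℝ) ^ (1/2 + δ) := by rw [← Real.rpow_add hKp]; congr 1; ring
      _ ≤ H := hKH
      _ ≤ ((A * H : ℕ):ℝ) := by push_cast; nlinarith
  have hKA : K0 ≤ A * K + B := by nlinarith
  have hHA : A * H ≤ A * K + B := by nlinarith
  have hMA : M^40 ≤ A * H := hMH.trans (Nat.le_mul_of_pos_left _ hA)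
  have h1 := hms (A * K + B) (A * H) M hKA hHA hKe hM hMA
  set f : ℕ → ℝ := fun k => (E (c * √(k:ℝ)) - U a φ (c * √(k:ℝ)) M)^2 with hf
  have h2 : ∑ n ∈ Ico K (K + H), f (A * n + B) ≤ C * (M:ℝ) ^ (-(δ/2/50)) * ((A * H : ℕ):ℝ) := by
    have e1 : ∑ n ∈ Ico K (K + H), f (A * n + B) = ∑ k ∈ (Ico K (K + H)).image (fun n => A * n + B), f k := by
      rw [sum_image]
      intro x _ y _ hxy
      simp only at hxy
      have : A * x = A * y := by omega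
      exact Nat.eq_of_mul_eq_mul_left (by omega) this
    rw [e1]
    refine le_trans ?_ h1
    apply sum_le_sum_of_subset_of_nonneg
    · intro k hk
      rw [mem_image] at hk
      obtain ⟨n, hn, rfl⟩ := hk
      rw [mem_Ico] at hn ⊢
      constructor
      · nlinarith
      · nlinarith
    · intro _ _ _; exact sq_nonneg _
  have h3 : ∀ n ∈ Ico K (K + H), (E (c * √((A * n + B : ℕ):ℝ)) - U a φ ((c * √(A:ℝ)) * √(n:ℝ)) M)^2 ≤
      2 * f (A * n + B) + 2 * ((L * c * B)^2 * (M:ℝ)^4 * (1 / (K:ℝ))) := by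
    intro n hn
    rw [mem_Ico] at hn
    have hn1 : 1 ≤ n := by omega
    have hn0 : (0:ℝ) < n := by exact_mod_cast hn1
    have hKn : (K:ℝ) ≤ n := by exact_mod_cast hn.1
    set x := E (c * √((A * n + B : ℕ):ℝ)) - U a φ (c * √((A * n + B : ℕ):ℝ)) M with hx
    set y := U a φ (c * √((A * n + B : ℕ):ℝ)) M - U a φ ((c * √(A:ℝ)) * √(n:ℝ)) M with hy
    have e1 : E (c * √((A * n + B : ℕ):ℝ)) - U a φ ((c * √(A:ℝ)) * √(n:ℝ)) M = x + y := by rw [hx, hy]; ring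
    have h3 : |y| ≤ L * (M:ℝ)^2 * (c * B / √(n:ℝ)) :=
      (hlip M _ _).trans (mul_le_mul_of_nonneg_left (lin_diff hc hA B hn1) (by positivity))
    have h4 : y^2 ≤ (L * c * B)^2 * (M:ℝ)^4 * (1 / (K:ℝ)) := by
      rw [← sq_abs]
      refine (pow_le_pow_left₀ (abs_nonneg _) h3 2).trans ?_
      rw [mul_pow, mul_pow, div_pow, Real.sq_sqrt hn0.le]
      calc L^2 * ((M:ℝ)^2)^2 * ((c * B)^2 / n) = (L * c * B)^2 * (M:ℝ)^4 * (1 / (n:ℝ)) := by ring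
        _ ≤ _ := by
            apply mul_le_mul_of_nonneg_left _ (by positivity)
            exact one_div_le_one_div_of_le hKp hKn
    have h5 : f (A * n + B) = x^2 := rfl
    rw [e1, h5]
    nlinarith [sq_nonneg (x - y)]
  have h4 : (M:ℝ)^4 * (1 / (K:ℝ)) ≤ (M:ℝ) ^ (-(δ/100)) := by
    have hMK : (M:ℝ)^40 ≤ K := by
      have : (M:ℝ)^40 ≤ H := by exact_mod_cast hMH
      exact this.trans (by exact_mod_cast hHK)
    have h5 : (M:ℝ) ^ (δ/100) * (M:ℝ)^4 ≤ K := by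
      calc (M:ℝ) ^ (δ/100) * (M:ℝ)^4 = (M:ℝ) ^ (δ/100) * (M:ℝ) ^ (4:ℝ) := by rw [← Real.rpow_natCast]; norm_num
        _ = (M:ℝ) ^ (δ/100 + 4) := (Real.rpow_add hM0 _ _).symm
        _ ≤ (M:ℝ) ^ (40:ℝ) := Real.rpow_le_rpow_of_exponent_le hM1 (by linarith)
        _ = (M:ℝ) ^ 40 := by rw [← Real.rpow_natCast]; norm_num
        _ ≤ K := hMK
    rw [Real.rpow_neg hM0.le, mul_one_div, div_le_iff₀ hKp, ← div_eq_inv_mul, le_div_iff₀ (Real.rpow_pos_of_pos hM0 _)]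
    linarith
  have e50 : δ/2/50 = δ/100 := by ring
  rw [e50] at h2
  calc _ ≤ ∑ n ∈ Ico K (K + H), (2 * f (A * n + B) + 2 * ((L * c * B)^2 * (M:ℝ)^4 * (1 / (K:ℝ)))) := sum_le_sum h3
    _ = 2 * ∑ n ∈ Ico K (K + H), f (A * n + B) + H * (2 * ((L * c * B)^2 * ((M:ℝ)^4 * (1 / (K:ℝ))))) := by
        rw [sum_add_distrib, ← mul_sum, sum_const, Nat.card_Ico, Nat.add_sub_cancel_left, nsmul_eq_mul]
        ring
    _ ≤ 2 * (C * (M:ℝ) ^ (-(δ/100)) * ((A * H : ℕ):ℝ)) + H * (2 * ((L * c * B)^2 * (M:ℝ) ^ (-(δ/100)))) := by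
        gcongr
    _ = (2 * C * A + 2 * (L * c * B)^2) * (M:ℝ) ^ (-(δ/100)) * H := by push_cast; ring
    _ ≤ _ := by
        have : 0 ≤ (M:ℝ) ^ (-(δ/100)) * H := by positivity
        nlinarith

end Pool.Agent.Y969.SW
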