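import Mathlib
import Pool.Agent.Y969.TW1
import Pool.Agent.Y969.TW2
import Pool.Agent.Y969.TM5

/-! Truncated moments of every order at linear arguments, over short windows and over primes. -/

set_option autoImplicit false

open Finset Filter Topology MeasureTheory
open Pool.Agent.H383
open Pool.Agent.H383.Gen (Bd U Ap)
open Pool.Agent.H452R2.Win Pool.Agent.H452R2.Om
open Pool.Agent.H469R2.NK
open Pool.Agent.Y969.TM
open Pool.Agent.H425R3.JL (PR fav cav q ApU)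
open Pool.Agent.W24.CP.SL (chS mcS AvS TS)
open Pool.Agent.W24.CP.SU

namespace Pool.Agent.Y969.SW

variable {ι : Type*} [Fintype ι]

open Classical in
/-- changing the level of truncation -/
lemma swap_le {S E : Finset ℕ} {e : ℕ → ι → ℝ} {L₁ L₂ B W : ℝ} {f g : (ι → ℝ) → ℝ} (hL : L₁ ≤ L₂) (hB : 0 ≤ B)
    (hg : ∀ x, 0 ≤ g x) (hfg : ∀ x, |f x| ≤ B * g x) {T : ℕ → Prop}
    (hT1 : ∀ n ∈ S, n ∉ E → ‖e n‖ ≤ L₁ → T n) (hT2 : ∀ n ∈ S, n ∉ E → T n → ‖e n‖ ≤ L₂) (hW : 0 ≤ W)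
    (hW1 : ∀ n ∈ E, T n → |f (e n)| ≤ W) (hW2 : ∀ n ∈ E, ‖e n‖ ≤ L₁ → |f (e n)| ≤ W) :
    |fa S (fun n => if T n then f (e n) else 0) - fa S (fun n => if ‖e n‖ ≤ L₁ then f (e n) else 0)| ≤
      B * (fa S (fun n => if ‖e n‖ ≤ L₂ then g (e n) else 0) - fa S (fun n => if ‖e n‖ ≤ L₁ then g (e n) else 0))
        + W * E.card / S.card := by
  have hpt : ∀ n ∈ S, |(if T n then f (e n) else 0) - (if ‖e n‖ ≤ L₁ then f (e n) else 0)| ≤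
      B * ((if ‖e n‖ ≤ L₂ then g (e n) else 0) - (if ‖e n‖ ≤ L₁ then g (e n) else 0)) + (if n ∈ E then W else 0) := by
    intro n hn
    have hg0 := hg (e n)
    have hpos : 0 ≤ (if ‖e n‖ ≤ L₂ then g (e n) else 0) - (if ‖e n‖ ≤ L₁ then g (e n) else 0) := by
      by_cases h1 : ‖e n‖ ≤ L₁
      · rw [if_pos h1, if_pos (h1.trans hL)]; linarith
      · rw [if_neg h1, sub_zero]; split_ifs <;> simp [hg0]
    by_cases hE : n ∈ E
    · rw [if_pos hE]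
      have h2 : |(if T n then f (e n) else 0) - (if ‖e n‖ ≤ L₁ then f (e n) else 0)| ≤ W := by
        by_cases h1 : ‖e n‖ ≤ L₁ <;> by_cases h3 : T n
        · rw [if_pos h3, if_pos h1, sub_self, abs_zero]; exact hW
        · rw [if_neg h3, if_pos h1, zero_sub, abs_neg]; exact hW2 n hE h1
        · rw [if_pos h3, if_neg h1, sub_zero]; exact hW1 n hE h3
        · rw [if_neg h3, if_neg h1, sub_self, abs_zero]; exact hW
      have := mul_nonneg hB hpos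
      linarith
    · rw [if_neg hE, add_zero]
      by_cases h3 : T n
      · have h4 := hT2 n hn hE h3
        rw [if_pos h3, if_pos h4]
        by_cases h1 : ‖e n‖ ≤ L₁
        · rw [if_pos h1, if_pos h1, sub_self, sub_self, abs_zero, mul_zero]
        · rw [if_neg h1, if_neg h1, sub_zero, sub_zero]; exact hfg _
      · have h1 : ¬ ‖e n‖ ≤ L₁ := fun h => h3 (hT1 n hn hE h)
        rw [if_neg h3, if_neg h1, sub_self, abs_zero]
        exact mul_nonneg hB hpos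
  refine (abs_fa_sub_le S _ _).trans ((fa_mono hpt).trans ?_)
  rw [fa_add, fa_mul]
  have e1 : fa S (fun n => (if ‖e n‖ ≤ L₂ then g (e n) else 0) - (if ‖e n‖ ≤ L₁ then g (e n) else 0)) =
      fa S (fun n => if ‖e n‖ ≤ L₂ then g (e n) else 0) - fa S (fun n => if ‖e n‖ ≤ L₁ then g (e n) else 0) := by
    unfold fa
    rw [sum_sub_distrib, sub_div]
  rw [e1]
  apply add_le_add le_rfl
  unfold fa
  apply div_le_div_of_nonneg_right _ (Nat.cast_nonneg _)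
  rw [← sum_filter, sum_const, nsmul_eq_mul, mul_comm]
  apply mul_le_mul_of_nonneg_left _ hW
  have : (S.filter (fun n => n ∈ E)) ⊆ E := fun n hn => (mem_filter.mp hn).2
  exact_mod_cast card_le_card this

open Classical in
/-- **windows**, truncation at `n ^ c'` -/
theorem mom_win' {a : ℕ → ℝ} {φ : ℝ} (hb : Bd a) {δ ω : ℝ} (hδ : 0 < δ) (hδ1 : δ ≤ 1/2) (hω : 0 < ω) (hω1 : ω ≤ 1)
    {c : ι → ℝ} (hc : ∀ i, 0 < c i) {x : ℕ → ι → ℝ} (hx : ∀ i, MSs a φ (c i) δ ω (fun n => x n i))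
    {μ : ProbabilityMeasure (ι → ℝ)}
    (hlaw : ∀ K H : ℕ → ℕ, WinSeq δ K H → ∀ f : (ι → ℝ) → ℝ, Continuous f → (∃ B, ∀ x, |f x| ≤ B) →
      Tendsto (fun j => fa (Ico (K j) (K j + H j)) (fun n => f (x n))) atTop (𝓝 (∫ x, f x ∂(μ : Measure (ι → ℝ)))))
    {p : ℝ} (hp : 0 < p) :
    ∃ c₀ : ℝ, 0 < c₀ ∧ ∀ c' : ℝ, 0 < c' → c' ≤ c₀ → ∀ f : (ι → ℝ) → ℝ, Continuous f →
      (∃ B, ∀ x, |f x| ≤ B * (1 + ‖x‖ ^ p)) → ∀ η : ℝ, 0 < η → ∃ K₀ : ℕ, ∀ K H : ℕ, K₀ ≤ K → H ≤ K →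
      (K:ℝ) ^ (1/2 + δ) ≤ H →
      |∑ n ∈ (Ico K (K + H)).filter (fun n => ‖x n‖ ≤ (n:ℝ) ^ c'), f (x n) - H * ∫ x, f x ∂(μ : Measure (ι → ℝ))| ≤ η * H := by
  obtain ⟨c₀, hc₀, key⟩ := mom_win hb hδ hδ1 hω hω1 hc hx hlaw hp
  refine ⟨c₀ / 2, by positivity, fun c' hc' hc'2 f hf hK η hη => ?_⟩
  obtain ⟨B, hB⟩ := hK
  have hB0 : 0 ≤ B := by
    have h1 := hB 0
    have h2 : 0 ≤ B * (1 + ‖(0 : ι → ℝ)‖ ^ p) := (abs_nonneg _).trans h1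
    have h3 : 0 < 1 + ‖(0 : ι → ℝ)‖ ^ p := by positivity
    by_contra hcon
    push Not at hcon
    nlinarith
  set g : (ι → ℝ) → ℝ := fun x => 1 + ‖x‖ ^ p with hgdef
  have hgc : Continuous g := by
    have : Continuous (fun x : ι → ℝ => ‖x‖ ^ p) := continuous_norm.rpow_const (fun _ => Or.inr hp.le)
    fun_prop
  have hg0 : ∀ x, 0 ≤ g x := fun x => by simp only [hgdef]; positivity
  have hgg : ∃ B, ∀ x, |g x| ≤ B * (1 + ‖x‖ ^ p) := ⟨1, fun x => by rw [abs_of_nonneg (hg0 x), one_mul]⟩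
  set η' : ℝ := η / (2 * B + 1) with hη'
  have hη0 : 0 < η' := by positivity
  obtain ⟨K1, h1⟩ := key c' hc' (by linarith) f hf ⟨B, hB⟩ η' hη0
  obtain ⟨K2, h2⟩ := key c' hc' (by linarith) g hgc hgg η' hη0
  obtain ⟨K3, h3⟩ := key (2 * c') (by linarith) (by linarith) g hgc hgg η' hη0
  refine ⟨max (max K1 K2) (max K3 2), fun K H hK hHK hKH => ?_⟩
  have hK2 : 2 ≤ K := by omega
  have hKr : (2:ℝ) ≤ K := by exact_mod_cast hK2
  have g1 := h1 K H (by omega) hHK hKH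
  have g2 := h2 K H (by omega) hHK hKH
  have g3 := h3 K H (by omega) hHK hKH
  have hHpos : (0:ℝ) < H := lt_of_lt_of_le (Real.rpow_pos_of_pos (by linarith) _) hKH
  have hs := swap_le (S := Ico K (K + H)) (E := ∅) (e := x) (L₁ := (K:ℝ) ^ c') (L₂ := (K:ℝ) ^ (2 * c')) (B := B) (W := 0)
    (f := f) (g := g) (Real.rpow_le_rpow_of_exponent_le (by linarith) (by linarith)) hB0 hg0 hB
    (T := fun n => ‖x n‖ ≤ (n:ℝ) ^ c')
    (fun n hn _ h => h.trans (Real.rpow_le_rpow (by linarith) (by exact_mod_cast (mem_Ico.mp hn).1) hc'.le))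
    (fun n hn _ h => h.trans (by
      have h4 : (n:ℝ) ≤ (K:ℝ) ^ (2:ℝ) := by
        have h5 : n ≤ K * K := by have := (mem_Ico.mp hn).2; nlinarith
        have h6 : (K:ℝ) ^ (2:ℝ) = ((K * K : ℕ):ℝ) := by push_cast; rw [Real.rpow_two]; ring
        rw [h6]; exact_mod_cast h5
      calc (n:ℝ) ^ c' ≤ ((K:ℝ) ^ (2:ℝ)) ^ c' := Real.rpow_le_rpow (Nat.cast_nonneg _) h4 hc'.le
        _ = (K:ℝ) ^ (2 * c') := by rw [← Real.rpow_mul (by linarith)]))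
    le_rfl (fun n hn => absurd hn (notMem_empty n)) (fun n hn => absurd hn (notMem_empty n))
  rw [zero_mul, zero_div, add_zero] at hs
  set X := fa (Ico K (K + H)) (fun n => if ‖x n‖ ≤ (n:ℝ) ^ c' then f (x n) else 0) with hX
  set I := ∫ x, f x ∂(μ : Measure (ι → ℝ)) with hI
  have hXI : |X - I| ≤ η := by
    have h5 : fa (Ico K (K + H)) (fun n => if ‖x n‖ ≤ (K:ℝ) ^ (2 * c') then g (x n) else 0) -
        fa (Ico K (K + H)) (fun n => if ‖x n‖ ≤ (K:ℝ) ^ c' then g (x n) else 0) ≤ 2 * η' := by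
      have := abs_le.mp g2; have := abs_le.mp g3; linarith
    have h6 : |X - I| ≤ B * (2 * η') + η' := by
      have h7 := abs_sub_le X (fa (Ico K (K + H)) (fun n => if ‖x n‖ ≤ (K:ℝ) ^ c' then f (x n) else 0)) I
      have h8 := mul_le_mul_of_nonneg_left h5 hB0
      linarith
    refine h6.trans (le_of_eq ?_)
    rw [hη']; field_simp
  have e1 : ∑ n ∈ (Ico K (K + H)).filter (fun n => ‖x n‖ ≤ (n:ℝ) ^ c'), f (x n) = H * X := by
    rw [hX, sum_filter]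
    unfold fa
    rw [card_win]
    field_simp
  rw [e1, ← mul_sub, abs_mul, abs_of_pos hHpos, mul_comm]
  exact mul_le_mul_of_nonneg_right hXI hHpos.le

open Classical in
/-- **primes**, truncation at `n ^ c'` -/
theorem mom_prime' {a : ℕ → ℝ} {φ : ℝ} (hb : Bd a) {ω : ℝ} (hω : 0 < ω)
    {c : ι → ℝ} (hc : ∀ i, 0 < c i) {x : ℕ → ι → ℝ} (hx : ∀ i, MSq a φ (c i) ω (fun n => x n i))
    {μ : ProbabilityMeasure (ι → ℝ)}
    (hlaw : ∀ f : (ι → ℝ) → ℝ, Continuous f → (∃ B, ∀ x, |f x| ≤ B) →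
      Tendsto (fun N => fa (PR N) (fun n => f (x n))) atTop (𝓝 (∫ x, f x ∂(μ : Measure (ι → ℝ)))))
    {p : ℝ} (hp : 0 < p) :
    Integrable (fun x : ι → ℝ => ‖x‖ ^ p) (μ : Measure (ι → ℝ)) ∧
    ∃ c₀ : ℝ, 0 < c₀ ∧ ∀ c' : ℝ, 0 < c' → c' ≤ c₀ → ∀ f : (ι → ℝ) → ℝ, Continuous f →
      (∃ B, ∀ x, |f x| ≤ B * (1 + ‖x‖ ^ p)) → ∀ η : ℝ, 0 < η → ∃ N₀ : ℕ, ∀ N : ℕ, N₀ ≤ N →
      |∑ n ∈ (PR N).filter (fun n => ‖x n‖ ≤ (n:ℝ) ^ c'), f (x n) - (PR N).card * ∫ x, f x ∂(μ : Measure (ι → ℝ))| ≤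
        η * (PR N).card := by
  obtain ⟨hint, c₀, hc₀, key⟩ := mom_of hb fam_prime hω hc hx hlaw hp
  refine ⟨hint, min c₀ (1 / (2 * p)), by positivity, fun c' hc' hc'3 f hf hK η hη => ?_⟩
  have hc'2 : c' ≤ c₀ := hc'3.trans (min_le_left _ _)
  have hcp : c' * p ≤ 1/2 := by
    have := hc'3.trans (min_le_right _ _)
    rw [le_div_iff₀ (by positivity)] at this
    linarith
  obtain ⟨B, hB⟩ := hK
  have hB0 : 0 ≤ B := by
    have h1 := hB 0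
    have h2 : 0 ≤ B * (1 + ‖(0 : ι → ℝ)‖ ^ p) := (abs_nonneg _).trans h1
    have h3 : 0 < 1 + ‖(0 : ι → ℝ)‖ ^ p := by positivity
    by_contra hcon
    push Not at hcon
    nlinarith
  set g : (ι → ℝ) → ℝ := fun x => 1 + ‖x‖ ^ p with hgdef
  have hgc : Continuous g := by
    have : Continuous (fun x : ι → ℝ => ‖x‖ ^ p) := continuous_norm.rpow_const (fun _ => Or.inr hp.le)
    fun_prop
  have hg0 : ∀ x, 0 ≤ g x := fun x => by simp only [hgdef]; positivity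
  have hgg : ∃ B, ∀ x, |g x| ≤ B * (1 + ‖x‖ ^ p) := ⟨1, fun x => by rw [abs_of_nonneg (hg0 x), one_mul]⟩
  obtain ⟨C, hC, hcard⟩ := fam_prime.card (1/8) (by norm_num)
  set η' : ℝ := η / (2 * B + 2) with hη'
  have hη0 : 0 < η' := by positivity
  have k1 := key (c'/2) (by positivity) (by linarith) f hf ⟨B, hB⟩
  have k2 := key (c'/2) (by positivity) (by linarith) g hgc hgg
  have k3 := key c' hc' hc'2 g hgc hgg
  rw [Metric.tendsto_atTop] at k1 k2 k3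
  obtain ⟨N1, h1⟩ := k1 η' hη0
  obtain ⟨N2, h2⟩ := k2 η' hη0
  obtain ⟨N3, h3⟩ := k3 η' hη0
  have ev4 : ∀ᶠ N : ℕ in atTop, 2 * B * C * (N:ℝ) ^ (-(1/8):ℝ) < η' := by
    have : Tendsto (fun N : ℕ => 2 * B * C * (N:ℝ) ^ (-(1/8):ℝ)) atTop (𝓝 (2 * B * C * 0)) :=
      ((tendsto_rpow_neg_atTop (by norm_num : (0:ℝ) < 1/8)).comp tendsto_natCast_atTop_atTop).const_mul _
    rw [mul_zero] at this
    exact this.eventually (gt_mem_nhds hη0)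
  obtain ⟨N4, h4⟩ := eventually_atTop.mp ev4
  refine ⟨max (max N1 N2) (max (max N3 N4) 2), fun N hN => ?_⟩
  have hN2 : 2 ≤ N := by omega
  have hNr : (2:ℝ) ≤ N := by exact_mod_cast hN2
  have hN0 : (0:ℝ) < N := by linarith
  have g1 := h1 N (by omega)
  have g2 := h2 N (by omega)
  have g3 := h3 N (by omega)
  have g4 := h4 N (by omega)
  rw [Real.dist_eq] at g1 g2 g3
  have hPpos : (0:ℝ) < (PR N).card := fam_prime.card_pos hN2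
  have hsqle : ((Nat.sqrt N : ℕ):ℝ) ≤ (N:ℝ) ^ (1/2:ℝ) := by
    rw [← Real.sqrt_eq_rpow]
    apply Real.le_sqrt_of_sq_le
    have := Nat.sqrt_le' N
    exact_mod_cast this
  have hpow14 : ∀ s : ℝ, 0 ≤ s → s ≤ (N:ℝ) ^ (c'/2) → B * (1 + s ^ p) ≤ 2 * B * (N:ℝ) ^ (1/4:ℝ) := by
    intro s hs0 hs
    have h5 : s ^ p ≤ (N:ℝ) ^ (1/4:ℝ) := by
      calc s ^ p ≤ ((N:ℝ) ^ (c'/2)) ^ p := Real.rpow_le_rpow hs0 hs hp.le
        _ = (N:ℝ) ^ (c'/2 * p) := by rw [← Real.rpow_mul hN0.le]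
        _ ≤ _ := Real.rpow_le_rpow_of_exponent_le (by linarith) (by linarith)
    have h6 : (1:ℝ) ≤ (N:ℝ) ^ (1/4:ℝ) := Real.one_le_rpow (by linarith) (by norm_num)
    nlinarith
  have hs := swap_le (S := PR N) (E := Icc 1 (Nat.sqrt N)) (e := x) (L₁ := (N:ℝ) ^ (c'/2)) (L₂ := (N:ℝ) ^ c') (B := B)
    (W := 2 * B * (N:ℝ) ^ (1/4:ℝ))
    (f := f) (g := g) (Real.rpow_le_rpow_of_exponent_le (by linarith) (by linarith)) hB0 hg0 hB
    (T := fun n => ‖x n‖ ≤ (n:ℝ) ^ c')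
    (fun n hn hnE h => h.trans (by
      have hn1 : 1 ≤ n := by
        have := fam_prime.sub N hn
        exact (mem_Icc.mp this).1
      have h5 : Nat.sqrt N < n := by
        by_contra hcon
        exact hnE (mem_Icc.mpr ⟨hn1, by omega⟩)
      have h6 : N < n * n := Nat.sqrt_lt.mp h5
      have h7 : (N:ℝ) ≤ (n:ℝ) ^ (2:ℝ) := by
        rw [Real.rpow_two, sq]; exact_mod_cast h6.le
      calc (N:ℝ) ^ (c'/2) ≤ ((n:ℝ) ^ (2:ℝ)) ^ (c'/2) := Real.rpow_le_rpow hN0.le h7 (by positivity)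
        _ = (n:ℝ) ^ c' := by rw [← Real.rpow_mul (Nat.cast_nonneg _)]; congr 1; ring))
    (fun n hn _ h => h.trans (Real.rpow_le_rpow (Nat.cast_nonneg _)
      (by exact_mod_cast (mem_Icc.mp (fam_prime.sub N hn)).2) hc'.le))
    (by positivity)
    (fun n hn h => (hB _).trans (hpow14 _ (norm_nonneg _) (h.trans (by
      have h5 : (n:ℝ) ≤ (N:ℝ) ^ (1/2:ℝ) := (by exact_mod_cast (mem_Icc.mp hn).2 : (n:ℝ) ≤ ((Nat.sqrt N : ℕ):ℝ)).trans hsqle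
      calc (n:ℝ) ^ c' ≤ ((N:ℝ) ^ (1/2:ℝ)) ^ c' := Real.rpow_le_rpow (Nat.cast_nonneg _) h5 hc'.le
        _ = (N:ℝ) ^ (c'/2) := by rw [← Real.rpow_mul hN0.le]; congr 1; ring))))
    (fun n hn h => (hB _).trans (hpow14 _ (norm_nonneg _) h))
  have hW : 2 * B * (N:ℝ) ^ (1/4:ℝ) * ((Icc 1 (Nat.sqrt N)).card : ℝ) / (PR N).card ≤ η' := by
    refine le_trans ?_ g4.le
    rw [div_le_iff₀ hPpos, Nat.card_Icc, Nat.add_sub_cancel]
    have h5 := hcard N hN2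
    have h6 : (N:ℝ) ^ (3/4:ℝ) ≤ C * (PR N).card * (N:ℝ) ^ (-(1/8):ℝ) := by
      have h7 : (N:ℝ) ^ (3/4:ℝ) = N * (N:ℝ) ^ (-(1/4):ℝ) := by
        nth_rewrite 2 [← Real.rpow_one (N:ℝ)]
        rw [← Real.rpow_add hN0]; norm_num
      rw [h7]
      calc N * (N:ℝ) ^ (-(1/4):ℝ) ≤ (C * (PR N).card * (N:ℝ) ^ (1/8:ℝ)) * (N:ℝ) ^ (-(1/4):ℝ) := by gcongr
        _ = C * (PR N).card * ((N:ℝ) ^ (1/8:ℝ) * (N:ℝ) ^ (-(1/4):ℝ)) := by ring
        _ = _ := by rw [← Real.rpow_add hN0]; norm_num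
    calc 2 * B * (N:ℝ) ^ (1/4:ℝ) * ((Nat.sqrt N : ℕ):ℝ) ≤ 2 * B * (N:ℝ) ^ (1/4:ℝ) * (N:ℝ) ^ (1/2:ℝ) := by gcongr
      _ = 2 * B * (N:ℝ) ^ (3/4:ℝ) := by
          rw [mul_assoc, ← Real.rpow_add hN0]; norm_num
      _ ≤ 2 * B * (C * (PR N).card * (N:ℝ) ^ (-(1/8):ℝ)) := by gcongr
      _ = _ := by ring
  set X := fa (PR N) (fun n => if ‖x n‖ ≤ (n:ℝ) ^ c' then f (x n) else 0) with hX
  set I := ∫ x, f x ∂(μ : Measure (ι → ℝ)) with hI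
  have hXI : |X - I| ≤ η := by
    have h5 : fa (PR N) (fun n => if ‖x n‖ ≤ (N:ℝ) ^ c' then g (x n) else 0) -
        fa (PR N) (fun n => if ‖x n‖ ≤ (N:ℝ) ^ (c'/2) then g (x n) else 0) ≤ 2 * η' := by
      have := abs_lt.mp g2; have := abs_lt.mp g3; linarith
    have h6 : |X - I| ≤ B * (2 * η') + η' + η' := by
      have h7 := abs_sub_le X (fa (PR N) (fun n => if ‖x n‖ ≤ (N:ℝ) ^ (c'/2) then f (x n) else 0)) I
      have h8 := mul_le_mul_of_nonneg_left h5 hB0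
      linarith
    refine h6.trans (le_of_eq ?_)
    rw [hη']; field_simp; ring
  have e1 : ∑ n ∈ (PR N).filter (fun n => ‖x n‖ ≤ (n:ℝ) ^ c'), f (x n) = (PR N).card * X := by
    rw [hX, sum_filter]
    unfold fa
    field_simp
  rw [e1, ← mul_sub, abs_mul, abs_of_pos hPpos, mul_comm]
  exact mul_le_mul_of_nonneg_right hXI hPpos.le

variable {E : ℝ → ℝ} {af : ℕ → ℝ} {φ : ℝ} {w : ℝ → ℂ}

open Classical in
/-- **truncated moments of every order at linear arguments**, in short windows and at primes -/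
theorem lin_trunc (ha : Bdw af) (ha0 : af 0 = 0) (hw : GW.Wt w) {κ₁ κ₂ : ℝ} (hS : SandW E af φ w κ₁ κ₂) {c : ℝ} (hc : 0 < c)
    (A B : ι → ℕ) (hA : ∀ i, 1 ≤ A i) {μ : ProbabilityMeasure (ι → ℝ)}
    (hI : ∀ f : (ι → ℝ) → ℝ, Continuous f → (∃ C, ∀ x, |f x| ≤ C * (1 + q x)) →
      Tendsto (fun j => fav (SI j) (fun n => f (ev E c A B n))) atTop (𝓝 (∫ x, f x ∂(μ : Measure (ι → ℝ)))))
    (hQ : ∀ f : (ι → ℝ) → ℝ, Continuous f → (∃ C, ∀ x, |f x| ≤ C * (1 + q x)) →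
      Tendsto (fun N => fa (PR N) (fun n => f (ev E c A B n))) atTop (𝓝 (∫ x, f x ∂(μ : Measure (ι → ℝ)))))
    {p : ℝ} (hp : 0 < p) :
    Integrable (fun x : ι → ℝ => ‖x‖ ^ p) (μ : Measure (ι → ℝ)) ∧
    ∀ δ : ℝ, 0 < δ → ∃ c₀ : ℝ, 0 < c₀ ∧ ∀ c' : ℝ, 0 < c' → c' ≤ c₀ → ∀ f : (ι → ℝ) → ℝ, Continuous f →
      (∃ B, ∀ x, |f x| ≤ B * (1 + ‖x‖ ^ p)) → ∀ η : ℝ, 0 < η → ∃ N₀ : ℕ, ∀ N : ℕ, N₀ ≤ N →
      (∀ H : ℕ, H ≤ N → (N:ℝ) ^ (1/2 + δ) ≤ H →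
        |∑ n ∈ (Ico N (N + H)).filter (fun n => ‖ev E c A B n‖ ≤ (n:ℝ) ^ c'), f (ev E c A B n)
          - H * ∫ x, f x ∂(μ : Measure (ι → ℝ))| ≤ η * H) ∧
      |∑ n ∈ (PR N).filter (fun n => ‖ev E c A B n‖ ≤ (n:ℝ) ^ c'), f (ev E c A B n)
        - (PR N).card * ∫ x, f x ∂(μ : Measure (ι → ℝ))| ≤ η * (PR N).card := by
  have hq1 : ∀ x : ι → ℝ, 0 ≤ q x := fun x => Pool.Agent.H425R3.JL.q_nonneg x
  have hbq : ∀ f : (ι → ℝ) → ℝ, (∃ B, ∀ x, |f x| ≤ B) → ∃ C, ∀ x, |f x| ≤ C * (1 + q x) := by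
    intro f ⟨B, hB⟩
    refine ⟨|B|, fun x => (hB x).trans ((le_abs_self B).trans ?_)⟩
    nlinarith [abs_nonneg B, hq1 x]
  have hpos : ∀ i, (0:ℝ) < A i := fun i => by exact_mod_cast hA i
  have hsq : ∀ i, 0 < c * √(A i:ℝ) := fun i => mul_pos hc (Real.sqrt_pos.mpr (hpos i))
  obtain ⟨ω, hω, hω2, hlin⟩ := Pool.Agent.W24.CP.SA.lin_ms ha ha0 hw hS hc
  have hx : ∀ i, MSq af φ (c * √(A i:ℝ)) ω (fun n => ev E c A B n i) := by
    intro i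
    obtain ⟨C, hC, h⟩ := hlin (A i) (B i) (hA i)
    exact ⟨C, hC, fun M N hM hMN => h M N hM hMN⟩
  obtain ⟨hint, c1, hc1, hP⟩ := mom_prime' ha.Bd hω hsq hx (fun f hf hB => hQ f hf (hbq f hB)) hp
  refine ⟨hint, fun δ hδ => ?_⟩
  set δ' : ℝ := min δ (1/2) with hδ'
  have hδ0 : 0 < δ' := lt_min hδ (by norm_num)
  have hδ1 : δ' ≤ 1/2 := min_le_right _ _
  have hxs : ∀ i, MSs af φ (c * √(A i:ℝ)) δ' (δ'/100) (fun n => ev E c A B n i) := fun i =>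
    lin_short ha ha0 hw hS hc hδ0 hδ1 (A i) (B i) (hA i)
  have hUx := ApU_SI ha ha0 hw hS hc A B hA
  obtain ⟨c2, hc2, hW⟩ := mom_win' ha.Bd hδ0 hδ1 (by positivity) (by linarith) hsq hxs (μ := μ) (fun K H hKH f hf hB =>
    win_law hδ0 (ω := δ'/100) (by positivity) hxs hUx hf (hbq f hB) (hI f hf (hbq f hB)) hKH) hp
  refine ⟨min c1 c2, lt_min hc1 hc2, fun c' hc' hc'2 f hf hB η hη => ?_⟩
  obtain ⟨N1, h1⟩ := hP c' hc' (hc'2.trans (min_le_left _ _)) f hf hB η hη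
  obtain ⟨N2, h2⟩ := hW c' hc' (hc'2.trans (min_le_right _ _)) f hf hB η hη
  refine ⟨max N1 (max N2 1), fun N hN => ⟨fun H hH hNH => ?_, h1 N (by omega)⟩⟩
  refine h2 N H (by omega) hH (le_trans ?_ hNH)
  exact Real.rpow_le_rpow_of_exponent_le (by exact_mod_cast (by omega : 1 ≤ N)) (by linarith [min_le_left δ (1/2)])

end Pool.Agent.Y969.SW
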