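import Mathlib
import Pool.Agent.Y969.TW3
import Pool.Agent.Y969.Lin

/-! Truncated moments at linear arguments for the divisor and the circle problem. -/

set_option autoImplicit false

open Finset Filter Topology MeasureTheory
open Pool.Agent.H383
open Pool.Agent.H383.Gen (Bd U Ap)
open Pool.Agent.H452R2.Win Pool.Agent.H452R2.Om
open Pool.Agent.H469R2.NK
open Pool.Agent.Y969.TM
open Pool.Agent.H425R3.JL (PR fav cav q ApU Ec Edv)
open Pool.Agent.W24.CP.SU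

namespace Pool.Agent.Y969.SW

section
variable {k : ℕ} {F : ℕ → Fin k → ℝ} {μ : ProbabilityMeasure (Fin k → ℝ)}

/-- the two laws out of the uniform statement -/
lemma laws_of {f : (Fin k → ℝ) → ℝ}
    (h : ∀ η : ℝ, 0 < η → ∃ N₀ : ℕ, ∀ N : ℕ, N₀ ≤ N → ∀ α : ℝ,
            (∀ g : ℕ → ℂ, (∀ n, ‖g n‖ ≤ 1) → (∀ m n : ℕ, Nat.Coprime m n → g (m * n) = g m * g n) →
              ‖∑ n ∈ Finset.Icc 1 N, g n * Complex.exp (2 * Real.pi * Complex.I * (α * n)) *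
                ((f (F n) - ∫ x, f x ∂(μ : Measure (Fin k → ℝ)) : ℝ) : ℂ)‖ ≤ η * N) ∧
            ‖∑ p ∈ (Finset.Icc 1 N).filter Nat.Prime, Complex.exp (2 * Real.pi * Complex.I * (α * p)) *
                ((f (F p) - ∫ x, f x ∂(μ : Measure (Fin k → ℝ)) : ℝ) : ℂ)‖
              ≤ η * ((Finset.Icc 1 N).filter Nat.Prime).card) :
    Tendsto (fun j => fav (SI j) (fun n => f (F n))) atTop (𝓝 (∫ x, f x ∂(μ : Measure (Fin k → ℝ)))) ∧
    Tendsto (fun N => fa (PR N) (fun n => f (F n))) atTop (𝓝 (∫ x, f x ∂(μ : Measure (Fin k → ℝ)))) := by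
  have hexp : ∀ n : ℕ, Complex.exp (2 * Real.pi * Complex.I * (((0:ℝ):ℂ) * n)) = 1 := by
    intro n; simp
  have red : ∀ (S : Finset ℕ) (η : ℝ), S.Nonempty →
      ‖∑ n ∈ S, ((f (F n) - ∫ x, f x ∂(μ : Measure (Fin k → ℝ)) : ℝ) : ℂ)‖ ≤ η * S.card →
      dist ((∑ n ∈ S, f (F n)) / S.card) (∫ x, f x ∂(μ : Measure (Fin k → ℝ))) ≤ η := by
    intro S η hS h1
    have hc : (0:ℝ) < S.card := by exact_mod_cast hS.card_pos
    rw [← Complex.ofReal_sum, Complex.norm_real, Real.norm_eq_abs, sum_sub_distrib, sum_const, nsmul_eq_mul] at h1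
    rw [Real.dist_eq]
    have e1 : (∑ n ∈ S, f (F n)) / S.card - ∫ x, f x ∂(μ : Measure (Fin k → ℝ)) =
        (∑ n ∈ S, f (F n) - S.card * ∫ x, f x ∂(μ : Measure (Fin k → ℝ))) / S.card := by
      field_simp
    rw [e1, abs_div, abs_of_pos hc, div_le_iff₀ hc]
    exact h1
  constructor
  · rw [Metric.tendsto_atTop]
    intro ε hε
    obtain ⟨N0, h1⟩ := h (ε/2) (by positivity)
    refine ⟨N0, fun j hj => ?_⟩
    have h2 := (h1 (j+1) (by omega) 0).1 (fun _ => 1) (fun n => by simp) (fun m n _ => by simp)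
    simp only [hexp, one_mul] at h2
    have h3 := red (SI j) (ε/2) (SI_ne j) (by
      rw [SI_card]; exact h2)
    unfold fav
    linarith
  · rw [Metric.tendsto_atTop]
    intro ε hε
    obtain ⟨N0, h1⟩ := h (ε/2) (by positivity)
    refine ⟨max N0 2, fun N hN => ?_⟩
    have h2 := (h1 N (by omega) 0).2
    simp only [hexp, one_mul] at h2
    have hne : (PR N).Nonempty := ⟨2, by
      unfold Pool.Agent.H425R3.JL.PR; rw [mem_filter, mem_Icc]; exact ⟨⟨by omega, by omega⟩, Nat.prime_two⟩⟩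
    have h3 := red (PR N) (ε/2) hne h2
    unfold fa
    linarith

open Classical in
/-- filters in coordinates -/
lemma filt_win (S : Finset ℕ) (c : ℝ) : S.filter (fun n => ‖F n‖ ≤ (n:ℝ) ^ c) =
    S.filter (fun n => ∀ i, |F n i| ≤ (n:ℝ) ^ c) := by
  apply filter_congr
  intro n _
  rw [pi_norm_le_iff_of_nonneg (by positivity)]
  rfl

open Classical in
lemma filt_pr (N : ℕ) (c : ℝ) : (PR N).filter (fun n => ‖F n‖ ≤ (n:ℝ) ^ c) =
    (Icc 1 N).filter (fun p => p.Prime ∧ ∀ i, |F p i| ≤ (p:ℝ) ^ c) := by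
  rw [filt_win]
  unfold Pool.Agent.H425R3.JL.PR
  rw [filter_filter]

end

open Pool.Agent.H383.Div in
open Classical in
/-- the divisor problem -/
theorem div_trunc :
    ∃ ν : ProbabilityMeasure ℝ, ∀ (k : ℕ) (a b : Fin k → ℕ), (∀ i, 0 < a i) →
      ∃ μ : ProbabilityMeasure (Fin k → ℝ),
        (∀ i, (μ : Measure (Fin k → ℝ)).map (fun x => x i) = (ν : Measure ℝ)) ∧
        (∀ i, ∫ x, x i ∂(μ : Measure (Fin k → ℝ)) = 0) ∧
        (∀ i j, ∀ u v d : ℕ, a i = d * v → a j = d * u → Nat.Coprime u v →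
          ∫ x, x i * x j ∂(μ : Measure (Fin k → ℝ)) =
            (∑' h : ℕ, ((u * h).divisors.card : ℝ) * (v * h).divisors.card /
              ((u : ℝ) * v * (h : ℝ) ^ 2) ^ (3 / 4 : ℝ)) / (4 * Real.pi ^ 2)) ∧
        ∀ p : ℝ, 0 < p →
          Integrable (fun x : Fin k → ℝ => ‖x‖ ^ p) (μ : Measure (Fin k → ℝ)) ∧
          ∀ δ : ℝ, 0 < δ → ∃ c₀ : ℝ, 0 < c₀ ∧ ∀ c : ℝ, 0 < c → c ≤ c₀ → ∀ f : (Fin k → ℝ) → ℝ, Continuous f →
            (∃ B : ℝ, ∀ x, |f x| ≤ B * (1 + ‖x‖ ^ p)) → ∀ η : ℝ, 0 < η → ∃ N₀ : ℕ, ∀ N : ℕ, N₀ ≤ N →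
            (∀ H : ℕ, H ≤ N → (N : ℝ) ^ (1 / 2 + δ) ≤ H →
              |∑ n ∈ (Finset.Ico N (N + H)).filter (fun n : ℕ => ∀ i, |Edv ((a i : ℝ) * n + b i)| ≤ (n : ℝ) ^ c),
                  f (fun i => Edv ((a i : ℝ) * n + b i)) - H * ∫ x, f x ∂(μ : Measure (Fin k → ℝ))| ≤ η * H) ∧
            |∑ n ∈ (Finset.Icc 1 N).filter (fun n : ℕ => n.Prime ∧ ∀ i, |Edv ((a i : ℝ) * n + b i)| ≤ (n : ℝ) ^ c),
                f (fun i => Edv ((a i : ℝ) * n + b i))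
              - ((Finset.Icc 1 N).filter Nat.Prime).card * ∫ x, f x ∂(μ : Measure (Fin k → ℝ))|
              ≤ η * ((Finset.Icc 1 N).filter Nat.Prime).card := by
  obtain ⟨ν, G, -, -, -, -, hν⟩ := Pool.Agent.Y969.Lin.div_lin
  refine ⟨ν, fun k a b ha => ?_⟩
  obtain ⟨μ, -, m2, m3, m4, m5, -⟩ := hν k a b ha
  have hev : ∀ n : ℕ, Pool.Agent.W24.CP.SU.ev E2 2 a b n = fun i => Edv ((a i : ℝ) * n + b i) := by
    intro n; funext i
    unfold Pool.Agent.W24.CP.SU.ev E2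
    rw [← Pool.Agent.H425R3.JL.Edv_eq (by positivity)]
    congr 1
    rw [mul_comm, mul_div_assoc]
    norm_num
  refine ⟨μ, m2, m3, fun i j u v d hi hj huv => (m4 i j u v d hi hj huv).2, fun p hp => ?_⟩
  obtain ⟨h1, h2⟩ := lin_trunc ad_Bdw2 ad_zero wd_Wt (E2_SandW vor) two_pos a b (fun i => ha i) (μ := μ)
    (fun f hf hC => by
      have := (laws_of (F := fun (n : ℕ) i => Edv ((a i : ℝ) * n + b i)) (m5 f hf hC)).1
      simp only [hev]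
      exact this)
    (fun f hf hC => by
      have := (laws_of (F := fun (n : ℕ) i => Edv ((a i : ℝ) * n + b i)) (m5 f hf hC)).2
      simp only [hev]
      exact this) hp
  refine ⟨h1, fun δ hδ => ?_⟩
  obtain ⟨c₀, hc₀, h3⟩ := h2 δ hδ
  refine ⟨c₀, hc₀, fun c hc hc2 f hf hB η hη => ?_⟩
  obtain ⟨N0, h4⟩ := h3 c hc hc2 f hf hB η hη
  refine ⟨N0, fun N hN => ?_⟩
  obtain ⟨h5, h6⟩ := h4 N hN
  rw [filt_pr] at h6
  simp only [filt_win, hev] at h5 h6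
  exact ⟨h5, h6⟩

open Pool.Agent.H383.Gauss Pool.Agent.H383.Circ in
open Classical in
/-- the circle problem -/
theorem circ_trunc (r : ℕ → ℕ) (hr : ∀ m : ℕ, r m = Nat.card {p : ℤ × ℤ // p.1 ^ 2 + p.2 ^ 2 = (m : ℤ)}) :
    ∃ ν : ProbabilityMeasure ℝ, ∀ (k : ℕ) (a b : Fin k → ℕ), (∀ i, 0 < a i) →
      ∃ μ : ProbabilityMeasure (Fin k → ℝ),
        (∀ i, (μ : Measure (Fin k → ℝ)).map (fun x => x i) = (ν : Measure ℝ)) ∧
        (∀ i, ∫ x, x i ∂(μ : Measure (Fin k → ℝ)) = 0) ∧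
        (∀ i j, ∀ u v d : ℕ, a i = d * v → a j = d * u → Nat.Coprime u v →
          ∫ x, x i * x j ∂(μ : Measure (Fin k → ℝ)) =
            (∑' h : ℕ, (r (u * h) : ℝ) * r (v * h) / ((u : ℝ) * v * (h : ℝ) ^ 2) ^ (3 / 4 : ℝ)) / (2 * Real.pi ^ 2)) ∧
        ∀ p : ℝ, 0 < p →
          Integrable (fun x : Fin k → ℝ => ‖x‖ ^ p) (μ : Measure (Fin k → ℝ)) ∧
          ∀ δ : ℝ, 0 < δ → ∃ c₀ : ℝ, 0 < c₀ ∧ ∀ c : ℝ, 0 < c → c ≤ c₀ → ∀ f : (Fin k → ℝ) → ℝ, Continuous f →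
            (∃ B : ℝ, ∀ x, |f x| ≤ B * (1 + ‖x‖ ^ p)) → ∀ η : ℝ, 0 < η → ∃ N₀ : ℕ, ∀ N : ℕ, N₀ ≤ N →
            (∀ H : ℕ, H ≤ N → (N : ℝ) ^ (1 / 2 + δ) ≤ H →
              |∑ n ∈ (Finset.Ico N (N + H)).filter (fun n : ℕ => ∀ i, |Ec ((a i : ℝ) * n + b i)| ≤ (n : ℝ) ^ c),
                  f (fun i => Ec ((a i : ℝ) * n + b i)) - H * ∫ x, f x ∂(μ : Measure (Fin k → ℝ))| ≤ η * H) ∧
            |∑ n ∈ (Finset.Icc 1 N).filter (fun n : ℕ => n.Prime ∧ ∀ i, |Ec ((a i : ℝ) * n + b i)| ≤ (n : ℝ) ^ c),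
                f (fun i => Ec ((a i : ℝ) * n + b i))
              - ((Finset.Icc 1 N).filter Nat.Prime).card * ∫ x, f x ∂(μ : Measure (Fin k → ℝ))|
              ≤ η * ((Finset.Icc 1 N).filter Nat.Prime).card := by
  obtain ⟨ν, G, -, -, -, -, hν⟩ := Pool.Agent.W24.CP.SR.circ_lin r hr
  refine ⟨ν, fun k a b ha => ?_⟩
  obtain ⟨μ, -, m2, m3, m4, m5, -⟩ := hν k a b ha
  have hev : ∀ n : ℕ, Pool.Agent.W24.CP.SU.ev En 1 a b n = fun i => Ec ((a i : ℝ) * n + b i) := by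
    intro n; funext i
    unfold Pool.Agent.W24.CP.SU.ev
    rw [one_mul, ← Pool.Agent.H425R3.JL.Ec_eq (by positivity)]
    congr 1
    push_cast
    rfl
  refine ⟨μ, m2, m3, fun i j u v d hi hj huv => (m4 i j u v d hi hj huv).2, fun p hp => ?_⟩
  obtain ⟨h1, h2⟩ := lin_trunc ag_Bdw ag_zero wg_Wt En_SandW one_pos a b (fun i => ha i) (μ := μ)
    (fun f hf hC => by
      have := (laws_of (F := fun (n : ℕ) i => Ec ((a i : ℝ) * n + b i)) (m5 f hf hC)).1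
      simp only [hev]
      exact this)
    (fun f hf hC => by
      have := (laws_of (F := fun (n : ℕ) i => Ec ((a i : ℝ) * n + b i)) (m5 f hf hC)).2
      simp only [hev]
      exact this) hp
  refine ⟨h1, fun δ hδ => ?_⟩
  obtain ⟨c₀, hc₀, h3⟩ := h2 δ hδ
  refine ⟨c₀, hc₀, fun c hc hc2 f hf hB η hη => ?_⟩
  obtain ⟨N0, h4⟩ := h3 c hc hc2 f hf hB η hη
  refine ⟨N0, fun N hN => ?_⟩
  obtain ⟨h5, h6⟩ := h4 N hN
  rw [filt_pr] at h6
  simp only [filt_win, hev] at h5 h6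
  exact ⟨h5, h6⟩

end Pool.Agent.Y969.SW
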