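import Mathlib
import Pool.Agent.Y969.Ex1
import Pool.Agent.Y969.TW4

/-! Exceptional sets in terms of the normalised error terms. -/

set_option autoImplicit false

open Finset
open Pool.Agent.H425R3.JL (Ec Edv)

namespace Pool.Agent.Y969.SW

lemma norm_iff {D y ε : ℝ} (hy : 0 < y) : y ^ (1/4 + ε) < |D| ↔ y ^ ε < |D / y ^ (1/4:ℝ)| := by
  have h1 : 0 < y ^ (1/4:ℝ) := Real.rpow_pos_of_pos hy _
  rw [Real.rpow_add hy, abs_div, abs_of_pos h1, lt_div_iff₀ h1, mul_comm]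

open Classical in
theorem exc_divisor' : ∀ δ : ℝ, 0 < δ → ∃ c : ℝ, 0 < c ∧ ∀ ε : ℝ, 0 < ε → ε ≤ c → ∃ C : ℝ, 0 < C ∧
      ∀ K H : ℕ, 1 ≤ K → (K:ℝ) ^ (1/2 + δ) ≤ H →
      (((Ico K (K + H)).filter (fun n : ℕ => ∃ y : ℝ, (n:ℝ) ≤ y ∧ y < n + 1 ∧ y ^ ε < |Edv y|)).card : ℝ) ≤
        C * (H:ℝ) ^ (1 - c * (ε * Real.log (1/ε))) := by
  intro δ hδ
  obtain ⟨c, hc, h⟩ := exc_divisor δ hδ
  refine ⟨c, hc, fun ε hε hε1 => ?_⟩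
  obtain ⟨C, hC, h1⟩ := h ε hε hε1
  refine ⟨C, hC, fun K H hK hKH => ?_⟩
  refine le_trans (le_of_eq ?_) (h1 K H hK hKH)
  congr 2
  apply filter_congr
  intro n hn
  rw [mem_Ico] at hn
  have hn1 : (1:ℝ) ≤ n := by exact_mod_cast (by omega : 1 ≤ n)
  constructor
  · rintro ⟨y, h2, h3, h4⟩
    exact ⟨y, h2, h3, (norm_iff (D := Dl y) (by linarith)).mpr h4⟩
  · rintro ⟨y, h2, h3, h4⟩
    exact ⟨y, h2, h3, (norm_iff (D := Dl y) (by linarith)).mp h4⟩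

open Classical in
theorem exc_circle' : ∀ δ : ℝ, 0 < δ → ∃ c : ℝ, 0 < c ∧ ∀ ε : ℝ, 0 < ε → ε ≤ c → ∃ C : ℝ, 0 < C ∧
      ∀ K H : ℕ, 1 ≤ K → (K:ℝ) ^ (1/2 + δ) ≤ H →
      (((Ico K (K + H)).filter (fun n : ℕ => ∃ y : ℝ, (n:ℝ) ≤ y ∧ y < n + 1 ∧ y ^ ε < |Ec y|)).card : ℝ) ≤
        C * (H:ℝ) ^ (1 - c * (ε * Real.log (1/ε))) := by
  intro δ hδ
  obtain ⟨c, hc, h⟩ := exc_circle δ hδ
  refine ⟨c, hc, fun ε hε hε1 => ?_⟩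
  obtain ⟨C, hC, h1⟩ := h ε hε hε1
  refine ⟨C, hC, fun K H hK hKH => ?_⟩
  refine le_trans (le_of_eq ?_) (h1 K H hK hKH)
  congr 2
  apply filter_congr
  intro n hn
  rw [mem_Ico] at hn
  have hn1 : (1:ℝ) ≤ n := by exact_mod_cast (by omega : 1 ≤ n)
  constructor
  · rintro ⟨y, h2, h3, h4⟩
    exact ⟨y, h2, h3, (norm_iff (D := Pc y) (by linarith)).mpr h4⟩
  · rintro ⟨y, h2, h3, h4⟩
    exact ⟨y, h2, h3, (norm_iff (D := Pc y) (by linarith)).mp h4⟩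

end Pool.Agent.Y969.SW
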