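import Mathlib
import Pool.Agent.H383.Reg
import Pool.Agent.Y969.TM4

/-! Powers of the model polynomials along progressions: resonant part, uniform bound, gaps. -/

set_option autoImplicit false

open Finset Filter Topology
open Pool.Agent.H383.AP Pool.Agent.H383.Gauss
open Pool.Agent.H383.Gen
open Pool.Agent.H469R2.NK (e norm_e e_add conj_e e_zero)

namespace Pool.Agent.Y969.TM

open Classical in
/-- the resonant part of the powers along the progression `X + nα` -/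
noncomputable def ZR (a : ℕ → ℝ) (φ α X : ℝ) (r M : ℕ) : ℂ :=
  ∑ y ∈ (TT r M).filter (fun y => ∃ k : ℤ, α * ∑ i, fq (y i) = k), (∏ i, cf a φ (y i)) * e (X * ∑ i, fq (y i))

lemma e_int (k : ℤ) : e (k : ℝ) = 1 := by
  unfold e
  have : ((2 * Real.pi * (k:ℝ) : ℝ) : ℂ) * Complex.I = (k:ℂ) * (2 * Real.pi * Complex.I) := by push_cast; ring
  rw [this]
  exact Complex.exp_int_mul_two_pi_mul_I k

open Classical in
/-- comparison of a power sum along a progression with the resonant part -/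
theorem powR_compare (a : ℕ → ℝ) (φ α X : ℝ) (r M N : ℕ) {K : ℝ} (hK0 : 0 ≤ K)
    (hK : ∀ y ∈ TT r M, (¬ ∃ k : ℤ, α * ∑ i, fq (y i) = k) → ‖∑ n ∈ range N, e (n * (α * ∑ i, fq (y i)))‖ ≤ K) :
    ‖∑ n ∈ range N, ((U a φ (X + n * α) M : ℝ) : ℂ) ^ r - N * ZR a φ α X r M‖ ≤ (∑ m ∈ Icc 1 (M^2), |a m|) ^ r * K := by
  have h1 : ∑ n ∈ range N, ((U a φ (X + n * α) M : ℝ) : ℂ) ^ r =
      ∑ y ∈ TT r M, (∏ i, cf a φ (y i)) * (e (X * ∑ i, fq (y i)) * ∑ n ∈ range N, e (n * (α * ∑ i, fq (y i)))) := by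
    rw [sum_congr rfl (fun (n : ℕ) (_ : n ∈ range N) => U_pow a φ (X + n * α) r M), sum_comm]
    apply sum_congr rfl
    intro y _
    rw [mul_sum, mul_sum]
    apply sum_congr rfl
    intro n _
    rw [← e_add]
    congr 2
    ring
  have h2 : N * ZR a φ α X r M = ∑ y ∈ TT r M,
      (if ∃ k : ℤ, α * ∑ i, fq (y i) = k then (∏ i, cf a φ (y i)) * (e (X * ∑ i, fq (y i)) * (N : ℂ)) else 0) := by
    unfold ZR
    rw [sum_filter, mul_sum]
    apply sum_congr rfl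
    intro y _
    split_ifs <;> ring
  rw [h1, h2, ← sum_sub_distrib, ← sum_prod_norm a φ r M, sum_mul]
  refine (norm_sum_le _ _).trans (sum_le_sum fun y hy => ?_)
  split_ifs with h0
  · obtain ⟨k, hk⟩ := h0
    have h3 : ∑ n ∈ range N, e (n * (α * ∑ i, fq (y i))) = N := by
      have : ∀ n ∈ range N, e (n * (α * ∑ i, fq (y i))) = 1 := by
        intro n _
        rw [hk]
        have : (n:ℝ) * (k:ℝ) = ((n * k : ℤ) : ℝ) := by push_cast; ring
        rw [this, e_int]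
      rw [sum_congr rfl this]
      simp
    rw [h3, sub_self, norm_zero]
    positivity
  · rw [sub_zero, norm_mul, norm_mul, norm_e, one_mul]
    exact mul_le_mul_of_nonneg_left (hK y hy h0) (norm_nonneg _)

/-- mean of the powers along a progression -/
theorem powR_mean (a : ℕ → ℝ) (φ α X : ℝ) (r M : ℕ) :
    HasMean (fun n : ℕ => ((U a φ (X + n * α) M : ℝ) : ℂ) ^ r) (ZR a φ α X r M) := by
  classical
  have e1 : (fun n : ℕ => ((U a φ (X + n * α) M : ℝ) : ℂ) ^ r) =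
      ∑ y ∈ TT r M, ((∏ i, cf a φ (y i)) * e (X * ∑ i, fq (y i))) • chr (α * ∑ i, fq (y i)) := by
    funext n
    rw [U_pow, Finset.sum_apply]
    apply sum_congr rfl
    intro y _
    rw [Pi.smul_apply, smul_eq_mul, mul_assoc]
    congr 1
    have : chr (α * ∑ i, fq (y i)) n = e (n * (α * ∑ i, fq (y i))) := rfl
    rw [this, ← e_add]
    congr 1
    ring
  rw [e1]
  have h := HasMean.sum (TT r M) (fun y => ((∏ i, cf a φ (y i)) * e (X * ∑ i, fq (y i))) • chr (α * ∑ i, fq (y i)))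
    (fun y => ((∏ i, cf a φ (y i)) * e (X * ∑ i, fq (y i))) * mc (α * ∑ i, fq (y i))) (fun y _ => (chr_mean _).smul _)
  have e2 : ∑ y ∈ TT r M, ((∏ i, cf a φ (y i)) * e (X * ∑ i, fq (y i))) * mc (α * ∑ i, fq (y i)) = ZR a φ α X r M := by
    unfold ZR
    rw [sum_filter]
    apply sum_congr rfl
    intro y _
    unfold mc
    by_cases h0 : ∃ k : ℤ, α * ∑ i, fq (y i) = k
    · rw [if_pos h0, if_pos h0, mul_one]
    · rw [if_neg h0, if_neg h0, mul_zero]
  rw [e2] at h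
  exact h

open Classical in
/-- moment generating function of the approximants, uniformly in the starting point -/
theorem mgf_unif {a : ℕ → ℝ} {φ α κ : ℝ} {S0 : Finset ℕ} (hS : GoodS α S0)
    (hκ : 1/2 < κ) {C : ℝ} (hC : 0 < C) (ha : ∀ m : ℕ, 1 ≤ m → |a m| ≤ C * (m:ℝ) ^ (-κ)) :
    ∃ B : ℝ, 0 < B ∧ ∀ (l : ℝ), |l| = 1 → ∀ (X : ℝ) (M : ℕ),
      ‖mn (ex a φ α X (l:ℂ) (Finset.Icc 1 (M^2)))‖ ≤ B := by
  set Z := C * (∑' t : ℕ, (t:ℝ) ^ (-(2 * κ))) with hZ
  have hZ0 : 0 ≤ Z := mul_nonneg hC.le (tsum_nonneg (fun t => by positivity))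
  have hsum : Summable (fun s : ℕ => (s:ℝ) ^ (-(κ * 2))) := by
    rw [Real.summable_nat_rpow]; linarith
  refine ⟨Real.exp ((∑ s ∈ S0, Z * (s:ℝ) ^ (-κ)) + Z ^ 2 * ∑' s : ℕ, (s:ℝ) ^ (-(κ * 2))), Real.exp_pos _, ?_⟩
  intro l hl X M
  set Q := (Finset.Icc 1 (M^2)).filter (fun s => Squarefree s ∧ s ∉ S0) with hQ
  have hQ' : ∀ s ∈ Q, Squarefree s ∧ s ∉ S0 := fun s hs => (Finset.mem_filter.mp hs).2
  rw [prod_formula (a := a) (φ := φ) (X := X) hS (l:ℂ) (T := Finset.Icc 1 (M^2))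
    (fun m hm => (Finset.mem_Icc.mp hm).1) Q hQ', norm_mul, norm_prod]
  set Tr := (Finset.Icc 1 (M^2)).filter (fun m => ∀ s ∈ Q, ¬ InC s m) with hTr
  have h1 : ‖mn (ex a φ α X (l:ℂ) Tr)‖ ≤ Real.exp (∑ s ∈ S0, Z * (s:ℝ) ^ (-κ)) := by
    apply mn_norm_le (ex_UC_top _) (Real.exp_pos _).le
    intro n
    unfold ex
    rw [Complex.norm_exp]
    apply Real.exp_le_exp.mpr
    have e : ((l:ℂ) * ((ST a φ α X Tr n : ℝ) : ℂ)).re = l * ST a φ α X Tr n := by
      rw [← Complex.ofReal_mul, Complex.ofReal_re]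
    rw [e]
    have hbTr : bT a Tr ≤ ∑ s ∈ S0, Z * (s:ℝ) ^ (-κ) := by
      -- split by classes
      have hsub : ∀ m ∈ Tr, ∃ s ∈ S0.filter Squarefree, InC s m := by
        intro m hm
        rw [hTr, Finset.mem_filter, Finset.mem_Icc] at hm
        obtain ⟨s, t, hst, hsf⟩ := Nat.sq_mul_squarefree m
        have hc : InC s m := ⟨t, by rw [← hst]; ring⟩
        refine ⟨s, ?_, hc⟩
        rw [Finset.mem_filter]
        refine ⟨?_, hsf⟩
        by_contra hs0
        apply hm.2 s _ hc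
        rw [hQ, Finset.mem_filter, Finset.mem_Icc]
        refine ⟨⟨Nat.one_le_iff_ne_zero.mpr hsf.ne_zero, ?_⟩, hsf, hs0⟩
        have ht : 1 ≤ t := by
          rcases Nat.eq_zero_or_pos t with h | h
          · rw [h] at hst; simp at hst; omega
          · exact h
        calc s = 1^2 * s := by ring
          _ ≤ t^2 * s := Nat.mul_le_mul_right _ (Nat.pow_le_pow_left ht 2)
          _ = m := hst
          _ ≤ M^2 := hm.1.2
      have h3 : bT a Tr ≤ ∑ s ∈ S0.filter Squarefree, bT a (Tr.filter (InC s)) := by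
        unfold bT
        have h4 : ∀ m ∈ Tr, |a m| ≤ ∑ s ∈ S0.filter Squarefree, if InC s m then |a m| else 0 := by
          intro m hm
          obtain ⟨s, hs, hc⟩ := hsub m hm
          have h5 := Finset.single_le_sum (s := S0.filter Squarefree) (f := fun s => if InC s m then |a m| else 0) (fun i _ => by
            split_ifs
            · exact abs_nonneg _
            · exact le_rfl) hs
          simp only [if_pos hc] at h5
          exact h5
        refine (Finset.sum_le_sum h4).trans ?_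
        rw [Finset.sum_comm]
        apply Finset.sum_le_sum
        intro s _
        rw [← Finset.sum_filter]
      refine h3.trans ?_
      refine le_trans ?_ (Finset.sum_le_sum_of_subset_of_nonneg (Finset.filter_subset Squarefree S0) (fun s _ _ => by positivity))
      apply Finset.sum_le_sum
      intro s hs
      rw [Finset.mem_filter] at hs
      apply bT_le hκ hC ha (Nat.one_le_iff_ne_zero.mpr hs.2.ne_zero)
      intro m hm
      rw [Finset.mem_filter, hTr, Finset.mem_filter, Finset.mem_Icc] at hm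
      exact ⟨hm.1.1.1, hm.2⟩
    calc l * ST a φ α X Tr n ≤ |l * ST a φ α X Tr n| := le_abs_self _
      _ = |ST a φ α X Tr n| := by rw [abs_mul, hl, one_mul]
      _ ≤ bT a Tr := abs_ST_le n
      _ ≤ ∑ s ∈ S0, Z * (s:ℝ) ^ (-κ) := hbTr
  have h2 : ∀ s ∈ Q, ‖mn (ex a φ α X (l:ℂ) ((Finset.Icc 1 (M^2)).filter (InC s)))‖ ≤
      Real.exp (Z ^ 2 * (s:ℝ) ^ (-(κ * 2))) := by
    intro s hs
    obtain ⟨hsf, hs0⟩ := hQ' s hs
    have hs1 : (0:ℝ) < s := by exact_mod_cast (Nat.pos_of_ne_zero hsf.ne_zero)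
    have hT : ∀ m ∈ (Finset.Icc 1 (M^2)).filter (InC s), 1 ≤ m ∧ InC s m := by
      intro m hm
      rw [Finset.mem_filter, Finset.mem_Icc] at hm
      exact ⟨hm.1.1, hm.2⟩
    refine (blk_mgf hS hsf hs0 hT l).trans ?_
    apply Real.exp_le_exp.mpr
    have hb := bT_le hκ hC ha (Nat.one_le_iff_ne_zero.mpr hsf.ne_zero) hT
    set b := bT a ((Finset.Icc 1 (M^2)).filter (InC s)) with hbd
    have hb0 : 0 ≤ b := bT_nonneg
    rw [hl, one_mul]
    refine (min_le_right _ _).trans ?_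
    calc b ^ 2 ≤ (Z * (s:ℝ) ^ (-κ)) ^ 2 := pow_le_pow_left₀ hb0 hb 2
      _ = Z ^ 2 * ((s:ℝ) ^ (-κ)) ^ 2 := by ring
      _ = _ := by
          rw [← Real.rpow_natCast ((s:ℝ) ^ (-κ)) 2, ← Real.rpow_mul hs1.le]
          congr 2; push_cast; ring
  calc (∏ s ∈ Q, ‖mn (ex a φ α X (l:ℂ) ((Finset.Icc 1 (M^2)).filter (InC s)))‖) * ‖mn (ex a φ α X (l:ℂ) Tr)‖
      ≤ (∏ s ∈ Q, Real.exp (Z ^ 2 * (s:ℝ) ^ (-(κ * 2)))) *
        Real.exp (∑ s ∈ S0, Z * (s:ℝ) ^ (-κ)) := by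
        gcongr with s hs
        exact h2 s hs
    _ = Real.exp ((∑ s ∈ S0, Z * (s:ℝ) ^ (-κ)) + Z ^ 2 * ∑ s ∈ Q, (s:ℝ) ^ (-(κ * 2))) := by
        rw [← Real.exp_sum, ← Real.exp_add, Finset.mul_sum, add_comm]
    _ ≤ _ := by
        apply Real.exp_le_exp.mpr
        have h5 : ∑ s ∈ Q, (s:ℝ) ^ (-(κ * 2)) ≤ ∑' s : ℕ, (s:ℝ) ^ (-(κ * 2)) :=
          hsum.sum_le_tsum _ (fun s _ => by positivity)
        have h6 : 0 ≤ Z ^ 2 := by positivity
        have h7 := mul_le_mul_of_nonneg_left h5 h6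
        linarith

/-- uniform bound for the resonant part -/
theorem ZR_bound {a : ℕ → ℝ} (φ : ℝ) {α : ℝ} (hα : 0 < α) (hb : Bd a) :
    ∃ K : ℝ, 0 < K ∧ ∀ (X : ℝ) (k M : ℕ), ‖ZR a φ α X (2 * k) M‖ ≤ K * ((2 * k).factorial : ℝ) := by
  classical
  obtain ⟨S0, hS⟩ := exists_S hα
  obtain ⟨C, hC, hCa⟩ := hb
  have hCa' : ∀ m : ℕ, 1 ≤ m → |a m| ≤ C * (m:ℝ) ^ (-(37/50):ℝ) := by
    intro m hm
    have hm0 : (0:ℝ) < m := by exact_mod_cast hm
    have h1 := hCa m hm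
    have h2 : (√(m:ℝ)) ^ (-(37/25):ℝ) = (m:ℝ) ^ (-(37/50):ℝ) := by
      rw [Real.sqrt_eq_rpow, ← Real.rpow_mul hm0.le]; norm_num
    rwa [h2] at h1
  obtain ⟨B, hB0, hm⟩ := mgf_unif (a := a) (φ := φ) (α := α) (κ := 37/50) hS (by norm_num) hC hCa'
  refine ⟨2 * B, by positivity, fun X k M => ?_⟩
  have h1 := powR_mean a φ α X (2 * k) M
  have e0 : ∀ l : ℝ, ex a φ α X (l:ℂ) (Icc 1 (M^2)) = fun n : ℕ => ((Real.exp (l * U a φ (X + n * α) M) : ℝ) : ℂ) := by
    intro l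
    funext n
    unfold ex
    rw [ST_U]
    push_cast
    rfl
  have h2 := fun l : ℝ => UC_hasMean (ex_UC_top (a := a) (φ := φ) (α := α) (X := X) (T := Icc 1 (M^2)) (l:ℂ))
  have h3 := (h2 1).add (h2 (-1))
  have hfac : (0:ℝ) < ((2 * k).factorial : ℝ) := by positivity
  have hcm : cm (fun n : ℕ => ((U a φ (X + n * α) M : ℝ) : ℂ) ^ (2 * k)) =
      fun N => ((rm (fun n : ℕ => (U a φ (X + n * α) M) ^ (2 * k)) N : ℝ) : ℂ) := by
    funext N
    rw [← cm_ofReal]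
    push_cast
    rfl
  have hA : Tendsto (rm (fun n : ℕ => (U a φ (X + n * α) M) ^ (2 * k))) atTop (𝓝 (ZR a φ α X (2 * k) M).re) := by
    unfold HasMean at h1
    rw [hcm] at h1
    exact (Complex.continuous_re.tendsto _).comp h1
  have hIm : (ZR a φ α X (2 * k) M).im = 0 := by
    unfold HasMean at h1
    rw [hcm] at h1
    have h4 := (Complex.continuous_im.tendsto _).comp h1
    have h5 : Tendsto (fun _ : ℕ => (0:ℝ)) atTop (𝓝 (ZR a φ α X (2 * k) M).im) := h4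
    exact (tendsto_nhds_unique h5 tendsto_const_nhds)
  have hB : Tendsto (rm (fun n : ℕ => Real.exp (U a φ (X + n * α) M) + Real.exp (-(U a φ (X + n * α) M)))) atTop
      (𝓝 (mn (ex a φ α X ((1:ℝ):ℂ) (Icc 1 (M^2))) + mn (ex a φ α X ((-1:ℝ):ℂ) (Icc 1 (M^2)))).re) := by
    unfold HasMean at h3
    have : cm (ex a φ α X ((1:ℝ):ℂ) (Icc 1 (M^2)) + ex a φ α X ((-1:ℝ):ℂ) (Icc 1 (M^2))) =
        fun N => ((rm (fun n : ℕ => Real.exp (U a φ (X + n * α) M) + Real.exp (-(U a φ (X + n * α) M))) N : ℝ) : ℂ) := by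
      funext N
      rw [← cm_ofReal, e0, e0]
      simp only [one_mul, neg_mul]
      push_cast
      rfl
    rw [this] at h3
    exact (Complex.continuous_re.tendsto _).comp h3
  have hle : (ZR a φ α X (2 * k) M).re ≤ ((2 * k).factorial : ℝ) *
      (mn (ex a φ α X ((1:ℝ):ℂ) (Icc 1 (M^2))) + mn (ex a φ α X ((-1:ℝ):ℂ) (Icc 1 (M^2)))).re := by
    refine le_of_tendsto_of_tendsto hA (hB.const_mul _) (Eventually.of_forall fun N => ?_)
    beta_reduce
    rw [← rm_mul]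
    exact rm_mono (fun n => pow_le_exp _ k) N
  have h0 : 0 ≤ (ZR a φ α X (2 * k) M).re := by
    refine ge_of_tendsto hA (Eventually.of_forall fun N => rm_nonneg (fun n => ?_) N)
    exact Even.pow_nonneg (even_two_mul k) _
  have hnorm : ‖ZR a φ α X (2 * k) M‖ = (ZR a φ α X (2 * k) M).re := by
    have : ZR a φ α X (2 * k) M = (((ZR a φ α X (2 * k) M).re : ℝ) : ℂ) := by
      apply Complex.ext
      · simp
      · simp [hIm]
    rw [this, Complex.norm_real, Real.norm_eq_abs, abs_of_nonneg h0, Complex.ofReal_re]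
  rw [hnorm]
  refine hle.trans ?_
  have hm1 := hm 1 (by norm_num) X M
  have hm2 := hm (-1) (by norm_num) X M
  have h6 : (mn (ex a φ α X ((1:ℝ):ℂ) (Icc 1 (M^2))) + mn (ex a φ α X ((-1:ℝ):ℂ) (Icc 1 (M^2)))).re ≤ 2 * B := by
    refine (Complex.re_le_norm _).trans ((norm_add_le _ _).trans ?_)
    linarith
  calc ((2 * k).factorial : ℝ) * _ ≤ ((2 * k).factorial : ℝ) * (2 * B) :=
        mul_le_mul_of_nonneg_left h6 hfac.le
    _ = _ := by ring

end Pool.Agent.Y969.TM
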