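import Mathlib
import Pool.Agent.W24.Gap
import Pool.Agent.Y969.DM1
import Pool.Agent.Y969.TM6

/-! Moments of the model polynomials along progressions `X + nα`, `α = √κ/q`, and tails in windows. -/

set_option autoImplicit false

open Finset
open Pool.Agent.H383.AP (chr)
open Pool.Agent.H383.Gen (U Bd)
open Pool.Agent.H469R2.NK (e norm_e e_add conj_e e_zero)
open Pool.Agent.W24.Liou (vv vv_pos)
open Pool.Agent.W24.Riesz (nz norm_chr_one_sub)

namespace Pool.Agent.Y969.TM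

/-- geometric sums -/
lemma geo_le {θ δ : ℝ} (hδ : 0 < δ) (h : δ ≤ nz θ) (N : ℕ) : ‖∑ n ∈ range N, e (n * θ)‖ ≤ 1 / (2 * δ) := by
  set z : ℂ := chr θ 1 with hz
  have h1 := norm_chr_one_sub θ
  have hz1 : z ≠ 1 := by
    intro h2
    rw [← hz, h2, sub_self, norm_zero] at h1
    linarith
  have hpow : ∀ n : ℕ, e (n * θ) = z ^ n := by
    intro n
    rw [hz]
    unfold e chr
    rw [← Complex.exp_nat_mul]
    congr 1; push_cast; ring
  have hzn : ‖z‖ = 1 := Pool.Agent.H383.AP.norm_chr θ 1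
  rw [sum_congr rfl (fun n _ => hpow n), geom_sum_eq hz1, norm_div]
  have h3 : ‖z ^ N - 1‖ ≤ 2 := by
    refine (norm_sub_le _ _).trans ?_
    rw [norm_pow, hzn, one_pow, norm_one]; norm_num
  have h4 : 4 * δ ≤ ‖z - 1‖ := by rw [hz]; linarith
  rw [div_le_div_iff₀ (by linarith) (by positivity)]
  nlinarith

/-- gap of the frequencies modulo one -/
lemma res_gap {κ q : ℕ} (hκ : 1 ≤ κ) (hq : 1 ≤ q) {r M : ℕ} (hM : 1 ≤ M) {y : Fin r → ℕ × Bool} (hy : y ∈ TT r M)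
    (hne : ¬ ∃ k : ℤ, (√(κ:ℝ) / q) * ∑ i, fq (y i) = k) :
    1 ≤ nz ((√(κ:ℝ) / q) * ∑ i, fq (y i)) * (q * (((2 * κ * r + q + 1 : ℕ) : ℝ) * M) ^ (2 ^ r)) := by
  classical
  set θ : ℝ := (√(κ:ℝ) / q) * ∑ i, fq (y i) with hθ
  set j : ℤ := round θ with hj
  have hqr : (1:ℝ) ≤ q := by exact_mod_cast hq
  have hq0 : (0:ℝ) < q := by linarith
  have hκr : (1:ℝ) ≤ κ := by exact_mod_cast hκ
  have hMr : (1:ℝ) ≤ M := by exact_mod_cast hM
  have hr0 : (0:ℝ) ≤ r := Nat.cast_nonneg r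
  have hsκ : √(κ:ℝ) ≤ κ := by
    rw [Real.sqrt_le_left (by linarith)]; nlinarith
  have hsκ0 : 0 ≤ √(κ:ℝ) := Real.sqrt_nonneg _
  have hy' := hy
  unfold TT at hy'
  rw [Fintype.mem_piFinset] at hy'
  have hyi : ∀ i, 1 ≤ (y i).1 ∧ √((y i).1 : ℝ) ≤ M := by
    intro i
    refine ⟨?_, ?_⟩
    · have := hy' i
      unfold JS at this
      rw [mem_product, mem_Icc] at this
      exact this.1.1
    · have := fq_le (hy' i)
      unfold fq at this
      have h1 : |(sb (y i).2 : ℝ)| = 1 := by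
        unfold sb; split_ifs <;> simp
      rw [abs_mul, h1, one_mul, abs_of_nonneg (Real.sqrt_nonneg _)] at this
      exact this
  set g : Fin r → ℕ := fun i => κ * (y i).1 with hg
  have hg1 : ∀ i, 1 ≤ g i := fun i => Nat.one_le_iff_ne_zero.mpr (Nat.mul_ne_zero (by omega) (by have := (hyi i).1; omega))
  set n : Option (Fin r) → ℤ := fun o => match o with | none => -(q * j) | some i => sb (y i).2 with hn
  set f : Option (Fin r) → Finset (Fin r) := fun o => match o with | none => ∅ | some i => {i} with hf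
  have hv0 : vv g (f none) = 1 := by
    simp only [hf]; unfold vv; rw [prod_empty]
  have hv : ∀ i : Fin r, vv g (f (some i)) = √(κ:ℝ) * √((y i).1 : ℝ) := by
    intro i
    simp only [hf]
    unfold vv
    rw [prod_singleton, hg]
    push_cast
    rw [Real.sqrt_mul (Nat.cast_nonneg _)]
  have hsum : ∑ o, (n o : ℝ) * vv g (f o) = q * (θ - j) := by
    rw [Fintype.sum_option, hv0]
    have h1 : ∑ i : Fin r, (n (some i) : ℝ) * vv g (f (some i)) = √(κ:ℝ) * ∑ i, fq (y i) := by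
      rw [mul_sum]
      apply sum_congr rfl
      intro i _
      rw [hv i]
      simp only [hn]
      unfold fq
      ring
    rw [h1]
    have h2 : √(κ:ℝ) * ∑ i, fq (y i) = q * θ := by rw [hθ]; field_simp
    rw [h2]
    simp only [hn]
    push_cast; ring
  have hθabs : |θ| ≤ √(κ:ℝ) / q * (r * M) := by
    rw [hθ, abs_mul, abs_of_nonneg (by positivity)]
    exact mul_le_mul_of_nonneg_left (sum_fq_le hy) (by positivity)
  have hjabs : q * |(j:ℝ)| ≤ κ * (r * M) + q := by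
    have h1 : |(j:ℝ)| ≤ |θ| + 1 := by
      have := abs_sub_round θ
      rw [← hj] at this
      have h2 : |(j:ℝ)| ≤ |θ| + |θ - j| := by
        calc |(j:ℝ)| = |θ - (θ - j)| := by congr 1; ring
          _ ≤ _ := abs_sub _ _
      linarith
    calc q * |(j:ℝ)| ≤ q * (√(κ:ℝ) / q * (r * M) + 1) := by
          apply mul_le_mul_of_nonneg_left _ hq0.le; linarith
      _ = √(κ:ℝ) * (r * M) + q := by field_simp
      _ ≤ _ := by
          have : √(κ:ℝ) * (r * M) ≤ κ * (r * M) := mul_le_mul_of_nonneg_right hsκ (by positivity)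
          linarith
  have hB : ∑ o, |(n o : ℝ)| * vv g (f o) ≤ ((2 * κ * r + q + 1 : ℕ) : ℝ) * M := by
    rw [Fintype.sum_option, hv0]
    have h1 : ∑ i : Fin r, |(n (some i) : ℝ)| * vv g (f (some i)) ≤ κ * (r * M) := by
      calc ∑ i : Fin r, |(n (some i) : ℝ)| * vv g (f (some i)) ≤ ∑ _i : Fin r, (κ:ℝ) * M := by
            apply sum_le_sum
            intro i _
            rw [hv i]
            simp only [hn]
            have h1 : |(sb (y i).2 : ℝ)| = 1 := by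
              unfold sb; split_ifs <;> simp
            rw [h1, one_mul]
            exact mul_le_mul hsκ (hyi i).2 (Real.sqrt_nonneg _) (by linarith)
        _ = _ := by simp; ring
    have h2 : |(n none : ℝ)| * 1 ≤ κ * (r * M) + q := by
      simp only [hn]
      push_cast
      rw [mul_one, abs_neg, abs_mul, abs_of_pos hq0]
      exact hjabs
    have h3 : (q:ℝ) ≤ q * M := by nlinarith
    push_cast
    nlinarith
  have hne2 : ∑ o, (n o : ℝ) * vv g (f o) ≠ 0 := by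
    rw [hsum]
    intro h0
    apply hne
    refine ⟨j, ?_⟩
    have := (mul_eq_zero.mp h0).resolve_left hq0.ne'
    linarith
  have hB1 : (1:ℝ) ≤ ((2 * κ * r + q + 1 : ℕ) : ℝ) * M := by
    push_cast
    have : 0 ≤ 2 * (κ:ℝ) * r := by positivity
    nlinarith
  have key := Pool.Agent.W24.Ar.liou_family hg1 n f hB1 hB hne2
  rw [hsum, Fintype.card_fin, abs_mul, abs_of_pos hq0] at key
  unfold nz
  rw [← hj]
  calc (1:ℝ) ≤ q * |θ - j| * (((2 * κ * r + q + 1 : ℕ) : ℝ) * M) ^ 2 ^ r := key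
    _ = _ := by ring

/-- moments of the model polynomials along progressions, uniformly in the starting point -/
theorem model_momentsW {a : ℕ → ℝ} (φ : ℝ) (hb : Bd a) {κ q : ℕ} (hκ : 1 ≤ κ) (hq : 1 ≤ q)
    {k : ℕ} (hk : 1 ≤ k) : ∃ C : ℝ, 0 < C ∧ ∀ N M : ℕ, 1 ≤ N → 1 ≤ M → (M:ℝ) ^ (4 ^ k) ≤ (N:ℝ) ^ (1/1000:ℝ) → ∀ X : ℝ,
      ∑ n ∈ range N, (U a φ (X + n * (√(κ:ℝ) / q)) M) ^ (2 * k) ≤ C * N := by
  obtain ⟨Ca, hCa0, hCa⟩ := a_le_of_Bd hb
  have hκr : (1:ℝ) ≤ κ := by exact_mod_cast hκ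
  have hqr : (1:ℝ) ≤ q := by exact_mod_cast hq
  have hq0 : (0:ℝ) < q := by linarith
  have hα : 0 < √(κ:ℝ) / q := div_pos (Real.sqrt_pos.mpr (by linarith)) hq0
  obtain ⟨K, hK0, hZ⟩ := ZR_bound φ hα hb
  set D : ℝ := q * ((2 * κ * (2 * k) + q + 1 : ℕ) : ℝ) ^ (4 ^ k) with hD
  have hD0 : 0 < D := by positivity
  refine ⟨K * ((2 * k).factorial : ℝ) + Ca ^ (2 * k) * D, by positivity, ?_⟩
  intro N M hN hM hMN X
  have hNr : (1:ℝ) ≤ N := by exact_mod_cast hN
  have hNpos : (0:ℝ) < N := by linarith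
  have hMr : (1:ℝ) ≤ M := by exact_mod_cast hM
  have hM4k : (M:ℝ) ^ (4 * k) ≤ (N:ℝ) ^ (1/1000:ℝ) :=
    (pow_le_pow_right₀ hMr (four_k k hk)).trans hMN
  have hsumA : (∑ m ∈ Icc 1 (M^2), |a m|) ^ (2 * k) ≤ Ca ^ (2 * k) * (N:ℝ) ^ (1/1000:ℝ) := by
    calc (∑ m ∈ Icc 1 (M^2), |a m|) ^ (2 * k) ≤ (Ca * (M:ℝ)^2) ^ (2 * k) :=
          pow_le_pow_left₀ (sum_nonneg fun _ _ => abs_nonneg _) (hCa M hM) _
      _ = Ca ^ (2 * k) * (M:ℝ) ^ (4 * k) := by
          rw [mul_pow, ← pow_mul]; congr 2; ring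
      _ ≤ _ := by gcongr
  have hbig : ∀ y ∈ TT (2 * k) M, (¬ ∃ j : ℤ, (√(κ:ℝ) / q) * ∑ i, fq (y i) = j) →
      ‖∑ n ∈ range N, e (n * ((√(κ:ℝ) / q) * ∑ i, fq (y i)))‖ ≤ D * (N:ℝ) ^ (1/1000:ℝ) := by
    intro y hy hne
    have h1 := res_gap hκ hq hM hy hne
    set W : ℝ := q * (((2 * κ * (2 * k) + q + 1 : ℕ) : ℝ) * M) ^ (2 ^ (2 * k)) with hW
    have hW0 : 0 < W := by positivity
    have h2 : 1 / W ≤ nz ((√(κ:ℝ) / q) * ∑ i, fq (y i)) := by
      rw [div_le_iff₀ hW0]; exact h1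
    have h3 := geo_le (by positivity) h2 N
    refine h3.trans ?_
    have h4 : W = D * (M:ℝ) ^ (4 ^ k) := by
      rw [hW, hD, mul_pow, show (4:ℕ) = 2 ^ 2 by norm_num, ← pow_mul]; ring
    rw [h4]
    have h5 : 0 < D * (M:ℝ) ^ (4 ^ k) := by positivity
    calc 1 / (2 * (1 / (D * (M:ℝ) ^ (4 ^ k)))) = D * (M:ℝ) ^ (4 ^ k) / 2 := by field_simp
      _ ≤ D * (M:ℝ) ^ (4 ^ k) := by linarith
      _ ≤ _ := by gcongr
  have h1 := powR_compare a φ (√(κ:ℝ) / q) X (2 * k) M N (K := D * (N:ℝ) ^ (1/1000:ℝ)) (by positivity) hbig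
  have h2 : ((∑ n ∈ range N, (U a φ (X + n * (√(κ:ℝ) / q)) M) ^ (2 * k) : ℝ) : ℂ) =
      ∑ n ∈ range N, ((U a φ (X + n * (√(κ:ℝ) / q)) M : ℝ) : ℂ) ^ (2 * k) := by push_cast; rfl
  have h3 : ∑ n ∈ range N, (U a φ (X + n * (√(κ:ℝ) / q)) M) ^ (2 * k) ≤
      N * (K * ((2 * k).factorial : ℝ)) + (∑ m ∈ Icc 1 (M^2), |a m|) ^ (2 * k) * (D * (N:ℝ) ^ (1/1000:ℝ)) := by
    have h4 : ∑ n ∈ range N, (U a φ (X + n * (√(κ:ℝ) / q)) M) ^ (2 * k) ≤
        ‖((∑ n ∈ range N, (U a φ (X + n * (√(κ:ℝ) / q)) M) ^ (2 * k) : ℝ) : ℂ)‖ := by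
      rw [Complex.norm_real]; exact le_abs_self _
    refine h4.trans ?_
    rw [h2]
    calc ‖∑ n ∈ range N, ((U a φ (X + n * (√(κ:ℝ) / q)) M : ℝ) : ℂ) ^ (2 * k)‖ =
          ‖N * ZR a φ (√(κ:ℝ) / q) X (2 * k) M + (∑ n ∈ range N, ((U a φ (X + n * (√(κ:ℝ) / q)) M : ℝ) : ℂ) ^ (2 * k) - N * ZR a φ (√(κ:ℝ) / q) X (2 * k) M)‖ := by
            congr 1; ring
      _ ≤ ‖(N : ℂ) * ZR a φ (√(κ:ℝ) / q) X (2 * k) M‖ + _ := norm_add_le _ _
      _ ≤ _ := by
          apply add_le_add _ h1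
          rw [norm_mul, Complex.norm_natCast]
          exact mul_le_mul_of_nonneg_left (hZ X k M) (Nat.cast_nonneg _)
  refine h3.trans ?_
  have h5 : (∑ m ∈ Icc 1 (M^2), |a m|) ^ (2 * k) * (D * (N:ℝ) ^ (1/1000:ℝ)) ≤ Ca ^ (2 * k) * D * N := by
    calc _ ≤ (Ca ^ (2 * k) * (N:ℝ) ^ (1/1000:ℝ)) * (D * (N:ℝ) ^ (1/1000:ℝ)) := by gcongr
      _ = Ca ^ (2 * k) * D * ((N:ℝ) ^ (1/1000:ℝ) * (N:ℝ) ^ (1/1000:ℝ)) := by ring
      _ ≤ Ca ^ (2 * k) * D * N := by
          apply mul_le_mul_of_nonneg_left _ (by positivity)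
          rw [← Real.rpow_add hNpos]
          calc (N:ℝ) ^ (1/1000 + 1/1000 : ℝ) ≤ (N:ℝ) ^ (1:ℝ) := Real.rpow_le_rpow_of_exponent_le hNr (by norm_num)
            _ = N := Real.rpow_one _
  linarith

/-- **tails in windows**, uniformly -/
theorem tailsW {a : ℕ → ℝ} (φ : ℝ) (hb : Bd a) {κ q : ℕ} (hκ : 1 ≤ κ) (hq : 1 ≤ q) {ω C2 : ℝ}
    (hω : 0 < ω) (hC2 : 0 < C2) {k : ℕ} (hk : 1 ≤ k) :
    ∃ C : ℝ, 0 < C ∧ ∀ N : ℕ, 1 ≤ N → ∀ (X : ℝ) (x : ℕ → ℝ),
      (∀ M : ℕ, 1 ≤ M → M^40 ≤ N → ∑ n ∈ range N, (x n - U a φ (X + n * (√(κ:ℝ) / q)) M)^2 ≤ C2 * (M:ℝ) ^ (-ω) * N) →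
      ∀ V : ℝ, 0 < V → (((range N).filter (fun n => V < |x n|)).card : ℝ) ≤
        C * N * (V ^ (-(2 * k : ℝ)) + (N:ℝ) ^ (-(ω / 1000 / 4 ^ k))) := by
  obtain ⟨C1, hC1, hmod⟩ := model_momentsW φ hb hκ hq hk
  set δ : ℝ := ω / 1000 / 4 ^ k with hδ
  have h4k : (1:ℝ) ≤ 4 ^ k := one_le_pow₀ (by norm_num)
  have hδ0 : 0 < δ := by positivity
  refine ⟨1 + 4 ^ k * C1 + 4 * C2 * 2 ^ ω, by positivity, ?_⟩
  intro N hN X x hms V hV
  have hNr : (1:ℝ) ≤ N := by exact_mod_cast hN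
  have hNpos : (0:ℝ) < N := by linarith
  set A : ℝ := V ^ (-(2 * k : ℝ)) with hA
  set B : ℝ := (N:ℝ) ^ (-δ) with hB
  have hA0 : 0 < A := Real.rpow_pos_of_pos hV _
  have hB0 : 0 < B := Real.rpow_pos_of_pos hNpos _
  rcases lt_or_ge V 1 with hV1 | hV1
  · -- trivial
    have h1 : 1 ≤ A := by
      rw [hA, Real.rpow_neg hV.le]
      rw [one_le_inv₀ (by positivity)]
      exact Real.rpow_le_one hV.le hV1.le (by positivity)
    have h2 : (((range N).filter (fun n => V < |x n|)).card : ℝ) ≤ N := by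
      have := Finset.card_filter_le (range N) (fun n => V < |x n|)
      rw [card_range] at this
      exact_mod_cast this
    calc (((range N).filter (fun n => V < |x n|)).card : ℝ) ≤ 1 * N * 1 := by linarith
      _ ≤ _ := by
          have h3 : (1:ℝ) ≤ 1 + 4 ^ k * C1 + 4 * C2 * 2 ^ ω := by
            have : 0 < 4 ^ k * C1 + 4 * C2 * 2 ^ ω := by positivity
            linarith
          have h4 : (1:ℝ) ≤ A + B := by linarith
          gcongr
  · -- choice of M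
    set u : ℝ := (N:ℝ) ^ (1 / 1000 / 4 ^ k : ℝ) with hu
    have hu1 : 1 ≤ u := Real.one_le_rpow hNr (by positivity)
    set M : ℕ := ⌊u⌋₊ with hM
    have hMu : (M:ℝ) ≤ u := Nat.floor_le (by linarith)
    have hM1 : 1 ≤ M := by rw [hM, Nat.le_floor_iff (by linarith)]; exact_mod_cast hu1
    have hMr : (1:ℝ) ≤ M := by exact_mod_cast hM1
    have huM : u / 2 ≤ M := by
      have h1 := Nat.lt_floor_add_one u
      rw [← hM] at h1
      linarith
    have hcond : (M:ℝ) ^ (4 ^ k) ≤ (N:ℝ) ^ (1/1000:ℝ) := by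
      calc (M:ℝ) ^ (4 ^ k) ≤ u ^ (4 ^ k) := pow_le_pow_left₀ (by linarith) hMu _
        _ = (N:ℝ) ^ (1/1000:ℝ) := by
            rw [hu, ← Real.rpow_natCast, ← Real.rpow_mul hNpos.le]
            congr 1
            push_cast
            field_simp
    have hM40 : M ^ 40 ≤ N := by
      have : (M:ℝ) ^ 40 ≤ N := by
        calc (M:ℝ) ^ 40 ≤ ((M:ℝ) ^ (4 ^ k)) ^ 40 := by
              apply pow_le_pow_left₀ (by linarith)
              calc (M:ℝ) = (M:ℝ) ^ 1 := (pow_one _).symm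
                _ ≤ _ := pow_le_pow_right₀ hMr (Nat.one_le_pow _ _ (by norm_num))
          _ ≤ ((N:ℝ) ^ (1/1000:ℝ)) ^ 40 := by gcongr
          _ = (N:ℝ) ^ (40/1000:ℝ) := by rw [← Real.rpow_natCast, ← Real.rpow_mul hNpos.le]; norm_num
          _ ≤ (N:ℝ) ^ (1:ℝ) := Real.rpow_le_rpow_of_exponent_le hNr (by norm_num)
          _ = N := Real.rpow_one _
      exact_mod_cast this
    have hm1 := hmod N M hN hM1 hcond X
    have hm3 := hms M hM1 hM40
    set u' : ℕ → ℝ := fun n => U a φ (X + n * (√(κ:ℝ) / q)) M with hu'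
    have hm1' : ∑ n ∈ range N, (u' n) ^ (2 * k) ≤ C1 * N := hm1
    have hm3' : ∑ n ∈ range N, (x n - u' n)^2 ≤ C2 * (M:ℝ) ^ (-ω) * N := hm3
    -- splitting
    have hsub : (range N).filter (fun n => V < |x n|) ⊆
        (range N).filter (fun n : ℕ => V/2 < |u' n|) ∪ (range N).filter (fun n => V/2 < |x n - u' n|) := by
      intro n hn
      rw [mem_filter] at hn
      rw [mem_union, mem_filter, mem_filter]
      by_contra hcon
      push Not at hcon
      have h1 := hcon.1 hn.1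
      have h2 := hcon.2 hn.1
      have h3 : |x n| ≤ |u' n| + |x n - u' n| := by
        calc |x n| = |u' n + (x n - u' n)| := by congr 1; ring
          _ ≤ _ := abs_add_le _ _
      linarith [hn.2]
    have hc1 : (((range N).filter (fun n : ℕ => V/2 < |u' n|)).card : ℝ) ≤ 4 ^ k * C1 * N * A := by
      have h1 : (((range N).filter (fun n : ℕ => V/2 < |u' n|)).card : ℝ) * (V/2) ^ (2 * k) ≤
          ∑ n ∈ range N, (u' n) ^ (2 * k) := by
        calc _ = ∑ _n ∈ (range N).filter (fun n : ℕ => V/2 < |u' n|), (V/2) ^ (2 * k) := by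
              rw [sum_const, nsmul_eq_mul]
          _ ≤ ∑ n ∈ (range N).filter (fun n : ℕ => V/2 < |u' n|), (u' n) ^ (2 * k) := by
              apply sum_le_sum
              intro n hn
              rw [mem_filter] at hn
              rw [← Even.pow_abs (even_two_mul k) (u' n)]
              exact pow_le_pow_left₀ (by linarith) hn.2.le _
          _ ≤ _ := sum_le_sum_of_subset_of_nonneg (filter_subset _ _) (fun _ _ _ => Even.pow_nonneg (even_two_mul k) _)
      have h2 : (V/2) ^ (2 * k) = (4 ^ k)⁻¹ * A⁻¹ := by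
        rw [hA, Real.rpow_neg hV.le, inv_inv, show ((2:ℝ) * (k:ℝ)) = ((2 * k : ℕ):ℝ) by push_cast; ring, Real.rpow_natCast, div_pow,
          pow_mul 2 2 k]
        norm_num
        ring
      have h3 := h1.trans hm1'
      rw [h2] at h3
      have h4 : (0:ℝ) < (4 ^ k)⁻¹ * A⁻¹ := by positivity
      rw [← le_div_iff₀ h4] at h3
      refine h3.trans (le_of_eq ?_)
      field_simp
    have hc2 : (((range N).filter (fun n => V/2 < |x n - u' n|)).card : ℝ) ≤ 4 * C2 * 2 ^ ω * N * B := by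
      have h1 : (((range N).filter (fun n => V/2 < |x n - u' n|)).card : ℝ) * (1/4) ≤
          ∑ n ∈ range N, (x n - u' n) ^ 2 := by
        calc _ = ∑ _n ∈ (range N).filter (fun n => V/2 < |x n - u' n|), (1/4:ℝ) := by
              rw [sum_const, nsmul_eq_mul]
          _ ≤ ∑ n ∈ (range N).filter (fun n => V/2 < |x n - u' n|), (x n - u' n) ^ 2 := by
              apply sum_le_sum
              intro n hn
              rw [mem_filter] at hn
              rw [← sq_abs]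
              nlinarith [hn.2]
          _ ≤ _ := sum_le_sum_of_subset_of_nonneg (filter_subset _ _) (fun _ _ _ => sq_nonneg _)
      have h2 : (M:ℝ) ^ (-ω) ≤ 2 ^ ω * B := by
        calc (M:ℝ) ^ (-ω) ≤ (u / 2) ^ (-ω) := Real.rpow_le_rpow_of_nonpos (by linarith) huM (by linarith)
          _ = 2 ^ ω * u ^ (-ω) := by
              rw [Real.div_rpow (by linarith) (by norm_num), Real.rpow_neg (by norm_num : (0:ℝ) ≤ 2)]
              rw [div_inv_eq_mul]; ring
          _ = 2 ^ ω * B := by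
              congr 1
              rw [hu, hB, ← Real.rpow_mul hNpos.le]
              congr 1
              rw [hδ]; field_simp
      have h3 : C2 * (M:ℝ) ^ (-ω) * N ≤ C2 * 2 ^ ω * N * B := by
        calc C2 * (M:ℝ) ^ (-ω) * N ≤ C2 * (2 ^ ω * B) * N := by gcongr
          _ = _ := by ring
      linarith [h1.trans (hm3'.trans h3)]
    have hfin : (((range N).filter (fun n => V < |x n|)).card : ℝ) ≤ 4 ^ k * C1 * N * A + 4 * C2 * 2 ^ ω * N * B := by
      have h1 := (Finset.card_le_card hsub).trans (Finset.card_union_le _ _)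
      have h2 : (((range N).filter (fun n => V < |x n|)).card : ℝ) ≤
          (((range N).filter (fun n : ℕ => V/2 < |u' n|)).card : ℝ) +
          (((range N).filter (fun n => V/2 < |x n - u' n|)).card : ℝ) := by exact_mod_cast h1
      linarith
    refine hfin.trans ?_
    have g1 : 0 ≤ N * A := by positivity
    have g2 : 0 ≤ N * B := by positivity
    have g3 : 0 ≤ 4 ^ k * C1 * (N * B) := by positivity
    have g4 : 0 ≤ 4 * C2 * 2 ^ ω * (N * A) := by positivity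
    nlinarith

end Pool.Agent.Y969.TM
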