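import Mathlib
import Pool.Agent.Y969.DM2
import Pool.Agent.H452R2.Om.O5

/-! Quadratic sequences: mean square and tails over short windows. -/

set_option autoImplicit false

open Finset Filter Topology MeasureTheory
open Pool.Agent.H383
open Pool.Agent.H383.Gen (Bd U Ap)
open Pool.Agent.H452R2.Win Pool.Agent.H452R2.Om

namespace Pool.Agent.Y969.QM

open Pool.Agent.Y969.TM

variable {E : ℝ → ℝ} {a : ℕ → ℝ} {φ : ℝ} {w : ℝ → ℂ}

lemma ev_nat {f : ℝ → Prop} (h : ∀ᶠ x : ℝ in atTop, f x) : ∃ N0 : ℕ, ∀ N : ℕ, N0 ≤ N → f N :=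
  eventually_atTop.mp (tendsto_natCast_atTop_atTop.eventually h)

/-- **mean square over windows of a quadratic sequence** -/
theorem quad_ms (ha : Bdw a) (ha0 : a 0 = 0) (hw : GW.Wt w) {κ₁ κ₂ : ℝ} (hS : SandW E a φ w κ₁ κ₂)
    {α : ℝ} (hα : 0 < α) {δ : ℝ} (hδ : 0 < δ) (hδ1 : δ ≤ 1/2) : ∃ ω : ℝ, 0 < ω ∧ ω ≤ 1/200 ∧ ∀ (β C₁ : ℝ) (Rn : ℕ → ℝ),
    (∀ n : ℕ, |Rn n - (β + n * α)| ≤ C₁ / (n + 1)) →
    ∃ C : ℝ, 0 < C ∧ ∃ N0 : ℕ, ∀ N m : ℕ, N0 ≤ N → (N:ℝ) ^ (3/4:ℝ) ≤ m → (m:ℝ) ^ (1/2 + δ) ≤ N → ∀ M : ℕ, 1 ≤ M → M^40 ≤ N →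
      ∑ n ∈ range N, (E (Rn (m + n)) - U a φ ((β + m * α) + n * α) M)^2 ≤ C * (M:ℝ) ^ (-ω) * N := by
  obtain ⟨ω, hω, hω2, Cq, hCq, Nq, hq⟩ := ap_quant ha ha0 hw hS hα (ε := δ/2) (by positivity)
  refine ⟨ω, hω, hω2, fun β C₁ Rn hRn => ?_⟩
  set γ : ℝ := α + |β| + 1 with hγ
  have hγ1 : 1 ≤ γ := by rw [hγ]; linarith [abs_nonneg β]
  have hγ0 : 0 < γ := by linarith
  -- large N
  have t1 : ∀ᶠ N : ℝ in atTop, (4 + |β|) / α + γ ≤ N ^ (3/4:ℝ) :=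
    (tendsto_rpow_atTop (by norm_num : (0:ℝ) < 3/4)).eventually_ge_atTop _
  have t2 : ∀ᶠ N : ℝ in atTop, γ ≤ N ^ (3/4 * (δ/2):ℝ) :=
    (tendsto_rpow_atTop (by positivity)).eventually_ge_atTop _
  have t3 : ∀ᶠ N : ℝ in atTop, 4 / min 1 α ≤ N ^ (3/4:ℝ) :=
    (tendsto_rpow_atTop (by norm_num : (0:ℝ) < 3/4)).eventually_ge_atTop _
  have t4 : ∀ᶠ N : ℝ in atTop, |C₁| * (2 * γ) ≤ N ^ (3/4 * (8/25):ℝ) :=
    (tendsto_rpow_atTop (by norm_num)).eventually_ge_atTop _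
  obtain ⟨N1, h1⟩ := ev_nat t1
  obtain ⟨N2, h2⟩ := ev_nat t2
  obtain ⟨N3, h3⟩ := ev_nat t3
  obtain ⟨N4, h4⟩ := ev_nat t4
  refine ⟨Cq * (3 + 1/ω), by positivity, max (max Nq N1) (max (max N2 N3) (max N4 1)), ?_⟩
  intro N m hN hNm hmN M hM hMN
  have k1 := h1 N (by omega)
  have k2 := h2 N (by omega)
  have k3 := h3 N (by omega)
  have k4 := h4 N (by omega)
  have hN1 : (1:ℝ) ≤ N := by exact_mod_cast (by omega : 1 ≤ N)
  have hN0 : (0:ℝ) < N := by linarith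
  have hM1 : (1:ℝ) ≤ M := by exact_mod_cast hM
  have hM0 : (0:ℝ) < M := by linarith
  have hMN' : (M:ℝ)^40 ≤ N := by exact_mod_cast hMN
  have hN34 : (1:ℝ) ≤ (N:ℝ) ^ (3/4:ℝ) := Real.one_le_rpow hN1 (by norm_num)
  have hm1 : (1:ℝ) ≤ m := hN34.trans hNm
  have hm0 : (0:ℝ) < m := by linarith
  have hγm : γ ≤ (m:ℝ) ^ (δ/2) := by
    refine k2.trans ?_
    rw [Real.rpow_mul hN0.le]
    exact Real.rpow_le_rpow (by positivity) hNm (by positivity)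
  -- M bound
  have hMs : (M:ℝ) ≤ (N:ℝ) ^ (1/4:ℝ) := by
    calc (M:ℝ) = ((M:ℝ)^40) ^ (1/40:ℝ) := by
          rw [← Real.rpow_natCast, ← Real.rpow_mul hM0.le]; norm_num
      _ ≤ (N:ℝ) ^ (1/40:ℝ) := Real.rpow_le_rpow (by positivity) hMN' (by norm_num)
      _ ≤ _ := Real.rpow_le_rpow_of_exponent_le hN1 (by norm_num)
  have hmin0 : 0 < min 1 α := lt_min one_pos hα
  have hcN : 2 * ((M:ℝ)+1) ≤ min 1 α * N := by
    have h5 : 4 ≤ min 1 α * (N:ℝ) ^ (3/4:ℝ) := by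
      rw [div_le_iff₀ hmin0] at k3; linarith
    calc 2 * ((M:ℝ)+1) ≤ 4 * M := by linarith
      _ ≤ (min 1 α * (N:ℝ) ^ (3/4:ℝ)) * (N:ℝ) ^ (1/4:ℝ) := by gcongr
      _ = min 1 α * ((N:ℝ) ^ (3/4:ℝ) * (N:ℝ) ^ (1/4:ℝ)) := by ring
      _ = min 1 α * N := by rw [← Real.rpow_add hN0]; norm_num
  -- the starting point
  set X : ℝ := β + m * α with hX
  have hXlow : 4 ≤ X := by
    have h5 : (4 + |β|) / α ≤ m := by linarith
    rw [div_le_iff₀ hα] at h5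
    rw [hX]; linarith [neg_abs_le β]
  have hXup : X ≤ γ * m := by
    rw [hX, hγ]
    have := le_abs_self β
    have h6 : |β| ≤ |β| * m := le_mul_of_one_le_right (abs_nonneg _) hm1
    nlinarith
  have hX0 : 0 < X := by linarith
  have hXN : X ^ (1/2 + δ/2) ≤ N := by
    calc X ^ (1/2 + δ/2) ≤ (γ * m) ^ (1/2 + δ/2) := Real.rpow_le_rpow hX0.le hXup (by positivity)
      _ = γ ^ (1/2 + δ/2) * (m:ℝ) ^ (1/2 + δ/2) := Real.mul_rpow hγ0.le hm0.le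
      _ ≤ γ ^ (1:ℝ) * (m:ℝ) ^ (1/2 + δ/2) := by
          apply mul_le_mul_of_nonneg_right _ (by positivity)
          exact Real.rpow_le_rpow_of_exponent_le hγ1 (by linarith)
      _ ≤ (m:ℝ) ^ (δ/2) * (m:ℝ) ^ (1/2 + δ/2) := by
          rw [Real.rpow_one]; exact mul_le_mul_of_nonneg_right hγm (by positivity)
      _ = (m:ℝ) ^ (1/2 + δ) := by rw [← Real.rpow_add hm0]; congr 1; ring
      _ ≤ N := hmN
  -- the perturbation
  have hNm43 : (N:ℝ) ≤ (m:ℝ) ^ (4/3:ℝ) := by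
    calc (N:ℝ) = ((N:ℝ) ^ (3/4:ℝ)) ^ (4/3:ℝ) := by rw [← Real.rpow_mul hN0.le]; norm_num
      _ ≤ _ := Real.rpow_le_rpow (by positivity) hNm (by norm_num)
  have hm43 : (m:ℝ) ≤ (m:ℝ) ^ (4/3:ℝ) := by
    nth_rewrite 1 [← Real.rpow_one (m:ℝ)]
    exact Real.rpow_le_rpow_of_exponent_le hm1 (by norm_num)
  have hXN2 : X + N ≤ (2 * γ) * (m:ℝ) ^ (4/3:ℝ) := by
    have h7 : γ * m ≤ γ * (m:ℝ) ^ (4/3:ℝ) := mul_le_mul_of_nonneg_left hm43 hγ0.le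
    have h8 : (N:ℝ) ≤ γ * (m:ℝ) ^ (4/3:ℝ) := hNm43.trans (le_mul_of_one_le_left (by positivity) hγ1)
    linarith
  have hpert : ∀ n : ℕ, n < N → |Rn (m + n) - (X + n * α)| ≤ (X + N) ^ (-(51/100):ℝ) := by
    intro n hn
    have h5 := hRn (m + n)
    have e : β + ((m + n : ℕ):ℝ) * α = X + n * α := by rw [hX]; push_cast; ring
    rw [e] at h5
    refine h5.trans ?_
    have hn0 : (0:ℝ) ≤ n := Nat.cast_nonneg n
    have h6 : C₁ / (((m + n : ℕ):ℝ) + 1) ≤ |C₁| / m := by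
      calc C₁ / (((m + n : ℕ):ℝ) + 1) ≤ |C₁| / (((m + n : ℕ):ℝ) + 1) := by gcongr; exact le_abs_self _
        _ ≤ |C₁| / m := by
            gcongr
            push_cast; linarith
    refine h6.trans ?_
    have hXN0 : 0 < X + N := by linarith
    rw [Real.rpow_neg hXN0.le, ← one_div, div_le_div_iff₀ hm0 (Real.rpow_pos_of_pos hXN0 _), one_mul]
    have h7 : (X + N) ^ (51/100:ℝ) ≤ (2 * γ) * (m:ℝ) ^ (17/25:ℝ) := by
      calc (X + N) ^ (51/100:ℝ) ≤ ((2 * γ) * (m:ℝ) ^ (4/3:ℝ)) ^ (51/100:ℝ) := Real.rpow_le_rpow hXN0.le hXN2 (by norm_num)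
        _ = (2 * γ) ^ (51/100:ℝ) * ((m:ℝ) ^ (4/3:ℝ)) ^ (51/100:ℝ) := Real.mul_rpow (by positivity) (by positivity)
        _ = (2 * γ) ^ (51/100:ℝ) * (m:ℝ) ^ (17/25:ℝ) := by rw [← Real.rpow_mul hm0.le]; norm_num
        _ ≤ (2 * γ) ^ (1:ℝ) * (m:ℝ) ^ (17/25:ℝ) := by
            apply mul_le_mul_of_nonneg_right _ (by positivity)
            exact Real.rpow_le_rpow_of_exponent_le (by linarith) (by norm_num)
        _ = _ := by rw [Real.rpow_one]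
    have h8 : |C₁| * (2 * γ) ≤ (m:ℝ) ^ (8/25:ℝ) := by
      refine k4.trans ?_
      rw [Real.rpow_mul hN0.le]
      exact Real.rpow_le_rpow (by positivity) hNm (by norm_num)
    calc |C₁| * (X + N) ^ (51/100:ℝ) ≤ |C₁| * ((2 * γ) * (m:ℝ) ^ (17/25:ℝ)) := mul_le_mul_of_nonneg_left h7 (abs_nonneg _)
      _ = (|C₁| * (2 * γ)) * (m:ℝ) ^ (17/25:ℝ) := by ring
      _ ≤ (m:ℝ) ^ (8/25:ℝ) * (m:ℝ) ^ (17/25:ℝ) := mul_le_mul_of_nonneg_right h8 (by positivity)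
      _ = m := by rw [← Real.rpow_add hm0]; norm_num
  have h5 := hq M hM N (by omega) hcN X hXlow hXN (fun n => Rn (m + n)) hpert
  have hMN5 : (M:ℝ)^5 ≤ N := (pow_le_pow_right₀ hM1 (by norm_num : 5 ≤ 40)).trans hMN'
  have hMNle : (M:ℝ) ≤ N := by
    calc (M:ℝ) = (M:ℝ)^1 := (pow_one _).symm
      _ ≤ (M:ℝ)^40 := pow_le_pow_right₀ hM1 (by norm_num)
      _ ≤ N := hMN'
  have h6 : Tw ω M + (M:ℝ)^4 * (N:ℝ) ^ (-1:ℝ) + (N:ℝ) ^ (-ω) ≤ (3 + 1/ω) * (M:ℝ) ^ (-ω) := by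
    have g1 := Tw_le hω hM
    have g2 : (M:ℝ)^4 * (N:ℝ) ^ (-1:ℝ) ≤ (M:ℝ) ^ (-ω) := by
      calc (M:ℝ)^4 * (N:ℝ) ^ (-1:ℝ) ≤ (M:ℝ)^4 * ((M:ℝ)^5) ^ (-1:ℝ) := by
            apply mul_le_mul_of_nonneg_left _ (by positivity)
            exact Real.rpow_le_rpow_of_nonpos (by positivity) hMN5 (by norm_num)
        _ = (M:ℝ) ^ (-1:ℝ) := by
            rw [Real.rpow_neg_one, Real.rpow_neg_one]; field_simp
        _ ≤ _ := Real.rpow_le_rpow_of_exponent_le hM1 (by linarith)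
    have g3 : (N:ℝ) ^ (-ω) ≤ (M:ℝ) ^ (-ω) := Real.rpow_le_rpow_of_nonpos hM0 hMNle (by linarith)
    have : (3 + 1/ω) * (M:ℝ) ^ (-ω) = (1 + 1/ω) * (M:ℝ) ^ (-ω) + (M:ℝ) ^ (-ω) + (M:ℝ) ^ (-ω) := by ring
    rw [this]
    linarith
  calc _ ≤ Cq * N * (Tw ω M + (M:ℝ)^4 * (N:ℝ) ^ (-1:ℝ) + (N:ℝ) ^ (-ω)) := h5
    _ ≤ Cq * N * ((3 + 1/ω) * (M:ℝ) ^ (-ω)) := mul_le_mul_of_nonneg_left h6 (by positivity)
    _ = _ := by ring

/-- **tails over windows of a quadratic sequence** -/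
theorem quad_tails (ha : Bdw a) (ha0 : a 0 = 0) (hw : GW.Wt w) {κ₁ κ₂ : ℝ} (hS : SandW E a φ w κ₁ κ₂)
    {κ q : ℕ} (hκ : 1 ≤ κ) (hq : 1 ≤ q) {δ : ℝ} (hδ : 0 < δ) : ∃ ω : ℝ, 0 < ω ∧ ω ≤ 1/200 ∧ ∀ (β C₁ : ℝ) (Rn : ℕ → ℝ),
    (∀ n : ℕ, |Rn n - (β + n * (√(κ:ℝ) / q))| ≤ C₁ / (n + 1)) → ∀ k : ℕ, 1 ≤ k →
    ∃ C : ℝ, 0 < C ∧ ∀ N m : ℕ, 1 ≤ N → (m:ℝ) ^ (1/2 + δ) ≤ N → ∀ V : ℝ, 0 < V →
      (((Ico m (m + N)).filter (fun n => V < |E (Rn n)|)).card : ℝ) ≤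
        C * N * (V ^ (-(2 * k : ℝ)) + (N:ℝ) ^ (-(ω / 1000 / 4 ^ k))) := by
  set α : ℝ := √(κ:ℝ) / q with hα
  have hα0 : 0 < α := by
    have h1 : (0:ℝ) < κ := by exact_mod_cast hκ
    have h2 : (0:ℝ) < q := by exact_mod_cast hq
    positivity
  set δ' : ℝ := min δ (1/2) with hδ'
  have hδ0 : 0 < δ' := lt_min hδ (by norm_num)
  obtain ⟨ω, hω, hω2, hms⟩ := quad_ms ha ha0 hw hS hα0 (δ := δ'/2) (by positivity) (by linarith [min_le_right δ (1/2)])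
  refine ⟨ω, hω, hω2, fun β C₁ Rn hRn k hk => ?_⟩
  obtain ⟨C2, hC2, N0, hms⟩ := hms β C₁ Rn hRn
  obtain ⟨C, hC, ht⟩ := tailsW φ ha.Bd hκ hq hω hC2 hk
  set θ : ℝ := ω / 1000 / 4 ^ k with hθ
  have h4k : (1:ℝ) ≤ 4 ^ k := one_le_pow₀ (by norm_num)
  have hθ0 : 0 < θ := by positivity
  have hθ1 : θ ≤ 1/4 := by
    rw [hθ, div_le_iff₀ (by positivity)]; nlinarith
  -- the basic case
  have basic : ∀ N m : ℕ, N0 ≤ N → 1 ≤ N → (N:ℝ) ^ (3/4:ℝ) ≤ m → (m:ℝ) ^ (1/2 + δ'/2) ≤ N → ∀ V : ℝ, 0 < V →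
      (((Ico m (m + N)).filter (fun n => V < |E (Rn n)|)).card : ℝ) ≤ C * N * (V ^ (-(2 * k : ℝ)) + (N:ℝ) ^ (-θ)) := by
    intro N m hN hN1 hNm hmN V hV
    have h1 := ht N hN1 (β + m * α) (fun n => E (Rn (m + n))) (fun M hM hMN => hms N m hN hNm hmN M hM hMN) V hV
    have e1 : (Ico m (m + N)).filter (fun n => V < |E (Rn n)|) =
        ((range N).filter (fun n => V < |E (Rn (m + n))|)).map (addLeftEmbedding m) := by
      ext n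
      simp only [mem_filter, Finset.mem_map, mem_Ico, Finset.mem_range, addLeftEmbedding_apply]
      constructor
      · rintro ⟨⟨h2, h3⟩, h4⟩
        exact ⟨n - m, ⟨by omega, by rw [show m + (n - m) = n by omega]; exact h4⟩, by omega⟩
      · rintro ⟨j, ⟨h2, h3⟩, rfl⟩
        exact ⟨⟨by omega, by omega⟩, h3⟩
    rw [e1, card_map]
    exact h1
  -- thresholds
  have t1 : ∀ᶠ N : ℝ in atTop, 8 ≤ N ^ (1/4:ℝ) :=
    (tendsto_rpow_atTop (by norm_num : (0:ℝ) < 1/4)).eventually_ge_atTop _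
  obtain ⟨N1, h1⟩ := ev_nat t1
  set N2 : ℕ := max (2 * N0) (max N1 2) with hN2
  refine ⟨(N2:ℝ) + 2 * C + 2, by positivity, ?_⟩
  intro N m hN1 hmN V hV
  have hNr : (1:ℝ) ≤ N := by exact_mod_cast hN1
  have hNp : (0:ℝ) < N := by linarith
  have hV2 : 0 < V ^ (-(2 * k : ℝ)) := Real.rpow_pos_of_pos hV _
  have hNθ : 0 < (N:ℝ) ^ (-θ) := Real.rpow_pos_of_pos hNp _
  have htriv : (((Ico m (m + N)).filter (fun n => V < |E (Rn n)|)).card : ℝ) ≤ N := by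
    have := card_filter_le (Ico m (m + N)) (fun n => V < |E (Rn n)|)
    rw [Nat.card_Ico, Nat.add_sub_cancel_left] at this
    exact_mod_cast this
  rcases Nat.lt_or_ge N N2 with hlt | hge
  · -- small N
    have h2 : (N:ℝ) ^ θ ≤ N2 := by
      calc (N:ℝ) ^ θ ≤ (N:ℝ) ^ (1:ℝ) := Real.rpow_le_rpow_of_exponent_le hNr (by linarith)
        _ = N := Real.rpow_one _
        _ ≤ N2 := by exact_mod_cast hlt.le
    have h3 : 1 ≤ N2 * (N:ℝ) ^ (-θ) := by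
      rw [Real.rpow_neg hNp.le, ← div_eq_mul_inv, le_div_iff₀ (Real.rpow_pos_of_pos hNp _)]; linarith
    calc _ ≤ (N:ℝ) := htriv
      _ ≤ (N2 * (N:ℝ) ^ (-θ)) * N := le_mul_of_one_le_left hNp.le h3
      _ ≤ ((N2:ℝ) + 2 * C + 2) * N * (V ^ (-(2 * k : ℝ)) + (N:ℝ) ^ (-θ)) := by
          have : 0 ≤ (N2:ℝ) * N * V ^ (-(2 * k : ℝ)) + (2 * C + 2) * N * (V ^ (-(2 * k : ℝ)) + (N:ℝ) ^ (-θ)) := by positivity
          nlinarith
  · have k1 := h1 N (by omega)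
    have hmδ : (m:ℝ) ^ (1/2 + δ'/2) ≤ N := by
      rcases Nat.eq_zero_or_pos m with h | h
      · rw [h, Nat.cast_zero, Real.zero_rpow (by positivity)]; exact hNp.le
      · refine le_trans ?_ hmN
        exact Real.rpow_le_rpow_of_exponent_le (by exact_mod_cast h) (by linarith [min_le_left δ (1/2)])
    by_cases hcase : (N:ℝ) ^ (3/4:ℝ) ≤ m
    · refine (basic N m (by omega) hN1 hcase hmδ V hV).trans ?_
      have : 0 ≤ ((N2:ℝ) + C + 2) * N * (V ^ (-(2 * k : ℝ)) + (N:ℝ) ^ (-θ)) := by positivity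
      nlinarith
    · -- drop the beginning of the window
      push Not at hcase
      set m' : ℕ := ⌈(N:ℝ) ^ (3/4:ℝ)⌉₊ with hm'
      have hN34 : (1:ℝ) ≤ (N:ℝ) ^ (3/4:ℝ) := Real.one_le_rpow hNr (by norm_num)
      have hm'1 : (N:ℝ) ^ (3/4:ℝ) ≤ m' := Nat.le_ceil _
      have hm'2 : (m':ℝ) ≤ 2 * (N:ℝ) ^ (3/4:ℝ) := by
        have := (Nat.ceil_lt_add_one (by positivity : 0 ≤ (N:ℝ) ^ (3/4:ℝ))).le
        linarith
      have hmm' : m ≤ m' := by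
        have : (m:ℝ) ≤ m' := hcase.le.trans hm'1
        exact_mod_cast this
      have hN34' : 8 * (N:ℝ) ^ (3/4:ℝ) ≤ N := by
        calc 8 * (N:ℝ) ^ (3/4:ℝ) ≤ (N:ℝ) ^ (1/4:ℝ) * (N:ℝ) ^ (3/4:ℝ) := by gcongr
          _ = N := by rw [← Real.rpow_add hNp]; norm_num
      have hm'4 : 4 * (m':ℝ) ≤ N := by linarith
      have hm'4' : 4 * m' ≤ N := by exact_mod_cast hm'4
      set N' : ℕ := m + N - m' with hN'
      have hN'le : N' ≤ N := by omega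
      have hN'ge : N ≤ 2 * N' := by omega
      have hN'r : (N':ℝ) ≤ N := by exact_mod_cast hN'le
      have hN'g : (N:ℝ) ≤ 2 * N' := by exact_mod_cast hN'ge
      have hN'1 : 1 ≤ N' := by omega
      have hN'p : (0:ℝ) < N' := by exact_mod_cast hN'1
      have hb := basic N' m' (by omega) hN'1 ((Real.rpow_le_rpow (Nat.cast_nonneg _) hN'r (by norm_num)).trans hm'1) (by
        calc (m':ℝ) ^ (1/2 + δ'/2) ≤ (m':ℝ) ^ (1:ℝ) := Real.rpow_le_rpow_of_exponent_le (hN34.trans hm'1) (by linarith [min_le_right δ (1/2)])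
          _ = m' := Real.rpow_one _
          _ ≤ N' := by linarith) V hV
      have hsub : (Ico m (m + N)).filter (fun n => V < |E (Rn n)|) ⊆
          Ico m m' ∪ (Ico m' (m' + N')).filter (fun n => V < |E (Rn n)|) := by
        intro n hn
        rw [mem_filter, mem_Ico] at hn
        rw [mem_union, mem_filter, mem_Ico, mem_Ico]
        by_cases h2 : n < m'
        · left; omega
        · right; exact ⟨by omega, hn.2⟩
      have hcd : (((Ico m (m + N)).filter (fun n => V < |E (Rn n)|)).card : ℝ) ≤ m' +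
          (((Ico m' (m' + N')).filter (fun n => V < |E (Rn n)|)).card : ℝ) := by
        have h2 := (card_le_card hsub).trans (card_union_le _ _)
        rw [Nat.card_Ico] at h2
        have h3 : (((Ico m (m + N)).filter (fun n => V < |E (Rn n)|)).card : ℕ) ≤ m' +
          ((Ico m' (m' + N')).filter (fun n => V < |E (Rn n)|)).card := by omega
        exact_mod_cast h3
      have hθ' : (N':ℝ) ^ (-θ) ≤ 2 * (N:ℝ) ^ (-θ) := by
        calc (N':ℝ) ^ (-θ) ≤ ((N:ℝ)/2) ^ (-θ) := Real.rpow_le_rpow_of_nonpos (by positivity) (by linarith) (by linarith)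
          _ = (2:ℝ) ^ θ * (N:ℝ) ^ (-θ) := by
              rw [Real.div_rpow hNp.le (by norm_num), Real.rpow_neg (by norm_num : (0:ℝ) ≤ 2)]
              field_simp
          _ ≤ (2:ℝ) ^ (1:ℝ) * (N:ℝ) ^ (-θ) := by
              apply mul_le_mul_of_nonneg_right _ hNθ.le
              exact Real.rpow_le_rpow_of_exponent_le (by norm_num) (by linarith)
          _ = _ := by rw [Real.rpow_one]
      have hm'θ : (m':ℝ) ≤ 2 * (N * (N:ℝ) ^ (-θ)) := by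
        refine hm'2.trans ?_
        have h2 : (N:ℝ) * (N:ℝ) ^ (-θ) = (N:ℝ) ^ (1 - θ) := by
          nth_rewrite 1 [← Real.rpow_one (N:ℝ)]
          rw [← Real.rpow_add hNp]; congr 1
        rw [h2]
        exact mul_le_mul_of_nonneg_left (Real.rpow_le_rpow_of_exponent_le hNr (by linarith)) (by norm_num)
      have hb2 : C * N' * (V ^ (-(2 * k : ℝ)) + (N':ℝ) ^ (-θ)) ≤ C * N * (V ^ (-(2 * k : ℝ)) + 2 * (N:ℝ) ^ (-θ)) := by
        gcongr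
      have hpos : 0 ≤ (N2:ℝ) * N * (V ^ (-(2 * k : ℝ)) + (N:ℝ) ^ (-θ)) + (C + 2) * N * V ^ (-(2 * k : ℝ)) := by positivity
      nlinarith

end Pool.Agent.Y969.QM
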