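import Mathlib
import Pool.Agent.Y969.TW3
import Pool.Agent.Y969.TM7

/-! From tails in all windows `m^{1/2+δ} ≤ N` to exceptional sets and truncated moments. -/

set_option autoImplicit false

open Finset Filter Topology MeasureTheory
open Pool.Agent.Y969.TM
open Pool.Agent.Y969.SW (swap_le)

namespace Pool.Agent.Y969.QM

/-- tails of all orders in all windows -/
def TailW (δ ω : ℝ) (x : ℕ → ℝ) : Prop := ∀ k : ℕ, 1 ≤ k →
  ∃ C : ℝ, 0 < C ∧ ∀ N m : ℕ, 1 ≤ N → (m:ℝ) ^ (1/2 + δ) ≤ N → ∀ V : ℝ, 0 < V →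
    (((Ico m (m + N)).filter (fun n => V < |x n|)).card : ℝ) ≤
      C * N * (V ^ (-(2 * k : ℝ)) + (N:ℝ) ^ (-(ω / 1000 / 4 ^ k)))

/-- a positive quadratic grows quadratically -/
lemma quad_low {a b c : ℝ} (ha : 0 < a) (hP : ∀ n : ℕ, 0 < a * (n:ℝ)^2 + b * n + c) :
    ∃ b₀ : ℝ, 0 < b₀ ∧ ∀ n : ℕ, b₀ * ((n:ℝ) + 1)^2 ≤ a * (n:ℝ)^2 + b * n + c := by
  have hlim : Tendsto (fun n : ℕ => (a * (n:ℝ)^2 + b * n + c) / ((n:ℝ) + 1)^2) atTop (𝓝 a) := by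
    have h1 : Tendsto (fun n : ℕ => 1 / ((n:ℝ) + 1)) atTop (𝓝 0) := tendsto_one_div_add_atTop_nhds_zero_nat
    have h2 : Tendsto (fun n : ℕ => a + (b - 2 * a) * (1 / ((n:ℝ) + 1)) + (a - b + c) * (1 / ((n:ℝ) + 1))^2) atTop (𝓝 (a + (b - 2 * a) * 0 + (a - b + c) * 0^2)) :=
      (tendsto_const_nhds.add (h1.const_mul _)).add ((h1.pow 2).const_mul _)
    have e : a + (b - 2 * a) * 0 + (a - b + c) * 0^2 = a := by ring
    rw [e] at h2
    refine h2.congr (fun n => ?_)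
    have : ((n:ℝ) + 1) ≠ 0 := by positivity
    field_simp
    ring
  obtain ⟨n0, h0⟩ := eventually_atTop.mp (hlim.eventually (lt_mem_nhds (show a/2 < a by linarith)))
  obtain ⟨n1, -, hmin⟩ := (range (n0 + 1)).exists_min_image (fun n : ℕ => (a * (n:ℝ)^2 + b * n + c) / ((n:ℝ) + 1)^2)
    ⟨0, by rw [Finset.mem_range]; omega⟩
  have hmpos : 0 < (a * (n1:ℝ)^2 + b * n1 + c) / ((n1:ℝ) + 1)^2 := div_pos (hP n1) (by positivity)
  refine ⟨min (a/2) ((a * (n1:ℝ)^2 + b * n1 + c) / ((n1:ℝ) + 1)^2), lt_min (by linarith) hmpos, fun n => ?_⟩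
  have hn1 : (0:ℝ) < ((n:ℝ) + 1)^2 := by positivity
  rw [← le_div_iff₀ hn1]
  rcases le_or_gt n0 n with h | h
  · exact (min_le_left _ _).trans (h0 n h).le
  · exact (min_le_right _ _).trans (hmin n (by rw [Finset.mem_range]; omega))

/-- **exceptional sets** -/
theorem exc_quad {δ ω : ℝ} (hω : 0 < ω) (hω1 : ω ≤ 1) {x : ℕ → ℝ} (hx : TailW δ ω x) {P : ℕ → ℝ} {b₀ : ℝ} (hb₀ : 0 < b₀)
    (hP : ∀ n : ℕ, b₀ * ((n:ℝ) + 1)^2 ≤ P n) {ε : ℝ} (hε : 0 < ε) (hε1 : ε ≤ 1/256) :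
    ∃ C : ℝ, 0 < C ∧ ∀ N m : ℕ, 1 ≤ N → (m:ℝ) ^ (1/2 + δ) ≤ N →
      (((Ico m (m + N)).filter (fun n : ℕ => (P n) ^ ε < |x n|)).card : ℝ) ≤
        C * (N:ℝ) ^ (1 - ω / 1000 * (ε * Real.log (1/ε))) := by
  obtain ⟨k, hk1, hk4, hk6⟩ := choose_k hε hε1
  obtain ⟨C, hC, ht⟩ := hx k hk1
  have hs0 : 0 < √ε := Real.sqrt_pos.mpr hε
  have hls := log_le_sqrt_inv hε hε1
  have hs16 : √ε ≤ 1/16 := by
    rw [Real.sqrt_le_left (by norm_num)]; norm_num; linarith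
  have hl0 : 0 ≤ ε * Real.log (1/ε) := by
    apply mul_nonneg hε.le
    apply Real.log_nonneg
    rw [le_div_iff₀ hε]; linarith
  set τ : ℝ := ω / 1000 * (ε * Real.log (1/ε)) with hτ
  have hτ0 : 0 ≤ τ := by positivity
  have hτ1 : τ ≤ 2 * (ε * k) := by
    calc τ ≤ (1/3) * (ε * Real.log (1/ε)) := mul_le_mul_of_nonneg_right (by linarith) hl0
      _ ≤ (1/3) * (ε * (6 * k)) := by gcongr
      _ = _ := by ring
  have hτ2 : τ ≤ ω / 1000 / 4 ^ k := by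
    calc τ ≤ (ω / 1000) * √ε := mul_le_mul_of_nonneg_left hls (by positivity)
      _ ≤ (ω / 1000) * (1 / 4 ^ k) := by
          apply mul_le_mul_of_nonneg_left _ (by positivity)
          rw [le_div_iff₀ (by positivity)]; linarith
      _ = _ := by ring
  have hτ3 : τ ≤ 1/2 := by
    have h1 : (1:ℝ) ≤ 4 ^ k := one_le_pow₀ (by norm_num)
    have h2 : ω / 1000 / 4 ^ k ≤ 1/2 := by
      rw [div_le_iff₀ (by positivity)]; nlinarith
    linarith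
  set D : ℝ := (b₀ ^ ε) ^ (-(2 * k : ℝ)) with hD
  have hb0ε : 0 < b₀ ^ ε := Real.rpow_pos_of_pos hb₀ _
  have hD0 : 0 < D := Real.rpow_pos_of_pos hb0ε _
  refine ⟨1 + C * (D + 1), by positivity, ?_⟩
  intro N m hN hmN
  have hNr : (1:ℝ) ≤ N := by exact_mod_cast hN
  have hNp : (0:ℝ) < N := by linarith
  set s : ℕ := Nat.sqrt N with hs
  have hsle : (s:ℝ) ≤ (N:ℝ) ^ (1/2:ℝ) := by
    rw [← Real.sqrt_eq_rpow]
    apply Real.le_sqrt_of_sq_le
    have := Nat.sqrt_le' N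
    exact_mod_cast this
  have hsgt : (N:ℝ) ≤ ((s:ℝ) + 1)^2 := by
    have := (Nat.lt_succ_sqrt' N).le
    exact_mod_cast this
  set V : ℝ := b₀ ^ ε * (N:ℝ) ^ ε with hV
  have hV0 : 0 < V := by positivity
  have hsub : (Ico m (m + N)).filter (fun n : ℕ => (P n) ^ ε < |x n|) ⊆
      range s ∪ (Ico m (m + N)).filter (fun n => V < |x n|) := by
    intro n hn
    rw [mem_filter] at hn
    rw [mem_union, Finset.mem_range, mem_filter]
    by_cases h : n < s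
    · exact Or.inl h
    · right
      refine ⟨hn.1, lt_of_le_of_lt ?_ hn.2⟩
      push Not at h
      have h1 : (s:ℝ) ≤ n := by exact_mod_cast h
      have h2 : b₀ * N ≤ P n := by
        refine le_trans (mul_le_mul_of_nonneg_left ?_ hb₀.le) (hP n)
        refine hsgt.trans (pow_le_pow_left₀ (by positivity) (by linarith) 2)
      calc V = (b₀ * N) ^ ε := by rw [hV, Real.mul_rpow hb₀.le hNp.le]
        _ ≤ (P n) ^ ε := Real.rpow_le_rpow (by positivity) h2 hε.le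
  have h1 := (card_le_card hsub).trans (card_union_le _ _)
  rw [card_range] at h1
  have h2 : (((Ico m (m + N)).filter (fun n : ℕ => (P n) ^ ε < |x n|)).card : ℝ) ≤
      s + (((Ico m (m + N)).filter (fun n => V < |x n|)).card : ℝ) := by exact_mod_cast h1
  have h3 := ht N m hN hmN V hV0
  have e1 : (N:ℝ) ^ (1 - τ) = N * (N:ℝ) ^ (-τ) := by
    rw [sub_eq_add_neg, Real.rpow_add hNp, Real.rpow_one]
  have h4 : (s:ℝ) ≤ (N:ℝ) ^ (1 - τ) := hsle.trans (Real.rpow_le_rpow_of_exponent_le hNr (by linarith))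
  have h5 : V ^ (-(2 * k : ℝ)) ≤ D * (N:ℝ) ^ (-τ) := by
    rw [hV, Real.mul_rpow hb0ε.le (by positivity), ← Real.rpow_mul hNp.le]
    apply mul_le_mul_of_nonneg_left _ hD0.le
    apply Real.rpow_le_rpow_of_exponent_le hNr
    have : ε * -(2 * (k:ℝ)) = -(2 * (ε * k)) := by ring
    rw [this]; linarith
  have h6 : (N:ℝ) ^ (-(ω / 1000 / 4 ^ k)) ≤ (N:ℝ) ^ (-τ) := Real.rpow_le_rpow_of_exponent_le hNr (by linarith)
  calc _ ≤ _ := h2
    _ ≤ (N:ℝ) ^ (1 - τ) + C * N * (D * (N:ℝ) ^ (-τ) + (N:ℝ) ^ (-τ)) := by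
        refine add_le_add h4 (h3.trans ?_)
        gcongr
    _ = (1 + C * (D + 1)) * (N:ℝ) ^ (1 - τ) := by rw [e1]; ring

variable {ι : Type*} [Fintype ι]

lemma card_win (K H : ℕ) : (Ico K (K + H)).card = H := by rw [Nat.card_Ico, Nat.add_sub_cancel_left]

/-- truncated moments, level `N ^ c'` -/
theorem mom_quad {δ ω : ℝ} (hω : 0 < ω) {x : ℕ → ι → ℝ} (hx : ∀ i, TailW δ ω (fun n => x n i))
    {μ : ProbabilityMeasure (ι → ℝ)}
    (hlaw : ∀ f : (ι → ℝ) → ℝ, Continuous f → (∃ B, ∀ x, |f x| ≤ B) → ∀ η : ℝ, 0 < η → ∃ N₀ : ℕ, ∀ N : ℕ, N₀ ≤ N →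
      ∀ m : ℕ, (m:ℝ) ^ (1/2 + δ) ≤ N →
      |(∑ n ∈ Ico m (m + N), f (x n)) / N - ∫ x, f x ∂(μ : Measure (ι → ℝ))| ≤ η)
    {p : ℝ} (hp : 0 < p) :
    Integrable (fun x : ι → ℝ => ‖x‖ ^ p) (μ : Measure (ι → ℝ)) ∧
    ∃ c₀ : ℝ, 0 < c₀ ∧ ∀ c' : ℝ, 0 < c' → c' ≤ c₀ → ∀ f : (ι → ℝ) → ℝ, Continuous f →
      (∃ B, ∀ x, |f x| ≤ B * (1 + ‖x‖ ^ p)) → ∀ η : ℝ, 0 < η → ∃ N₀ : ℕ, ∀ N : ℕ, N₀ ≤ N → ∀ m : ℕ,
      (m:ℝ) ^ (1/2 + δ) ≤ N →
      |fa (Ico m (m + N)) (fun n => if ‖x n‖ ≤ (N:ℝ) ^ c' then f (x n) else 0) - ∫ x, f x ∂(μ : Measure (ι → ℝ))| ≤ η := by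
  classical
  obtain ⟨k, hk⟩ := exists_nat_ge ((p + 2) / 2)
  have hk1 : 1 ≤ k := by
    rcases Nat.eq_zero_or_pos k with h | h
    · rw [h] at hk; push_cast at hk; linarith
    · exact h
  have hkp : p + 2 ≤ 2 * (k:ℝ) := by linarith
  choose C hC htail using fun i => hx i k hk1
  set θ : ℝ := ω / 1000 / 4 ^ k with hθ
  have hθ0 : 0 < θ := by positivity
  -- convergence along every admissible sequence of windows
  have main : ∀ m N : ℕ → ℕ, (∀ j, j + 1 ≤ N j) → (∀ j, ((m j : ℕ):ℝ) ^ (1/2 + δ) ≤ N j) →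
      Integrable (fun x : ι → ℝ => ‖x‖ ^ p) (μ : Measure (ι → ℝ)) ∧
      ∀ c' : ℝ, 0 < c' → c' * (p + 1) ≤ θ / 2 → ∀ f : (ι → ℝ) → ℝ, Continuous f →
      (∃ K, ∀ x, |f x| ≤ K * (1 + ‖x‖ ^ p)) →
      Tendsto (fun j => fa (Ico (m j) (m j + N j)) (fun n => if ‖x n‖ ≤ ((N j : ℕ):ℝ) ^ c' then f (x n) else 0)) atTop
        (𝓝 (∫ x, f x ∂(μ : Measure (ι → ℝ)))) := by
    intro m N hN hmN
    have hNt : Tendsto N atTop atTop :=
      tendsto_atTop_mono (fun j => (by have := hN j; omega : j ≤ N j)) tendsto_id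
    have hN1 : ∀ j, 1 ≤ N j := fun j => by have := hN j; omega
    refine trunc_conv (μ := μ) (S := fun j => Ico (m j) (m j + N j)) (e := fun _ n => x n) (L := fun j => ((N j : ℕ):ℝ))
      (p := p) (c := θ) (C := ∑ i, C i + 1) (fun j => by rw [nonempty_Ico]; have := hN1 j; omega)
      (tendsto_natCast_atTop_atTop.comp hNt) (fun j => by exact_mod_cast hN1 j)
      hp hθ0 (by have := Finset.sum_nonneg (fun i (_ : i ∈ (Finset.univ : Finset ι)) => (hC i).le); linarith)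
      (by
        intro j V hV
        have hV0 : 0 < V := by linarith
        set S : Finset ℕ := Ico (m j) (m j + N j) with hS
        have hSc : (S.card : ℝ) = N j := by rw [hS, card_win]
        have hsub : S.filter (fun n => V < ‖x n‖) ⊆ Finset.univ.biUnion (fun i => S.filter (fun n => V < |x n i|)) := by
          intro n hn
          rw [mem_filter] at hn
          rw [mem_biUnion]
          by_contra hcon
          push Not at hcon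
          have h1 : ‖x n‖ ≤ V := by
            rw [pi_norm_le_iff_of_nonneg hV0.le]
            intro i
            rw [Real.norm_eq_abs]
            have := hcon i (mem_univ i)
            rw [mem_filter] at this
            push Not at this
            exact this hn.1
          linarith [hn.2]
        have h1 := (Finset.card_le_card hsub).trans Finset.card_biUnion_le
        have h2 : ((S.filter (fun n => V < ‖x n‖)).card : ℝ) ≤ ∑ i, ((S.filter (fun n => V < |x n i|)).card : ℝ) := by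
          exact_mod_cast h1
        refine h2.trans ?_
        have h3 : ∀ i, ((S.filter (fun n => V < |x n i|)).card : ℝ) ≤ C i * (S.card * (V ^ (-(p + 2)) + ((N j : ℕ):ℝ) ^ (-θ))) := by
          intro i
          refine (htail i (N j) (m j) (hN1 j) (hmN j) V hV0).trans ?_
          rw [mul_assoc, hSc]
          have h4 : V ^ (-(2 * k : ℝ)) ≤ V ^ (-(p + 2)) := Real.rpow_le_rpow_of_exponent_le hV (by linarith)
          have := (hC i).le
          gcongr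
        refine (sum_le_sum fun i _ => h3 i).trans ?_
        rw [← sum_mul]
        have h5 : 0 ≤ (S.card : ℝ) * (V ^ (-(p + 2)) + ((N j : ℕ):ℝ) ^ (-θ)) := by positivity
        have h6 : (∑ i, C i + 1) * (S.card : ℝ) * (V ^ (-(p + 2)) + ((N j : ℕ):ℝ) ^ (-θ)) =
          (∑ i, C i) * ((S.card : ℝ) * (V ^ (-(p + 2)) + ((N j : ℕ):ℝ) ^ (-θ))) + (S.card : ℝ) * (V ^ (-(p + 2)) + ((N j : ℕ):ℝ) ^ (-θ)) := by ring
        rw [h6]
        linarith)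
      (by
        intro f hf hB
        rw [Metric.tendsto_atTop]
        intro ε hε
        obtain ⟨N₀, h⟩ := hlaw f hf hB (ε/2) (by positivity)
        refine ⟨N₀, fun j hj => ?_⟩
        have h2 := h (N j) (by have := hN j; omega) (m j) (hmN j)
        rw [Real.dist_eq]
        unfold fa
        rw [card_win]
        linarith)
  refine ⟨(main (fun _ => 0) (fun j => j + 1) (fun j => le_rfl) (fun j => by
    by_cases h : (1/2 + δ : ℝ) = 0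
    · rw [h, Real.rpow_zero]; push_cast; linarith [Nat.cast_nonneg (α := ℝ) j]
    · rw [Nat.cast_zero, Real.zero_rpow h]; positivity)).1, θ / (2 * (p + 1)), by positivity, ?_⟩
  intro c' hc' hc'2 f hf hK η hη
  by_contra hcon
  push Not at hcon
  choose N h1 m h2 h4 using fun j : ℕ => hcon (j + 1)
  have h5 := (main m N h1 h2).2 c' hc' (by
    rw [le_div_iff₀ (by positivity)] at hc'2
    linarith) f hf hK
  rw [Metric.tendsto_atTop] at h5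
  obtain ⟨j0, h6⟩ := h5 η hη
  have h7 := h6 j0 le_rfl
  rw [Real.dist_eq] at h7
  linarith [h4 j0]

open Classical in
/-- **truncated moments**, level `n ^ c'` -/
theorem mom_quad' {δ ω : ℝ} (hδ : 0 < δ) (hω : 0 < ω) {x : ℕ → ι → ℝ} (hx : ∀ i, TailW δ ω (fun n => x n i))
    {μ : ProbabilityMeasure (ι → ℝ)}
    (hlaw : ∀ f : (ι → ℝ) → ℝ, Continuous f → (∃ B, ∀ x, |f x| ≤ B) → ∀ η : ℝ, 0 < η → ∃ N₀ : ℕ, ∀ N : ℕ, N₀ ≤ N →
      ∀ m : ℕ, (m:ℝ) ^ (1/2 + δ) ≤ N →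
      |(∑ n ∈ Ico m (m + N), f (x n)) / N - ∫ x, f x ∂(μ : Measure (ι → ℝ))| ≤ η)
    {p : ℝ} (hp : 0 < p) :
    Integrable (fun x : ι → ℝ => ‖x‖ ^ p) (μ : Measure (ι → ℝ)) ∧
    ∃ c₀ : ℝ, 0 < c₀ ∧ ∀ c' : ℝ, 0 < c' → c' ≤ c₀ → ∀ f : (ι → ℝ) → ℝ, Continuous f →
      (∃ B, ∀ x, |f x| ≤ B * (1 + ‖x‖ ^ p)) → ∀ η : ℝ, 0 < η → ∃ N₀ : ℕ, ∀ N : ℕ, N₀ ≤ N → ∀ m : ℕ,
      (m:ℝ) ^ (1/2 + δ) ≤ N →
      |∑ n ∈ (Ico m (m + N)).filter (fun n => ‖x n‖ ≤ (n:ℝ) ^ c'), f (x n) - N * ∫ x, f x ∂(μ : Measure (ι → ℝ))| ≤ η * N := by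
  obtain ⟨hint, c₀, hc₀, key⟩ := mom_quad hω hx hlaw hp
  refine ⟨hint, min (c₀ / 3) (1 / (2 * p)), by positivity, fun c' hc' hc'3 f hf hK η hη => ?_⟩
  have hc'2 : c' ≤ c₀ / 3 := hc'3.trans (min_le_left _ _)
  have hcp : c' * p ≤ 1/2 := by
    have := hc'3.trans (min_le_right _ _)
    rw [le_div_iff₀ (by positivity)] at this
    linarith
  obtain ⟨B, hB⟩ := hK
  have hB0 : 0 ≤ B := by
    have h1 := hB 0
    have h2 : 0 ≤ B * (1 + ‖(0 : ι → ℝ)‖ ^ p) := (abs_nonneg _).trans h1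
    have h3 : 0 < 1 + ‖(0 : ι → ℝ)‖ ^ p := by positivity
    by_contra hcon
    push Not at hcon
    nlinarith
  set g : (ι → ℝ) → ℝ := fun x => 1 + ‖x‖ ^ p with hgdef
  have hgc : Continuous g := by
    have : Continuous (fun x : ι → ℝ => ‖x‖ ^ p) := continuous_norm.rpow_const (fun _ => Or.inr hp.le)
    fun_prop
  have hg0 : ∀ x, 0 ≤ g x := fun x => by simp only [hgdef]; positivity
  have hgg : ∃ B, ∀ x, |g x| ≤ B * (1 + ‖x‖ ^ p) := ⟨1, fun x => by rw [abs_of_nonneg (hg0 x), one_mul]⟩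
  set η' : ℝ := η / (2 * B + 3) with hη'
  have hη0 : 0 < η' := by positivity
  obtain ⟨N1, h1⟩ := key (c'/2) (by positivity) (by linarith) f hf ⟨B, hB⟩ η' hη0
  obtain ⟨N2, h2⟩ := key (c'/2) (by positivity) (by linarith) g hgc hgg η' hη0
  obtain ⟨N3, h3⟩ := key (3 * c') (by linarith) (by linarith) g hgc hgg η' hη0
  have ev4 : ∀ᶠ N : ℕ in atTop, 2 * B * (N:ℝ) ^ (-(1/4):ℝ) < η' := by
    have : Tendsto (fun N : ℕ => 2 * B * (N:ℝ) ^ (-(1/4):ℝ)) atTop (𝓝 (2 * B * 0)) :=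
      ((tendsto_rpow_neg_atTop (by norm_num : (0:ℝ) < 1/4)).comp tendsto_natCast_atTop_atTop).const_mul _
    rw [mul_zero] at this
    exact this.eventually (gt_mem_nhds hη0)
  obtain ⟨N4, h4⟩ := eventually_atTop.mp ev4
  refine ⟨max (max N1 N2) (max (max N3 N4) 2), fun N hN m hmN => ?_⟩
  have hN2 : 2 ≤ N := by omega
  have hNr : (2:ℝ) ≤ N := by exact_mod_cast hN2
  have hN0 : (0:ℝ) < N := by linarith
  have g1 := h1 N (by omega) m hmN
  have g2 := h2 N (by omega) m hmN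
  have g3 := h3 N (by omega) m hmN
  have g4 := h4 N (by omega)
  have hsqle : ((Nat.sqrt N : ℕ):ℝ) ≤ (N:ℝ) ^ (1/2:ℝ) := by
    rw [← Real.sqrt_eq_rpow]
    apply Real.le_sqrt_of_sq_le
    have := Nat.sqrt_le' N
    exact_mod_cast this
  have hmN2 : (m:ℝ) ≤ (N:ℝ)^2 := by
    rcases Nat.eq_zero_or_pos m with h | h
    · rw [h]; push_cast; positivity
    · have hm1 : (1:ℝ) ≤ m := by exact_mod_cast h
      have h5 : (m:ℝ) ^ (1/2:ℝ) ≤ N := (Real.rpow_le_rpow_of_exponent_le hm1 (by linarith)).trans hmN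
      calc (m:ℝ) = ((m:ℝ) ^ (1/2:ℝ))^2 := by
            rw [← Real.rpow_natCast, ← Real.rpow_mul (by linarith)]; norm_num
        _ ≤ (N:ℝ)^2 := pow_le_pow_left₀ (by positivity) h5 2
  have hpow14 : ∀ s : ℝ, 0 ≤ s → s ≤ (N:ℝ) ^ (c'/2) → B * (1 + s ^ p) ≤ 2 * B * (N:ℝ) ^ (1/4:ℝ) := by
    intro s hs0 hs
    have h5 : s ^ p ≤ (N:ℝ) ^ (1/4:ℝ) := by
      calc s ^ p ≤ ((N:ℝ) ^ (c'/2)) ^ p := Real.rpow_le_rpow hs0 hs hp.le
        _ = (N:ℝ) ^ (c'/2 * p) := by rw [← Real.rpow_mul hN0.le]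
        _ ≤ _ := Real.rpow_le_rpow_of_exponent_le (by linarith) (by linarith)
    have h6 : (1:ℝ) ≤ (N:ℝ) ^ (1/4:ℝ) := Real.one_le_rpow (by linarith) (by norm_num)
    nlinarith
  have hs := swap_le (S := Ico m (m + N)) (E := range (Nat.sqrt N + 1)) (e := x) (L₁ := (N:ℝ) ^ (c'/2)) (L₂ := (N:ℝ) ^ (3 * c')) (B := B)
    (W := 2 * B * (N:ℝ) ^ (1/4:ℝ))
    (f := f) (g := g) (Real.rpow_le_rpow_of_exponent_le (by linarith) (by linarith)) hB0 hg0 hB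
    (T := fun n => ‖x n‖ ≤ (n:ℝ) ^ c')
    (fun n hn hnE h => h.trans (by
      have h5 : Nat.sqrt N < n := by
        by_contra hcon
        exact hnE (Finset.mem_range.mpr (by omega))
      have h6 : N < n * n := Nat.sqrt_lt.mp h5
      have h7 : (N:ℝ) ≤ (n:ℝ) ^ (2:ℝ) := by
        rw [Real.rpow_two, sq]; exact_mod_cast h6.le
      calc (N:ℝ) ^ (c'/2) ≤ ((n:ℝ) ^ (2:ℝ)) ^ (c'/2) := Real.rpow_le_rpow hN0.le h7 (by positivity)
        _ = (n:ℝ) ^ c' := by rw [← Real.rpow_mul (Nat.cast_nonneg _)]; congr 1; ring))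
    (fun n hn _ h => h.trans (by
      have h5 : (n:ℝ) ≤ m + N := by exact_mod_cast (mem_Ico.mp hn).2.le
      have h6 : (n:ℝ) ≤ (N:ℝ) ^ (3:ℝ) := by
        have : (N:ℝ) ^ (3:ℝ) = (N:ℝ)^3 := by exact_mod_cast Real.rpow_natCast (N:ℝ) 3
        rw [this]
        nlinarith [mul_pos hN0 hN0]
      calc (n:ℝ) ^ c' ≤ ((N:ℝ) ^ (3:ℝ)) ^ c' := Real.rpow_le_rpow (Nat.cast_nonneg _) h6 hc'.le
        _ = (N:ℝ) ^ (3 * c') := by rw [← Real.rpow_mul hN0.le]))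
    (by positivity)
    (fun n hn h => (hB _).trans (hpow14 _ (norm_nonneg _) (h.trans (by
      have h5 : (n:ℝ) ≤ (N:ℝ) ^ (1/2:ℝ) := by
        have h6 : n ≤ Nat.sqrt N := by have := Finset.mem_range.mp hn; omega
        exact (by exact_mod_cast h6 : (n:ℝ) ≤ ((Nat.sqrt N : ℕ):ℝ)).trans hsqle
      calc (n:ℝ) ^ c' ≤ ((N:ℝ) ^ (1/2:ℝ)) ^ c' := Real.rpow_le_rpow (Nat.cast_nonneg _) h5 hc'.le
        _ = (N:ℝ) ^ (c'/2) := by rw [← Real.rpow_mul hN0.le]; congr 1; ring))))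
    (fun n hn h => (hB _).trans (hpow14 _ (norm_nonneg _) h))
  have hW : 2 * B * (N:ℝ) ^ (1/4:ℝ) * ((range (Nat.sqrt N + 1)).card : ℝ) / (Ico m (m + N)).card ≤ 2 * η' := by
    rw [div_le_iff₀ (by rw [card_win]; exact hN0), card_range, card_win]
    have h5 : ((Nat.sqrt N + 1 : ℕ):ℝ) ≤ 2 * (N:ℝ) ^ (1/2:ℝ) := by
      push_cast
      have : (1:ℝ) ≤ (N:ℝ) ^ (1/2:ℝ) := Real.one_le_rpow (by linarith) (by norm_num)
      linarith
    calc 2 * B * (N:ℝ) ^ (1/4:ℝ) * ((Nat.sqrt N + 1 : ℕ):ℝ) ≤ 2 * B * (N:ℝ) ^ (1/4:ℝ) * (2 * (N:ℝ) ^ (1/2:ℝ)) := by gcongr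
      _ = 2 * (2 * B * (N:ℝ) ^ (3/4:ℝ)) := by
          have : (N:ℝ) ^ (3/4:ℝ) = (N:ℝ) ^ (1/4:ℝ) * (N:ℝ) ^ (1/2:ℝ) := by rw [← Real.rpow_add hN0]; norm_num
          rw [this]; ring
      _ = 2 * (2 * B * (N:ℝ) ^ (-(1/4):ℝ)) * N := by
          have : (N:ℝ) ^ (3/4:ℝ) = (N:ℝ) ^ (-(1/4):ℝ) * N := by
            nth_rewrite 3 [← Real.rpow_one (N:ℝ)]
            rw [← Real.rpow_add hN0]; norm_num
          rw [this]; ring
      _ ≤ 2 * η' * N := by gcongr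
  set X := fa (Ico m (m + N)) (fun n => if ‖x n‖ ≤ (n:ℝ) ^ c' then f (x n) else 0) with hX
  set I := ∫ x, f x ∂(μ : Measure (ι → ℝ)) with hI
  have hXI : |X - I| ≤ η := by
    have h5 : fa (Ico m (m + N)) (fun n => if ‖x n‖ ≤ (N:ℝ) ^ (3 * c') then g (x n) else 0) -
        fa (Ico m (m + N)) (fun n => if ‖x n‖ ≤ (N:ℝ) ^ (c'/2) then g (x n) else 0) ≤ 2 * η' := by
      have := abs_le.mp g2; have := abs_le.mp g3; linarith
    have h6 : |X - I| ≤ B * (2 * η') + 2 * η' + η' := by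
      have h7 := abs_sub_le X (fa (Ico m (m + N)) (fun n => if ‖x n‖ ≤ (N:ℝ) ^ (c'/2) then f (x n) else 0)) I
      have h8 := mul_le_mul_of_nonneg_left h5 hB0
      linarith
    refine h6.trans (le_of_eq ?_)
    rw [hη']; field_simp; ring
  have e1 : ∑ n ∈ (Ico m (m + N)).filter (fun n => ‖x n‖ ≤ (n:ℝ) ^ c'), f (x n) = N * X := by
    rw [hX, sum_filter]
    unfold fa
    rw [card_win]
    field_simp
  rw [e1, ← mul_sub, abs_mul, abs_of_pos hN0, mul_comm]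
  exact mul_le_mul_of_nonneg_right hXI hN0.le

end Pool.Agent.Y969.QM
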