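import Mathlib
import Pool.Agent.Y969.QM1
import Pool.Agent.Y969.QM2
import Pool.Agent.H425R3.MM.K11

/-! Quadratic sequences with rational leading coefficient: exceptional sets and truncated moments. -/

set_option autoImplicit false

open Finset Filter Topology MeasureTheory
open Pool.Agent.H383
open Pool.Agent.H383.Gen (Bd U Ap)
open Pool.Agent.H452R2.Win Pool.Agent.H452R2.Om
open Pool.Agent.H425R3.JL (Ec Edv)
open Pool.Agent.Y969.TM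

namespace Pool.Agent.Y969.QM

/-- the square root of a positive rational -/
lemma sqrt_rat {a : ℚ} (ha : 0 < a) : √(a:ℝ) = √((a.num.toNat * a.den : ℕ):ℝ) / a.den := by
  have hd : (0:ℝ) < a.den := by exact_mod_cast a.pos
  have hn : (a.num.toNat : ℤ) = a.num := Int.toNat_of_nonneg (Rat.num_nonneg.mpr ha.le)
  have h1 : (a:ℝ) = ((a.num.toNat * a.den : ℕ):ℝ) / (a.den:ℝ)^2 := by
    have h2 : (a:ℝ) = (a.num:ℝ) / a.den := by exact_mod_cast (Rat.num_div_den a).symm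
    have h3 : (a.num:ℝ) = (a.num.toNat:ℝ) := by exact_mod_cast hn.symm
    rw [h2, h3]; push_cast; field_simp
  rw [h1, Real.sqrt_div (by positivity), Real.sqrt_sq hd.le]

lemma num_pos' {a : ℚ} (ha : 0 < a) : 1 ≤ a.num.toNat := by
  have : 0 < a.num := Rat.num_pos.mpr ha
  omega

/-- assembling -/
theorem core {k : ℕ} {x : ℕ → Fin k → ℝ} {P : Fin k → ℕ → ℝ} {b₀ : ℝ} (hb₀ : 0 < b₀)
    (hP : ∀ i, ∀ n : ℕ, b₀ * ((n:ℝ) + 1)^2 ≤ P i n)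
    (hT : ∀ δ : ℝ, 0 < δ → ∃ ω : ℝ, 0 < ω ∧ ω ≤ 1 ∧ ∀ i, TailW δ ω (fun n => x n i))
    {μ : ProbabilityMeasure (Fin k → ℝ)}
    (hlaw : ∀ f : (Fin k → ℝ) → ℝ, Continuous f → (∃ B, ∀ x, |f x| ≤ B) → ∀ δ : ℝ, 0 < δ → ∀ η : ℝ, 0 < η →
      ∃ N₀ : ℕ, ∀ N : ℕ, N₀ ≤ N → ∀ m : ℕ, (m:ℝ) ^ (1/2 + δ) ≤ N →
      |(∑ n ∈ Ico m (m + N), f (x n)) / N - ∫ x, f x ∂(μ : Measure (Fin k → ℝ))| ≤ η) :
    (∀ p : ℝ, 0 < p → Integrable (fun x : Fin k → ℝ => ‖x‖ ^ p) (μ : Measure (Fin k → ℝ)) ∧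
      ∀ δ : ℝ, 0 < δ → ∃ c₀ : ℝ, 0 < c₀ ∧ ∀ c' : ℝ, 0 < c' → c' ≤ c₀ → ∀ f : (Fin k → ℝ) → ℝ, Continuous f →
      (∃ B, ∀ x, |f x| ≤ B * (1 + ‖x‖ ^ p)) → ∀ η : ℝ, 0 < η → ∃ N₀ : ℕ, ∀ N : ℕ, N₀ ≤ N → ∀ m : ℕ,
      (m:ℝ) ^ (1/2 + δ) ≤ N →
      |∑ n ∈ (Ico m (m + N)).filter (fun n => ∀ i, |x n i| ≤ (n:ℝ) ^ c'), f (x n) - N * ∫ x, f x ∂(μ : Measure (Fin k → ℝ))| ≤ η * N) ∧
    (∀ δ : ℝ, 0 < δ → ∃ κ : ℝ, 0 < κ ∧ ∀ ε : ℝ, 0 < ε → ε ≤ κ → ∃ C : ℝ, 0 < C ∧ ∀ N m : ℕ, 1 ≤ N → (m:ℝ) ^ (1/2 + δ) ≤ N →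
      (((Ico m (m + N)).filter (fun n : ℕ => ∃ i, (P i n) ^ ε < |x n i|)).card : ℝ) ≤
        C * (N:ℝ) ^ (1 - κ * (ε * Real.log (1/ε)))) := by
  classical
  have hfilt : ∀ (S : Finset ℕ) (c : ℝ), S.filter (fun n => ‖x n‖ ≤ (n:ℝ) ^ c) =
      S.filter (fun n => ∀ i, |x n i| ≤ (n:ℝ) ^ c) := by
    intro S c
    apply filter_congr
    intro n _
    rw [pi_norm_le_iff_of_nonneg (by positivity)]
    rfl
  constructor
  · intro p hp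
    have h0 : Integrable (fun x : Fin k → ℝ => ‖x‖ ^ p) (μ : Measure (Fin k → ℝ)) := by
      obtain ⟨ω, hω, -, ht⟩ := hT 1 one_pos
      exact (mom_quad hω ht (fun f hf hB η hη => hlaw f hf hB 1 one_pos η hη) hp).1
    refine ⟨h0, fun δ hδ => ?_⟩
    obtain ⟨ω, hω, -, ht⟩ := hT δ hδ
    obtain ⟨-, c₀, hc₀, h1⟩ := mom_quad' hδ hω ht (fun f hf hB η hη => hlaw f hf hB δ hδ η hη) hp
    refine ⟨c₀, hc₀, fun c' hc' hc'2 f hf hB η hη => ?_⟩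
    obtain ⟨N₀, h2⟩ := h1 c' hc' hc'2 f hf hB η hη
    refine ⟨N₀, fun N hN m hmN => ?_⟩
    have h3 := h2 N hN m hmN
    rw [hfilt] at h3
    convert h3
  · intro δ hδ
    obtain ⟨ω, hω, hω1, ht⟩ := hT δ hδ
    refine ⟨ω / 1000, by positivity, fun ε hε hε1 => ?_⟩
    choose C hC h1 using fun i => exc_quad hω hω1 (ht i) hb₀ (hP i) hε (by linarith)
    refine ⟨∑ i, C i + 1, by have := sum_nonneg (fun i (_ : i ∈ (univ : Finset (Fin k))) => (hC i).le); linarith, ?_⟩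
    intro N m hN hmN
    have hsub : (Ico m (m + N)).filter (fun n : ℕ => ∃ i, (P i n) ^ ε < |x n i|) ⊆
        univ.biUnion (fun i => (Ico m (m + N)).filter (fun n : ℕ => (P i n) ^ ε < |x n i|)) := by
      intro n hn
      rw [mem_filter] at hn
      obtain ⟨i, hi⟩ := hn.2
      rw [mem_biUnion]
      exact ⟨i, mem_univ i, mem_filter.mpr ⟨hn.1, hi⟩⟩
    have h2 := (card_le_card hsub).trans card_biUnion_le
    have h3 : (((Ico m (m + N)).filter (fun n : ℕ => ∃ i, (P i n) ^ ε < |x n i|)).card : ℝ) ≤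
        ∑ i, (((Ico m (m + N)).filter (fun n : ℕ => (P i n) ^ ε < |x n i|)).card : ℝ) := by exact_mod_cast h2
    refine h3.trans ((sum_le_sum fun i _ => h1 i N m hN hmN).trans ?_)
    rw [← sum_mul]
    have : 0 ≤ (N:ℝ) ^ (1 - ω / 1000 * (ε * Real.log (1/ε))) := by positivity
    nlinarith

open Pool.Agent.H383.Div Pool.Agent.H425R3.JD Pool.Agent.H425R3.MM in
/-- the divisor problem along quadratic sequences with rational leading coefficient -/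
theorem div_quad (k : ℕ) (a : ℚ) (ha : 0 < a) (b c : Fin k → ℝ) (hb : Function.Injective b)
    (hP : ∀ i, ∀ n : ℕ, 0 < (a : ℝ) * (n : ℝ) ^ 2 + b i * n + c i) :
    ∃ (μ : ProbabilityMeasure (Fin k → ℝ)) (g : (Fin k → ℂ) → ℂ),
      Differentiable ℂ g ∧
      (∀ x : Fin k → ℝ, 0 ≤ (g (fun i => (x i : ℂ))).re ∧ (g (fun i => (x i : ℂ))).im = 0) ∧
      (μ : Measure (Fin k → ℝ)) =
        volume.withDensity (fun x : Fin k → ℝ => ENNReal.ofReal (g (fun i => (x i : ℂ))).re) ∧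
      (∀ A : Set (Fin k → ℝ), IsOpen A → A.Nonempty → 0 < (μ : Measure (Fin k → ℝ)) A) ∧
      (∀ p : ℝ, 0 < p → Integrable (fun x : Fin k → ℝ => ‖x‖ ^ p) (μ : Measure (Fin k → ℝ)) ∧
        ∀ δ : ℝ, 0 < δ → ∃ c₀ : ℝ, 0 < c₀ ∧ ∀ c' : ℝ, 0 < c' → c' ≤ c₀ → ∀ f : (Fin k → ℝ) → ℝ, Continuous f →
        (∃ B : ℝ, ∀ x, |f x| ≤ B * (1 + ‖x‖ ^ p)) → ∀ η : ℝ, 0 < η → ∃ N₀ : ℕ, ∀ N : ℕ, N₀ ≤ N → ∀ m : ℕ,
        (m : ℝ) ^ (1 / 2 + δ) ≤ N →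
        |∑ n ∈ (Finset.Ico m (m + N)).filter (fun n : ℕ =>
            ∀ i, |Edv ((a : ℝ) * (n : ℝ) ^ 2 + b i * n + c i)| ≤ (n : ℝ) ^ c'),
            f (fun i => Edv ((a : ℝ) * (n : ℝ) ^ 2 + b i * n + c i))
          - N * ∫ x, f x ∂(μ : Measure (Fin k → ℝ))| ≤ η * N) ∧
      (∀ δ : ℝ, 0 < δ → ∃ κ : ℝ, 0 < κ ∧ ∀ ε : ℝ, 0 < ε → ε ≤ κ → ∃ C : ℝ, 0 < C ∧
        ∀ N m : ℕ, 1 ≤ N → (m : ℝ) ^ (1 / 2 + δ) ≤ N →
        (((Finset.Ico m (m + N)).filter (fun n : ℕ => ∃ i, ((a : ℝ) * (n : ℝ) ^ 2 + b i * n + c i) ^ ε <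
            |Edv ((a : ℝ) * (n : ℝ) ^ 2 + b i * n + c i)|)).card : ℝ) ≤
          C * (N : ℝ) ^ (1 - κ * (ε * Real.log (1 / ε)))) := by
  have haR : (0:ℝ) < a := by exact_mod_cast ha
  obtain ⟨μ, g, g1, g2, g3, g4, g5, -⟩ := final_mom div_dataW div_Lv haR b c hb hP
  refine ⟨μ, g, g1, g2, g3, g4, ?_⟩
  choose b₀ hb₀ hlow using fun i => quad_low haR (hP i)
  obtain ⟨b1, hb1, hb1'⟩ : ∃ b1 : ℝ, 0 < b1 ∧ ∀ i, b1 ≤ b₀ i := by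
    rcases isEmpty_or_nonempty (Fin k) with h | h
    · exact ⟨1, one_pos, fun i => h.elim i⟩
    · obtain ⟨i0, hi0⟩ := Finite.exists_min b₀
      exact ⟨b₀ i0, hb₀ i0, hi0⟩
  have hsa : 0 < √(a:ℝ) := Real.sqrt_pos.mpr haR
  have hsq : 2 * √(a:ℝ) = √((4 * (a.num.toNat * a.den) : ℕ):ℝ) / a.den := by
    rw [sqrt_rat ha]
    have h4 : √((4 * (a.num.toNat * a.den) : ℕ):ℝ) = 2 * √((a.num.toNat * a.den : ℕ):ℝ) := by
      rw [Nat.cast_mul, Real.sqrt_mul (by positivity)]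
      have : √((4:ℕ):ℝ) = 2 := by
        rw [show ((4:ℕ):ℝ) = 2^2 by norm_num]; exact Real.sqrt_sq (by norm_num)
      rw [this]
    rw [h4]; ring
  refine core (x := fun n i => Edv ((a : ℝ) * (n : ℝ) ^ 2 + b i * n + c i))
    (P := fun i n => (a : ℝ) * (n : ℝ) ^ 2 + b i * n + c i) hb1
    (fun i n => le_trans (mul_le_mul_of_nonneg_right (hb1' i) (by positivity)) (hlow i n)) ?_ ?_
  · intro δ hδ
    obtain ⟨ω, hω, hω1, ht⟩ := quad_tails (E := E2) ad_Bdw2 ad_zero wd_Wt (E2_SandW vor) (κ := 4 * (a.num.toNat * a.den)) (q := a.den)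
      (by have := num_pos' ha; have := a.pos; nlinarith [Nat.mul_pos (num_pos' ha) a.pos]) a.pos hδ
    refine ⟨ω, hω, by linarith, fun i => ?_⟩
    obtain ⟨C₁, hC₁⟩ := Pool.Agent.H383.Div.sqrt_quad (a := (a:ℝ)) (b := b i) (c := c i) haR (fun n => (hP i n).le)
    have h1 := ht (b i / √(a:ℝ)) (2 * C₁) (fun n : ℕ => 2 * √((a : ℝ) * (n : ℝ) ^ 2 + b i * n + c i)) (by
      intro n
      rw [← hsq]
      have h2 := hC₁ n
      have e : 2 * √((a : ℝ) * (n : ℝ) ^ 2 + b i * n + c i) - (b i / √(a:ℝ) + n * (2 * √(a:ℝ))) =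
          2 * (√((a : ℝ) * (n : ℝ) ^ 2 + b i * n + c i) - (b i / (2 * √(a:ℝ)) + n * √(a:ℝ))) := by
        field_simp
      rw [e, abs_mul, abs_of_pos (by norm_num : (0:ℝ) < 2), mul_div_assoc]
      exact mul_le_mul_of_nonneg_left h2 (by norm_num))
    have h3 : (fun n : ℕ => E2 (2 * √((a : ℝ) * (n : ℝ) ^ 2 + b i * n + c i))) =
        fun n : ℕ => Edv ((a : ℝ) * (n : ℝ) ^ 2 + b i * n + c i) := by
      funext n
      unfold E2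
      rw [mul_div_cancel_left₀ _ (by norm_num : (2:ℝ) ≠ 0)]
      exact Pool.Agent.H425R3.JL.Edv_eq (hP i n).le
    intro k' hk'
    have h4 := h1 k' hk'
    have h5 : ∀ n : ℕ, E2 (2 * √((a : ℝ) * (n : ℝ) ^ 2 + b i * n + c i)) = Edv ((a : ℝ) * (n : ℝ) ^ 2 + b i * n + c i) :=
      fun n => congrFun h3 n
    simp only [h5] at h4
    exact h4
  · intro f hf hB δ hδ η hη
    obtain ⟨B, hB⟩ := hB
    have h1 := (g5 2 (by norm_num) (by norm_num) f hf ⟨|B|, fun x => (hB x).trans ((le_abs_self B).trans (by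
      have : 0 ≤ ∑ i, |x i| ^ (2:ℝ) := sum_nonneg fun i _ => by positivity
      nlinarith [abs_nonneg B]))⟩).2 δ hδ η hη
    have e : max (1/2) ((2:ℝ)/6) = 1/2 := max_eq_left (by norm_num)
    rw [e] at h1
    exact h1

open Pool.Agent.H383.Gauss Pool.Agent.H383.Circ Pool.Agent.H425R3.JD Pool.Agent.H425R3.MM in
/-- the circle problem along quadratic sequences with rational leading coefficient -/
theorem circ_quad (k : ℕ) (a : ℚ) (ha : 0 < a) (b c : Fin k → ℝ) (hb : Function.Injective b)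
    (hP : ∀ i, ∀ n : ℕ, 0 < (a : ℝ) * (n : ℝ) ^ 2 + b i * n + c i) :
    ∃ (μ : ProbabilityMeasure (Fin k → ℝ)) (g : (Fin k → ℂ) → ℂ),
      Differentiable ℂ g ∧
      (∀ x : Fin k → ℝ, 0 ≤ (g (fun i => (x i : ℂ))).re ∧ (g (fun i => (x i : ℂ))).im = 0) ∧
      (μ : Measure (Fin k → ℝ)) =
        volume.withDensity (fun x : Fin k → ℝ => ENNReal.ofReal (g (fun i => (x i : ℂ))).re) ∧
      (∀ A : Set (Fin k → ℝ), IsOpen A → A.Nonempty → 0 < (μ : Measure (Fin k → ℝ)) A) ∧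
      (∀ p : ℝ, 0 < p → Integrable (fun x : Fin k → ℝ => ‖x‖ ^ p) (μ : Measure (Fin k → ℝ)) ∧
        ∀ δ : ℝ, 0 < δ → ∃ c₀ : ℝ, 0 < c₀ ∧ ∀ c' : ℝ, 0 < c' → c' ≤ c₀ → ∀ f : (Fin k → ℝ) → ℝ, Continuous f →
        (∃ B : ℝ, ∀ x, |f x| ≤ B * (1 + ‖x‖ ^ p)) → ∀ η : ℝ, 0 < η → ∃ N₀ : ℕ, ∀ N : ℕ, N₀ ≤ N → ∀ m : ℕ,
        (m : ℝ) ^ (1 / 2 + δ) ≤ N →
        |∑ n ∈ (Finset.Ico m (m + N)).filter (fun n : ℕ =>
            ∀ i, |Ec ((a : ℝ) * (n : ℝ) ^ 2 + b i * n + c i)| ≤ (n : ℝ) ^ c'),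
            f (fun i => Ec ((a : ℝ) * (n : ℝ) ^ 2 + b i * n + c i))
          - N * ∫ x, f x ∂(μ : Measure (Fin k → ℝ))| ≤ η * N) ∧
      (∀ δ : ℝ, 0 < δ → ∃ κ : ℝ, 0 < κ ∧ ∀ ε : ℝ, 0 < ε → ε ≤ κ → ∃ C : ℝ, 0 < C ∧
        ∀ N m : ℕ, 1 ≤ N → (m : ℝ) ^ (1 / 2 + δ) ≤ N →
        (((Finset.Ico m (m + N)).filter (fun n : ℕ => ∃ i, ((a : ℝ) * (n : ℝ) ^ 2 + b i * n + c i) ^ ε <
            |Ec ((a : ℝ) * (n : ℝ) ^ 2 + b i * n + c i)|)).card : ℝ) ≤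
          C * (N : ℝ) ^ (1 - κ * (ε * Real.log (1 / ε)))) := by
  have haR : (0:ℝ) < a := by exact_mod_cast ha
  obtain ⟨μ, g, g1, g2, g3, g4, g5, -⟩ := final_mom circ_dataW circ_Lv haR b c hb hP
  refine ⟨μ, g, g1, g2, g3, g4, ?_⟩
  choose b₀ hb₀ hlow using fun i => quad_low haR (hP i)
  obtain ⟨b1, hb1, hb1'⟩ : ∃ b1 : ℝ, 0 < b1 ∧ ∀ i, b1 ≤ b₀ i := by
    rcases isEmpty_or_nonempty (Fin k) with h | h
    · exact ⟨1, one_pos, fun i => h.elim i⟩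
    · obtain ⟨i0, hi0⟩ := Finite.exists_min b₀
      exact ⟨b₀ i0, hb₀ i0, hi0⟩
  refine core (x := fun n i => Ec ((a : ℝ) * (n : ℝ) ^ 2 + b i * n + c i))
    (P := fun i n => (a : ℝ) * (n : ℝ) ^ 2 + b i * n + c i) hb1
    (fun i n => le_trans (mul_le_mul_of_nonneg_right (hb1' i) (by positivity)) (hlow i n)) ?_ ?_
  · intro δ hδ
    obtain ⟨ω, hω, hω1, ht⟩ := quad_tails (E := En) ag_Bdw ag_zero wg_Wt En_SandW (κ := a.num.toNat * a.den) (q := a.den)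
      (Nat.mul_pos (num_pos' ha) a.pos) a.pos hδ
    refine ⟨ω, hω, by linarith, fun i => ?_⟩
    obtain ⟨C₁, hC₁⟩ := Pool.Agent.H383.Div.sqrt_quad (a := (a:ℝ)) (b := b i) (c := c i) haR (fun n => (hP i n).le)
    have h1 := ht (b i / (2 * √(a:ℝ))) C₁ (fun n : ℕ => √((a : ℝ) * (n : ℝ) ^ 2 + b i * n + c i)) (by
      intro n
      rw [← sqrt_rat ha]
      exact hC₁ n)
    intro k' hk'
    have h4 := h1 k' hk'
    have h5 : ∀ n : ℕ, En √((a : ℝ) * (n : ℝ) ^ 2 + b i * n + c i) = Ec ((a : ℝ) * (n : ℝ) ^ 2 + b i * n + c i) :=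
      fun n => Pool.Agent.H425R3.JL.Ec_eq (hP i n).le
    simp only [h5] at h4
    exact h4
  · intro f hf hB δ hδ η hη
    obtain ⟨B, hB⟩ := hB
    have h1 := (g5 2 (by norm_num) (by norm_num) f hf ⟨|B|, fun x => (hB x).trans ((le_abs_self B).trans (by
      have : 0 ≤ ∑ i, |x i| ^ (2:ℝ) := sum_nonneg fun i _ => by positivity
      nlinarith [abs_nonneg B]))⟩).2 δ hδ η hη
    have e : max (1/2) ((2:ℝ)/6) = 1/2 := max_eq_left (by norm_num)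
    rw [e] at h1
    exact h1

end Pool.Agent.Y969.QM
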