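import Mathlib
import Pool.Agent.Y938.Sep.E
import Pool.Agent.H383.DivF
import Pool.Agent.H425R3.JL.F3

/-! Well-spaced large values for the divisor problem. -/

set_option autoImplicit false

open Finset
open Pool.Agent.H383
open Pool.Agent.H452R2.Win
open Pool.Agent.H383.Div

namespace Pool.Agent.Y969.SW

/-- the local bound for the divisor problem -/
lemma E2_loc (B : ℝ) : ∃ K : ℝ, ∀ t : ℝ, 1 ≤ t → t ≤ B → |E2 t| ≤ K := by
  obtain ⟨D, hD⟩ : ∃ D : ℝ, D = ∑ j ∈ Finset.Icc 1 ⌊B^2⌋₊, (j.divisors.card : ℝ) := ⟨_, rfl⟩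
  have hD0 : 0 ≤ D := by rw [hD]; exact sum_nonneg fun _ _ => Nat.cast_nonneg _
  have hB2 : 0 ≤ B^2 := sq_nonneg B
  obtain ⟨g, hg⟩ : ∃ g : ℝ, g = |2 * Real.eulerMascheroniConstant - 1| := ⟨_, rfl⟩
  have hg0 : 0 ≤ g := by rw [hg]; exact abs_nonneg _
  refine ⟨2 * (D + B^2 * (B^2 + 3) + g * B^2), ?_⟩
  intro t ht htB
  have ht2 : 0 ≤ t / 2 := by linarith
  set x : ℝ := (t/2)^2 with hx
  have hx0 : 1/4 ≤ x := by rw [hx]; nlinarith
  have hxB : x ≤ B^2 := by rw [hx]; nlinarith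
  have hE : E2 t = ((∑ j ∈ Finset.Icc 1 ⌊x⌋₊, (j.divisors.card : ℝ)) - x * Real.log x
      - (2 * Real.eulerMascheroniConstant - 1) * x) / x ^ (1/4:ℝ) := by
    have h1 : √x = t / 2 := Real.sqrt_sq ht2
    have h2 : E2 t = Pool.Agent.H387R2.Vor.Ed √x := by
      unfold E2
      rw [h1]
    rw [h2, Pool.Agent.H425R3.JL.Edv_eq (by linarith)]
    rfl
  rw [hE]
  have hx4 : 1/2 ≤ x ^ (1/4:ℝ) := by
    calc (1/2:ℝ) ≤ (1/4:ℝ) ^ (1/2:ℝ) := by
          rw [← Real.sqrt_eq_rpow]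
          exact Real.le_sqrt_of_sq_le (by norm_num)
      _ ≤ (1/4:ℝ) ^ (1/4:ℝ) := Real.rpow_le_rpow_of_exponent_ge (by norm_num) (by norm_num) (by norm_num)
      _ ≤ x ^ (1/4:ℝ) := Real.rpow_le_rpow (by norm_num) hx0 (by norm_num)
  have h1 : |∑ j ∈ Finset.Icc 1 ⌊x⌋₊, (j.divisors.card : ℝ)| ≤ D := by
    rw [abs_of_nonneg (sum_nonneg fun _ _ => Nat.cast_nonneg _), hD]
    apply sum_le_sum_of_subset_of_nonneg
    · apply Icc_subset_Icc le_rfl (Nat.floor_mono hxB)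
    · intro _ _ _; exact Nat.cast_nonneg _
  have h2 : |x * Real.log x| ≤ B^2 * (B^2 + 3) := by
    have h3 : |Real.log x| ≤ B^2 + 3 := by
      rw [abs_le]
      constructor
      · have := Real.one_sub_inv_le_log_of_pos (by linarith : 0 < x)
        have h4 : x⁻¹ ≤ 4 := by
          rw [inv_eq_one_div, div_le_iff₀ (by linarith)]; linarith
        linarith
      · have := Real.log_le_sub_one_of_pos (by linarith : 0 < x)
        linarith
    rw [abs_mul, abs_of_pos (by linarith : 0 < x)]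
    exact mul_le_mul hxB h3 (abs_nonneg _) hB2
  have h3 : |(2 * Real.eulerMascheroniConstant - 1) * x| ≤ g * B^2 := by
    rw [abs_mul, abs_of_pos (by linarith : 0 < x), ← hg]
    exact mul_le_mul_of_nonneg_left hxB hg0
  rw [abs_div, abs_of_pos (by linarith : 0 < x ^ (1/4:ℝ)), div_le_iff₀ (by linarith)]
  have h4 : |(∑ j ∈ Finset.Icc 1 ⌊x⌋₊, (j.divisors.card : ℝ)) - x * Real.log x
      - (2 * Real.eulerMascheroniConstant - 1) * x| ≤ D + B^2 * (B^2 + 3) + g * B^2 := by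
    refine (abs_sub _ _).trans (add_le_add ((abs_sub _ _).trans (add_le_add h1 h2)) h3)
  have h5 : 0 ≤ D + B^2 * (B^2 + 3) + g * B^2 := by positivity
  nlinarith

/-- **well-spaced large values of `Δ(r²)`** -/
theorem div_sep (Δ : ℝ → ℝ)
    (hΔ : ∀ x : ℝ, Δ x = (∑ j ∈ Finset.Icc 1 ⌊x⌋₊, (j.divisors.card : ℝ)) - x * Real.log x
        - (2 * Real.eulerMascheroniConstant - 1) * x) {ε : ℝ} (hε : 0 < ε) :
    ∃ C : ℝ, ∀ X H V : ℝ, 1 ≤ X → 0 ≤ H → H ≤ X → 0 < V → ∀ T : Finset ℝ,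
      (∀ r ∈ T, X ≤ r ∧ r ≤ X + H) → (∀ r ∈ T, V * √r ≤ |Δ (r^2)|) →
      (∀ r ∈ T, ∀ r' ∈ T, r ≠ r' → 1 / V^2 ≤ |r - r'|) →
      (T.card : ℝ) ≤ C * X ^ ε * (H / V^6 + √X / V^3) := by
  obtain ⟨C, hC⟩ := Pool.Agent.Y938.Sep.lv_sep_all ad_Bdw2 ad_zero wd_Wt (E2_SandW vor) E2_loc hε
  refine ⟨|C| * (2:ℝ) ^ ε * 2, ?_⟩
  intro X H V hX hH hHX hV T hT hVT hsep
  have hX0 : 0 < X := by linarith
  have hEd : ∀ r : ℝ, 1 ≤ r → E2 (2 * r) = Δ (r^2) / √r := by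
    intro r hr
    have hr0 : 0 ≤ r := by linarith
    have h1 : √(r^2) = r := Real.sqrt_sq hr0
    have h2 : E2 (2 * r) = Pool.Agent.H387R2.Vor.Ed √(r^2) := by
      unfold E2
      rw [h1, mul_div_cancel_left₀ _ (by norm_num : (2:ℝ) ≠ 0)]
    have h3 : (r^2) ^ (1/4 : ℝ) = √r := by
      rw [Real.sqrt_eq_rpow, ← Real.rpow_natCast r 2, ← Real.rpow_mul hr0]
      norm_num
    rw [h2, Pool.Agent.H425R3.JL.Edv_eq (sq_nonneg _)]
    unfold Pool.Agent.H425R3.JL.Edv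
    rw [h3, hΔ]
  set T' : Finset ℝ := T.image (fun r => 2 * r) with hT'
  have hcard : T'.card = T.card := by
    rw [hT']
    exact card_image_of_injective _ (fun x y h => by simpa using h)
  have h1 := hC (2 * X) (2 * H) V (by linarith) (by linarith) (by linarith) hV T' (by
    intro t ht
    rw [hT', mem_image] at ht
    obtain ⟨r, hr, rfl⟩ := ht
    have := hT r hr
    constructor <;> linarith [this.1, this.2]) (by
    intro t ht
    rw [hT', mem_image] at ht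
    obtain ⟨r, hr, rfl⟩ := ht
    have hr1 : 1 ≤ r := by linarith [(hT r hr).1]
    have hs : 0 < √r := Real.sqrt_pos.mpr (by linarith)
    rw [hEd r hr1, abs_div, abs_of_pos hs, le_div_iff₀ hs]
    exact hVT r hr) (by
    intro t ht t' ht' hne
    rw [hT', mem_image] at ht ht'
    obtain ⟨r, hr, rfl⟩ := ht
    obtain ⟨r', hr', rfl⟩ := ht'
    have hrr : r ≠ r' := fun h => hne (by rw [h])
    have h2 := hsep r hr r' hr' hrr
    have h3 : |2 * r - 2 * r'| = 2 * |r - r'| := by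
      rw [← mul_sub, abs_mul, abs_of_pos (by norm_num : (0:ℝ) < 2)]
    rw [h3]
    have : 0 ≤ |r - r'| := abs_nonneg _
    linarith)
  rw [hcard] at h1
  have hs2 : √(2 * X) ≤ 2 * √X := by
    rw [Real.sqrt_mul (by norm_num)]
    apply mul_le_mul_of_nonneg_right _ (Real.sqrt_nonneg _)
    rw [Real.sqrt_le_left (by norm_num)]; norm_num
  have hX2 : (2 * X) ^ ε = (2:ℝ) ^ ε * X ^ ε := Real.mul_rpow (by norm_num) hX0.le
  calc (T.card : ℝ) ≤ C * (2 * X) ^ ε * (2 * H / V^6 + √(2 * X) / V^3) := h1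
    _ ≤ |C| * (2 * X) ^ ε * (2 * H / V^6 + √(2 * X) / V^3) := by
        gcongr
        exact le_abs_self C
    _ ≤ |C| * ((2:ℝ) ^ ε * X ^ ε) * (2 * H / V^6 + 2 * √X / V^3) := by rw [hX2]; gcongr
    _ = _ := by ring

end Pool.Agent.Y969.SW
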